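import Pool.Agent.ESG.Stmts
import Pool.Agent.ESL.ATB

set_option linter.unusedSectionVars false
set_option linter.unusedVariables false

namespace Pool.Agent.ESG

open Pool.Agent.ESL

namespace ATBX

open Pool.Agent.ESL.ATBX

variable {V : Type} [AddCommGroup V] [Module (ZMod 2) V] [Finite V]

theorem Sp_rho_le (φ : D V) : Sp (Submodule.span (ZMod 2) {rho φ}) ≤ Submodule.span (ZMod 2) {φ} := by
  apply Sp_le.2
  intro k hk x
  obtain ⟨c, rfl⟩ := Submodule.mem_span_singleton.1 hk
  rw [LinearMap.smul_apply, rho_apply]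
  exact Submodule.smul_mem _ _ (Submodule.smul_mem _ _ (Submodule.mem_span_singleton_self φ))

theorem disj {e : V} {φ ψ : D V} (h1 : φ e = 1) (h2 : ψ e = 1) (hne : φ ≠ ψ) :
    Disjoint (Submodule.span (ZMod 2) {φ}) (Submodule.span (ZMod 2) {ψ}) := by
  rw [Submodule.disjoint_def]
  intro x hx hx'
  obtain ⟨c, rfl⟩ := Submodule.mem_span_singleton.1 hx
  obtain ⟨d, hd⟩ := Submodule.mem_span_singleton.1 hx'
  rcases zm c with rfl | rfl
  · rw [zero_smul]
  · exfalso
    rw [one_smul] at hd
    rcases zm d with rfl | rfl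
    · rw [zero_smul] at hd
      rw [← hd] at h1
      simp at h1
    · rw [one_smul] at hd
      exact hne hd.symm

theorem pair {e : V} {τ l : D V} (hτ : τ e = 0) (hl : l e = 1) (hτ0 : τ ≠ 0) :
    ∃ A : Finset (Fm V), IndB A ∧ Submodule.span (ZMod 2) (A : Set (Fm V)) =
      Submodule.span (ZMod 2) {rho l} ⊔ Submodule.span (ZMod 2) {wd e τ l} := by
  have h2 : (l + τ) e = 1 := by rw [LinearMap.add_apply, hl, hτ, add_zero]
  have hne : l ≠ l + τ := by
    intro h
    apply hτ0
    have : l + 0 = l + τ := by rw [add_zero]; exact h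
    exact (add_left_cancel this).symm
  obtain ⟨A, hA, hA'⟩ := single (V := V) (rho l)
  obtain ⟨B, hB, hB'⟩ := single (V := V) (rho (l + τ))
  have hd : Disjoint (Sp (Submodule.span (ZMod 2) {rho l}))
      (Sp (Submodule.span (ZMod 2) {rho (l + τ)})) :=
    (disj hl h2 hne).mono (Sp_rho_le l) (Sp_rho_le (l + τ))
  obtain ⟨C, hC, hC'⟩ := union hA hB hA' hB' hd
  refine ⟨C, hC, ?_⟩
  rw [hC', wd_eq_rho hl]
  apply le_antisymm
  · apply sup_le le_sup_left
    rw [Submodule.span_singleton_le_iff_mem]
    have e1 : rho (l + τ) = rho l + (rho l + rho (l + τ)) := by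
      rw [← add_assoc, add_self', zero_add]
    have e2 : rho l + (rho l + rho (l + τ)) ∈ Submodule.span (ZMod 2) {rho l} ⊔
        Submodule.span (ZMod 2) {rho l + rho (l + τ)} :=
      Submodule.add_mem _ (Submodule.mem_sup_left (Submodule.mem_span_singleton_self _))
        (Submodule.mem_sup_right (Submodule.mem_span_singleton_self _))
    rw [← e1] at e2
    exact e2
  · apply sup_le le_sup_left
    rw [Submodule.span_singleton_le_iff_mem]
    exact Submodule.add_mem _ (Submodule.mem_sup_left (Submodule.mem_span_singleton_self _))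
      (Submodule.mem_sup_right (Submodule.mem_span_singleton_self _))

end ATBX

open Pool.Agent.ESL.ATBX in
theorem atb_proof (hwu : Stmt_ETWU) (hline : Stmt_LINE) : Stmt_ATB := by
  intro V _ _ _ e R hR
  induction hR with
  | loc k h => intro _; exact single k
  | sum R₁ R₂ h₁ h₂ h ih₁ ih₂ =>
    intro hs
    have mono : ∀ R' : FS V, R' ≤ R₁ ⊔ R₂ → ∀ σ : D V, σ ≠ 0 → σ e = 0 → fr (St e R' σ) ≤ 2 := by
      intro R' hR' σ hσ hσe
      exact (Submodule.finrank_mono (St_mono hR' σ)).trans (hs σ hσ hσe)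
    obtain ⟨A, hA, hA'⟩ := ih₁ (mono R₁ le_sup_left)
    obtain ⟨B, hB, hB'⟩ := ih₂ (mono R₂ le_sup_right)
    exact union hA hB hA' hB' h
  | ext R L τ h hL hτ he ih =>
    intro hs
    have hτ0 : τ ≠ 0 := by rintro rfl; exact hτ L.zero_mem
    have hle : L ⊔ Submodule.span (ZMod 2) {τ} ≤ St e (R ⊔ L.map (wd e τ)) τ := by
      apply sup_le
      · intro l hl
        exact Submodule.mem_sup_right (Submodule.mem_map_of_mem hl)
      · rw [Submodule.span_singleton_le_iff_mem]
        exact self_mem_St e _ he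
    have hdis : Disjoint L (Submodule.span (ZMod 2) {τ}) := by
      rw [Submodule.disjoint_def]
      intro x hx hx'
      obtain ⟨c, rfl⟩ := Submodule.mem_span_singleton.1 hx'
      rcases zm c with rfl | rfl
      · simp
      · rw [one_smul] at hx; exact absurd hx hτ
    have hfr : fr L + 1 ≤ 2 := by
      have h1 := Submodule.finrank_sup_add_finrank_inf_eq L (Submodule.span (ZMod 2) {τ})
      rw [hdis.eq_bot, finrank_bot, finrank_span_singleton hτ0, add_zero] at h1
      have h2 := Submodule.finrank_mono hle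
      have h3 := hs τ hτ0 he
      have h4 : fr L = Module.finrank (ZMod 2) L := rfl
      have h5 : fr (St e (R ⊔ L.map (wd e τ)) τ) =
        Module.finrank (ZMod 2) (St e (R ⊔ L.map (wd e τ)) τ) := rfl
      omega
    obtain ⟨l, hl⟩ := le_one (W := L) (by omega)
    rw [hl, Submodule.map_span, Set.image_singleton]
    rcases hline V e R l (hwu V e R h) (by rw [← hl]; exact hL) with hR0 | ⟨hle1, hR1⟩
    · rw [hR0, bot_sup_eq]
      exact single _
    · rw [hR1]
      exact ATBX.pair he hle1 hτ0

end Pool.Agent.ESG
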