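import Pool.Agent.ESG.Stmts
import Pool.Agent.ESL.AU
import Pool.Agent.ESL.AU1

/-!
Module AU2: an atom of `R^w` killing `v` is an atom of `R^v`.
-/

set_option linter.unusedSectionVars false
set_option linter.unusedVariables false

namespace Pool.Agent.ESG

open Pool.Agent.ESL

namespace AU2X

variable {V : Type} [AddCommGroup V] [Module (ZMod 2) V]

theorem indB_mono {A B : Finset (Fm V)} (hA : IndB A) (h : B ⊆ A) : IndB B := by
  refine ⟨fun a ha => hA.1 a (h ha), ?_⟩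
  exact hA.2.comp (f := fun b : B => (⟨b.1, h b.2⟩ : A)) (by
    rintro ⟨b, hb⟩ ⟨c, hc⟩ hbc
    have h2 := congrArg Subtype.val hbc
    exact Subtype.ext h2)

end AU2X

theorem au2_proof (hAU : Stmt_AU) (hAU1 : Stmt_AU1) : Stmt_AU2 := by
  classical
  intro V _ _ _ e R hR v w a hv hw ha hav
  obtain ⟨hB, hS⟩ := hAU1 V e R hR v hv
  have halt : ∀ b ∈ ats R v, ∀ x y, b x y = b y x := fun b hb =>
    hR.wu.symm (AU1X.mem_ats.1 hb).1
  set B' : Finset (Fm V) := (ats R v).filter (fun b => b w = 0) with hB'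
  have hsub : B' ⊆ ats R v := Finset.filter_subset _ _
  have hspan : Submodule.span (ZMod 2) (B' : Set (Fm V)) = fx R v ⊓ fx R w := by
    apply le_antisymm
    · apply Submodule.span_le.2
      intro b hb
      have hb1 : b ∈ B' := hb
      rw [hB', Finset.mem_filter] at hb1
      have hb2 := AU1X.mem_ats.1 hb1.1
      exact ⟨⟨hb2.1, hb2.2.1⟩, ⟨hb2.1, hb1.2⟩⟩
    · rintro k ⟨hk1, hk2⟩
      rw [← hS] at hk1
      obtain ⟨I, hI, hkI⟩ := AUX.mem_spanA hk1
      have h1 := (AUX.ker_sum hB hI w).1 (by rw [← hkI]; exact hk2.2)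
      rw [hkI]
      refine Submodule.sum_mem _ fun b hb => Submodule.subset_span ?_
      show b ∈ B'
      rw [hB', Finset.mem_filter]
      exact ⟨hI hb, h1 b hb⟩
  have h2 := (hAU V B' (fx R v ⊓ fx R w) (fun b hb => halt b (hsub hb))
    (AU2X.indB_mono hB hsub) hspan a).2 ⟨⟨⟨ha.1, hav⟩, ⟨ha.1, ha.2.1⟩⟩, ha.2.2.1,
      fun k hk hka => ha.2.2.2 k hk.2.1 hk.2.2 hka⟩
  exact AU1X.mem_ats.1 (hsub h2)

end Pool.Agent.ESG
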