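import Pool.Agent.ESG.Stmts

/-!
There is no bad star.
-/

set_option linter.unusedVariables false

namespace Pool.Agent.ESG

open Pool.Agent.ESL

namespace BADX

variable {V : Type} [AddCommGroup V] [Module (ZMod 2) V] [Finite V]

/-- the set counted by `PP` -/
abbrev SS (R : FS V) (M : Submodule (ZMod 2) V) (α : D V) (θ : D (V ⧸ M)) (x : V ⧸ M) : Type :=
  {z : V // M.mkQ z = x ∧ α + θ ∘ₗ M.mkQ ∈ Lx R z}

theorem mk_zero {M : Submodule (ZMod 2) V} {m : V} (hm : m ∈ M) : M.mkQ m = 0 :=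
  (Submodule.Quotient.mk_eq_zero M).2 hm

theorem mem_of_mk {M : Submodule (ZMod 2) V} {z z' : V} (h : M.mkQ z = M.mkQ z') : z + z' ∈ M := by
  have h1 : M.mkQ (z + z') = 0 := by rw [map_add, h, ESL.add_self']
  exact (Submodule.Quotient.mk_eq_zero M).1 h1

/-- at most half of the fibre -/
theorem half_le {R : FS V} {M : Submodule (ZMod 2) V} {α : D V} {θ : D (V ⧸ M)} {x : V ⧸ M}
    {e m1 : V} (hR : IsWu e R) (hm1 : m1 ∈ M) (h1 : (α + θ ∘ₗ M.mkQ) m1 = 1) :
    PP R M α θ x * 2 ≤ Nat.card M := by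
  classical
  obtain ⟨z0, rfl⟩ := M.mkQ_surjective x
  have hsep : ∀ z z' : SS R M α θ (M.mkQ z0), (z : V) ≠ z' + m1 := by
    rintro ⟨z, hz, hz2⟩ ⟨z', hz', hz2'⟩ h
    have h' : z = z' + m1 := h
    have e1 := Lx_e hR hz2
    have e2 := Lx_e hR hz2'
    rw [h', add_right_comm, map_add, e2, zero_add, h1] at e1
    exact one_ne_zero e1
  let F : SS R M α θ (M.mkQ z0) × Bool → M := fun p =>
    ⟨(p.1 : V) + z0 + (if p.2 then m1 else 0), by
      apply Submodule.add_mem
      · exact mem_of_mk p.1.2.1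
      · split_ifs
        · exact hm1
        · exact M.zero_mem⟩
  have hF : Function.Injective F := by
    rintro ⟨z, b⟩ ⟨z', b'⟩ h
    have h2 : (z : V) + z0 + (if b then m1 else 0) = z' + z0 + (if b' then m1 else 0) :=
      congrArg Subtype.val h
    have h3 : (z : V) + (if b then m1 else 0) = z' + (if b' then m1 else 0) := by
      have e1 : (z : V) + z0 + (if b then m1 else 0) = ((z : V) + (if b then m1 else 0)) + z0 := by
        abel
      have e2 : (z' : V) + z0 + (if b' then m1 else 0) = ((z' : V) + (if b' then m1 else 0)) + z0 := by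
        abel
      rw [e1, e2] at h2
      exact add_right_cancel h2
    cases b <;> cases b'
    · simp only [Bool.false_eq_true, if_false, add_zero] at h3
      exact Prod.ext (Subtype.ext h3) rfl
    · simp only [Bool.false_eq_true, if_false, add_zero, if_true] at h3
      exact absurd h3 (hsep z z')
    · simp only [Bool.false_eq_true, if_false, add_zero, if_true] at h3
      exact absurd h3.symm (hsep z' z)
    · simp only [if_true] at h3
      exact Prod.ext (Subtype.ext (add_right_cancel h3)) rfl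
  have h4 := Nat.card_le_card_of_injective F hF
  rw [Nat.card_prod, Nat.card_eq_fintype_card (α := Bool), Fintype.card_bool] at h4
  exact h4

/-- at least half of `M` -/
theorem le_half {R : FS V} {M : Submodule (ZMod 2) V} {α : D V} {θ : D (V ⧸ M)} {m1 : V}
    (hm1 : m1 ∈ M) (h1 : α m1 = 1)
    (h : ∀ m ∈ M, α m = 1 → α + θ ∘ₗ M.mkQ ∈ Lx R m) :
    Nat.card M ≤ PP R M α θ 0 * 2 := by
  classical
  let F : M → SS R M α θ 0 × Bool := fun m =>
    if hm : α m = 1 then (⟨m, mk_zero m.2, h m m.2 hm⟩, true)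
    else (⟨m + m1, mk_zero (M.add_mem m.2 hm1), h _ (M.add_mem m.2 hm1) (by
      rw [map_add, h1, zm_ne' hm, zero_add])⟩, false)
  have hF : Function.Injective F := by
    intro m m' hmm
    by_cases h2 : α m = 1 <;> by_cases h3 : α m' = 1
    · have e1 : F m = (⟨m, mk_zero m.2, h m m.2 h2⟩, true) := dif_pos h2
      have e2 : F m' = (⟨m', mk_zero m'.2, h m' m'.2 h3⟩, true) := dif_pos h3
      rw [e1, e2] at hmm
      exact Subtype.ext (congrArg (fun p => (p.1 : V)) hmm)
    · have e1 : F m = (⟨m, mk_zero m.2, h m m.2 h2⟩, true) := dif_pos h2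
      have e2 : (F m').2 = false := by
        show (dite _ _ _ : SS R M α θ 0 × Bool).2 = false
        rw [dif_neg h3]
      rw [← hmm, e1] at e2
      exact absurd e2 (by simp)
    · have e1 : F m' = (⟨m', mk_zero m'.2, h m' m'.2 h3⟩, true) := dif_pos h3
      have e2 : (F m).2 = false := by
        show (dite _ _ _ : SS R M α θ 0 × Bool).2 = false
        rw [dif_neg h2]
      rw [hmm, e1] at e2
      exact absurd e2 (by simp)
    · have e1 : ((F m).1 : V) = m + m1 := by
        show ((dite _ _ _ : SS R M α θ 0 × Bool).1 : V) = _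
        rw [dif_neg h2]
      have e2 : ((F m').1 : V) = m' + m1 := by
        show ((dite _ _ _ : SS R M α θ 0 × Bool).1 : V) = _
        rw [dif_neg h3]
      rw [hmm, e2] at e1
      exact Subtype.ext (add_right_cancel e1).symm
  have h4 := Nat.card_le_card_of_injective F hF
  rw [Nat.card_prod, Nat.card_eq_fintype_card (α := Bool), Fintype.card_bool] at h4
  exact h4

theorem two_le {R : FS V} {M : Submodule (ZMod 2) V} {α : D V} {θ : D (V ⧸ M)} {m m' : V}
    (hne : m ≠ m') (hm : m ∈ M) (hm' : m' ∈ M) (h : α + θ ∘ₗ M.mkQ ∈ Lx R m)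
    (h' : α + θ ∘ₗ M.mkQ ∈ Lx R m') : 2 ≤ PP R M α θ 0 := by
  classical
  let F : Bool → SS R M α θ 0 := fun b =>
    if b then ⟨m, mk_zero hm, h⟩ else ⟨m', mk_zero hm', h'⟩
  have hF : Function.Injective F := by
    intro b b' hbb
    cases b <;> cases b'
    · rfl
    · exact absurd (congrArg Subtype.val hbb) hne.symm
    · exact absurd (congrArg Subtype.val hbb) hne
    · rfl
  have h4 := Nat.card_le_card_of_injective F hF
  rw [Nat.card_eq_fintype_card (α := Bool), Fintype.card_bool] at h4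
  exact h4

theorem one_le {R : FS V} {M : Submodule (ZMod 2) V} {α : D V} {θ : D (V ⧸ M)} {m : V}
    (hm : m ∈ M) (h : α + θ ∘ₗ M.mkQ ∈ Lx R m) : 1 ≤ PP R M α θ 0 := by
  have : Nonempty (SS R M α θ 0) := ⟨⟨m, mk_zero hm, h⟩⟩
  exact Nat.card_pos (α := SS R M α θ 0)

end BADX

open BADX in
theorem bad_proof (hCTX : Stmt_CTXC) (hN : Stmt_C3N) (hF : Stmt_C3F) : Stmt_BAD := by
  intro V _ _ _ e R τ M hC hB
  obtain ⟨σ, φ, hσe, hφe, hφM, hwd, ⟨m, hm, hm0, hσm, hmL⟩, m1, hm1, hσ1⟩ := hB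
  obtain ⟨τ', hτ', hctx⟩ := hCTX V e R τ M hC
  have hX := (hctx σ).1
  obtain ⟨φ', hφ'⟩ := exists_comp (M := M) (ψ := φ) hφM
  have hfr : fr (V ⧸ M) + fr M = fr V := Submodule.finrank_quotient_add_finrank M
  have h3 : 3 ≤ fr (V ⧸ M) := by
    have := hC.three
    omega
  -- the values
  have hval : ∀ a ∈ M, σ a = 1 → σ + φ' ∘ₗ M.mkQ ∈ Lx R a := by
    intro a ha h1
    have e1 : wd e σ φ a = φ + φ (a + e) • σ := wd_of_one h1
    rw [map_add, hφM a ha, hφe, zero_add, one_smul] at e1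
    rw [hφ', add_comm]
    exact ⟨_, hwd, e1⟩
  have c0 : 1 ≤ PP R M σ 0 0 := by
    refine one_le hm ?_
    rw [LinearMap.zero_comp, add_zero]
    exact hmL
  have cm1 := hval m1 hm1 hσ1
  have cm2 := hval (m1 + m) (M.add_mem hm1 hm) (by rw [map_add, hσ1, hσm, add_zero])
  have c2 : 2 ≤ PP R M σ φ' 0 := by
    refine two_le (m := m1) (m' := m1 + m) ?_ hm1 (M.add_mem hm1 hm) cm1 cm2
    intro h
    apply hm0
    have := congrArg (m1 + ·) h
    simpa [add_add_self, ESL.add_self'] using this.symm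
  have hφ0 : φ' ≠ 0 := by
    rintro rfl
    rw [LinearMap.zero_comp] at hφ'
    rw [← hφ'] at hφe
    exact zero_ne_one hφe
  rcases hN (V ⧸ M) (M.mkQ e) (R0 R M) τ' (PP R M σ) hX h3 with h | ⟨c, hc, hcY, hex⟩
  · exact hφ0 (h φ' 0 (by omega) c0)
  · obtain ⟨-, -, hbig⟩ := hF (V ⧸ M) (M.mkQ e) (R0 R M) τ' (PP R M σ) hX h3 c hc hcY hex
    obtain ⟨-, hx⟩ := hbig φ' c2
    obtain ⟨x, hxk, hx0⟩ : ∃ x, τ' x = 0 ∧ x ≠ 0 := by
      by_contra hcon
      push Not at hcon
      have hinj : Function.Injective τ' := by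
        rw [← LinearMap.ker_eq_bot, eq_bot_iff]
        intro x hx
        exact (Submodule.mem_bot _).2 (hcon x hx)
      have h5 := LinearMap.finrank_le_finrank_of_injective hinj
      rw [Module.finrank_self] at h5
      have h6 : fr (V ⧸ M) ≤ 1 := h5
      omega
    have h7 := hx x hx0 hxk
    have h8 : Nat.card M ≤ PP R M σ φ' 0 * 2 := le_half hm1 hσ1 hval
    have h9 : PP R M σ φ' x * 2 ≤ Nat.card M := by
      refine half_le hC.wu hm1 ?_
      rw [hφ', LinearMap.add_apply, hσ1, hφM m1 hm1, add_zero]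
    have h10 : 0 < Nat.card M := Nat.card_pos
    omega

end Pool.Agent.ESG
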