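import Pool.Agent.ESG.Stmts

/-!
The module C3 of `Pool.Agent.ESG.Stmts`: in Part I the space has one colour.
-/

namespace Pool.Agent.ESG

open Pool.Agent.ESL

theorem c3_proof (h1 : Stmt_CTXC) (h2 : Stmt_BAD) (h3 : Stmt_C3N) (h4 : Stmt_C3E)
    (h5 : ESL.Stmt_OC) : Stmt_C3 := by
  intro V _ _ _ e R τ M hM
  refine h5 V R M ?_
  intro α
  obtain ⟨τ', -, hc⟩ := h1 V e R τ M hM
  obtain ⟨hC, hY⟩ := hc α
  have hY' := hY (h2 V e R τ M hM)
  have h3r : 3 ≤ fr (V ⧸ M) := by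
    have e1 := Submodule.finrank_quotient_add_finrank M
    have e2 := hM.three
    unfold fr at e2 ⊢
    omega
  rcases h3 (V ⧸ M) (M.mkQ e) (R0 R M) τ' (PP R M α) hC h3r with h | ⟨c, hc1, hc2, hc3⟩
  · exact h
  · exact (h4 (V ⧸ M) (M.mkQ e) (R0 R M) τ' (PP R M α) hC hY' h3r c hc1 hc2 hc3).elim

end Pool.Agent.ESG
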