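import Pool.Agent.ESG.Stmts

/-!
The counting argument (C3), case `D ≠ 0`.
-/

namespace Pool.Agent.ESG

open Pool.Agent.ESL

namespace C3DX

variable {X : Type} [AddCommGroup X] [Module (ZMod 2) X] [Finite X]

theorem sOn_ite [Fintype (D X)] (S : Set (D X)) [DecidablePred (· ∈ S)] (f : D X → ℤ) :
    sOn S f = ∑ θ, if θ ∈ S then f θ else 0 := by
  unfold sOn
  rw [← Finset.sum_filter]
  congr 1
  ext θ
  simp

theorem le_sOn (S : Set (D X)) (f : D X → ℤ) (hf : ∀ θ ∈ S, 0 ≤ f θ) (A : Finset (D X))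
    (hA : ∀ θ ∈ A, θ ∈ S) : ∑ θ ∈ A, f θ ≤ sOn S f := by
  unfold sOn
  apply Finset.sum_le_sum_of_subset_of_nonneg
  · intro θ hθ
    rw [Set.Finite.mem_toFinset]
    exact hA θ hθ
  · intro θ hθ _
    rw [Set.Finite.mem_toFinset] at hθ
    exact hf θ hθ

theorem sOn_eq (S : Set (D X)) (f : D X → ℤ) (A : Finset (D X))
    (hA : ∀ θ ∈ A, θ ∈ S) (h0 : ∀ θ ∈ S, θ ∉ A → f θ = 0) : sOn S f = ∑ θ ∈ A, f θ := by
  unfold sOn
  symm
  apply Finset.sum_subset
  · intro θ hθ
    rw [Set.Finite.mem_toFinset]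
    exact hA θ hθ
  · intro θ hθ hA
    rw [Set.Finite.mem_toFinset] at hθ
    exact h0 θ hθ hA

theorem signed (y : X) (f : D X → ℤ) :
    sOn Set.univ (fun θ => sg (θ y) * f θ) = sOn {θ | θ y = 0} f - sOn {θ | θ y = 1} f := by
  classical
  have : Fintype (D X) := Fintype.ofFinite _
  rw [sOn_ite, sOn_ite, sOn_ite, ← Finset.sum_sub_distrib]
  apply Finset.sum_congr rfl
  intro θ _
  simp only [Set.mem_univ, if_true, Set.mem_ofPred_eq]
  rcases zm (θ y) with h | h <;> simp [sg, h]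

theorem split (y y' : X) (i : ZMod 2) (f : D X → ℤ) :
    sOn {θ | θ y = i} f = sOn {θ | θ y = i ∧ θ y' = 0} f + sOn {θ | θ y = i ∧ θ y' = 1} f := by
  classical
  have : Fintype (D X) := Fintype.ofFinite _
  rw [sOn_ite, sOn_ite, sOn_ite, ← Finset.sum_add_distrib]
  apply Finset.sum_congr rfl
  intro θ _
  simp only [Set.mem_ofPred_eq]
  rcases zm (θ y') with h | h <;> simp [h]

variable {e : X} {R : FS X} {τ : D X} {P : D X → X → ℕ}

/-- `s(p) = p² - p` -/
def s (n : ℕ) : ℤ := (n : ℤ) ^ 2 - n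

theorem s_nonneg (n : ℕ) : 0 ≤ s n := by
  unfold s
  rcases Nat.eq_zero_or_pos n with h | h
  · subst h; norm_num
  · have : (1 : ℤ) ≤ n := by exact_mod_cast h
    nlinarith

theorem tye (h : CtxC e R τ P) {y : X} (hy : τ y = 1) : τ (y + e) = 1 := by
  rw [map_add, hy, h.τe, add_zero]

theorem val (hY : Stmt_C3Y) (h : CtxC e R τ P) {y : X} (hy : τ y = 1) (θ : D X) :
    (θ (y + e) = 0 → P θ y = P 0 y) ∧ (θ (y + e) = 1 → P θ y = P τ y) := by
  obtain ⟨h1, -, -⟩ := hY X e R τ P h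
  constructor
  · intro h0
    have := h1 y hy 0 θ h0
    rwa [zero_add] at this
  · intro h0
    have h2 : (θ + τ) (y + e) = 0 := by rw [LinearMap.add_apply, h0, tye h hy]; rfl
    have := h1 y hy τ (θ + τ) h2
    rw [← this]
    congr 1
    rw [add_comm θ τ, add_add_self]

theorem valA (hY : Stmt_C3Y) (h : CtxC e R τ P) {A B : ℕ} (hA : ∀ y, τ y = 1 → P 0 y = A)
    (hB : ∀ y, τ y = 1 → P τ y = B) {y : X} (hy : τ y = 1) (θ : D X) :
    (θ y = 0 → P θ (y + e) = A) ∧ (θ y = 1 → P θ (y + e) = B) := by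
  have h1 := val hY h (tye h hy) θ
  rw [add_add_self', hA _ (tye h hy), hB _ (tye h hy)] at h1
  exact h1

theorem tau_mem' (h : CtxC e R τ P) {x x' : X} (hx : τ x = 0) (hx' : τ x' = 0) (h0 : x ≠ 0)
    (h0' : x' ≠ 0) : τ ∈ Lx (fx R (x + x')) x := by
  obtain ⟨ψ, hψ, hψ1⟩ := exists_sep (W := Submodule.span (ZMod 2) {x + x'}) (x := x) (by
    intro hm
    obtain ⟨c, hc⟩ := Submodule.mem_span_singleton.1 hm
    rcases zm c with rfl | rfl
    · rw [zero_smul] at hc; exact h0 hc.symm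
    · rw [one_smul] at hc
      apply h0'
      have := congrArg (x + ·) hc
      simpa [add_add_self, add_self'] using this)
  have h2 := hψ (x + x') (Submodule.mem_span_singleton_self _)
  refine ⟨wd e τ ψ, ⟨h.star ψ, ?_⟩, wd_of_zero_one hx hψ1⟩
  rw [wd_of_zero (by rw [map_add, hx, hx', zero_add]), h2, zero_smul]

theorem tau_mem (h : CtxC e R τ P) {x : X} (hx : τ x = 0) (h0 : x ≠ 0) : τ ∈ Lx R x :=
  Lx_mono (fx_le R _) x (tau_mem' h hx hx h0 h0)

theorem inv (h : CtxC e R τ P) {x : X} (hx : τ x = 0) (h0 : x ≠ 0) (θ : D X) :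
    P (θ + τ) x = P θ x := by
  obtain ⟨κ, hκ, hκ'⟩ := tau_mem h hx h0
  have := h.zero κ hκ θ x
  rwa [hκ'] at this

theorem ne_tau (h : CtxC e R τ P) (θ : D X) : θ ≠ θ + τ := by
  intro he
  apply h.τ0
  have h2 : θ + θ = θ + (θ + τ) := congrArg (fun t => θ + t) he
  rw [add_self', add_add_self] at h2
  exact h2.symm

/-- first Fourier input -/
theorem four_prod (hY : Stmt_C3Y) (h : CtxC e R τ P) {A B : ℕ} (hA : ∀ y, τ y = 1 → P 0 y = A)
    (hB : ∀ y, τ y = 1 → P τ y = B) {x : X} (hx : τ x = 0) (h0 : x ≠ 0) (y : X) (hy : τ y = 1) :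
    sOn Set.univ (fun θ => sg (θ y) * ((P θ 0 : ℤ) * P θ x)) = ((A : ℤ) - B) * (A + B) := by
  obtain ⟨-, -, h3⟩ := hY X e R τ P h
  have hy' : τ (x + y) = 1 := by rw [map_add, hx, hy, zero_add]
  have hne : y ≠ x + y := by
    intro he
    apply h0
    have := congrArg (· + y) he
    simp only [add_add_self', add_self'] at this
    exact this.symm
  have hsum : y + (x + y) = x := by
    rw [add_comm x y, add_add_self]
  have key : ∀ θ : D X, ((P θ (y + e) : ℤ) * P θ (x + y + e)) =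
      sOn {θ' | θ' y = θ y ∧ θ' (x + y) = θ (x + y)} (fun θ' => (P θ' 0 : ℤ) * P θ' x) := by
    intro θ
    have := h3 (y + e) (x + y + e) (fun hc => hne (add_right_cancel hc)) (tye h hy) (tye h hy') θ
    rw [add_add_self', add_add_self'] at this
    have e2 : y + e + (x + y + e) = x := by
      calc y + e + (x + y + e) = (y + (x + y)) + (e + e) := by abel
        _ = x := by rw [hsum, add_self', add_zero]
    rwa [e2] at this
  -- a functional with `χ y = 0`, `χ (x + y) = 1`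
  obtain ⟨χ, hχ, hχ1⟩ := exists_sep (W := Submodule.span (ZMod 2) {y}) (x := x + y) (by
    intro hm
    obtain ⟨c, hc⟩ := Submodule.mem_span_singleton.1 hm
    rcases zm c with rfl | rfl
    · rw [zero_smul] at hc
      rw [← hc, map_zero] at hy'
      exact zero_ne_one hy'
    · rw [one_smul] at hc
      exact hne hc)
  have hχ0 : χ y = 0 := hχ y (Submodule.mem_span_singleton_self y)
  have k00 := key 0
  have k11 := key τ
  have k01 := key χ
  have k10 := key (χ + τ)
  have v1 : P χ (y + e) = A := (valA hY h hA hB hy χ).1 hχ0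
  have v2 : P χ (x + y + e) = B := (valA hY h hA hB hy' χ).2 hχ1
  have w1 : (χ + τ) y = 1 := by rw [LinearMap.add_apply, hχ0, hy, zero_add]
  have w2 : (χ + τ) (x + y) = 0 := by rw [LinearMap.add_apply, hχ1, hy']; rfl
  have v3 : P (χ + τ) (y + e) = B := (valA hY h hA hB hy _).2 w1
  have v4 : P (χ + τ) (x + y + e) = A := (valA hY h hA hB hy' _).1 w2
  rw [v1, v2, hχ0, hχ1] at k01
  rw [v3, v4, w1, w2] at k10
  rw [hA _ (tye h hy), hA _ (tye h hy'), LinearMap.zero_apply, LinearMap.zero_apply] at k00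
  rw [hB _ (tye h hy), hB _ (tye h hy'), hy, hy'] at k11
  rw [signed, split y (x + y) 0, split y (x + y) 1, ← k00, ← k11, ← k01, ← k10]
  ring

/-- second Fourier input -/
theorem four_sq (hY : Stmt_C3Y) (h : CtxC e R τ P) {A B : ℕ} (hA : ∀ y, τ y = 1 → P 0 y = A)
    (hB : ∀ y, τ y = 1 → P τ y = B) (y : X) (hy : τ y = 1) :
    sOn Set.univ (fun θ => sg (θ y) * s (P θ 0)) = s A - s B := by
  obtain ⟨-, h2, -⟩ := hY X e R τ P h
  have k0 := h2 (y + e) (tye h hy) 0
  have k1 := h2 (y + e) (tye h hy) τ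
  rw [add_add_self', hA _ (tye h hy), LinearMap.zero_apply] at k0
  rw [add_add_self', hB _ (tye h hy), hy] at k1
  rw [signed]
  unfold s
  rw [← k0, ← k1]

theorem fourA (hF : ESL.Stmt_FOUR) (hY : Stmt_C3Y) (h : CtxC e R τ P) {A B : ℕ}
    (hA : ∀ y, τ y = 1 → P 0 y = A) (hB : ∀ y, τ y = 1 → P τ y = B) {x : X} (hx : τ x = 0)
    (h0 : x ≠ 0) :
    (∀ θ, θ ≠ 0 → θ ≠ τ → (P θ 0 : ℤ) * P θ x = P (θ + τ) 0 * P θ x) ∧
    ((P 0 0 : ℤ) * P 0 x - P τ 0 * P 0 x) = ((A : ℤ) - B) * (A + B) := by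
  obtain ⟨h1, h2⟩ := hF X τ (fun θ => (P θ 0 : ℤ) * P θ x) (((A : ℤ) - B) * (A + B)) h.τ0
    (fun y hy => four_prod hY h hA hB hx h0 y hy)
  constructor
  · intro θ hθ hθ'
    have := h1 θ hθ hθ'
    rwa [inv h hx h0] at this
  · have e := inv h hx h0 0
    rw [zero_add] at e
    rwa [e] at h2

theorem fourB (hF : ESL.Stmt_FOUR) (hY : Stmt_C3Y) (h : CtxC e R τ P) {A B : ℕ}
    (hA : ∀ y, τ y = 1 → P 0 y = A) (hB : ∀ y, τ y = 1 → P τ y = B) :
    (∀ θ, θ ≠ 0 → θ ≠ τ → s (P θ 0) = s (P (θ + τ) 0)) ∧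
    s (P 0 0) - s (P τ 0) = s A - s B :=
  hF X τ (fun θ => s (P θ 0)) (s A - s B) h.τ0 (fun y hy => four_sq hY h hA hB y hy)

theorem pair_le (h : CtxC e R τ P) (θ : D X) {x x' : X} (hx : τ x = 0) (hx' : τ x' = 0) (h0 : x ≠ 0)
    (h0' : x' ≠ 0) (hne : x ≠ x') :
    ((P θ 0 : ℤ) + P (θ + τ) 0) * P θ (x + x') ≤ (P θ x : ℤ) * P θ x' := by
  classical
  have ht : τ (x + x') = 0 := by rw [map_add, hx, hx', zero_add]
  have hs : x + x' ≠ 0 := fun hc => hne (eq_of_add hc)
  rw [h.pair θ x x' hne ht]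
  refine le_trans (le_of_eq ?_) (le_sOn _ _ ?_ {θ, θ + τ} ?_)
  · rw [Finset.sum_pair (ne_tau h θ), inv h ht hs]
    ring
  · intro θ' _
    positivity
  · intro θ' hθ'
    rw [Finset.mem_insert, Finset.mem_singleton] at hθ'
    rcases hθ' with rfl | rfl
    · show θ' + θ' ∈ Lx (fx R (x + x')) x
      rw [add_self']
      exact Submodule.zero_mem _
    · show θ + τ + θ ∈ Lx (fx R (x + x')) x
      rw [add_comm θ τ, add_add_self']
      exact tau_mem' h hx hx' h0 h0'

/-- two elements of `H` -/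
theorem exists_two (h3 : 3 ≤ fr X) (τ : D X) (x : X) :
    ∃ x', τ x' = 0 ∧ x' ≠ 0 ∧ x' ≠ x := by
  by_contra hc
  push Not at hc
  have h1 : LinearMap.ker τ ≤ Submodule.span (ZMod 2) {x} := by
    intro z hz
    rw [LinearMap.mem_ker] at hz
    by_cases hz0 : z = 0
    · rw [hz0]; exact Submodule.zero_mem _
    · rw [hc z hz hz0]; exact Submodule.mem_span_singleton_self x
  have h2 := Submodule.finrank_mono h1
  have h4 : Module.finrank (ZMod 2) (Submodule.span (ZMod 2) {x}) ≤ 1 := by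
    have := finrank_span_finset_le_card (R := ZMod 2) ({x} : Finset X)
    rwa [Finset.coe_singleton, Finset.card_singleton] at this
  have h5 := LinearMap.finrank_range_add_finrank_ker τ
  have h6 : Module.finrank (ZMod 2) (LinearMap.range τ) ≤ 1 := by
    have := Submodule.finrank_le (LinearMap.range τ)
    rwa [Module.finrank_self] at this
  unfold fr at h3
  omega

theorem exists_Y (h : CtxC e R τ P) : ∃ y, τ y = 1 := by
  by_contra hc
  push Not at hc
  apply h.τ0
  apply LinearMap.ext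
  intro y
  exact zm_ne' (hc y)

theorem s_lt {m n : ℕ} (hm : 1 ≤ m) (hmn : m < n) : s m < s n := by
  unfold s
  have h1 : (1 : ℤ) ≤ m := by exact_mod_cast hm
  have h2 : (m : ℤ) + 1 ≤ n := by exact_mod_cast hmn
  nlinarith

/-- the lower bound on the values on `Y` -/
theorem le_of_s {m n : ℕ} (h1 : s m ≤ s n) (h2 : 1 ≤ m → 1 ≤ n) : m ≤ n := by
  rcases Nat.eq_zero_or_pos m with h | h
  · omega
  · by_contra hc
    have := s_lt (h2 h) (not_le.1 hc)
    omega

end C3DX

open C3DX in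
theorem c3d_proof (hY : Stmt_C3Y) (hF : ESL.Stmt_FOUR) : Stmt_C3D := by
  intro X _ _ _ e R τ P h h3 p d hd hpd θ₁ hθ₁
  obtain ⟨y, hy⟩ := exists_Y h
  obtain ⟨A, hA0⟩ : ∃ A, A = P 0 y := ⟨_, rfl⟩
  obtain ⟨B, hB0⟩ : ∃ B, B = P τ y := ⟨_, rfl⟩
  have e1 := hpd y hy
  rw [← hA0, ← hB0] at e1
  have hA : ∀ y, τ y = 1 → P 0 y = A := by
    intro z hz
    have := hpd z hz
    omega
  have hB : ∀ y, τ y = 1 → P τ y = B := by
    intro z hz
    have := hpd z hz
    omega
  have hp : (A : ℤ) + B = p := e1.1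
  have hdd : (A : ℤ) - B = d := e1.2
  -- p ≥ 1
  obtain ⟨x, hx, h0, -⟩ := exists_two h3 τ 0
  obtain ⟨x', hx', h0', hne⟩ := exists_two h3 τ x
  have ht : τ (x + x') = 0 := by rw [map_add, hx, hx', zero_add]
  have hs : x + x' ≠ 0 := fun hc => hne (eq_of_add hc).symm
  have f1 := (fourA hF hY h hA hB hx h0).2
  have f2 := (fourA hF hY h hA hB hx' h0').2
  have f3 := (fourA hF hY h hA hB ht hs).2
  have f4 := (fourB hF hY h hA hB).2
  have pl := pair_le h 0 hx hx' h0 h0' (Ne.symm hne)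
  rw [zero_add] at pl
  have hdp : 0 < ((A : ℤ) - B) * (A + B) := by
    apply mul_pos
    · omega
    · have : 0 < A := by
        have : (0 : ℤ) < A := by omega
        exact_mod_cast this
      positivity
  have hpq : (P τ 0 : ℤ) < P 0 0 := by
    by_contra hc
    rw [not_lt] at hc
    rw [← sub_mul] at f1
    have : ((P 0 0 : ℤ) - P τ 0) * P 0 x ≤ 0 := by
      apply mul_nonpos_of_nonpos_of_nonneg
      · omega
      · positivity
    omega
  -- all values are equal
  have g1 : (P 0 x : ℤ) = P 0 (x + x') := by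
    have : ((P 0 0 : ℤ) - P τ 0) * P 0 x = ((P 0 0 : ℤ) - P τ 0) * P 0 (x + x') := by
      rw [sub_mul, sub_mul, f1, f3]
    exact mul_left_cancel₀ (by omega) this
  have g2 : (P 0 x' : ℤ) = P 0 (x + x') := by
    have : ((P 0 0 : ℤ) - P τ 0) * P 0 x' = ((P 0 0 : ℤ) - P τ 0) * P 0 (x + x') := by
      rw [sub_mul, sub_mul, f2, f3]
    exact mul_left_cancel₀ (by omega) this
  have ha : (0 : ℤ) < P 0 x := by
    by_contra hc
    have : (P 0 x : ℤ) = 0 := by
      have : (0 : ℤ) ≤ P 0 x := by positivity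
      omega
    rw [this, mul_zero, mul_zero] at f1
    omega
  have hqa : (P 0 0 : ℤ) + P τ 0 ≤ P 0 x := by
    rw [← g1] at pl
    rw [show (P 0 x' : ℤ) = P 0 x by rw [g1, g2]] at pl
    exact le_of_mul_le_mul_right pl ha
  -- p ≤ q
  obtain ⟨-, y2, -⟩ := hY X e R τ P h
  have k0 := y2 (y + e) (tye h hy) 0
  have k1 := y2 (y + e) (tye h hy) τ
  rw [add_add_self', hA _ (tye h hy), LinearMap.zero_apply] at k0
  rw [add_add_self', hB _ (tye h hy), hy] at k1
  change s A = sOn {θ' | θ' y = 0} (fun θ' => s (P θ' 0)) at k0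
  change s B = sOn {θ' | θ' y = 1} (fun θ' => s (P θ' 0)) at k1
  have l0 : s (P 0 0) ≤ s A := by
    rw [k0]
    have := le_sOn {θ' : D X | θ' y = 0} (fun θ' => s (P θ' 0)) (fun _ _ => s_nonneg _) {0}
      (by intro θ hθ; rw [Finset.mem_singleton] at hθ; rw [hθ]; rfl)
    rwa [Finset.sum_singleton] at this
  have l1 : s (P τ 0) ≤ s B := by
    rw [k1]
    have := le_sOn {θ' : D X | θ' y = 1} (fun θ' => s (P θ' 0)) (fun _ _ => s_nonneg _) {τ}
      (by intro θ hθ; rw [Finset.mem_singleton] at hθ; rw [hθ]; exact hy)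
    rwa [Finset.sum_singleton] at this
  have m0 : P 0 0 ≤ A := le_of_s l0 (fun hc => by rw [hA0]; exact h.pos 0 y hy hc)
  have m1 : P τ 0 ≤ B := le_of_s l1 (fun hc => by rw [hB0]; exact h.pos τ y hy hc)
  have hApos : 1 ≤ A := by omega
  have hle : (A : ℤ) + B ≤ P 0 0 + P τ 0 := by
    -- (p_0 - p_τ)(q - 1) = d (p - 1), a (p_0 - p_τ) = d p, q ≤ a
    have u1 : ((P 0 0 : ℤ) - P τ 0) * (P 0 0 + P τ 0 - 1) = ((A : ℤ) - B) * (A + B - 1) := by
      have := f4
      unfold s at this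
      linarith [this]
    have u2 : ((P 0 0 : ℤ) - P τ 0) * P 0 x = ((A : ℤ) - B) * (A + B) := by
      rw [sub_mul]; exact f1
    have u3 : (P 0 x : ℤ) * (A + B - 1) = (A + B) * (P 0 0 + P τ 0 - 1) := by
      have hnz : ((A : ℤ) - B) * ((P 0 0 : ℤ) - P τ 0) ≠ 0 := by
        apply mul_ne_zero <;> omega
      apply mul_left_cancel₀ hnz
      calc ((A : ℤ) - B) * ((P 0 0 : ℤ) - P τ 0) * (P 0 x * (A + B - 1))
          = (((P 0 0 : ℤ) - P τ 0) * P 0 x) * (((A : ℤ) - B) * (A + B - 1)) := by ring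
        _ = (((A : ℤ) - B) * (A + B)) * (((P 0 0 : ℤ) - P τ 0) * (P 0 0 + P τ 0 - 1)) := by
            rw [u1, u2]
        _ = _ := by ring
    have u4 : (0 : ℤ) ≤ A + B - 1 := by omega
    nlinarith [mul_le_mul_of_nonneg_right hqa u4]
  have n0 : P 0 0 = A := by omega
  have n1 : P τ 0 = B := by omega
  -- a = p
  have hap : (P 0 x : ℤ) = A + B := by
    have u2 : ((P 0 0 : ℤ) - P τ 0) * P 0 x = ((A : ℤ) - B) * (A + B) := by
      rw [sub_mul]; exact f1
    rw [n0, n1] at u2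
    exact mul_left_cancel₀ (by omega) u2
  -- s vanishes off {0, τ}
  have hs0 : ∀ θ : D X, θ ≠ 0 → θ ≠ τ → s (P θ 0) = 0 := by
    classical
    intro θ hθ0 hθτ
    rcases zm (θ y) with hv | hv
    · have := le_sOn {θ' : D X | θ' y = 0} (fun θ' => s (P θ' 0)) (fun _ _ => s_nonneg _) {0, θ}
        (by
          intro θ' hθ'
          rw [Finset.mem_insert, Finset.mem_singleton] at hθ'
          rcases hθ' with rfl | rfl
          · rfl
          · exact hv)
      rw [Finset.sum_pair (Ne.symm hθ0), ← k0, n0] at this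
      have := s_nonneg (P θ 0)
      omega
    · have := le_sOn {θ' : D X | θ' y = 1} (fun θ' => s (P θ' 0)) (fun _ _ => s_nonneg _) {τ, θ}
        (by
          intro θ' hθ'
          rw [Finset.mem_insert, Finset.mem_singleton] at hθ'
          rcases hθ' with rfl | rfl
          · exact hy
          · exact hv)
      rw [Finset.sum_pair (Ne.symm hθτ), ← k1, n1] at this
      have := s_nonneg (P θ 0)
      omega
  have hdiag : s (P 0 x) = s (P 0 0) + s (P τ 0) := by
    classical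
    have := h.diag 0 x
    change s (P 0 x) = sOn {θ' | θ' + 0 ∈ Lx R x} (fun θ' => s (P θ' 0)) at this
    rw [this, sOn_eq _ _ {0, τ}, Finset.sum_pair (Ne.symm h.τ0)]
    · intro θ' hθ'
      rw [Finset.mem_insert, Finset.mem_singleton] at hθ'
      rcases hθ' with rfl | rfl
      · show (0 : D X) + 0 ∈ Lx R x
        rw [add_zero]; exact Submodule.zero_mem _
      · show θ' + 0 ∈ Lx R x
        rw [add_zero]; exact tau_mem h hx h0
    · intro θ' _ hθ'
      rw [Finset.mem_insert, Finset.mem_singleton, not_or] at hθ'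
      exact hs0 θ' hθ'.1 hθ'.2
  have hB00 : B = 0 := by
    unfold s at hdiag
    rw [hap, n0, n1] at hdiag
    have : (A : ℤ) * B = 0 := by nlinarith
    rcases mul_eq_zero.1 this with hz | hz
    · exfalso
      have : A = 0 := by exact_mod_cast hz
      omega
    · exact_mod_cast hz
  -- the end
  apply LinearMap.ext
  have hval : ∀ z, τ z = 1 → θ₁ z = 0 := by
    intro z hz
    by_contra hc
    have h1 := zm_ne hc
    have := h.pos θ₁ (z + e) (tye h hz) hθ₁
    rw [(valA hY h hA hB hz θ₁).2 h1, hB00] at this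
    omega
  intro z
  rcases zm (τ z) with hz | hz
  · have h1 : τ (z + y) = 1 := by rw [map_add, hz, hy, zero_add]
    have h2 := hval _ h1
    rw [map_add, hval y hy, add_zero] at h2
    exact h2
  · exact hval z hz

end Pool.Agent.ESG
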