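import Pool.Agent.ESG.C3D

/-!
The counting argument (C3), case `D = 0`.
-/

namespace Pool.Agent.ESG

open Pool.Agent.ESL

namespace C3EX

open C3DX

variable {X : Type} [AddCommGroup X] [Module (ZMod 2) X] [Finite X]
variable {e : X} {R : FS X} {τ : D X} {P : D X → X → ℕ}

/-- `κ + [τ, κ y]` kills `y` -/
theorem adj (h : CtxC e R τ P) {y : X} (hy : τ y = 1) {κ : Fm X} (hκ : κ ∈ R) :
    κ + wd e τ (κ y) ∈ fx R y := by
  refine ⟨R.add_mem hκ (h.star _), ?_⟩
  rw [LinearMap.add_apply, wd_of_one_zero hy (Lx_e h.wu (Lx_mem hκ y)), add_self']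

theorem adj_apply (_h : CtxC e R τ P) {x y : X} (hx : τ x = 0) (κ : Fm X) :
    κ x = (κ + wd e τ (κ y)) x + κ y x • τ := by
  rw [LinearMap.add_apply, wd_of_zero hx, add_add_self']

theorem tau_not (h : CtxC e R τ P) {x y : X} (hy : τ y = 1) : τ ∉ Lx (fx R y) x := by
  rintro ⟨κ, ⟨hκ, hκy⟩, hκx⟩
  have h1 : κ x y = 1 := by rw [hκx]; exact hy
  rw [h.wu.symm hκ, hκy] at h1
  exact zero_ne_one h1

end C3EX

open C3DX C3EX in
theorem c3e_proof (hY : Stmt_C3Y) (hF : Stmt_C3F) : Stmt_C3E := by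
  classical
  intro X _ _ _ e R τ P h hPY h3 c hc hc' hex
  obtain ⟨y, hy⟩ := exists_Y h
  have hA : ∀ y, τ y = 1 → P 0 y = c := fun y hy => (hc' y hy).1
  have hB : ∀ y, τ y = 1 → P τ y = c := fun y hy => (hc' y hy).2
  have hC : ∀ θ y, τ y = 1 → P θ y = c := by
    intro θ y hy
    rcases zm (θ (y + e)) with hv | hv
    · rw [(val hY h hy θ).1 hv, hA y hy]
    · rw [(val hY h hy θ).2 hv, hB y hy]
  obtain ⟨f2', ⟨θ₀, hθ₀⟩, hlow'⟩ := hF X e R τ P h h3 c hc hc' hex
  have f2 : ∀ θ, s (P θ 0) = s (P (θ + τ) 0) := fun θ => (f2' θ).symm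
  have hlow : ∀ θ, 2 ≤ P θ 0 → P (θ + τ) 0 = P θ 0 ∧ ∀ x, τ x = 0 → x ≠ 0 → 2 * P θ 0 ≤ P θ x := by
    intro θ hθ
    obtain ⟨g1, g2⟩ := hlow' θ hθ
    exact ⟨g1, fun x hx h0 => g2 x h0 hx⟩
  obtain ⟨hθ₀', hlow₀⟩ := hlow θ₀ hθ₀
  by_cases hB1 : ∃ y x, τ y = 1 ∧ τ x = 0 ∧ x ≠ 0 ∧ ∀ κ ∈ R, κ y = 0 → κ x = 0
  · -- (B1)
    obtain ⟨y, x, hy, hx, h0, hk⟩ := hB1
    have k0 := h.diag θ₀ x
    change s (P θ₀ x) = sOn {θ' | θ' + θ₀ ∈ Lx R x} (fun θ' => s (P θ' 0)) at k0
    rw [sOn_eq _ _ {θ₀, θ₀ + τ}, Finset.sum_pair (ne_tau h θ₀), hθ₀'] at k0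
    · have b1 : (2 : ℤ) * P θ₀ 0 ≤ P θ₀ x := by exact_mod_cast hlow₀ x hx h0
      have b2 : (2 : ℤ) ≤ P θ₀ 0 := by exact_mod_cast hθ₀
      unfold s at k0
      nlinarith
    · intro θ' hθ'
      rw [Finset.mem_insert, Finset.mem_singleton] at hθ'
      rcases hθ' with rfl | rfl
      · show θ' + θ' ∈ Lx R x
        rw [add_self']
        exact Submodule.zero_mem _
      · show θ₀ + τ + θ₀ ∈ Lx R x
        rw [add_comm θ₀ τ, add_add_self']
        exact tau_mem h hx h0
    · intro θ' hθ' hn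
      exfalso
      rw [Finset.mem_insert, Finset.mem_singleton, not_or] at hn
      obtain ⟨κ, hκ, hκ'⟩ := hθ'
      have e1 := adj_apply h (y := y) hx κ
      have e2 := adj h hy hκ
      rw [hk _ e2.1 e2.2, zero_add, hκ'] at e1
      rcases zm (κ y x) with hv | hv
      · rw [hv, zero_smul] at e1
        exact hn.1 (eq_of_add e1)
      · rw [hv, one_smul] at e1
        apply hn.2
        have := congrArg (· + θ₀) e1
        simp only [add_add_self'] at this
        rw [this, add_comm]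
  · -- (B2)
    push Not at hB1
    obtain ⟨x, hx, h0, -⟩ := exists_two h3 τ 0
    have kY := hPY (fun y x hy hx h0 => hB1 y x hy hx h0) θ₀ x (x + y) (by
      rw [add_add_self]; exact hy)
    rw [add_add_self] at kY
    have hy' : τ (x + y) = 1 := by rw [map_add, hx, hy, zero_add]
    rw [hC θ₀ _ hy'] at kY
    have hfin : Fintype (D X) := Fintype.ofFinite _
    -- a(x) = Σ_{θ₀ + Λ} p
    have hcz : (c : ℤ) ≠ 0 := by
      have : (1 : ℤ) ≤ c := by exact_mod_cast hc
      omega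
    have q1 : (P θ₀ x : ℤ) = sOn {θ' | θ' + θ₀ ∈ Lx (fx R y) x} (fun θ' => (P θ' 0 : ℤ)) := by
      apply mul_right_cancel₀ hcz
      rw [kY, sOn_ite, sOn_ite, Finset.sum_mul]
      apply Finset.sum_congr rfl
      intro θ' _
      rw [hC θ' y hy, ite_mul, zero_mul]
    have q2 : s (P θ₀ x) = 2 * sOn {θ' | θ' + θ₀ ∈ Lx (fx R y) x} (fun θ' => s (P θ' 0)) := by
      have k0 := h.diag θ₀ x
      change s (P θ₀ x) = sOn {θ' | θ' + θ₀ ∈ Lx R x} (fun θ' => s (P θ' 0)) at k0
      rw [k0]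
      have e : sOn {θ' | θ' + θ₀ ∈ Lx R x} (fun θ' => s (P θ' 0)) =
          sOn {θ' | θ' + θ₀ ∈ Lx (fx R y) x} (fun θ' => s (P θ' 0)) +
          sOn {θ' | θ' + τ + θ₀ ∈ Lx (fx R y) x} (fun θ' => s (P θ' 0)) := by
        rw [sOn_ite, sOn_ite, sOn_ite, ← Finset.sum_add_distrib]
        apply Finset.sum_congr rfl
        intro θ' _
        have m1 : θ' + θ₀ ∈ Lx R x ↔ (θ' + θ₀ ∈ Lx (fx R y) x ∨ θ' + τ + θ₀ ∈ Lx (fx R y) x) := by
          constructor
          · rintro ⟨κ, hκ, hκ'⟩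
            have e1 := adj_apply h (y := y) hx κ
            have e2 := adj h hy hκ
            rcases zm (κ y x) with hv | hv
            · left
              rw [hv, zero_smul, add_zero, hκ'] at e1
              rw [e1]
              exact Lx_mem e2 x
            · right
              rw [hv, one_smul, hκ'] at e1
              have e3 : θ' + τ + θ₀ = (κ + wd e τ (κ y)) x := by
                have := congrArg (· + τ) e1
                simp only [add_add_self'] at this
                rw [← this]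
                abel
              rw [e3]
              exact Lx_mem e2 x
          · rintro (hm | hm)
            · exact Lx_mono (fx_le R y) x hm
            · have := Submodule.add_mem _ (Lx_mono (fx_le R y) x hm) (tau_mem h hx h0)
              have e3 : θ' + τ + θ₀ + τ = θ' + θ₀ := by
                rw [add_right_comm θ' τ θ₀, add_add_self']
              rwa [e3] at this
        have m2 : ¬ (θ' + θ₀ ∈ Lx (fx R y) x ∧ θ' + τ + θ₀ ∈ Lx (fx R y) x) := by
          rintro ⟨hm, hm'⟩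
          apply tau_not h (x := x) hy
          have := Submodule.add_mem _ hm hm'
          have e3 : θ' + θ₀ + (θ' + τ + θ₀) = τ := by
            rw [add_right_comm θ' τ θ₀, add_add_self]
          rwa [e3] at this
        simp only [Set.mem_ofPred_eq]
        by_cases c1 : θ' + θ₀ ∈ Lx (fx R y) x
        · have c2 : θ' + τ + θ₀ ∉ Lx (fx R y) x := fun hc2 => m2 ⟨c1, hc2⟩
          rw [if_pos c1, if_neg c2, if_pos (m1.2 (Or.inl c1)), add_zero]
        · by_cases c2 : θ' + τ + θ₀ ∈ Lx (fx R y) x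
          · rw [if_neg c1, if_pos c2, if_pos (m1.2 (Or.inr c2)), zero_add]
          · rw [if_neg c1, if_neg c2, if_neg (fun hm => (m1.1 hm).elim c1 c2), add_zero]
      have e' : sOn {θ' | θ' + τ + θ₀ ∈ Lx (fx R y) x} (fun θ' => s (P θ' 0)) =
          sOn {θ' | θ' + θ₀ ∈ Lx (fx R y) x} (fun θ' => s (P θ' 0)) := by
        rw [sOn_ite, sOn_ite]
        refine Finset.sum_nbij' (fun θ => θ + τ) (fun θ => θ + τ) ?_ ?_ ?_ ?_ ?_
        · intro θ _; exact Finset.mem_univ _
        · intro θ _; exact Finset.mem_univ _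
        · intro θ _; exact add_add_self' θ τ
        · intro θ _; exact add_add_self' θ τ
        · intro θ _
          simp only [Set.mem_ofPred_eq]
          rw [← f2 θ]
      rw [e, e']; ring
    -- the bound
    have q3 : 2 * sOn {θ' | θ' + θ₀ ∈ Lx (fx R y) x} (fun θ' => s (P θ' 0)) ≤
        (P θ₀ x : ℤ) * P θ₀ x - 2 * P θ₀ x := by
      have b : (P θ₀ x : ℤ) * P θ₀ x - 2 * P θ₀ x = ((P θ₀ x : ℤ) - 2) *
          sOn {θ' | θ' + θ₀ ∈ Lx (fx R y) x} (fun θ' => (P θ' 0 : ℤ)) := by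
        rw [← q1]; ring
      rw [b]
      rw [sOn_ite, sOn_ite, Finset.mul_sum, Finset.mul_sum]
      apply Finset.sum_le_sum
      intro θ' _
      simp only [Set.mem_ofPred_eq]
      by_cases c1 : θ' + θ₀ ∈ Lx (fx R y) x
      · rw [if_pos c1, if_pos c1]
        -- a_θ'(x) = a_θ₀(x)
        have e1 : P θ' x = P θ₀ x := by
          obtain ⟨κ, ⟨hκ, -⟩, hκ'⟩ := c1
          have := h.zero κ hκ θ₀ x
          rw [hκ', add_comm θ' θ₀, add_add_self] at this
          exact this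
        have e2 : 2 * P θ' 0 ≤ P θ₀ x := by
          rcases Nat.lt_or_ge (P θ' 0) 2 with hlt | hge
          · have := hlow₀ x hx h0
            omega
          · rw [← e1]; exact (hlow θ' hge).2 x hx h0
        have e3 : (2 : ℤ) * P θ' 0 ≤ P θ₀ x := by exact_mod_cast e2
        have e4 : (0 : ℤ) ≤ P θ' 0 := by positivity
        unfold s
        nlinarith
      · rw [if_neg c1, if_neg c1]; norm_num
    rw [← q2] at q3
    unfold s at q3
    have b1 := hlow₀ x hx h0
    have b2 : (4 : ℤ) ≤ P θ₀ x := by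
      have : 4 ≤ P θ₀ x := by omega
      exact_mod_cast this
    nlinarith

end Pool.Agent.ESG
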