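import Pool.Agent.ESG.Stmts

/-!
Module C3Y: facts on `Y = {τ = 1}` in the counting context.
-/

set_option linter.unusedVariables false

namespace Pool.Agent.ESG

open Pool.Agent.ESL

namespace C3YX

variable {X : Type} [AddCommGroup X] [Module (ZMod 2) X] [Finite X]

theorem sOn_congr {S S' : Set (D X)} (h : S = S') (f : D X → ℤ) : sOn S f = sOn S' f := by
  subst h; rfl

theorem mem_Lx_Y {e : X} {R : FS X} {τ : D X} (hwu : IsWu e R) (hstar : ∀ ψ, wd e τ ψ ∈ R) {y : X}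
    (hy : τ y = 1) (ψ : D X) : ψ ∈ Lx R y ↔ ψ (y + e) = 0 := by
  constructor
  · intro h
    exact Lx_e hwu h
  · intro h
    exact ⟨wd e τ ψ, hstar ψ, wd_of_one_zero hy h⟩

theorem mem_Lx_YY {e : X} {R : FS X} {τ : D X} (hwu : IsWu e R) (hstar : ∀ ψ, wd e τ ψ ∈ R) {y y' : X}
    (hy : τ y = 1) (hy' : τ y' = 1) (ψ : D X) :
    ψ ∈ Lx (fx R (y + y')) y ↔ ψ (y + e) = 0 ∧ ψ (y' + e) = 0 := by
  constructor
  · rintro ⟨k, hk, rfl⟩
    have h1 : k (y + y') = 0 := hk.2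
    rw [map_add] at h1
    have h2 : k y = k y' := eq_of_add h1
    refine ⟨Lx_e hwu ⟨k, hk.1, rfl⟩, ?_⟩
    rw [h2]
    exact Lx_e hwu ⟨k, hk.1, rfl⟩
  · rintro ⟨h1, h2⟩
    refine ⟨wd e τ ψ, ⟨hstar ψ, ?_⟩, wd_of_one_zero hy h1⟩
    rw [map_add, wd_of_one_zero hy h1, wd_of_one_zero hy' h2, ZModModule.add_self]

theorem add_apply_zero_iff (θ' θ : D X) (y : X) : (θ' + θ) y = 0 ↔ θ' y = θ y := by
  rw [LinearMap.add_apply]
  exact CharTwo.add_eq_zero

end C3YX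

open C3YX in
theorem c3y_proof : Stmt_C3Y := by
  intro X _ _ _ e R τ P h
  refine ⟨?_, ?_, ?_⟩
  · intro y hy θ ψ hψ
    have h1 := h.zero (wd e τ ψ) (h.star ψ) θ y
    rwa [wd_of_one_zero hy hψ] at h1
  · intro y hy θ
    rw [h.diag θ y]
    apply sOn_congr
    ext θ'
    simp only [Set.mem_setOf_eq]
    rw [mem_Lx_Y h.wu h.star hy, add_apply_zero_iff]
  · intro y y' hne hy hy' θ
    rw [h.pair θ y y' hne (by rw [map_add, hy, hy', CharTwo.add_self_eq_zero])]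
    apply sOn_congr
    ext θ'
    simp only [Set.mem_setOf_eq]
    rw [mem_Lx_YY h.wu h.star hy hy', add_apply_zero_iff, add_apply_zero_iff]

end Pool.Agent.ESG
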