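import Pool.Agent.ESG.Stmts

/-!
Module COMP: a component (local or star) not killed by `x`.
-/

namespace Pool.Agent.ESG

open Pool.Agent.ESL

namespace COMPX

variable {V : Type} [AddCommGroup V] [Module (ZMod 2) V]

theorem disj {R' R'' R₁ R₂ : FS V} (h : Disjoint (Sp R') (Sp R'')) (hR : R' = R₁ ⊔ R₂)
    (h' : Disjoint (Sp R₁) (Sp R₂)) : Disjoint (Sp R₁) (Sp (R₂ ⊔ R'')) := by
  rw [Sp_sup]
  apply Disjoint.disjoint_sup_right_of_disjoint_sup_left h'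
  rw [← Sp_sup, ← hR]
  exact h

/-- two independent functionals over `F_2` -/
theorem sep2 [Finite V] {τ ψ : D V} (h : τ ≠ 0) (h' : τ ≠ ψ) : ∃ x, τ x = 1 ∧ ψ x = 0 := by
  obtain ⟨x, hx, hx1⟩ := exists_cosep (T := Submodule.span (ZMod 2) {ψ}) (φ := τ) (by
    intro hm
    obtain ⟨c, hc⟩ := Submodule.mem_span_singleton.1 hm
    rcases zm c with rfl | rfl
    · rw [zero_smul] at hc; exact h hc.symm
    · rw [one_smul] at hc; exact h' hc.symm)
  exact ⟨x, hx1, hx ψ (Submodule.mem_span_singleton_self ψ)⟩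

section ext

variable (e : V) (R : FS V) (L : Submodule (ZMod 2) (D V)) (τ : D V)

theorem Sp_ext_le (hL : Sp R ≤ L) :
    Sp (R ⊔ L.map (wd e τ)) ≤ L ⊔ Submodule.span (ZMod 2) {τ} := by
  apply Sp_le.2
  intro k hk x
  obtain ⟨a, ha, b, ⟨l, hl, rfl⟩, rfl⟩ := Submodule.mem_sup.1 hk
  rw [LinearMap.add_apply, wd_apply, add_assoc, ← add_assoc]
  apply Submodule.add_mem_sup
  · exact L.add_mem (hL (mem_Sp ha x)) (L.smul_mem _ hl)
  · rw [← add_smul]
    exact Submodule.smul_mem _ _ (Submodule.mem_span_singleton_self τ)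

theorem wd_mem {l : D V} (hl : l ∈ L) : wd e τ l ∈ R ⊔ L.map (wd e τ) :=
  Submodule.mem_sup_right (Submodule.mem_map_of_mem hl)

theorem tau_ne (hτ : τ ∉ L) : τ ≠ 0 := by
  rintro rfl
  exact hτ L.zero_mem

theorem ext_bot (hL : Sp R ≤ L) (h : L = ⊥) : R ⊔ L.map (wd e τ) = ⊥ := by
  subst h
  rw [Submodule.map_bot, sup_bot_eq, eq_bot_iff]
  intro k hk
  rw [Submodule.mem_bot]
  apply LinearMap.ext
  intro x
  exact (Submodule.mem_bot _).1 (hL (mem_Sp hk x))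

/-- if `L ≠ 0` then `τ` is in the support -/
theorem tau_mem_Sp [Finite V] (hτ : τ ∉ L) (h : L ≠ ⊥) : τ ∈ Sp (R ⊔ L.map (wd e τ)) := by
  obtain ⟨l, hl, hl0⟩ := Submodule.exists_mem_ne_zero_of_ne_bot h
  obtain ⟨x, hx1, hx0⟩ := sep2 (τ := l) (ψ := τ) hl0 (by rintro rfl; exact hτ hl)
  have h1 := mem_Sp (wd_mem e R L τ hl) x
  rwa [wd_of_zero_one hx0 hx1] at h1

theorem star_ext (hL : Sp R ≤ L) (he : τ e = 0) :
    ∀ χ ∈ Sp (R ⊔ L.map (wd e τ)), wd e τ χ ∈ R ⊔ L.map (wd e τ) := by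
  intro χ hχ
  obtain ⟨l, hl, m, hm, rfl⟩ := Submodule.mem_sup.1 (Sp_ext_le e R L τ hL hχ)
  obtain ⟨c, rfl⟩ := Submodule.mem_span_singleton.1 hm
  rw [map_add, map_smul, wd_self he, smul_zero, add_zero]
  exact wd_mem e R L τ hl

end ext

end COMPX

open COMPX in
theorem comp_proof : Stmt_COMP := by
  intro V _ _ _ e R h
  induction h with
  | loc k h =>
    intro x hx
    exact ⟨_, ⊥, (sup_bot_eq _).symm, by rw [Sp_bot]; exact disjoint_bot_right, hx, Or.inl ⟨k, rfl⟩⟩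
  | sum R' R'' h' h'' hd ih' ih'' =>
    intro x hx
    by_cases hx1 : x ∈ rad R'
    · have hx2 : x ∉ rad R'' := by
        intro hx2
        apply hx
        intro k hk
        obtain ⟨a, ha, b, hb, rfl⟩ := Submodule.mem_sup.1 hk
        rw [LinearMap.add_apply, hx1 a ha, hx2 b hb, add_zero]
      obtain ⟨R₁, R₂, hR, hd', hr, ho⟩ := ih'' x hx2
      refine ⟨R₁, R₂ ⊔ R', ?_, disj hd.symm hR hd', hr, ho⟩
      rw [← sup_assoc, ← hR, sup_comm]
    · obtain ⟨R₁, R₂, hR, hd', hr, ho⟩ := ih' x hx1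
      refine ⟨R₁, R₂ ⊔ R'', ?_, disj hd hR hd', hr, ho⟩
      rw [← sup_assoc, ← hR]
  | ext R L τ h hL hτ he ih =>
    intro x hx
    have hL0 : L ≠ ⊥ := by
      intro hL0
      apply hx
      rw [ext_bot e R L τ hL hL0]
      intro k hk
      rw [Submodule.mem_bot] at hk
      rw [hk]; rfl
    exact ⟨_, ⊥, (sup_bot_eq _).symm, by rw [Sp_bot]; exact disjoint_bot_right, hx,
      Or.inr ⟨τ, tau_mem_Sp e R L τ hτ hL0, tau_ne L τ hτ, he, star_ext e R L τ hL he⟩⟩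

end Pool.Agent.ESG
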