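import Pool.Agent.ESG.Stmts
import Pool.Agent.ESL.CROSS

/-!
`Q_m` and `Q_v` are independent for `m` in `M`, `v` in the centraliser of `M`.
-/

namespace Pool.Agent.ESG

open Pool.Agent.ESL

namespace CROSSX

variable {V : Type} [AddCommGroup V] [Module (ZMod 2) V]

theorem disj {R : FS V} {M : Submodule (ZMod 2) V} (ha : IsSym R) (hr : rad R = ⊥)
    (hs : M ⊔ cent R M = ⊤) : Disjoint M (cent R M) := by
  rw [Submodule.disjoint_def]
  intro x hxM hxN
  have h1 : x ∈ rad R := by
    intro k hk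
    ext y
    have hy : y ∈ M ⊔ cent R M := by rw [hs]; trivial
    obtain ⟨m, hm, v, hv, rfl⟩ := Submodule.mem_sup.1 hy
    rw [map_add, hv k hk x hxM, add_zero, ha k hk]
    exact hxN k hk m hm
  rw [hr] at h1
  simpa using h1

end CROSSX

open CROSSX

theorem cross_proof : Stmt_CROSS := by
  intro V _ _ _ e R τ M ha hL hr hτ hτe hst hτM hs m hm a haM v hv u hu hq
  have hsy : IsSym R := ha.sym
  have hd := disj hsy hr hs
  by_contra hcon
  push Not at hcon
  obtain ⟨k0, hk0, hne⟩ := hcon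
  have hone : k0 m a = 1 := zm_ne hne
  have hvu1 : k0 v u = 1 := by rw [← hq k0 hk0]; exact hone
  have hinM : ∀ x : V, (∀ ψ ∈ an M, ψ x = 0) → x ∈ M := by
    intro x hx
    rw [← co_an M]
    exact hx
  have hzero : ∀ x, x ∈ M → x ∈ cent R M → x = 0 := fun x h1 h2 => Submodule.disjoint_def.1 hd x h1 h2
  have hMval : ∀ ψ ∈ an M, wd e τ ψ m a = 0 := by
    intro ψ hψ
    rw [wd_apply₂, hτM m hm, hτM a haM, zero_mul, mul_zero, mul_zero, mul_zero, add_zero, add_zero]
  obtain ⟨eM, heM, e', he', hee⟩ : ∃ eM ∈ M, ∃ e' ∈ cent R M, eM + e' = e := by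
    have hx' : e ∈ M ⊔ cent R M := by rw [hs]; trivial
    exact Submodule.mem_sup.1 hx'
  have hψe : ∀ ψ ∈ an M, ψ e = ψ e' := by
    intro ψ hψ
    rw [← hee, map_add, hψ eM heM, zero_add]
  have h1 : τ v • u + τ u • v + (τ v * τ u) • e' = 0 := by
    apply hzero
    · apply hinM
      intro ψ hψ
      have h2 := hMval ψ hψ
      rw [hq _ (hst ψ hψ), wd_apply₂, hψe ψ hψ] at h2
      rw [map_add, map_add, map_smul, map_smul, map_smul, smul_eq_mul, smul_eq_mul, smul_eq_mul]
      rw [mul_comm (τ u), mul_comm _ (ψ e')]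
      exact h2
    · exact Submodule.add_mem _ (Submodule.add_mem _ (Submodule.smul_mem _ _ hu)
        (Submodule.smul_mem _ _ hv)) (Submodule.smul_mem _ _ he')
  have hv0 : v ≠ 0 := by
    rintro rfl
    rw [map_zero] at hvu1
    exact zero_ne_one hvu1
  have hτv : τ v = 0 := by
    rcases zm (τ v) with h | h
    · exact h
    · exfalso
      rw [h, one_smul, one_mul, add_assoc, ← smul_add] at h1
      have h2 : u = τ u • (v + e') := eq_of_add h1
      have h3 : k0 v (v + e') = 0 := by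
        rw [map_add, ha k0 hk0 v, ← hee, map_add, hsy k0 hk0 v eM, hv k0 hk0 eM heM, zero_add,
          CharTwo.add_self_eq_zero]
      rw [h2, map_smul, h3, smul_zero] at hvu1
      exact zero_ne_one hvu1
  obtain ⟨z, hz, hτz⟩ : ∃ z ∈ cent R M, τ z = 1 := by
    obtain ⟨x, hx⟩ : ∃ x, τ x ≠ 0 := by
      by_contra hc
      push Not at hc
      exact hτ (LinearMap.ext hc)
    have hx' : x ∈ M ⊔ cent R M := by rw [hs]; trivial
    obtain ⟨m', hm', z, hz, rfl⟩ := Submodule.mem_sup.1 hx'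
    rw [map_add, hτM m' hm', zero_add] at hx
    exact ⟨z, hz, zm_ne hx⟩
  -- forms killing `z + m` kill `m`
  have hfx : ∀ k ∈ R, k (z + m) = 0 → k m = 0 := by
    intro k hk hkz
    rw [map_add] at hkz
    have hkz' : k z = k m := eq_of_add hkz
    ext y
    have hy : y ∈ M ⊔ cent R M := by rw [hs]; trivial
    obtain ⟨m', hm', w, hw, rfl⟩ := Submodule.mem_sup.1 hy
    rw [map_add, hw k hk m hm, add_zero, ← hkz', hsy k hk]
    exact hz k hk m' hm'
  obtain ⟨s0, hs0⟩ := ESL.CROSSX.exists_slot R (z + m)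
    { toFun := fun k => (k : Fm V) m a
      map_add' := fun _ _ => rfl
      map_smul' := fun _ _ => rfl } (by
      intro k hk
      show (k : Fm V) m a = 0
      rw [hfx k k.2 hk]; rfl)
  have hs0' : ∀ k ∈ R, k (z + m) s0 = k v u := by
    intro k hk
    rw [← hq k hk]
    exact (hs0 ⟨k, hk⟩).symm
  obtain ⟨s, e1, e2, -⟩ := Linked.primal hL (z + m) s0 v u hs0'
  have hsM : s + τ s • (z + e) ∈ M := by
    apply hinM
    intro ψ hψ
    have h2 := e1 _ (hst ψ hψ)
    rw [hs0' _ (hst ψ hψ), ← hq _ (hst ψ hψ), hMval ψ hψ, wd_apply₂, map_add, map_add, hτz,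
      hτM m hm, hψ m hm, add_zero, add_zero, one_mul, one_mul] at h2
    rw [map_add, map_smul, smul_eq_mul, map_add, h2]
    ring
  have h3 : ∀ k ∈ R, k v u = τ s * k v (z + e) := by
    intro k hk
    have h4 : k v (s + τ s • (z + e)) = 0 := by
      rw [hsy k hk]
      exact hv k hk _ hsM
    rw [map_add, map_smul, smul_eq_mul, ← e2 k hk] at h4
    exact CharTwo.add_eq_zero.1 h4
  have hτs : τ s = 1 := by
    rcases zm (τ s) with h | h
    · exfalso
      have := h3 k0 hk0
      rw [h, zero_mul, hvu1] at this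
      exact one_ne_zero this
    · exact h
  apply hv0
  apply hzero v _ hv
  apply hinM
  intro ψ hψ
  have h5 := h3 _ (hst ψ hψ)
  rw [← hq _ (hst ψ hψ), hMval ψ hψ, hτs, one_mul, wd_apply₂, hτv, map_add, map_add, hτz, hτe,
    zero_mul, zero_add, add_zero, mul_one, zero_mul, mul_zero, add_zero] at h5
  exact h5.symm

end Pool.Agent.ESG
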