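import Pool.Agent.ESG.Stmts

/-!
CTXC: the counting context holds in Part I.
-/

set_option linter.unusedVariables false

namespace Pool.Agent.ESG

open Pool.Agent.ESL

theorem ctxc_proof (hPZ : Stmt_PZ) (hDIAG : Stmt_DIAG) (hPAIR : Stmt_PAIR) (hP3 : Stmt_P3)
    (hF1 : Stmt_F1) (hF4A : Stmt_F4A) (hF4C : Stmt_F4C) (hFULL : Stmt_FULL) : Stmt_CTXC := by
  intro V _ _ _ e R τ M hC
  have hFull : Full R M := hFULL V e R τ M hC
  have hτM : ∀ m ∈ M, τ m = 0 := by
    rw [← hC.star, wd_self hC.τe]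
    exact R.zero_mem
  obtain ⟨τ', hτ'⟩ := exists_comp (M := M) hτM
  have hτ'' : ∀ x, τ' (M.mkQ x) = τ x := fun x => congrArg (fun f : D V => f x) hτ'
  have hsurj := M.mkQ_surjective
  have hmem : ∀ x : V, M.mkQ x = 0 ↔ x ∈ M := fun x => by
    rw [← LinearMap.mem_ker, Submodule.ker_mkQ]
  have hwu : IsWu (M.mkQ e) (R0 R M) := R0_wu hC.wu M
  have hstar : ∀ ψ, wd (M.mkQ e) τ' ψ ∈ R0 R M := by
    intro ψ
    rw [mem_R0]
    rw [pull_wd, hτ', hC.star]
    intro m hm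
    rw [LinearMap.comp_apply, (hmem m).2 hm, map_zero]
  have hlink := hC.sl.linked
  refine ⟨τ', hτ', fun α => ⟨⟨hwu, ?_, ?_, hstar, ?_, ?_, ?_, ?_⟩, ?_⟩⟩
  · rintro rfl
    apply hC.τ0
    rw [← hτ']
    rfl
  · rw [hτ'', hC.τe]
  · intro κ hκ θ x
    exact hPZ V R M α κ hκ θ x
  · intro θ x
    exact hDIAG V R M α hC.wu.sym hlink (hF1 V e R τ M hC) θ x
  · intro θ v v' hne hv
    refine hPAIR V R M α hC.wu.sym hlink v v' hne (fun w hw => ?_) θ
    apply hF4A V e R τ M hC w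
    · rw [← hmem, hw]
      intro h
      apply hne
      exact eq_of_add h
    · rw [← hτ'', hw, hv]
  · intro θ y hy h1
    refine hP3 V e R M α hC.wu hFull y (fun ψ hψ => ?_) θ h1
    exact ⟨wd (M.mkQ e) τ' ψ, hstar ψ, wd_of_one_zero hy hψ⟩
  · intro hbad hsep θ v v' hv
    have hne : v ≠ v' := by
      rintro rfl
      rw [add_self', map_zero] at hv
      exact zero_ne_one hv
    refine hPAIR V R M α hC.wu.sym hlink v v' hne (fun w hw => ?_) θ
    refine (hF4C V e R τ M hC w ?_ ?_).resolve_right hbad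
    · rw [← hτ'', hw, hv]
    · intro x hxM hx
      obtain ⟨κ, hκ, hκy, hκx⟩ := hsep (M.mkQ w) (M.mkQ x) (by rw [hw, hv])
        (by rw [hτ'', hx]) (fun h => hxM ((hmem x).1 h))
      refine ⟨pull M.mkQ κ, hκ, fun m hm => pull_ker κ hm, ?_, ?_⟩
      · rw [pull_apply', hκy]
        rfl
      · rw [pull_apply']
        intro h
        apply hκx
        apply comp_inj hsurj
        rw [h]
        rfl

end Pool.Agent.ESG
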