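import Pool.Agent.ESG.Stmts

namespace Pool.Agent.ESG

open Pool.Agent.ESL

theorem etwu_proof : Stmt_ETWU := by
  intro V _ _ e R h
  induction h with
  | loc k h =>
    intro l hl x
    obtain ⟨c, rfl⟩ := Submodule.mem_span_singleton.1 hl
    simp [h]
  | sum R₁ R₂ h₁ h₂ h ih₁ ih₂ =>
    intro l hl x
    obtain ⟨a, ha, b, hb, rfl⟩ := Submodule.mem_sup.1 hl
    simp only [LinearMap.add_apply]
    rw [ih₁ a ha x, ih₂ b hb x]
  | ext R L τ h hL hτ he ih =>
    intro l hl x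
    obtain ⟨a, ha, b, hb, rfl⟩ := Submodule.mem_sup.1 hl
    obtain ⟨ψ, hψ, rfl⟩ := hb
    simp only [LinearMap.add_apply]
    rw [ih a ha x, wd_wu he]

end Pool.Agent.ESG
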