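import Pool.Agent.ESG.Stmts

/-!
Module EXT: a star of full dimension.
-/

set_option linter.unusedVariables false

namespace Pool.Agent.ESG

open Pool.Agent.ESL

theorem ext_proof : Stmt_EXT := by
  intro V _ _ _ e R hR hSL hrad hIH τ hτ hτe hstar
  obtain ⟨t, ht⟩ : ∃ t, τ t = 1 := by
    by_contra hc
    push Not at hc
    exact hτ (LinearMap.ext fun x => zm_ne' (hc x))
  have ht0 : t ≠ 0 := by
    rintro rfl
    rw [map_zero] at ht
    exact zero_ne_one ht
  have hne : fx R t ≠ R := by
    intro h
    apply ht0
    have : t ∈ rad R := by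
      intro k hk
      rw [← h] at hk
      exact hk.2
    rw [hrad] at this
    simpa using this
  have hET := hIH (fx R t) (fx_le R t) hne (hSL.fx t)
  have hSp : Sp (fx R t) ≤ an (Submodule.span (ZMod 2) {t}) := by
    apply Sp_le.2
    intro k hk x z hz
    obtain ⟨c, rfl⟩ := Submodule.mem_span_singleton.1 hz
    rw [map_smul, hR.symm hk.1, hk.2]
    simp
  have hτn : τ ∉ an (Submodule.span (ZMod 2) {t}) := by
    intro h
    have := h t (Submodule.mem_span_singleton_self t)
    rw [ht] at this
    exact one_ne_zero this
  have key := ET.ext (fx R t) (an (Submodule.span (ZMod 2) {t})) τ hET hSp hτn hτe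
  have hEq : fx R t ⊔ (an (Submodule.span (ZMod 2) {t})).map (wd e τ) = R := by
    apply le_antisymm
    · apply sup_le (fx_le R t)
      rintro _ ⟨ψ, -, rfl⟩
      have : ψ ∈ St e R τ := by rw [hstar]; trivial
      exact this
    · intro k hk
      have hkt : k t + (k t t) • τ ∈ an (Submodule.span (ZMod 2) {t}) := by
        intro z hz
        obtain ⟨c, rfl⟩ := Submodule.mem_span_singleton.1 hz
        rw [map_smul, LinearMap.add_apply, LinearMap.smul_apply, ht]
        simp only [smul_eq_mul, mul_one, CharTwo.add_self_eq_zero, mul_zero]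
      have hwd : wd e τ (k t + (k t t) • τ) = wd e τ (k t) := by
        rw [map_add, map_smul, wd_self hτe, smul_zero, add_zero]
      have h1 : wd e τ (k t) ∈ R := by
        have : k t ∈ St e R τ := by rw [hstar]; trivial
        exact this
      have h2 : k + wd e τ (k t) ∈ fx R t := by
        refine ⟨R.add_mem hk h1, ?_⟩
        rw [LinearMap.add_apply, wd_of_one ht, map_add, hR k hk t, CharTwo.add_self_eq_zero, zero_smul,
          add_zero, add_self']
      have h3 := Submodule.add_mem_sup h2 (Submodule.mem_map_of_mem (f := wd e τ) hkt)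
      rw [hwd] at h3
      rwa [add_add_self'] at h3
  rw [hEq] at key
  exact key

end Pool.Agent.ESG
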