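import Pool.Agent.ESG.Basic
import Pool.Agent.ESL.Stmts

/-!
Statements of the modules of the proof of `SL R → ET e R` (strongly linked form spaces with Wu class `e` are of
elementary type).  Notions and statements which do not depend on `e` are those of `Pool.Agent.ESL`
(`sOn`, `sg`, `cent`, `OC`, `Stmt_PZ`, `Stmt_FOUR`, `Stmt_CONST`, `Stmt_SIGN`, `Stmt_OC`).
-/

set_option linter.unusedVariables false

namespace Pool.Agent.ESG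

open Pool.Agent.ESL

/-! ### A. Linear algebra and ET -/

/-- decompositions of `[τ, ψ]` -/
def Stmt_SUM2 : Prop := ∀ (V : Type) [AddCommGroup V] [Module (ZMod 2) V] [Finite V] (e : V) (τ ψ : D V)
  (a b : Fm V), τ e = 0 → (∀ x, a x x = a x e) → (∀ x, b x x = b x e) →
  Disjoint (LinearMap.range a) (LinearMap.range b) →
  wd e τ ψ = a + b → a = 0 ∨ b = 0 ∨ (ψ e = 1 ∧ ((a = rho ψ ∧ b = rho (ψ + τ)) ∨
    (a = rho (ψ + τ) ∧ b = rho ψ)))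

/-- decompositions of `φ ⊗ φ` -/
def Stmt_RHO1 : Prop := ∀ (V : Type) [AddCommGroup V] [Module (ZMod 2) V] [Finite V] (φ : D V)
  (a b : Fm V), (∀ x y, a x y = a y x) → (∀ x y, b x y = b y x) →
  Disjoint (LinearMap.range a) (LinearMap.range b) → rho φ = a + b → a = 0 ∨ b = 0

def Stmt_ETWU : Prop := ∀ (V : Type) [AddCommGroup V] [Module (ZMod 2) V] (e : V) (R : FS V), ET e R → IsWu e R

/-- every functional in the support of an ET space is a value -/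
def Stmt_SPV : Prop := ∀ (V : Type) [AddCommGroup V] [Module (ZMod 2) V] [Finite V] (e : V) (R : FS V),
  ET e R → ∀ φ ∈ Sp R, ∃ k ∈ R, ∃ u, k u = φ

/-- forms with support in a line -/
def Stmt_LINE : Prop := ∀ (V : Type) [AddCommGroup V] [Module (ZMod 2) V] [Finite V] (e : V) (R : FS V) (l : D V),
  IsWu e R → Sp R ≤ Submodule.span (ZMod 2) {l} → R = ⊥ ∨ (l e = 1 ∧ R = Submodule.span (ZMod 2) {rho l})

/-- a form of rank two is `[τ, ψ]` -/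
def Stmt_T2 : Prop := ∀ (V : Type) [AddCommGroup V] [Module (ZMod 2) V] [Finite V] (e : V) (k : Fm V),
  (∀ x, k x x = k x e) → fr (LinearMap.range k) = 2 →
  ∃ τ ψ : D V, τ ≠ 0 ∧ ψ ≠ 0 ∧ ψ ≠ τ ∧ τ e = 0 ∧ k = wd e τ ψ ∧ τ ∈ LinearMap.range k ∧
    ψ ∈ LinearMap.range k ∧ (k e ≠ 0 → k e = τ ∧ ψ e = 1)

/-- a space with a basis with independent supports is of elementary type -/
def Stmt_INDET : Prop := ∀ (V : Type) [AddCommGroup V] [Module (ZMod 2) V] [Finite V] (e : V)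
  (A : Finset (Fm V)), IndB A → (∀ a ∈ A, ∀ x, a x x = a x e) →
  ET e (Submodule.span (ZMod 2) (A : Set (Fm V)))

/-- the component(s) of a form of rank two -/
def Stmt_RK2 : Prop := ∀ (V : Type) [AddCommGroup V] [Module (ZMod 2) V] [Finite V] (e : V) (R : FS V), ET e R →
  ∀ τ ψ : D V, τ e = 0 → wd e τ ψ ∈ R → wd e τ ψ ≠ 0 →
  (∃ R₁ R₂ : FS V, R = R₁ ⊔ R₂ ∧ Disjoint (Sp R₁) (Sp R₂) ∧ τ ∈ Sp R₁ ∧ ψ ∈ Sp R₁ ∧ ∃ σ, IsStar e R₁ σ) ∨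
  (ψ e = 1 ∧ ∃ R₁ R₂ : FS V, ET e R₁ ∧ ET e R₂ ∧ R = R₁ ⊔ R₂ ∧ Disjoint (Sp R₁) (Sp R₂) ∧
    rho ψ ∈ R₁ ∧ rho (ψ + τ) ∈ R₂)

/-- the component of a form of rank one -/
def Stmt_RK1 : Prop := ∀ (V : Type) [AddCommGroup V] [Module (ZMod 2) V] [Finite V] (e : V) (R : FS V), ET e R →
  ∀ φ : D V, φ ≠ 0 → rho φ ∈ R → ∃ R₁ R₂ : FS V, R = R₁ ⊔ R₂ ∧ Disjoint (Sp R₁) (Sp R₂) ∧ rho φ ∈ R₁ ∧
    (R₁ = Submodule.span (ZMod 2) {rho φ} ∨ (3 ≤ fr (Sp R₁) ∧ ∃ σ, IsStar e R₁ σ))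

/-- a component (local or star) not killed by `x` -/
def Stmt_COMP : Prop := ∀ (V : Type) [AddCommGroup V] [Module (ZMod 2) V] [Finite V] (e : V) (R : FS V),
  ET e R → ∀ x, x ∉ rad R → ∃ R₁ R₂ : FS V, R = R₁ ⊔ R₂ ∧ Disjoint (Sp R₁) (Sp R₂) ∧ x ∉ rad R₁ ∧
    ((∃ k, R₁ = Submodule.span (ZMod 2) {k}) ∨ ∃ σ, IsStar e R₁ σ)

/-- a bad star with respect to `M` -/
def BadS {V : Type} [AddCommGroup V] [Module (ZMod 2) V] (e : V) (R : FS V) (M : Submodule (ZMod 2) V) : Prop :=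
  ∃ σ φ : D V, σ e = 0 ∧ φ e = 1 ∧ (∀ m ∈ M, φ m = 0) ∧ wd e σ φ ∈ R ∧
    (∃ m ∈ M, m ≠ 0 ∧ σ m = 0 ∧ σ ∈ Lx R m) ∧ ∃ m ∈ M, σ m = 1

/-- the forms killing a full `M` are a direct summand of an ET space, or there is a bad star -/
def Stmt_MET : Prop := ∀ (V : Type) [AddCommGroup V] [Module (ZMod 2) V] [Finite V] (e : V) (R : FS V),
  ET e R → ∀ M : Submodule (ZMod 2) V, Full R M →
  (∃ R' : FS V, R = fxs R M ⊔ R' ∧ Disjoint (Sp (fxs R M)) (Sp R')) ∨ BadS e R M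

/-- ET spaces with small stars have a basis with independent supports -/
def Stmt_ATB : Prop := ∀ (V : Type) [AddCommGroup V] [Module (ZMod 2) V] [Finite V] (e : V) (R : FS V), ET e R →
  (∀ σ : D V, σ ≠ 0 → σ e = 0 → fr (St e R σ) ≤ 2) →
  ∃ A : Finset (Fm V), IndB A ∧ Submodule.span (ZMod 2) (A : Set (Fm V)) = R

/-- reduction to `rad R = ⊥`, and the induction -/
def Stmt_RED : Prop :=
  (∀ (V : Type) [AddCommGroup V] [Module (ZMod 2) V] [Finite V] (e : V) (R : FS V), IsWu e R → SL R →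
    rad R = ⊥ → IH e R → ET e R) →
  ∀ (V : Type) [AddCommGroup V] [Module (ZMod 2) V] [Finite V] (e : V) (R : FS V), IsWu e R → SL R → ET e R

/-- a star of full dimension -/
def Stmt_EXT : Prop := ∀ (V : Type) [AddCommGroup V] [Module (ZMod 2) V] [Finite V] (e : V) (R : FS V),
  IsWu e R → SL R → rad R = ⊥ → IH e R → ∀ τ : D V, τ ≠ 0 → τ e = 0 → St e R τ = ⊤ → ET e R

/-! ### B. Part I: structure (`3 ≤ d < dim V`) -/

def Stmt_F1 : Prop := ∀ (V : Type) [AddCommGroup V] [Module (ZMod 2) V] [Finite V] (e : V) (R : FS V) (τ : D V)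
  (M : Submodule (ZMod 2) V), CtxI e R τ M → ∀ w ∈ M, w ≠ 0 → Spl R M w

def Stmt_F2 : Prop := ∀ (V : Type) [AddCommGroup V] [Module (ZMod 2) V] [Finite V] (e : V) (R : FS V) (τ : D V)
  (M : Submodule (ZMod 2) V), CtxI e R τ M → (∀ w ∈ M, w ≠ 0 → Spl R M w) → 2 ≤ fr M → Full R M

/-- the situation of (F3): `M = ⟨m⟩`, `z` commutes with `m`, `τ z = 1` -/
structure F3H {V : Type} [AddCommGroup V] [Module (ZMod 2) V] (e : V) (R : FS V) (τ : D V) (m z : V) :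
    Prop where
  one : τ z = 1
  comm : ∀ k ∈ R, k z m = 0
  red : ∀ k ∈ R, k + wd e τ (k z) ∈ fx R z
  hh : ∀ h, τ h = 0 → h ≠ 0 → h ≠ m → ∀ ψ ∈ Lx R m, ψ h = 0 → ∃ k ∈ fx R z, k h = 0 ∧ k m = ψ

def Stmt_F3A : Prop := ∀ (V : Type) [AddCommGroup V] [Module (ZMod 2) V] [Finite V] (e : V) (R : FS V) (τ : D V)
  (m : V), CtxI e R τ (Submodule.span (ZMod 2) {m}) → ∃ z, F3H e R τ m z

def Stmt_F3B : Prop := ∀ (V : Type) [AddCommGroup V] [Module (ZMod 2) V] [Finite V] (e : V) (R : FS V) (τ : D V)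
  (m z : V), CtxI e R τ (Submodule.span (ZMod 2) {m}) → F3H e R τ m z →
    ∀ R₁ R₂ : FS V, fx R z = R₁ ⊔ R₂ → Disjoint (Sp R₁) (Sp R₂) → m ∉ rad R₁ →
      Full R (Submodule.span (ZMod 2) {m}) ∨ (R₂ = ⊥ ∧ rad (fx R z) = Submodule.span (ZMod 2) {z})

/-- (F3) `R^z` is one star -/
def Stmt_F3C : Prop := ∀ (V : Type) [AddCommGroup V] [Module (ZMod 2) V] [Finite V] (e : V) (R : FS V) (τ : D V)
  (m z : V), CtxI e R τ (Submodule.span (ZMod 2) {m}) → F3H e R τ m z →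
    rad (fx R z) = Submodule.span (ZMod 2) {z} → ∀ σ, ¬ IsStar e (fx R z) σ

def Stmt_F3 : Prop := ∀ (V : Type) [AddCommGroup V] [Module (ZMod 2) V] [Finite V] (e : V) (R : FS V) (τ : D V)
  (M : Submodule (ZMod 2) V), CtxI e R τ M → fr M = 1 → Full R M

def Stmt_FULL : Prop := ∀ (V : Type) [AddCommGroup V] [Module (ZMod 2) V] [Finite V] (e : V) (R : FS V) (τ : D V)
  (M : Submodule (ZMod 2) V), CtxI e R τ M → Full R M

/-- two maximal stars sharing a real functional (excluded) -/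
def Stmt_F4X : Prop := ∀ (V : Type) [AddCommGroup V] [Module (ZMod 2) V] [Finite V] (e : V) (R : FS V) (τ : D V)
  (M : Submodule (ZMod 2) V), CtxI e R τ M → ∀ w, w ≠ 0 → w ∉ M → τ w = 0 →
  ∀ ψ : D V, (∀ m ∈ M, ψ m = 0) → ψ e = 1 → rho ψ ∈ R → rho (ψ + τ) ∈ R →
  ∀ R₁ : FS V, R₁ ≤ fx R w → rho ψ ∈ R₁ → ψ + τ ∉ Sp R₁ → fr V ≤ fr M + fr (Sp R₁) →
    (∃ σ, IsStar e R₁ σ) → False

/-- (F4), `w ∈ H \ M` -/
def Stmt_F4A : Prop := ∀ (V : Type) [AddCommGroup V] [Module (ZMod 2) V] [Finite V] (e : V) (R : FS V) (τ : D V)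
  (M : Submodule (ZMod 2) V), CtxI e R τ M → ∀ w, w ∉ M → τ w = 0 → Spl R M w

/-- (F4), `y ∈ Y` -/
def Stmt_F4C : Prop := ∀ (V : Type) [AddCommGroup V] [Module (ZMod 2) V] [Finite V] (e : V) (R : FS V) (τ : D V)
  (M : Submodule (ZMod 2) V), CtxI e R τ M → ∀ y, τ y = 1 →
    (∀ x, x ∉ M → τ x = 0 → ∃ κ ∈ R, (∀ m ∈ M, κ m = 0) ∧ κ y = 0 ∧ κ x ≠ 0) → Spl R M y ∨ BadS e R M

/-! ### C. Counting -/

/-- the splitting equivalence -/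
def Stmt_SPLEQ : Prop := ∀ (V : Type) [AddCommGroup V] [Module (ZMod 2) V] [Finite V] (R : FS V)
  (M C : Submodule (ZMod 2) V) (w : V), IsSym R → C ⊔ M = ⊤ →
  (∀ k ∈ R, k w = 0 → ∃ κ ∈ R, (∀ m ∈ M, κ m = 0) ∧ κ w = 0 ∧ ∀ c ∈ C, k c = κ c) → ∀ (α : D V),
  (∀ θ : D (V ⧸ M), ∀ c ∈ C, ∀ a ∈ M, α + θ ∘ₗ M.mkQ ∈ Lx (fx R w) (c + a) ↔
    ∃ θ' : D (V ⧸ M), θ' + θ ∈ Lx (fx (R0 R M) (M.mkQ w)) (M.mkQ c) ∧ α + θ' ∘ₗ M.mkQ ∈ Lx (fx R w) a) ∧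
  (∀ θ θ' : D (V ⧸ M), ∀ a ∈ M, ∀ a' ∈ M, α + θ ∘ₗ M.mkQ ∈ Lx (fx R w) a →
    α + θ' ∘ₗ M.mkQ ∈ Lx (fx R w) a' → θ = θ')

/-- (P1) DIAG -/
def Stmt_DIAG : Prop := ∀ (V : Type) [AddCommGroup V] [Module (ZMod 2) V] [Finite V] (R : FS V)
  (M : Submodule (ZMod 2) V) (α : D V), IsSym R → Linked R → (∀ w ∈ M, w ≠ 0 → Spl R M w) → ∀ θ x,
  ((PP R M α θ x : ℤ) ^ 2 - PP R M α θ x) =
    sOn {θ' | θ' + θ ∈ Lx (R0 R M) x} (fun θ' => (PP R M α θ' 0 : ℤ) ^ 2 - PP R M α θ' 0)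

/-- (P2) PAIR -/
def Stmt_PAIR : Prop := ∀ (V : Type) [AddCommGroup V] [Module (ZMod 2) V] [Finite V] (R : FS V)
  (M : Submodule (ZMod 2) V) (α : D V), IsSym R → Linked R → ∀ v v' : V ⧸ M, v ≠ v' →
  (∀ w : V, M.mkQ w = v + v' → Spl R M w) → ∀ θ,
  ((PP R M α θ v : ℤ) * PP R M α θ v') =
    sOn {θ' | θ' + θ ∈ Lx (fx (R0 R M) (v + v')) v} (fun θ' => (PP R M α θ' 0 : ℤ) * PP R M α θ' (v + v'))

/-- (P3) -/
def Stmt_P3 : Prop := ∀ (V : Type) [AddCommGroup V] [Module (ZMod 2) V] [Finite V] (e : V) (R : FS V)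
  (M : Submodule (ZMod 2) V) (α : D V), IsWu e R → Full R M → ∀ x : V ⧸ M,
  (∀ ψ : D (V ⧸ M), ψ (x + M.mkQ e) = 0 → ψ ∈ Lx (R0 R M) x) → ∀ θ, 1 ≤ PP R M α θ 0 → 1 ≤ PP R M α θ x

/-- the abstract counting context, `X = V / M` -/
structure CtxC {X : Type} [AddCommGroup X] [Module (ZMod 2) X] [Finite X] (e : X) (R : FS X) (τ : D X)
    (P : D X → X → ℕ) : Prop where
  wu : IsWu e R
  τ0 : τ ≠ 0
  τe : τ e = 0
  star : ∀ ψ, wd e τ ψ ∈ R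
  zero : ∀ κ ∈ R, ∀ θ x, P (θ + κ x) x = P θ x
  diag : ∀ θ x, ((P θ x : ℤ) ^ 2 - P θ x) =
    sOn {θ' | θ' + θ ∈ Lx R x} (fun θ' => (P θ' 0 : ℤ) ^ 2 - P θ' 0)
  pair : ∀ θ v v', v ≠ v' → τ (v + v') = 0 → ((P θ v : ℤ) * P θ v') =
    sOn {θ' | θ' + θ ∈ Lx (fx R (v + v')) v} (fun θ' => (P θ' 0 : ℤ) * P θ' (v + v'))
  pos : ∀ θ y, τ y = 1 → 1 ≤ P θ 0 → 1 ≤ P θ y

/-- PAIR for `v + v'` in `Y`, if the radical is trivial -/
def PairY {X : Type} [AddCommGroup X] [Module (ZMod 2) X] [Finite X] (R : FS X) (τ : D X)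
    (P : D X → X → ℕ) : Prop :=
  (∀ y x, τ y = 1 → τ x = 0 → x ≠ 0 → ∃ κ ∈ R, κ y = 0 ∧ κ x ≠ 0) → ∀ θ v v', τ (v + v') = 1 →
    ((P θ v : ℤ) * P θ v') =
    sOn {θ' | θ' + θ ∈ Lx (fx R (v + v')) v} (fun θ' => (P θ' 0 : ℤ) * P θ' (v + v'))

/-- facts on `Y` in the counting context -/
def Stmt_C3Y : Prop := ∀ (X : Type) [AddCommGroup X] [Module (ZMod 2) X] [Finite X] (e : X) (R : FS X) (τ : D X)
  (P : D X → X → ℕ), CtxC e R τ P →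
  (∀ y, τ y = 1 → ∀ θ ψ : D X, ψ (y + e) = 0 → P (θ + ψ) y = P θ y) ∧
  (∀ y, τ y = 1 → ∀ θ, ((P θ y : ℤ) ^ 2 - P θ y) =
    sOn {θ' | θ' (y + e) = θ (y + e)} (fun θ' => (P θ' 0 : ℤ) ^ 2 - P θ' 0)) ∧
  (∀ y y', y ≠ y' → τ y = 1 → τ y' = 1 → ∀ θ, ((P θ y : ℤ) * P θ y') =
    sOn {θ' | θ' (y + e) = θ (y + e) ∧ θ' (y' + e) = θ (y' + e)}
      (fun θ' => (P θ' 0 : ℤ) * P θ' (y + y')))

/-- case `D ≠ 0` -/
def Stmt_C3D : Prop := ∀ (X : Type) [AddCommGroup X] [Module (ZMod 2) X] [Finite X] (e : X) (R : FS X) (τ : D X)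
  (P : D X → X → ℕ), CtxC e R τ P → 3 ≤ fr X → ∀ p d : ℤ, 0 < d →
  (∀ y, τ y = 1 → (P 0 y : ℤ) + P τ y = p ∧ (P 0 y : ℤ) - P τ y = d) → ∀ θ, 1 ≤ P θ 0 → θ = 0

/-- case `D = 0`, without PAIR on `Y` -/
def Stmt_C3F : Prop := ∀ (X : Type) [AddCommGroup X] [Module (ZMod 2) X] [Finite X] (e : X) (R : FS X) (τ : D X)
  (P : D X → X → ℕ), CtxC e R τ P → 3 ≤ fr X → ∀ c : ℕ, 1 ≤ c →
  (∀ y, τ y = 1 → P 0 y = c ∧ P τ y = c) → (∃ θ, 1 ≤ P θ 0) →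
  (∀ θ, (P (θ + τ) 0 : ℤ) ^ 2 - P (θ + τ) 0 = (P θ 0 : ℤ) ^ 2 - P θ 0) ∧ (∃ θ, 2 ≤ P θ 0) ∧
  ∀ θ, 2 ≤ P θ 0 → P (θ + τ) 0 = P θ 0 ∧ ∀ x, x ≠ 0 → τ x = 0 → 2 * P θ 0 ≤ P θ x

/-- case `D = 0` -/
def Stmt_C3E : Prop := ∀ (X : Type) [AddCommGroup X] [Module (ZMod 2) X] [Finite X] (e : X) (R : FS X) (τ : D X)
  (P : D X → X → ℕ), CtxC e R τ P → PairY R τ P → 3 ≤ fr X → ∀ c : ℕ, 1 ≤ c →
  (∀ y, τ y = 1 → P 0 y = c ∧ P τ y = c) → (∃ θ, 1 ≤ P θ 0) → False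

/-- one colour or case `D = 0` -/
def Stmt_C3N : Prop := ∀ (X : Type) [AddCommGroup X] [Module (ZMod 2) X] [Finite X] (e : X) (R : FS X) (τ : D X)
  (P : D X → X → ℕ), CtxC e R τ P → 3 ≤ fr X →
  (∀ θ θ', 1 ≤ P θ 0 → 1 ≤ P θ' 0 → θ = θ') ∨
  (∃ c : ℕ, 1 ≤ c ∧ (∀ y, τ y = 1 → P 0 y = c ∧ P τ y = c) ∧ ∃ θ, 1 ≤ P θ 0)

/-- the counting context holds in Part I -/
def Stmt_CTXC : Prop := ∀ (V : Type) [AddCommGroup V] [Module (ZMod 2) V] [Finite V] (e : V) (R : FS V) (τ : D V)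
  (M : Submodule (ZMod 2) V), CtxI e R τ M → ∃ τ' : D (V ⧸ M), τ' ∘ₗ M.mkQ = τ ∧
  ∀ α : D V, CtxC (M.mkQ e) (R0 R M) τ' (PP R M α) ∧ (¬ BadS e R M → PairY (R0 R M) τ' (PP R M α))

/-- there is no bad star -/
def Stmt_BAD : Prop := ∀ (V : Type) [AddCommGroup V] [Module (ZMod 2) V] [Finite V] (e : V) (R : FS V) (τ : D V)
  (M : Submodule (ZMod 2) V), CtxI e R τ M → ¬ BadS e R M

/-- (C3) one colour -/
def Stmt_C3 : Prop := ∀ (V : Type) [AddCommGroup V] [Module (ZMod 2) V] [Finite V] (e : V) (R : FS V) (τ : D V)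
  (M : Submodule (ZMod 2) V), CtxI e R τ M → OC R M

/-! ### D. End of Part I -/

/-- saturation: `V = M + V_M` -/
def Stmt_SAT : Prop := ∀ (V : Type) [AddCommGroup V] [Module (ZMod 2) V] [Finite V] (R : FS V)
  (M : Submodule (ZMod 2) V), IsSym R → Linked R → OC R M → M ⊔ cent R M = ⊤

/-- `Q_m ∩ Q_v = 0` for `m ∈ M`, `v ∈ V_M` -/
def Stmt_CROSS : Prop := ∀ (V : Type) [AddCommGroup V] [Module (ZMod 2) V] [Finite V] (e : V) (R : FS V) (τ : D V)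
  (M : Submodule (ZMod 2) V), IsWu e R → Linked R → rad R = ⊥ → τ ≠ 0 → τ e = 0 →
  (∀ ψ ∈ an M, wd e τ ψ ∈ R) → (∀ m ∈ M, τ m = 0) → M ⊔ cent R M = ⊤ →
  ∀ m ∈ M, ∀ a ∈ M, ∀ v ∈ cent R M, ∀ u ∈ cent R M, (∀ k ∈ R, k m a = k v u) → ∀ k ∈ R, k m a = 0

/-- decomposition -/
def Stmt_ENDD : Prop := ∀ (V : Type) [AddCommGroup V] [Module (ZMod 2) V] [Finite V] (e : V) (R : FS V)
  (M : Submodule (ZMod 2) V), IsWu e R → SL R → rad R = ⊥ → IH e R → M ≠ ⊥ → M ≠ ⊤ → M ⊔ cent R M = ⊤ →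
  (∀ m ∈ M, ∀ a ∈ M, ∀ v ∈ cent R M, ∀ u ∈ cent R M, (∀ k ∈ R, k m a = k v u) → ∀ k ∈ R, k m a = 0) →
  ET e R

/-- Part I -/
def Stmt_PARTI : Prop := ∀ (V : Type) [AddCommGroup V] [Module (ZMod 2) V] [Finite V] (e : V) (R : FS V) (τ : D V)
  (M : Submodule (ZMod 2) V), CtxI e R τ M → IH e R → ET e R

/-! ### E. Part II: atoms and blocks -/

/-- a basis with independent supports is unique -/
def Stmt_AU : Prop := ∀ (V : Type) [AddCommGroup V] [Module (ZMod 2) V] [Finite V] (A : Finset (Fm V)) (S : FS V),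
  (∀ a ∈ A, ∀ x y, a x y = a y x) → IndB A → Submodule.span (ZMod 2) (A : Set (Fm V)) = S → ∀ a, a ∈ A ↔
    a ∈ S ∧ a ≠ 0 ∧ ∀ k ∈ S, LinearMap.range k ≤ LinearMap.range a → k = 0 ∨ k = a

def Stmt_AU1 : Prop := ∀ (V : Type) [AddCommGroup V] [Module (ZMod 2) V] [Finite V] (e : V) (R : FS V), CtxII e R →
  ∀ w, w ≠ 0 → IndB (ats R w) ∧ Submodule.span (ZMod 2) (ats R w : Set (Fm V)) = fx R w

def Stmt_AU2 : Prop := ∀ (V : Type) [AddCommGroup V] [Module (ZMod 2) V] [Finite V] (e : V) (R : FS V), CtxII e R →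
  ∀ v w a, v ≠ 0 → w ≠ 0 → At R w a → a v = 0 → At R v a

/-- subset sums: every `k ∈ R^w` is the sum of the atoms of `R^w` below it, with independent supports -/
def Stmt_AU3 : Prop := ∀ (V : Type) [AddCommGroup V] [Module (ZMod 2) V] [Finite V] (e : V) (R : FS V), CtxII e R →
  ∀ w, w ≠ 0 → ∀ k ∈ fx R w, ∃ I ⊆ ats R w, k = ∑ a ∈ I, a ∧
    (∀ a ∈ ats R w, a ∈ I ↔ LinearMap.range a ≤ LinearMap.range k) ∧
    (∀ a ∈ ats R w, a ∉ I → Disjoint (LinearMap.range a) (LinearMap.range k)) ∧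
    (∀ u, k u = 0 ↔ ∀ a ∈ I, a u = 0)

def Stmt_G1 : Prop := ∀ (V : Type) [AddCommGroup V] [Module (ZMod 2) V] [Finite V] (e : V) (R : FS V), CtxII e R →
  ∀ ψ : D V, ψ ≠ 0 → ∀ x y, x ≠ y → ψ ∈ Lx R x → ψ ∈ Lx R y → ∃ k, Blk R ψ k ∧ k x = ψ ∧ k y = ψ

def Stmt_G1A : Prop := ∀ (V : Type) [AddCommGroup V] [Module (ZMod 2) V] [Finite V] (e : V) (R : FS V), CtxII e R →
  ∀ a, Atom R a → ∀ φ ∈ LinearMap.range a, φ ≠ 0 → Blk R φ a

def Stmt_G4 : Prop := ∀ (V : Type) [AddCommGroup V] [Module (ZMod 2) V] [Finite V] (R : FS V), IsSym R →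
  ∀ a ∈ R, Good R a → ∀ ρ ∈ R, Disjoint (LinearMap.range ρ) (LinearMap.range a) ∨
    (Disjoint (LinearMap.range (ρ + a)) (LinearMap.range a) ∧ LinearMap.ker ρ ≤ LinearMap.ker a)

/-- a block form `k` through `u` with `a u = 0` is disjoint from the atom `a` -/
def Stmt_G5A : Prop := ∀ (V : Type) [AddCommGroup V] [Module (ZMod 2) V] [Finite V] (e : V) (R : FS V), CtxII e R →
  ∀ a, Atom R a → Good R a → ∀ ψ k u, Blk R ψ k → k u = ψ → a u = 0 →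
    Disjoint (LinearMap.range k) (LinearMap.range a)

def Stmt_G5 : Prop := ∀ (V : Type) [AddCommGroup V] [Module (ZMod 2) V] [Finite V] (e : V) (R : FS V), CtxII e R →
  ∀ a, Atom R a → Good R a → 2 ≤ fr (LinearMap.range a) → ∀ ψ k u, Blk R ψ k → ψ ∈ Lx R u → a u = 0 →
    ∀ z, ψ ∈ Lx R z → k z = ψ

/-- rank one forms are good -/
def Stmt_RG : Prop := ∀ (V : Type) [AddCommGroup V] [Module (ZMod 2) V] [Finite V] (e : V) (R : FS V), IsWu e R →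
  ∀ φ : D V, φ ≠ 0 → rho φ ∈ R → φ e = 1 ∧ Good R (rho φ)

/-- rank one forms killing `w` are atoms of `R^w`, and atoms of rank at most one are rank one forms -/
def Stmt_RA : Prop := ∀ (V : Type) [AddCommGroup V] [Module (ZMod 2) V] [Finite V] (e : V) (R : FS V), IsWu e R →
  (∀ φ : D V, φ ≠ 0 → rho φ ∈ R → ∀ w, φ w = 0 → At R w (rho φ)) ∧
  (∀ a ∈ R, a ≠ 0 → fr (LinearMap.range a) ≤ 1 → ∃ φ : D V, φ ≠ 0 ∧ a = rho φ)

/-- at most one rank one form -/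
def X1 {V : Type} [AddCommGroup V] [Module (ZMod 2) V] (R : FS V) : Prop :=
  ∀ φ φ' : D V, φ ≠ 0 → φ' ≠ 0 → rho φ ∈ R → rho φ' ∈ R → φ = φ'

open Classical in
/-- a block of `P_ψ` not containing `y` has at most `2 ^ g` points, `g` the number of atoms of rank at least two
in `R^y` -/
def Stmt_G2 : Prop := ∀ (V : Type) [AddCommGroup V] [Module (ZMod 2) V] [Finite V] (e : V) (R : FS V), CtxII e R →
  X1 R → ∀ ψ k y, Blk R ψ k → ψ ∈ Lx R y → k y ≠ ψ →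
    fr (LinearMap.ker k) ≤ ((ats R y).filter (fun a => 2 ≤ fr (LinearMap.range a))).card

open Classical in
/-- ranks of the atoms of `R^y` -/
def Stmt_G2A : Prop := ∀ (V : Type) [AddCommGroup V] [Module (ZMod 2) V] [Finite V] (e : V) (R : FS V), CtxII e R →
  ∀ y, y ≠ 0 → ∀ r : ℕ, (∀ a, At R y a → 2 ≤ fr (LinearMap.range a) → r ≤ fr (LinearMap.range a)) →
    r * ((ats R y).filter (fun a => 2 ≤ fr (LinearMap.range a))).card + 1 ≤ fr V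

/-- (NG) atoms of rank at least two which are not good have rank `n - 1` -/
def Stmt_NG : Prop := ∀ (V : Type) [AddCommGroup V] [Module (ZMod 2) V] [Finite V] (e : V) (R : FS V), CtxII e R →
  X1 R → ∀ a, Atom R a → 2 ≤ fr (LinearMap.range a) → ¬ Good R a → fr (LinearMap.range a) + 1 = fr V

/-- the sets `P_ψ` meeting `ker a` are blocks, with a form disjoint from `a` -/
def GBlk {V : Type} [AddCommGroup V] [Module (ZMod 2) V] (R : FS V) (a : Fm V) : Prop :=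
  ∀ u, u ≠ 0 → a u = 0 → ∀ ψ ∈ Lx R u, ψ ≠ 0 → ∃ ρ, Blk R ψ ρ ∧ ρ u = ψ ∧
    Disjoint (LinearMap.range ρ) (LinearMap.range a) ∧ ∀ z, ψ ∈ Lx R z → ρ z = ψ

/-- at a good form, every `ψ ∈ L_u`, `a u = 0`, is the value of a form disjoint from `a`, and then two points -/
def Stmt_GB0 : Prop := ∀ (V : Type) [AddCommGroup V] [Module (ZMod 2) V] [Finite V] (e : V) (R : FS V), CtxII e R →
  ∀ a, Atom R a → Good R a → ∀ u, u ≠ 0 → a u = 0 → ∀ ψ ∈ Lx R u, ψ ≠ 0 → ∃ ρ, Blk R ψ ρ ∧ ρ u = ψ ∧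
    Disjoint (LinearMap.range ρ) (LinearMap.range a)

def Stmt_GB4 : Prop := ∀ (V : Type) [AddCommGroup V] [Module (ZMod 2) V] [Finite V] (e : V) (R : FS V), CtxII e R →
  ∀ a, Atom R a → Good R a → 2 ≤ fr (LinearMap.range a) → GBlk R a

def Stmt_GB1 : Prop := ∀ (V : Type) [AddCommGroup V] [Module (ZMod 2) V] [Finite V] (e : V) (R : FS V), CtxII e R →
  X1 R → (∀ a, Atom R a → Good R a → ¬ 2 ≤ fr (LinearMap.range a)) → ∀ a, Atom R a → Good R a → GBlk R a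

/-! ### F. The good atom theorem -/

/-- `ker a` is full -/
def Stmt_GA1 : Prop := ∀ (V : Type) [AddCommGroup V] [Module (ZMod 2) V] [Finite V] (R : FS V), IsSym R →
  ∀ a ∈ R, Good R a → Full R (LinearMap.ker a)

def Stmt_GA2 : Prop := ∀ (V : Type) [AddCommGroup V] [Module (ZMod 2) V] [Finite V] (e : V) (R : FS V), CtxII e R →
  ∀ a ∈ R, Good R a → ∀ w, a w ≠ 0 → Disjoint (Sp (fx R w)) (LinearMap.range a)

/-- in `R^m`, `a m = 0`: not both `ρ` and `ρ + a` are disjoint from `a` -/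
def Stmt_GA0 : Prop := ∀ (V : Type) [AddCommGroup V] [Module (ZMod 2) V] [Finite V] (e : V) (R : FS V), CtxII e R →
  ∀ a, Atom R a → ∀ m, m ≠ 0 → a m = 0 → ∀ ρ ∈ fx R m, ∀ ρ' ∈ fx R m,
    Disjoint (LinearMap.range ρ) (LinearMap.range a) → Disjoint (LinearMap.range ρ') (LinearMap.range a) →
    Disjoint (LinearMap.range (ρ + ρ')) (LinearMap.range a) ∧
      ¬ Disjoint (LinearMap.range (ρ + a)) (LinearMap.range a)

/-- two colours (hypothesis for contradiction) -/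
structure Ctx9 {V : Type} [AddCommGroup V] [Module (ZMod 2) V] (e : V) (R : FS V) (a : Fm V) (α θ : D V)
    (m m' : V) : Prop where
  ctx : CtxII e R
  atom : Atom R a
  good : Good R a
  blk : GBlk R a
  hm : a m = 0
  hm' : a m' = 0
  mem : α ∈ Lx R m
  mem' : α + θ ∈ Lx R m'
  hθ : θ ∈ LinearMap.range a
  hθ0 : θ ≠ 0

/-- the functionals `α + θ''` are nonzero on `ker a` -/
def Stmt_GA3A : Prop := ∀ (V : Type) [AddCommGroup V] [Module (ZMod 2) V] [Finite V] (e : V) (R : FS V) (a : Fm V)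
  (α θ : D V) (m m' : V), Ctx9 e R a α θ m m' → ∃ b, a b = 0 ∧ α b = 1

/-- (e) for the two colours -/
def Stmt_GA3B : Prop := ∀ (V : Type) [AddCommGroup V] [Module (ZMod 2) V] [Finite V] (e : V) (R : FS V) (a : Fm V)
  (α θ : D V) (m m' : V), Ctx9 e R a α θ m m' → ∀ ρ, Blk R α ρ → (∃ u, a u = 0 ∧ ρ u = α) →
    LinearMap.ker ρ ⊓ LinearMap.ker a = ⊥

/-- (f) all colours occur -/
def Stmt_GA3C : Prop := ∀ (V : Type) [AddCommGroup V] [Module (ZMod 2) V] [Finite V] (e : V) (R : FS V) (a : Fm V)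
  (α θ : D V) (m m' : V), Ctx9 e R a α θ m m' → ∀ η ∈ LinearMap.range a, ∃ u, a u = 0 ∧ α + η ∈ Lx R u

/-- the set `N` -/
def NN {V : Type} [AddCommGroup V] [Module (ZMod 2) V] (R : FS V) (a : Fm V) : Set (Fm V) :=
  {κ | κ ∈ R ∧ Disjoint (LinearMap.range κ) (LinearMap.range a) ∧ LinearMap.ker κ ⊓ LinearMap.ker a = ⊥}

/-- (g) `N` is in bijection with the colours -/
def Stmt_GA3D : Prop := ∀ (V : Type) [AddCommGroup V] [Module (ZMod 2) V] [Finite V] (e : V) (R : FS V) (a : Fm V)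
  (α θ : D V) (m m' : V), Ctx9 e R a α θ m m' →
  (∀ κ ∈ NN R a, ∃ η ∈ LinearMap.range a, Blk R (α + η) κ ∧ (∃ u, a u = 0 ∧ κ u = α + η)) ∧
  (∀ κ ∈ NN R a, ∀ κ' ∈ NN R a, ∀ η ∈ LinearMap.range a, (∃ u, κ u = α + η) → (∃ u, κ' u = α + η) → κ = κ') ∧
  Nat.card (NN R a) = Nat.card (LinearMap.range a)

/-- (g) two different elements of `N` -/
def Stmt_GA3E : Prop := ∀ (V : Type) [AddCommGroup V] [Module (ZMod 2) V] [Finite V] (e : V) (R : FS V) (a : Fm V)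
  (α θ : D V) (m m' : V), Ctx9 e R a α θ m m' → ∀ κ ∈ NN R a, ∀ κ' ∈ NN R a, κ ≠ κ' →
    LinearMap.ker κ ⊓ LinearMap.ker κ' = ⊥ ∧ Disjoint (LinearMap.range (κ + κ' + a)) (LinearMap.range a)

/-- (h) the involution -/
def Stmt_GA3F : Prop := ∀ (V : Type) [AddCommGroup V] [Module (ZMod 2) V] [Finite V] (e : V) (R : FS V) (a : Fm V)
  (α θ : D V) (m m' : V), Ctx9 e R a α θ m m' → ∀ κ ∈ NN R a, ∀ κ' ∈ NN R a, κ ≠ κ' → κ + κ' + a ∈ NN R a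

/-- one colour -/
def Stmt_GA3 : Prop := ∀ (V : Type) [AddCommGroup V] [Module (ZMod 2) V] [Finite V] (e : V) (R : FS V), CtxII e R →
  ∀ a, Atom R a → Good R a → GBlk R a → OC R (LinearMap.ker a)

/-- the good form splits off -/
def Stmt_GA4 : Prop := ∀ (V : Type) [AddCommGroup V] [Module (ZMod 2) V] [Finite V] (e : V) (R : FS V),
  IsWu e R → SL R → rad R = ⊥ → IH e R → ∀ a ∈ R, a ≠ 0 → Good R a → OC R (LinearMap.ker a) → ET e R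

/-! ### G. No good atom -/

/-- without good atoms -/
structure CtxN {V : Type} [AddCommGroup V] [Module (ZMod 2) V] (e : V) (R : FS V) : Prop where
  ctx : CtxII e R
  no : ∀ a, Atom R a → ¬ Good R a

/-- every degenerate form has a radical of dimension one, every `R^w` has at most one nonzero form, no rank one -/
def Stmt_NA1 : Prop := ∀ (V : Type) [AddCommGroup V] [Module (ZMod 2) V] [Finite V] (e : V) (R : FS V), CtxN e R →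
  2 ≤ fr R →
  (∀ k ∈ R, k ≠ 0 → fr (LinearMap.ker k) ≤ 1) ∧ (∀ w, w ≠ 0 → ∀ k ∈ fx R w, ∀ k' ∈ fx R w, k ≠ 0 → k' ≠ 0 → k = k') ∧
  (∀ k ∈ R, k ≠ 0 → 2 ≤ fr (LinearMap.range k)) ∧ 3 ≤ fr V

/-- counting -/
def Stmt_NA2 : Prop := ∀ (V : Type) [AddCommGroup V] [Module (ZMod 2) V] [Finite V] (e : V) (R : FS V), CtxN e R →
  2 ≤ fr R → fr R = 2 ∨ (fr R = 3 ∧ fr V = 3 ∧ ∀ k ∈ R, fr (LinearMap.ker k) ≠ 0)

/-- `dim V = 3`, all forms degenerate -/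
def Stmt_NA3 : Prop := ∀ (V : Type) [AddCommGroup V] [Module (ZMod 2) V] [Finite V] (e : V) (R : FS V), CtxN e R →
  ¬ (fr R = 3 ∧ fr V = 3 ∧ ∀ k ∈ R, fr (LinearMap.ker k) ≠ 0)

/-- `dim R = 2` -/
def Stmt_NA4 : Prop := ∀ (V : Type) [AddCommGroup V] [Module (ZMod 2) V] [Finite V] (e : V) (R : FS V), CtxN e R →
  fr R ≠ 2

/-! ### H. Two rank one forms -/

/-- two rank one forms, all stars of dimension at most two -/
structure CtxX {V : Type} [AddCommGroup V] [Module (ZMod 2) V] (e : V) (R : FS V) (f g : D V)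
    (M : Submodule (ZMod 2) V) : Prop where
  ctx : CtxII e R
  hf : rho f ∈ R
  hg : rho g ∈ R
  fe : f e = 1
  ge : g e = 1
  ne : f ≠ g
  mem : ∀ x, x ∈ M ↔ f x = 0 ∧ g x = 0

/-- forms killing `M` -/
def Stmt_XR : Prop := ∀ (V : Type) [AddCommGroup V] [Module (ZMod 2) V] [Finite V] (e : V) (R : FS V) (f g : D V)
  (M : Submodule (ZMod 2) V), CtxX e R f g M → M ≠ ⊥ ∧ fr V = fr M + 2 ∧
  ∀ k ∈ R, (∀ m ∈ M, k m = 0) → k = 0 ∨ k = rho f ∨ k = rho g ∨ k = rho f + rho g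

def Stmt_XF1 : Prop := ∀ (V : Type) [AddCommGroup V] [Module (ZMod 2) V] [Finite V] (e : V) (R : FS V) (f g : D V)
  (M : Submodule (ZMod 2) V), CtxX e R f g M → ∀ w ∈ M, w ≠ 0 → Spl R M w

/-- full, `dim M = 1` -/
def Stmt_XF3 : Prop := ∀ (V : Type) [AddCommGroup V] [Module (ZMod 2) V] [Finite V] (e : V) (R : FS V) (f g : D V)
  (M : Submodule (ZMod 2) V), CtxX e R f g M → fr M = 1 → Full R M

def Stmt_XF2 : Prop := ∀ (V : Type) [AddCommGroup V] [Module (ZMod 2) V] [Finite V] (e : V) (R : FS V) (f g : D V)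
  (M : Submodule (ZMod 2) V), CtxX e R f g M → Full R M

def Stmt_XF4 : Prop := ∀ (V : Type) [AddCommGroup V] [Module (ZMod 2) V] [Finite V] (e : V) (R : FS V) (f g : D V)
  (M : Submodule (ZMod 2) V), CtxX e R f g M → ∀ w, w ≠ 0 → Spl R M w

/-- the numerical contradiction: one colour -/
def Stmt_XNUM : Prop := ∀ a b c g A0 A1 B0 B1 P : ℤ, 0 ≤ a → 0 ≤ b → 0 ≤ c → 0 ≤ g → 0 ≤ A0 → 0 ≤ A1 → 0 ≤ B0 →
  0 ≤ B1 → 0 ≤ P →
  A0 * B0 = a * P → A0 * B1 = b * P → A1 * B0 = c * P → A1 * B1 = g * P →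
  P * B0 = a * A0 + c * A1 → P * B1 = b * A0 + g * A1 → P * A0 = a * B0 + b * B1 → P * A1 = c * B0 + g * B1 →
  A0 ^ 2 - A0 = (a ^ 2 - a) + (b ^ 2 - b) → A1 ^ 2 - A1 = (c ^ 2 - c) + (g ^ 2 - g) →
  B0 ^ 2 - B0 = (a ^ 2 - a) + (c ^ 2 - c) → B1 ^ 2 - B1 = (b ^ 2 - b) + (g ^ 2 - g) →
  P ^ 2 - P = (a ^ 2 - a) + (b ^ 2 - b) + (c ^ 2 - c) + (g ^ 2 - g) →
  1 ≤ A0 + A1 → 1 ≤ B0 + B1 → 1 ≤ P →
  (a = 0 ∧ b = 0 ∧ c = 0) ∨ (a = 0 ∧ b = 0 ∧ g = 0) ∨ (a = 0 ∧ c = 0 ∧ g = 0) ∨ (b = 0 ∧ c = 0 ∧ g = 0)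

/-- one colour -/
def Stmt_XC : Prop := ∀ (V : Type) [AddCommGroup V] [Module (ZMod 2) V] [Finite V] (e : V) (R : FS V) (f g : D V)
  (M : Submodule (ZMod 2) V), CtxX e R f g M → OC R M

/-- two rank one forms: `R` decomposes -/
def Stmt_XEND : Prop := ∀ (V : Type) [AddCommGroup V] [Module (ZMod 2) V] [Finite V] (e : V) (R : FS V) (f g : D V)
  (M : Submodule (ZMod 2) V), CtxX e R f g M → IH e R → ET e R

/-- Part II -/
def Stmt_PARTII : Prop := ∀ (V : Type) [AddCommGroup V] [Module (ZMod 2) V] [Finite V] (e : V) (R : FS V),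
  CtxII e R → IH e R → ET e R

/-- the main theorem -/
def Stmt_MAIN : Prop := ∀ (V : Type) [AddCommGroup V] [Module (ZMod 2) V] [Finite V] (e : V) (R : FS V),
  IsWu e R → SL R → ET e R

end Pool.Agent.ESG
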