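import Pool.Agent.ESL.StmtsJ
import Pool.Agent.ESG.Stmts

/-!
Statements of the modules connecting form spaces with quaternionic structures, `-1` arbitrary.
`ExtProp`, `Stmt_ISOC`, `Stmt_J3P`, `Stmt_J3I` are those of `Pool.Agent.ESL` (they do not use `-1 = 1`).
-/

set_option linter.unusedVariables false

namespace Pool.Agent.ESG

open Pool.Agent.ESL

/-- recognition of products -/
def Stmt_PRODREC : Prop := ∀ (S : QS.QStruct), ∀ A B : Subgroup S.G, IsCompl A B →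
  (∀ a ∈ A, ∀ b ∈ B, ∀ a' ∈ A, ∀ b' ∈ B, S.q (a * b) (a' * b') = S.zero ↔
    S.q a a' = S.zero ∧ S.q b b' = S.zero) →
  ∃ (SA SB : QS.QStruct) (f : SA.G ≃* A) (g : SB.G ≃* B),
    (f SA.neg : S.G) * (g SB.neg : S.G) = S.neg ∧
    (∀ x y, SA.q x y = SA.zero ↔ S.q (f x) (f y) = S.zero) ∧
    (∀ x y, SB.q x y = SB.zero ↔ S.q (g x) (g y) = S.zero) ∧ QS.Iso (QS.prod SA SB) S

/-- recognition of extensions -/
def Stmt_EXTREC : Prop := ∀ (S : QS.QStruct), ∀ (H : Subgroup S.G) (t : S.G), t ∉ H →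
  (∀ g, g ∈ H ∨ g * t ∈ H) → S.neg ∈ H → (∀ h ∈ H, ∀ h' ∈ H, S.q h (h' * t) = S.zero ↔ h = 1) →
  (∀ h ∈ H, ∀ h' ∈ H, S.q (h * t) (h' * t) = S.zero ↔ h * h' = S.neg) →
  ∃ (SH : QS.QStruct) (f : SH.G ≃* H), (f SH.neg : S.G) = S.neg ∧
    (∀ x y, SH.q x y = SH.zero ↔ S.q (f x) (f y) = S.zero) ∧ QS.Iso (QS.ext SH) S

/-- totally degenerate structures -/
def Stmt_DEG : Prop := ∀ S : QS.QStruct, Finite S.G → (∀ a b, S.q a b = S.zero) → QS.ElemType S

/-- all structures whose commuting pairs are given by `R` (along `i`) are of elementary type -/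
def GR {V : Type} [AddCommGroup V] [Module (ZMod 2) V] (R : FS V) : Prop :=
  ∀ S : QS.QStruct, Finite S.G → ∀ i : S.G → V, (∀ a b, i (a * b) = i a + i b) →
  (∀ v, ∃ a, v + i a ∈ rad R) →
  (∀ a b, S.q a b = S.zero ↔ ∀ k ∈ R, k (i a) (i b) = 0) → QS.ElemType S

/-- the same for nondegenerate structures -/
def GN {V : Type} [AddCommGroup V] [Module (ZMod 2) V] (R : FS V) : Prop :=
  ∀ S : QS.QStruct, Finite S.G → ∀ i : S.G → V, (∀ a b, i (a * b) = i a + i b) →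
  (∀ v, ∃ a, v + i a ∈ rad R) → (∀ a, i a ∈ rad R → a = 1) →
  (∀ a b, S.q a b = S.zero ↔ ∀ k ∈ R, k (i a) (i b) = 0) → QS.ElemType S

/-- `i (-1) = e` modulo the radical -/
theorem neg_rad {V : Type} [AddCommGroup V] [Module (ZMod 2) V] {e : V} {R : FS V} (hR : IsWu e R)
    {S : QS.QStruct} {i : S.G → V} (hi : ∀ a b, i (a * b) = i a + i b)
    (hs : ∀ v, ∃ a, v + i a ∈ rad R)
    (hq : ∀ a b, S.q a b = S.zero → ∀ k ∈ R, k (i a) (i b) = 0) : i S.neg + e ∈ rad R := by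
  intro k hk
  ext x
  obtain ⟨a, ha⟩ := hs x
  have h1 : k x = k (i a) := by
    have := ha k hk
    rw [map_add] at this
    exact eq_of_add this
  have h2 : k (i a) (i S.neg + i a) = 0 := by
    have := hq _ _ (S.qs1 a) k hk
    rwa [hi] at this
  rw [hR.symm hk, h1, map_add, ← hR k hk (i a)]
  rw [map_add] at h2
  exact h2

def Stmt_J2R : Prop := ∀ (V : Type) [AddCommGroup V] [Module (ZMod 2) V] [Finite V] (e : V) (R : FS V),
  IsWu e R → GN R → GR R

def Stmt_J2L : Prop := ∀ (V : Type) [AddCommGroup V] [Module (ZMod 2) V] [Finite V] (e : V) (k : Fm V),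
  (∀ x, k x x = k x e) → GN (Submodule.span (ZMod 2) {k})

def Stmt_J2S : Prop := ∀ (V : Type) [AddCommGroup V] [Module (ZMod 2) V] [Finite V] (e : V) (R₁ R₂ : FS V),
  IsWu e R₁ → IsWu e R₂ → Disjoint (Sp R₁) (Sp R₂) → GR R₁ → GR R₂ → GN (R₁ ⊔ R₂)

def Stmt_J2E : Prop := ∀ (V : Type) [AddCommGroup V] [Module (ZMod 2) V] [Finite V] (e : V) (R : FS V)
  (L : Submodule (ZMod 2) (D V)) (τ : D V), IsWu e R → Sp R ≤ L → τ ∉ L → τ e = 0 → GR R →
    GN (R ⊔ L.map (wd e τ))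

/-- from form spaces to structures -/
def Stmt_J2 : Prop := ∀ (V : Type) [AddCommGroup V] [Module (ZMod 2) V] [Finite V] (e : V) (R : FS V),
  ET e R → GR R

/-- first half of the result -/
def Stmt_J1 : Prop := ∀ S : QS.QStruct, Finite S.G → ExtProp S → QS.ElemType S

def Stmt_J3E : Prop := ∀ S : QS.QStruct, ExtProp S → ExtProp (QS.ext S)

/-- nondegenerate structures with two quaternions -/
def Stmt_J3L : Prop := ∀ S : QS.QStruct, Finite S.G → (∀ a, (∀ b, S.q a b = S.zero) → a = 1) →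
  Nat.card S.Q = 2 → ExtProp S

/-- second half of the result -/
def Stmt_J3 : Prop := ∀ S : QS.QStruct, QS.ElemType S → ExtProp S

/-- the extension property for subgroups of order at most eight -/
def Ext8 (S : QS.QStruct) : Prop :=
  ∀ (U : Subgroup S.G), Nat.card U ≤ 8 → ∀ (β : S.G → S.G → ZMod 2),
    (∀ u ∈ U, ∀ u' ∈ U, ∀ v, β (u * u') v = β u v + β u' v) →
    (∀ u ∈ U, ∀ v v', β u (v * v') = β u v + β u v') →
    (∀ u ∈ U, ∀ v, S.q u v = S.zero → β u v = 0) →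
    ∃ γ : S.G → S.G → ZMod 2,
      (∀ u u' v, γ (u * u') v = γ u v + γ u' v) ∧ (∀ u v v', γ u (v * v') = γ u v + γ u v') ∧
      (∀ u v, S.q u v = S.zero → γ u v = 0) ∧ ∀ u ∈ U, ∀ v, γ u v = β u v

/-- `P_1(3)` for all finite structures implies strong linkage -/
def Stmt_J8 : Prop := (∀ S : QS.QStruct, Finite S.G → Ext8 S) → ∀ S : QS.QStruct, Finite S.G → ExtProp S

end Pool.Agent.ESG
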