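import Mathlib
import Pool.Agent.ESG.StmtsJ

/-!
Squad ESG, module EXTREC: recognition of group extensions (general `-1`).
-/

set_option autoImplicit false

namespace Pool.Agent.ESG

open Pool.Agent.ESL

namespace EXTRECX

open QS

/-- The structure induced on a subgroup which contains `-1` and is closed under (QS4). -/
def sub (S : QStruct) (A : Subgroup S.G) (hneg : S.neg ∈ A)
    (h4 : ∀ a ∈ A, ∀ b ∈ A, ∀ c ∈ A, ∀ d ∈ A, S.q a b = S.q c d →
      ∃ x ∈ A, S.q a b = S.q a x ∧ S.q c d = S.q c x) : QStruct where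
  G := A
  Q := {β : S.Q // ∃ a b : A, S.q a b = β}
  neg := ⟨S.neg, hneg⟩
  zero := ⟨S.zero, 1, 1, S.q_one 1⟩
  q := fun a b => ⟨S.q a b, a, b, rfl⟩
  exp_two := fun a => Subtype.ext (S.exp_two a)
  surj := by
    rintro ⟨β, a, b, h⟩
    exact ⟨a, b, Subtype.ext h⟩
  qs1 := fun a => by
    apply Subtype.ext
    exact S.qs1 (a : S.G)
  qs2 := fun a b => Subtype.ext (S.qs2 a b)
  qs3 := by
    intro a b c
    rw [Subtype.mk.injEq, Subtype.mk.injEq]
    exact S.qs3 _ _ _
  qs4 := by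
    intro a b c d h
    obtain ⟨x, hx, h1, h2⟩ := h4 a a.2 b b.2 c c.2 d d.2 (congrArg Subtype.val h)
    exact ⟨⟨x, hx⟩, Subtype.ext h1, Subtype.ext h2⟩

theorem sub_zero_iff (S : QStruct) (A : Subgroup S.G) (hneg : S.neg ∈ A)
    (h4 : ∀ a ∈ A, ∀ b ∈ A, ∀ c ∈ A, ∀ d ∈ A, S.q a b = S.q c d →
      ∃ x ∈ A, S.q a b = S.q a x ∧ S.q c d = S.q c x) (x y : A) :
    (sub S A hneg h4).q x y = (sub S A hneg h4).zero ↔ S.q (x : S.G) (y : S.G) = S.zero := by
  show (⟨S.q (x : S.G) (y : S.G), _⟩ : {β : S.Q // ∃ a b : A, S.q a b = β}) = ⟨S.zero, _⟩ ↔ _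
  rw [Subtype.mk.injEq]

theorem one_q (S : QStruct) (b : S.G) : S.q 1 b = S.zero := by
  rw [S.qs2, S.q_one]

/-- the homomorphism `H × ⟨t⟩ → G` -/
noncomputable def extHom {G : Type} [CommGroup G] (H : Subgroup G) (t : G) (ht : t * t = 1) :
    H × Multiplicative (ZMod 2) →* G where
  toFun := fun p => (p.1 : G) * (if p.2 = 1 then 1 else t)
  map_one' := by simp
  map_mul' := by
    rintro ⟨a, α⟩ ⟨b, β⟩
    have hx : (Multiplicative.ofAdd (1 : ZMod 2)) ≠ 1 := by decide
    rcases two_cases α with rfl | rfl <;> rcases two_cases β with rfl | rfl <;>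
      simp only [Prod.mk_mul_mk, Subgroup.coe_mul, mul_one, one_mul, x_mul_x, if_true, hx, if_false]
    · exact mul_assoc _ _ _
    · rw [mul_assoc, mul_assoc, mul_comm t]
    · calc (a : G) * (b : G) = (a : G) * (b : G) * (t * t) := by rw [ht, mul_one]
        _ = _ := by ac_rfl

theorem extHom_one {G : Type} [CommGroup G] (H : Subgroup G) (t : G) (ht : t * t = 1) (a : H) :
    extHom H t ht (a, 1) = (a : G) := by
  simp [extHom]

theorem extHom_x {G : Type} [CommGroup G] (H : Subgroup G) (t : G) (ht : t * t = 1) (a : H) :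
    extHom H t ht (a, Multiplicative.ofAdd 1) = (a : G) * t := by
  have hx : (Multiplicative.ofAdd (1 : ZMod 2)) ≠ 1 := by decide
  show (a : G) * (if Multiplicative.ofAdd (1 : ZMod 2) = 1 then 1 else t) = _
  rw [if_neg hx]

theorem extHom_bij {G : Type} [CommGroup G] (H : Subgroup G) (t : G) (ht : t * t = 1)
    (htH : t ∉ H) (hH : ∀ g, g ∈ H ∨ g * t ∈ H) : Function.Bijective (extHom H t ht) := by
  constructor
  · rw [injective_iff_map_eq_one]
    rintro ⟨a, α⟩ h
    rcases two_cases α with rfl | rfl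
    · rw [extHom_one] at h
      exact Prod.ext (Subtype.ext h) rfl
    · rw [extHom_x] at h
      exfalso
      apply htH
      have : t = (a : G)⁻¹ := eq_inv_of_mul_eq_one_right h
      rw [this]; exact H.inv_mem a.2
  · intro g
    rcases hH g with h | h
    · exact ⟨(⟨g, h⟩, 1), extHom_one H t ht _⟩
    · refine ⟨(⟨g * t, h⟩, Multiplicative.ofAdd 1), ?_⟩
      rw [extHom_x]
      show g * t * t = g
      rw [mul_assoc, ht, mul_one]

theorem ext_zero_iff (S : QStruct) (H : Subgroup S.G) (hneg : S.neg ∈ H)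
    (h4 : ∀ a ∈ H, ∀ b ∈ H, ∀ c ∈ H, ∀ d ∈ H, S.q a b = S.q c d →
      ∃ x ∈ H, S.q a b = S.q a x ∧ S.q c d = S.q c x)
    (u v : (sub S H hneg h4).G × Multiplicative (ZMod 2)) :
    (QS.ext (sub S H hneg h4)).q u v = (QS.ext (sub S H hneg h4)).zero ↔
      extMap (sub S H hneg h4) u v = ((sub S H hneg h4).zero, (1 : (sub S H hneg h4).G)) := by
  show (⟨extMap (sub S H hneg h4) u v, _⟩ : {p : (sub S H hneg h4).Q × (sub S H hneg h4).G //
        ∃ u v, extMap (sub S H hneg h4) u v = p}) = ⟨((sub S H hneg h4).zero, 1), _⟩ ↔ _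
  rw [Subtype.mk.injEq]

theorem ext_iff' (S : QStruct) (H : Subgroup S.G) (hneg : S.neg ∈ H)
    (h4 : ∀ a ∈ H, ∀ b ∈ H, ∀ c ∈ H, ∀ d ∈ H, S.q a b = S.q c d →
      ∃ x ∈ H, S.q a b = S.q a x ∧ S.q c d = S.q c x) (t : S.G) (ht : t * t = 1)
    (h1 : ∀ h ∈ H, ∀ h' ∈ H, S.q h (h' * t) = S.zero ↔ h = 1)
    (h2 : ∀ h ∈ H, ∀ h' ∈ H, S.q (h * t) (h' * t) = S.zero ↔ h * h' = S.neg)
    (a b : H) (α β : Multiplicative (ZMod 2)) :
    extMap (sub S H hneg h4) (a, α) (b, β) =
      ((sub S H hneg h4).zero, (1 : (sub S H hneg h4).G)) ↔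
        S.q (extHom H t ht (a, α)) (extHom H t ht (b, β)) = S.zero := by
  have hs := sub_zero_iff S H hneg h4
  have hS1 : ∀ b : H, (sub S H hneg h4).q (1 : H) b = (sub S H hneg h4).zero := fun b =>
    (hs 1 b).2 (one_q S b)
  have hS1' : ∀ b : H, (sub S H hneg h4).q b (1 : H) = (sub S H hneg h4).zero := fun b =>
    (hs b 1).2 (S.q_one b)
  rcases two_cases α with rfl | rfl <;> rcases two_cases β with rfl | rfl
  · have e0 : extMap (sub S H hneg h4) (a, 1) (b, 1) = ((sub S H hneg h4).q a b, 1) :=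
      extMap_one_one (sub S H hneg h4) a b
    rw [e0, extHom_one, extHom_one, Prod.mk.injEq]
    constructor
    · rintro ⟨e, -⟩
      exact (hs a b).1 e
    · intro e
      exact ⟨(hs a b).2 e, rfl⟩
  · have e0 : extMap (sub S H hneg h4) (a, 1) (b, Multiplicative.ofAdd 1) =
      ((sub S H hneg h4).q a b, a) := extMap_one_x (sub S H hneg h4) a b
    have key : extMap (sub S H hneg h4) (a, 1) (b, Multiplicative.ofAdd 1) =
      ((sub S H hneg h4).zero, (1 : (sub S H hneg h4).G)) ↔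
        ((sub S H hneg h4).q a b = (sub S H hneg h4).zero ∧ a = (1 : H)) := by
      rw [e0]; exact Prod.ext_iff
    rw [key, extHom_one, extHom_x, h1 _ a.2 _ b.2]
    constructor
    · rintro ⟨-, e⟩
      exact congrArg Subtype.val e
    · intro e
      have e' : a = (1 : H) := Subtype.ext e
      subst e'
      exact ⟨hS1 b, rfl⟩
  · have e0 : extMap (sub S H hneg h4) (a, Multiplicative.ofAdd 1) (b, 1) =
      ((sub S H hneg h4).q a b, b) := extMap_x_one (sub S H hneg h4) a b
    have key : extMap (sub S H hneg h4) (a, Multiplicative.ofAdd 1) (b, 1) =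
      ((sub S H hneg h4).zero, (1 : (sub S H hneg h4).G)) ↔
        ((sub S H hneg h4).q a b = (sub S H hneg h4).zero ∧ b = (1 : H)) := by
      rw [e0]; exact Prod.ext_iff
    rw [key, extHom_one, extHom_x, S.qs2, h1 _ b.2 _ a.2]
    constructor
    · rintro ⟨-, e⟩
      exact congrArg Subtype.val e
    · intro e
      have e' : b = (1 : H) := Subtype.ext e
      subst e'
      exact ⟨hS1' a, rfl⟩
  · have e0 : extMap (sub S H hneg h4) (a, Multiplicative.ofAdd 1) (b, Multiplicative.ofAdd 1) =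
      ((sub S H hneg h4).q a b, ((⟨S.neg, hneg⟩ : H) * a * b : H)) :=
        extMap_x_x (sub S H hneg h4) a b
    have key : extMap (sub S H hneg h4) (a, Multiplicative.ofAdd 1) (b, Multiplicative.ofAdd 1) =
      ((sub S H hneg h4).zero, (1 : (sub S H hneg h4).G)) ↔
        ((sub S H hneg h4).q a b = (sub S H hneg h4).zero ∧
          ((⟨S.neg, hneg⟩ : H) * a * b : H) = 1) := by
      rw [e0]; exact Prod.ext_iff
    rw [key, extHom_x, extHom_x, h2 _ a.2 _ b.2]
    constructor
    · rintro ⟨-, e⟩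
      have e' : S.neg * (a : S.G) * (b : S.G) = 1 := congrArg Subtype.val e
      rw [mul_assoc] at e'
      exact ((eq_iff_mul S _ _).2 e').symm
    · intro e
      have hb : (b : S.G) = S.neg * (a : S.G) := by
        calc (b : S.G) = ((a : S.G) * (a : S.G)) * (b : S.G) := by rw [S.exp_two, one_mul]
          _ = (a : S.G) * ((a : S.G) * (b : S.G)) := mul_assoc _ _ _
          _ = S.neg * (a : S.G) := by rw [e, mul_comm]
      refine ⟨(hs a b).2 ?_, ?_⟩
      · rw [hb]; exact S.qs1 _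
      · apply Subtype.ext
        show S.neg * (a : S.G) * (b : S.G) = 1
        rw [mul_assoc, e]; exact S.exp_two _

end EXTRECX

open QS EXTRECX

theorem extrec_proof (h : Pool.Agent.ESL.Stmt_ISOC) : Stmt_EXTREC := by
  intro S H t htH hH hneg h1 h2
  have ht : t * t = 1 := S.exp_two t
  have h4 : ∀ a ∈ H, ∀ b ∈ H, ∀ c ∈ H, ∀ d ∈ H, S.q a b = S.q c d →
      ∃ x ∈ H, S.q a b = S.q a x ∧ S.q c d = S.q c x := by
    intro a ha b hb c hc d hd e
    obtain ⟨x, e1, e2⟩ := S.qs4 a b c d e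
    rcases hH x with hx | hx
    · exact ⟨x, hx, e1, e2⟩
    · have key : ∀ a ∈ H, ∀ b ∈ H, S.q a b = S.q a x → a = 1 := by
        intro a ha b hb e
        rw [S.qs3] at e
        apply (h1 a ha (b * (x * t)) (H.mul_mem hb hx)).1
        have : b * (x * t) * t = b * x := by
          calc b * (x * t) * t = b * x * (t * t) := by ac_rfl
            _ = b * x := by rw [ht, mul_one]
        rw [this]; exact e
      have a1 := key a ha b hb e1
      have c1 := key c hc d hd e2
      subst a1 c1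
      exact ⟨1, H.one_mem, by rw [one_q, one_q], by rw [one_q, one_q]⟩
  refine ⟨sub S H hneg h4, MulEquiv.refl H, rfl, sub_zero_iff S H hneg h4, ?_⟩
  refine h (QS.ext (sub S H hneg h4)) S
    (MulEquiv.ofBijective (extHom H t ht) (extHom_bij H t ht htH hH)) ?_ ?_
  · show extHom H t ht ((⟨S.neg, hneg⟩ : H), 1) = S.neg
    exact extHom_one H t ht _
  · rintro ⟨a, α⟩ ⟨b, β⟩
    exact (ext_zero_iff S H hneg h4 _ _).trans
      (ext_iff' S H hneg h4 t ht h1 h2 a b α β)

end Pool.Agent.ESG
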