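import Pool.Agent.ESG.Stmts

/-!
F1: every `w` in `M` is split.
-/

set_option linter.unusedVariables false

namespace Pool.Agent.ESG

open Pool.Agent.ESL

namespace F1X

variable {V : Type} [AddCommGroup V] [Module (ZMod 2) V] [Finite V]

theorem mem_span_sing {W : Type} [AddCommGroup W] [Module (ZMod 2) W] {x y : W} :
    x ∈ Submodule.span (ZMod 2) {y} ↔ x = 0 ∨ x = y := by
  constructor
  · intro h
    obtain ⟨c, rfl⟩ := Submodule.mem_span_singleton.1 h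
    rcases zm c with rfl | rfl
    · left; rw [zero_smul]
    · right; rw [one_smul]
  · rintro (rfl | rfl)
    · exact Submodule.zero_mem _
    · exact Submodule.mem_span_singleton_self _

/-- `τ` is a value of `[τ, ψ]` -/
theorem val_right {e : V} {τ ψ : D V} (h0 : ψ ≠ 0) (h : ψ ≠ τ) : ∃ x, wd e τ ψ x = τ := by
  obtain ⟨x, hx, h1⟩ := exists_cosep (T := Submodule.span (ZMod 2) {τ}) (φ := ψ) (by
    rw [mem_span_sing]
    rintro (h2 | h2)
    · exact h0 h2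
    · exact h h2)
  exact ⟨x, wd_of_zero_one (hx τ (Submodule.mem_span_singleton_self _)) h1⟩

/-- `ψ` is a value of `[τ, ψ]` plus a multiple of `τ` -/
theorem val_left {e : V} {τ ψ : D V} (hτ0 : τ ≠ 0) :
    ∃ x, wd e τ ψ x = ψ + ψ (x + e) • τ := by
  obtain ⟨x, -, h1⟩ := exists_cosep (T := ⊥) (φ := τ) (by
    rw [Submodule.mem_bot]; exact hτ0)
  exact ⟨x, wd_of_one h1⟩

theorem wd_ne {e : V} {τ ψ : D V} (hτ0 : τ ≠ 0) (h0 : ψ ≠ 0) (h : ψ ≠ τ) : wd e τ ψ ≠ 0 := by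
  intro hw
  obtain ⟨x, hx⟩ := val_right (e := e) h0 h
  rw [hw] at hx
  exact hτ0 hx.symm

/-- functionals vanishing at `e` -/
theorem exists_psi {e : V} {τ : D V} {T : Submodule (ZMod 2) (D V)} (hτ0 : τ ≠ 0) (h3 : 3 ≤ fr T) :
    ∃ ψ ∈ T, ψ e = 0 ∧ ψ ≠ 0 ∧ ψ ≠ τ := by
  let A : Submodule (ZMod 2) (D V) := an (Submodule.span (ZMod 2) {e})
  have h1 : fr V ≤ fr A + 1 := by
    have h := finrank_an (Submodule.span (ZMod 2) ({e} : Set V))
    have h' : fr (Submodule.span (ZMod 2) ({e} : Set V)) ≤ 1 := by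
      have := finrank_span_le_card (R := ZMod 2) ({e} : Set V)
      simpa using this
    have h'' : fr A + fr (Submodule.span (ZMod 2) ({e} : Set V)) = fr V := h
    omega
  have h2 : fr (T ⊔ A : Submodule (ZMod 2) (D V)) ≤ fr V := by
    have h := Submodule.finrank_le (T ⊔ A)
    have h' : Module.finrank (ZMod 2) (D V) = fr V := finrank_D
    rw [h'] at h
    exact h
  have h4 : fr (T ⊔ A : Submodule (ZMod 2) (D V)) + fr (T ⊓ A : Submodule (ZMod 2) (D V)) =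
      fr T + fr A := Submodule.finrank_sup_add_finrank_inf_eq T A
  have h5 : 2 ≤ fr (T ⊓ A : Submodule (ZMod 2) (D V)) := by omega
  have hnot : ¬ (T ⊓ A) ≤ Submodule.span (ZMod 2) {τ} := by
    intro h
    have h6 := Submodule.finrank_mono h
    have h7 : Module.finrank (ZMod 2) (Submodule.span (ZMod 2) ({τ} : Set (D V))) = 1 :=
      finrank_span_singleton hτ0
    rw [h7] at h6
    have h8 : fr (T ⊓ A : Submodule (ZMod 2) (D V)) ≤ 1 := h6
    omega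
  obtain ⟨ψ, hψ, hψ'⟩ := SetLike.not_le_iff_exists.1 hnot
  refine ⟨ψ, hψ.1, hψ.2 e (Submodule.mem_span_singleton_self _), ?_, ?_⟩
  · rintro rfl
    exact hψ' (Submodule.zero_mem _)
  · rintro rfl
    exact hψ' (Submodule.mem_span_singleton_self _)

/-- a subspace of functionals `ψ` with `[τ, ψ] ∈ R^w` lies in one component -/
theorem sub (hRK : Stmt_RK2) (hS2 : Stmt_SUM2) {e : V} {R : FS V} (hR : IsWu e R) {τ : D V}
    (hτ0 : τ ≠ 0) (hτe : τ e = 0)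
    {w : V} (het : ET e (fx R w)) {T : Submodule (ZMod 2) (D V)}
    {ψ₀ : D V} (hψ₀ : ψ₀ ∈ T) (hψe : ψ₀ e = 0) (hψ0 : ψ₀ ≠ 0) (hψτ : ψ₀ ≠ τ)
    (hT : ∀ ψ ∈ T, wd e τ ψ ∈ fx R w) :
    ∃ R₁ R₂ : FS V, fx R w = R₁ ⊔ R₂ ∧ Disjoint (Sp R₁) (Sp R₂) ∧ T ≤ Sp R₁ ∧
      ∃ σ, IsStar e R₁ σ := by
  rcases hRK V e (fx R w) het τ ψ₀ hτe (hT ψ₀ hψ₀) (wd_ne hτ0 hψ0 hψτ) with
    ⟨R₁, R₂, hsum, hdis, hτ1, -, hst⟩ | ⟨h1, -⟩
  swap
  · rw [hψe] at h1
    exact absurd h1 zero_ne_one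
  refine ⟨R₁, R₂, hsum, hdis, ?_, hst⟩
  have hle1 : R₁ ≤ R := (le_sup_left.trans hsum.symm.le).trans (fx_le R w)
  have hle2 : R₂ ≤ R := (le_sup_right.trans hsum.symm.le).trans (fx_le R w)
  intro ψ hψ
  by_cases hp0 : ψ = 0
  · rw [hp0]; exact Submodule.zero_mem _
  by_cases hpτ : ψ = τ
  · rw [hpτ]; exact hτ1
  have hmem := hT ψ hψ
  rw [hsum] at hmem
  obtain ⟨a, ha, b, hb, hab⟩ := Submodule.mem_sup.1 hmem
  have hd : Disjoint (LinearMap.range a) (LinearMap.range b) :=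
    Disjoint.mono (range_le_Sp ha) (range_le_Sp hb) hdis
  have hex : ∀ f : D V, f e = 1 → ∃ x, f x = 1 := fun f hf => ⟨e, hf⟩
  have hrho : ∀ (f : D V) (R' : FS V), f e = 1 → rho f ∈ R' → f ∈ Sp R' := by
    intro f R' hf hm
    have : rho f e = f := by rw [rho_apply, hf, one_smul]
    rw [← this]
    exact mem_Sp hm e
  rcases hS2 V e τ ψ a b hτe (hR a (hle1 ha)) (hR b (hle2 hb)) hd hab.symm with h | h | ⟨h1, h⟩
  · exfalso
    rw [h, zero_add] at hab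
    obtain ⟨x, hx⟩ := val_right (e := e) hp0 hpτ
    have h3 : τ ∈ Sp R₂ := by
      rw [← hx, ← hab]
      exact mem_Sp hb x
    exact hτ0 (Submodule.disjoint_def.1 hdis τ hτ1 h3)
  · rw [h, add_zero] at hab
    obtain ⟨x, hx⟩ := val_left (e := e) (ψ := ψ) hτ0
    have h3 : ψ + ψ (x + e) • τ ∈ Sp R₁ := by
      rw [← hx, ← hab]
      exact mem_Sp ha x
    have h4 := Submodule.add_mem _ h3 (Submodule.smul_mem _ (ψ (x + e)) hτ1)
    rwa [add_assoc, ESL.add_self', add_zero] at h4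
  · exfalso
    have hne : (ψ + τ) e = 1 := by rw [LinearMap.add_apply, h1, hτe, add_zero]
    rcases h with ⟨rfl, rfl⟩ | ⟨rfl, rfl⟩
    · have m1 := hrho ψ R₁ h1 ha
      have m2 := hrho (ψ + τ) R₂ hne hb
      have m3 := Submodule.disjoint_def.1 hdis (ψ + τ) (Submodule.add_mem _ m1 hτ1) m2
      rw [m3] at hne
      exact zero_ne_one hne
    · have m1 := hrho (ψ + τ) R₁ hne ha
      have m2 := hrho ψ R₂ h1 hb
      have m4 := Submodule.add_mem _ m1 hτ1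
      rw [add_assoc, ESL.add_self', add_zero] at m4
      have m3 := Submodule.disjoint_def.1 hdis ψ m4 m2
      rw [m3] at h1
      exact zero_ne_one h1

/-- splitting from a decomposition -/
theorem step {R : FS V} (hR : IsSym R) {M : Submodule (ZMod 2) V} {w : V} {R₁ R₂ : FS V}
    (hsum : fx R w = R₁ ⊔ R₂) (hT : Sp R₁ ≤ an M) (hd : Disjoint (Sp R₂) (an M)) : Spl R M w := by
  have hle1 : R₁ ≤ fx R w := le_sup_left.trans hsum.symm.le
  have hle2 : R₂ ≤ fx R w := le_sup_right.trans hsum.symm.le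
  refine ⟨co (Sp R₂), ?_, fun k hk hkw => ?_⟩
  · have := co_sup_top hd
    rwa [co_an] at this
  · have hmem : k ∈ fx R w := ⟨hk, hkw⟩
    rw [hsum] at hmem
    obtain ⟨a, ha, b, hb, rfl⟩ := Submodule.mem_sup.1 hmem
    refine ⟨a, (hle1 ha).1, fun m hm => ?_, (hle1 ha).2, fun c hc => ?_⟩
    · ext y
      rw [hR a (hle1 ha).1]
      exact hT (mem_Sp ha y) m hm
    · rw [LinearMap.add_apply]
      have : b c = 0 := by
        ext y
        rw [hR b (hle2 hb).1]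
        exact hc _ (mem_Sp hb y)
      rw [this, add_zero]

/-- `[τ, ψ]` kills `w` if `τ` and `ψ` do -/
theorem wd_kill {e : V} {τ ψ : D V} {w : V} (h : τ w = 0) (h' : ψ w = 0) : wd e τ ψ w = 0 := by
  rw [wd_of_zero h, h', zero_smul]

end F1X

theorem f1_proof (hRK : Stmt_RK2) (hS2 : Stmt_SUM2) : Stmt_F1 := by
  intro V _ _ _ e R τ M hC w hwM hw0
  have hτM : τ ∈ an M := by
    rw [mem_an, ← hC.star, wd_self hC.τe]
    exact R.zero_mem
  have hfr : fr (an M) + fr M = fr V := finrank_an M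
  have h3 : 3 ≤ fr (an M) := by
    have := hC.three
    omega
  have hT : ∀ ψ ∈ an M, wd e τ ψ ∈ fx R w := fun ψ hψ =>
    ⟨(hC.star ψ).2 hψ, F1X.wd_kill (hτM w hwM) (hψ w hwM)⟩
  obtain ⟨ψ₀, hψ₀, hψe, hψ0, hψτ⟩ := F1X.exists_psi (e := e) hC.τ0 h3
  obtain ⟨R₁, R₂, hsum, hdis, hle, σ, hσ⟩ :=
    F1X.sub hRK hS2 hC.wu hC.τ0 hC.τe (hC.et w hw0) hψ₀ hψe hψ0 hψτ hT
  have hle1 : R₁ ≤ R := (le_sup_left.trans hsum.symm.le).trans (fx_le R w)
  have hst : Sp R₁ ≤ St e R σ := hσ.le_St hle1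
  have hm := hC.max σ hσ.2.1 hσ.2.2.1
  have e1 : fr (Sp R₁) ≤ fr (St e R σ) := Submodule.finrank_mono hst
  have heq : an M = Sp R₁ := by
    apply Submodule.eq_of_le_of_finrank_le hle
    show fr (Sp R₁) ≤ fr (an M)
    omega
  apply F1X.step hC.wu.sym hsum heq.symm.le
  rw [heq]
  exact hdis.symm

end Pool.Agent.ESG
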