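import Pool.Agent.ESG.Stmts

/-!
ESG module F2: `M` is full (arbitrary Wu class).
-/

set_option linter.unusedVariables false

namespace Pool.Agent.ESG

open Pool.Agent.ESL

namespace F2X

variable {V : Type} [AddCommGroup V] [Module (ZMod 2) V]

/-- a functional vanishing on `C` and `M` is zero -/
theorem eq_zero_of {C M : Submodule (ZMod 2) V} (h : C ⊔ M = ⊤) {f : D V} (hC : ∀ c ∈ C, f c = 0)
    (hM : ∀ m ∈ M, f m = 0) : f = 0 := by
  ext v
  obtain ⟨c, hc, m, hm, rfl⟩ := Submodule.mem_sup.1 (show v ∈ C ⊔ M by rw [h]; trivial)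
  rw [map_add, hC c hc, hM m hm, add_zero]; rfl

/-- the key use of split vectors -/
theorem key {e : V} {R : FS V} (hR : IsWu e R) {M : Submodule (ZMod 2) V} {w : V} (hs : Spl R M w) {k : Fm V}
    (hk : k ∈ R) (hw : k w = 0) {m : V} (hm : m ∈ M) (h : ∀ b ∈ M, k m b = 0) : k m = 0 := by
  obtain ⟨C, hC, hsp⟩ := hs
  obtain ⟨κ, hκ, hκM, -, hκC⟩ := hsp k hk hw
  apply eq_zero_of hC _ h
  intro c hc
  rw [hR.symm hk, hκC c hc, hR.symm hκ, hκM m hm]; rfl

end F2X

open F2X in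
theorem f2_proof : Stmt_F2 := by
  intro V _ _ _ e R τ M ctx hspl h2 m hm k hk hkM
  by_contra hne
  have hR := ctx.wu
  have hL := ctx.sl.linked
  set ψ : D V := k m with hψ
  have hτM : ∀ b ∈ M, τ b = 0 := (ctx.star τ).1 (by rw [wd_self ctx.τe]; exact R.zero_mem)
  have hm0 : m ≠ 0 := by
    rintro rfl
    exact hne (by rw [hψ, map_zero])
  have hψ0 : ψ ≠ 0 := hne
  have hψe : ψ e = 0 := by
    have h1 : ψ m = 0 := hkM m hm
    rw [hψ, hR k hk m] at h1
    exact h1
  -- choose `a`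
  obtain ⟨a, ha, ha0, ham⟩ : ∃ a ∈ M, a ≠ 0 ∧ a ≠ m := by
    by_contra hc
    push Not at hc
    have hle : M ≤ Submodule.span (ZMod 2) {m} := by
      intro x hx
      by_cases hx0 : x = 0
      · rw [hx0]; exact Submodule.zero_mem _
      · rw [hc x hx hx0]; exact Submodule.mem_span_singleton_self m
    have h1 := Submodule.finrank_mono hle
    have h3 : Module.finrank (ZMod 2) (Submodule.span (ZMod 2) {m}) ≤ 1 := by
      rw [finrank_span_singleton hm0]
    have h4 : 2 ≤ Module.finrank (ZMod 2) M := h2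
    omega
  obtain ⟨C, hC, hsp⟩ := hspl m hm hm0
  -- the forms `κ`
  let Adm : V → Prop := fun h => (ψ ≠ τ ∧ τ h = 1 ∧ ψ h = 0) ∨ (ψ = τ ∧ τ h = 0 ∧ h ∉ M)
  have hA : ∀ h, Adm h → ∃ κ ∈ R, (∀ b ∈ M, κ b = 0) ∧ κ h = ψ := by
    rintro h (⟨-, h1, h0⟩ | ⟨he, h1, h0⟩)
    · refine ⟨wd e τ ψ, (ctx.star ψ).2 hkM, fun b hb => ?_, ?_⟩
      · rw [wd_of_zero (hτM b hb), hkM b hb, zero_smul]
      · rw [wd_of_one h1, map_add, h0, hψe, add_zero, zero_smul, add_zero]
    · obtain ⟨χ, hχ, hχ1⟩ := exists_sep h0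
      refine ⟨wd e τ χ, (ctx.star χ).2 hχ, fun b hb => ?_, ?_⟩
      · rw [wd_of_zero (hτM b hb), hχ b hb, zero_smul]
      · rw [wd_of_zero_one h1 hχ1, he]
  have hB : ∀ h ∈ C, Adm h → ∃ k' ∈ R, k' m = ψ ∧ (∀ b ∈ M, k' a b = 0) ∧ k' a h = 0 := by
    intro h hh hadm
    obtain ⟨κ, hκ, hκM, hκh⟩ := hA h hadm
    have step : ∀ a' ∈ M, ∃ l ∈ R, l m = ψ ∧ l (h + a') = 0 := by
      intro a' ha'
      obtain ⟨l, hl, h1, h2⟩ := hL k hk κ hκ m (m + (h + a')) (by
        rw [map_add, map_add, hκM m hm, hκM a' ha', hκh, zero_add, add_zero])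
      refine ⟨l, hl, h1, ?_⟩
      rw [map_add l m, h1] at h2
      simpa using h2
    obtain ⟨l₀, hl₀, e1, e2⟩ := step 0 M.zero_mem
    obtain ⟨l₁, hl₁, e3, e4⟩ := step a ha
    rw [add_zero] at e2
    have hsum : (l₁ + l₀) m = 0 := by
      rw [LinearMap.add_apply, e1, e3, add_self']
    obtain ⟨κ', hκ', hκ'M, hκ'm, hκ'C⟩ := hsp (l₁ + l₀) (R.add_mem hl₁ hl₀) hsum
    have hd : ∀ x, (l₁ + l₀ + κ') x = l₁ x + l₀ x + κ' x := fun x => rfl
    refine ⟨l₀ + (l₁ + l₀ + κ'), R.add_mem hl₀ (R.add_mem (R.add_mem hl₁ hl₀) hκ'), ?_, ?_⟩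
    · rw [LinearMap.add_apply, hd, hκ'm, e1, e3, add_self', add_zero, add_zero]
    have ek : (l₀ + (l₁ + l₀ + κ')) a = κ' h := by
      have h5 : l₁ h + l₀ h = κ' h := hκ'C h hh
      rw [e2, add_zero] at h5
      rw [map_add, h5] at e4
      have h6 : κ' h = l₁ a := eq_of_add e4
      rw [LinearMap.add_apply, hd, hκ'M a ha, h6, add_zero, add_comm (l₁ a), add_add_self]
    have hl : l₀ + (l₁ + l₀ + κ') ∈ R := R.add_mem hl₀ (R.add_mem (R.add_mem hl₁ hl₀) hκ')
    have hae : κ' h e = κ' h a := by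
      have h7 := hR _ hl a
      rw [ek] at h7
      exact h7.symm
    rw [ek]
    refine ⟨fun b hb => ?_, ?_⟩
    · rw [hR.symm hκ', hκ'M b hb]; rfl
    · rw [hR κ' hκ' h, hae, hR.symm hκ', hκ'M a ha]; rfl
  have hCl : ∀ k₁ ∈ R, ∀ k₂ ∈ R, k₁ m = ψ → k₂ m = ψ → (∀ b ∈ M, k₁ a b = 0) →
      (∀ b ∈ M, k₂ a b = 0) → k₁ a = k₂ a := by
    intro k₁ h₁ k₂ h₂ e1 e2 f1 f2
    obtain ⟨κ, hκ, hκM, -, hκC⟩ := hsp (k₁ + k₂) (R.add_mem h₁ h₂) (by
      rw [LinearMap.add_apply, e1, e2, add_self'])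
    have : (k₁ + k₂) a = 0 := by
      apply eq_zero_of hC
      · intro c hc
        rw [hR.symm (R.add_mem h₁ h₂), hκC c hc, hR.symm hκ, hκM a ha]; rfl
      · intro b hb
        rw [LinearMap.add_apply, LinearMap.add_apply, f1 b hb, f2 b hb, add_zero]
    exact eq_of_add this
  -- projection of admissible vectors to `C`
  have hproj : ∀ v, Adm v → ∃ c ∈ C, Adm c ∧ v + c ∈ M := by
    intro v hv
    obtain ⟨c, hc, b, hb, rfl⟩ := Submodule.mem_sup.1 (show v ∈ C ⊔ M by rw [hC]; trivial)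
    refine ⟨c, hc, ?_, ?_⟩
    · rcases hv with ⟨h1, h2, h3⟩ | ⟨h1, h2, h3⟩
      · left
        rw [map_add, hτM b hb, add_zero] at h2
        rw [map_add, hkM b hb, add_zero] at h3
        exact ⟨h1, h2, h3⟩
      · right
        rw [map_add, hτM b hb, add_zero] at h2
        exact ⟨h1, h2, fun h4 => h3 (M.add_mem h4 hb)⟩
    · rw [add_comm c b, add_assoc, add_self', add_zero]; exact hb
  -- an admissible vector exists
  obtain ⟨v₀, hv₀⟩ : ∃ v, Adm v := by
    by_cases he : ψ = τ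
    · have h5 : ¬ (LinearMap.ker τ ≤ M) := by
        intro hle
        have h6 := Submodule.finrank_mono hle
        have h7 : Module.finrank (ZMod 2) (LinearMap.range τ) +
          Module.finrank (ZMod 2) (LinearMap.ker τ) = Module.finrank (ZMod 2) V :=
          LinearMap.finrank_range_add_finrank_ker τ
        have h8 : Module.finrank (ZMod 2) (LinearMap.range τ) ≤ 1 := by
          have := Submodule.finrank_le (LinearMap.range τ)
          rwa [Module.finrank_self] at this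
        have h9 : Module.finrank (ZMod 2) M + 3 ≤ Module.finrank (ZMod 2) V := ctx.three
        omega
      obtain ⟨v, hv, hvM⟩ := Set.not_subset.1 h5
      exact ⟨v, Or.inr ⟨he, hv, hvM⟩⟩
    · have h5 : τ ∉ Submodule.span (ZMod 2) {ψ} := by
        intro h6
        obtain ⟨c, hc⟩ := Submodule.mem_span_singleton.1 h6
        rcases zm c with rfl | rfl
        · rw [zero_smul] at hc; exact ctx.τ0 hc.symm
        · rw [one_smul] at hc; exact he hc
      obtain ⟨x, hx, hx1⟩ := exists_cosep h5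
      exact ⟨x, Or.inl ⟨he, hx1, hx ψ (Submodule.mem_span_singleton_self ψ)⟩⟩
  obtain ⟨c₀, hc₀, hadm₀, -⟩ := hproj v₀ hv₀
  obtain ⟨k', hk', e1, e2, -⟩ := hB c₀ hc₀ hadm₀
  have hvan : ∀ v, Adm v → k' a v = 0 := by
    intro v hv
    obtain ⟨c, hc, hadm, hvc⟩ := hproj v hv
    obtain ⟨k'', hk'', f1, f2, f3⟩ := hB c hc hadm
    have h6 := hCl k' hk' k'' hk'' e1 f1 e2 f2
    have h7 : v = (v + c) + c := (add_add_self' v c).symm
    rw [h7, map_add, e2 _ hvc, zero_add, h6, f3]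
  have hker : ∀ v, ψ v = 0 → k' a v = 0 := by
    intro v hv
    by_cases he : ψ = τ
    · by_cases hvM : v ∈ M
      · exact e2 v hvM
      · exact hvan v (Or.inr ⟨he, he ▸ hv, hvM⟩)
    · rcases zm (τ v) with ht | ht
      · have h8 : τ v₀ = 1 ∧ ψ v₀ = 0 := by
          rcases hv₀ with ⟨-, h⟩ | ⟨h, -⟩
          · exact h
          · exact absurd h he
        have h9 : Adm (v + v₀) := Or.inl ⟨he, by rw [map_add, ht, h8.1, zero_add],
          by rw [map_add, hv, h8.2, add_zero]⟩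
        have h10 := hvan _ h9
        rw [map_add, hvan v₀ hv₀, add_zero] at h10
        exact h10
      · exact hvan v (Or.inl ⟨he, ht, hv⟩)
  have hval : k' a = 0 ∨ k' a = ψ := by
    by_cases h0 : k' a = 0
    · exact Or.inl h0
    right
    ext v
    rcases zm (ψ v) with h | h
    · rw [h, hker v h]
    · rw [h]
      by_contra hcon
      have h11 : k' a v = 0 := zm_ne' hcon
      apply h0
      ext u
      rcases zm (ψ u) with h' | h'
      · rw [hker u h']; rfl
      · have h12 := hker (u + v) (by rw [map_add, h, h', CharTwo.add_self_eq_zero])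
        rw [map_add, h11, add_zero] at h12
        rw [h12]; rfl
  rcases hval with h | h
  · have := key hR (hspl a ha ha0) hk' h hm (by rw [e1]; exact hkM)
    exact hψ0 (e1 ▸ this)
  · have := key hR (w := m + a) (hspl (m + a) (M.add_mem hm ha) (fun h' => ham (eq_of_add h').symm)) hk'
      (by rw [map_add, e1, h, add_self']) hm (by rw [e1]; exact hkM)
    exact hψ0 (e1 ▸ this)

end Pool.Agent.ESG
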