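import Pool.Agent.ESG.Stmts

/-!
ESG module F3 (helper52): `dim M = 1` implies that `M` is full.
-/

set_option linter.unusedVariables false

namespace Pool.Agent.ESG

open Pool.Agent.ESL

namespace F3X

variable {V : Type} [AddCommGroup V] [Module (ZMod 2) V]

/-- three functionals have a common zero in dimension `≥ 4` -/
theorem exists_zero [Finite V] (h : 4 ≤ fr V) (a b c : D V) : ∃ g, g ≠ 0 ∧ a g = 0 ∧ b g = 0 ∧ c g = 0 := by
  classical
  have h1 : Module.finrank (ZMod 2) (Submodule.span (ZMod 2) ({a, b, c} : Set (D V))) ≤ 3 := by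
    have h2 := finrank_span_finset_le_card (R := ZMod 2) ({a, b, c} : Finset (D V))
    have h3 : (({a, b, c} : Finset (D V)) : Set (D V)) = {a, b, c} := by simp
    rw [Set.finrank, h3] at h2
    exact h2.trans Finset.card_le_three
  have h4 := finrank_co (Submodule.span (ZMod 2) ({a, b, c} : Set (D V)))
  have h5 : co (Submodule.span (ZMod 2) ({a, b, c} : Set (D V))) ≠ ⊥ := by
    intro h6
    rw [h6, finrank_bot] at h4
    have h7 : 4 ≤ Module.finrank (ZMod 2) V := h
    omega
  obtain ⟨g, hg, hg0⟩ := Submodule.exists_mem_ne_zero_of_ne_bot h5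
  exact ⟨g, hg0, hg a (Submodule.subset_span (by simp)), hg b (Submodule.subset_span (by simp)),
    hg c (Submodule.subset_span (by simp))⟩

end F3X

open F3X in
theorem f3_proof (hA : Stmt_F3A) (hB : Stmt_F3B) (hC : Stmt_F3C) (hCOMP : Stmt_COMP) : Stmt_F3 := by
  intro V _ _ _ e R τ M h h1
  obtain ⟨m, hm0, hM⟩ : ∃ m, m ≠ 0 ∧ M = Submodule.span (ZMod 2) {m} := by
    obtain ⟨m, hm, hm0⟩ := Submodule.exists_mem_ne_zero_of_ne_bot h.ne
    refine ⟨m, hm0, ?_⟩
    symm
    apply Submodule.eq_of_le_of_finrank_eq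
    · rw [Submodule.span_singleton_le_iff_mem]; exact hm
    · rw [finrank_span_singleton hm0]; exact h1.symm
  subst hM
  obtain ⟨z, F⟩ := hA V e R τ m h
  have hτm : τ m = 0 := (h.star τ).1 (by rw [wd_self h.τe]; exact R.zero_mem) m
    (Submodule.mem_span_singleton_self m)
  have hz0 : z ≠ 0 := by
    rintro rfl
    have := F.one
    rw [map_zero] at this
    exact zero_ne_one this
  have hfr : 4 ≤ fr V := by
    have h2 : Module.finrank (ZMod 2) (Submodule.span (ZMod 2) {m}) + 3 ≤ Module.finrank (ZMod 2) V :=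
      h.three
    rw [finrank_span_singleton hm0] at h2
    exact h2
  have hmz : m ∉ rad (fx R z) := by
    intro hm
    apply hm0
    have : m ∈ rad R := by
      intro k hk
      have e1 := hm _ (F.red k hk)
      rw [LinearMap.add_apply, wd_of_zero hτm, F.comm k hk, zero_smul, add_zero] at e1
      exact e1
    rwa [h.nd, Submodule.mem_bot] at this
  obtain ⟨R₁, R₂, hR, hd, hmR, hcase⟩ := hCOMP V e (fx R z) (h.et z hz0) m hmz
  rcases hB V e R τ m z h F R₁ R₂ hR hd hmR with hfull | ⟨hR2, hrad⟩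
  · exact hfull
  exfalso
  rw [hR2, sup_bot_eq] at hR
  rw [← hR] at hcase
  rcases hcase with ⟨k, hk⟩ | ⟨σ, hσ⟩
  · have hkS : k ∈ fx R z := by rw [hk]; exact Submodule.mem_span_singleton_self k
    have hkm : k m ≠ 0 := by
      intro hkm
      apply hmz
      intro l hl
      rw [hk] at hl
      obtain ⟨c, rfl⟩ := Submodule.mem_span_singleton.1 hl
      rw [LinearMap.smul_apply, hkm, smul_zero]
    obtain ⟨σ, hσ⟩ : ∃ σ : D V, σ m ≠ 0 := by
      by_contra hc
      push Not at hc
      have hm1 : m ∉ (⊥ : Submodule (ZMod 2) V) := by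
        rw [Submodule.mem_bot]; exact hm0
      obtain ⟨σ, -, hσm⟩ := exists_sep hm1
      rw [hc σ] at hσm
      exact zero_ne_one hσm
    obtain ⟨g, hg0, hgτ, hgk, hgσ⟩ := exists_zero hfr τ (k m) σ
    have hgm : g ≠ m := by
      rintro rfl
      exact hσ hgσ
    obtain ⟨l, hl, hlg, hlm⟩ := F.hh g hgτ hg0 hgm (k m) ⟨k, hkS.1, rfl⟩ hgk
    have hlk : l = k := by
      have hl' := hl
      rw [hk] at hl'
      obtain ⟨c, rfl⟩ := Submodule.mem_span_singleton.1 hl'
      rcases zm c with rfl | rfl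
      · rw [zero_smul, LinearMap.zero_apply] at hlm
        exact absurd hlm.symm hkm
      · rw [one_smul]
    have hgr : g ∈ rad (fx R z) := by
      intro l' hl'
      rw [hk] at hl'
      obtain ⟨c, rfl⟩ := Submodule.mem_span_singleton.1 hl'
      rw [LinearMap.smul_apply, ← hlk, hlg, smul_zero]
    rw [hrad] at hgr
    obtain ⟨c, hc⟩ := Submodule.mem_span_singleton.1 hgr
    rcases zm c with rfl | rfl
    · rw [zero_smul] at hc; exact hg0 hc.symm
    · rw [one_smul] at hc
      rw [← hc, F.one] at hgτ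
      exact one_ne_zero hgτ
  · exact hC V e R τ m z h F hrad σ hσ

end Pool.Agent.ESG
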