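import Pool.Agent.ESG.Stmts

/-!
ESG module F3A: the case `M = ⟨m⟩`.
-/

set_option linter.unusedVariables false

namespace Pool.Agent.ESG

open Pool.Agent.ESL

namespace F3AX

variable {V : Type} [AddCommGroup V] [Module (ZMod 2) V] [Finite V]

theorem m_ne {e : V} {R : FS V} {τ : D V} {m : V} (ctx : CtxI e R τ (Submodule.span (ZMod 2) {m})) :
    m ≠ 0 := by
  rintro rfl
  exact ctx.ne (by simp)

theorem star_iff {e : V} {R : FS V} {τ : D V} {m : V} (ctx : CtxI e R τ (Submodule.span (ZMod 2) {m}))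
    (ψ : D V) : wd e τ ψ ∈ R ↔ ψ m = 0 := by
  rw [ctx.star]
  constructor
  · intro h
    exact h m (Submodule.mem_span_singleton_self m)
  · intro h x hx
    obtain ⟨c, rfl⟩ := Submodule.mem_span_singleton.1 hx
    rw [map_smul, h, smul_zero]

theorem τm {e : V} {R : FS V} {τ : D V} {m : V} (ctx : CtxI e R τ (Submodule.span (ZMod 2) {m})) :
    τ m = 0 :=
  (star_iff ctx τ).1 (by rw [wd_self ctx.τe]; exact R.zero_mem)

theorem not_span {m x : V} (h0 : x ≠ 0) (h1 : x ≠ m) : x ∉ Submodule.span (ZMod 2) {m} := by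
  intro h
  obtain ⟨c, hc⟩ := Submodule.mem_span_singleton.1 h
  rcases zm c with rfl | rfl
  · rw [zero_smul] at hc; exact h0 hc.symm
  · rw [one_smul] at hc; exact h1 hc.symm

/-- `V_y ≤ ⟨m, y + e⟩` -/
theorem Vy {e : V} {R : FS V} {τ : D V} {m : V} (ctx : CtxI e R τ (Submodule.span (ZMod 2) {m})) {y : V}
    (hy : τ y = 1) {v : V} (hv : ∀ k ∈ R, k y v = 0) : ∃ c d : ZMod 2, c • m + d • (y + e) = v := by
  have : v ∈ Submodule.span (ZMod 2) {m, y + e} := by
    by_contra hc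
    obtain ⟨f, hf, hf1⟩ := exists_sep hc
    have hm : f m = 0 := hf m (Submodule.subset_span (by simp))
    have hy' : f (y + e) = 0 := hf (y + e) (Submodule.subset_span (by simp))
    have h1 := hv _ ((star_iff ctx f).2 hm)
    rw [wd_of_one_zero hy hy', hf1] at h1
    exact one_ne_zero h1
  obtain ⟨c, d, h⟩ := Submodule.mem_span_pair.1 this
  exact ⟨c, d, h⟩

/-- `L_y = ⟨y + e⟩^⊥` if `y` does not commute with `m` -/
theorem Ly {e : V} {R : FS V} {τ : D V} {m : V} (ctx : CtxI e R τ (Submodule.span (ZMod 2) {m})) {y : V}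
    (hy : τ y = 1) (hym : ∃ k ∈ R, k y m ≠ 0) {ψ : D V} (hψ : ψ (y + e) = 0) : ψ ∈ Lx R y := by
  rw [mem_Lx_iff]
  intro v hv
  obtain ⟨c, d, rfl⟩ := Vy ctx hy hv
  obtain ⟨k, hk, hkm⟩ := hym
  have h0 : k y (y + e) = 0 := Lx_e ctx.wu (Lx_mem hk y)
  have h1 := hv k hk
  rw [map_add, map_smul, map_smul, h0, smul_zero, add_zero, zm_ne hkm, smul_eq_mul,
    mul_one] at h1
  rw [h1, zero_smul, zero_add, map_smul, hψ, smul_zero]

end F3AX

open F3AX in
theorem f3a_proof : Stmt_F3A := by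
  intro V _ _ _ e R τ m ctx
  have hR := ctx.wu
  have hL := ctx.sl.linked
  have hm0 := m_ne ctx
  have hτm := τm ctx
  have hτe := ctx.τe
  -- `τ` is not in `L_m`
  have hii : τ ∉ Lx R m := by
    rintro ⟨k₀, hk₀, hk₀m⟩
    have hall : ∀ ρ : D V, wd e τ ρ ∈ R := by
      intro ρ
      apply ctx.sl.univ
      intro x
      rcases zm (τ x) with h | h
      · rw [wd_of_zero h]
        by_cases hx0 : x = 0
        · rw [hx0, map_zero, zero_smul]
          exact Submodule.zero_mem _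
        apply Submodule.smul_mem
        by_cases hxm : x = m
        · rw [hxm]; exact ⟨k₀, hk₀, hk₀m⟩
        · obtain ⟨f, hf, hf1⟩ := exists_sep (not_span hx0 hxm)
          exact ⟨wd e τ f, (star_iff ctx f).2 (hf m (Submodule.mem_span_singleton_self m)),
            wd_of_zero_one h hf1⟩
      · rw [wd_of_one h]
        apply Ly ctx h
        · refine ⟨k₀, hk₀, ?_⟩
          rw [hR.symm hk₀, hk₀m, h]; exact one_ne_zero
        · rw [LinearMap.add_apply, LinearMap.smul_apply, map_add τ, h, hτe, add_zero, smul_eq_mul,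
            mul_one, CharTwo.add_self_eq_zero]
    obtain ⟨f, hf⟩ := exists_dual hm0
    have := (star_iff ctx f).1 (hall f)
    rw [hf] at this
    exact one_ne_zero this
  rw [mem_Lx_iff] at hii
  push Not at hii
  obtain ⟨z, hz, hτz⟩ := hii
  have hτz := zm_ne hτz
  have hzm : ∀ k ∈ R, k z m = 0 := fun k hk => by rw [hR.symm hk]; exact hz k hk
  have hfx : ∀ k ∈ R, k + wd e τ (k z) ∈ fx R z := by
    intro k hk
    refine ⟨R.add_mem hk ((star_iff ctx _).2 (hzm k hk)), ?_⟩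
    rw [LinearMap.add_apply, wd_of_one_zero hτz (Lx_e hR (Lx_mem hk z)), add_self']
  refine ⟨z, hτz, hzm, hfx, ?_⟩
  intro h hh h0 hm ψ hψ hψh
  by_contra hcon
  have hψT : ψ ∉ Lx (fx (fx R z) h) m := by
    rintro ⟨k, hk, hkm⟩
    exact hcon ⟨k, hk.1, hk.2, hkm⟩
  obtain ⟨k₁, hk₁, hk₁m⟩ := hψ
  have hψz : ψ z = 0 := by rw [← hk₁m, hR.symm hk₁]; exact hzm k₁ hk₁
  obtain ⟨h₁, hh₁, hψ1, hco⟩ : ∃ h₁, τ h₁ = 0 ∧ ψ h₁ = 1 ∧ ∀ k ∈ fx R z, k h = 0 → k m h₁ = 0 := by
    obtain ⟨x, hx, hx1⟩ := exists_cosep hψT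
    have hx' : ∀ k ∈ fx R z, k h = 0 → k m x = 0 := fun k hk hkh => hx (k m) ⟨k, ⟨hk, hkh⟩, rfl⟩
    rcases zm (τ x) with hτx | hτx
    · exact ⟨x, hτx, hx1, hx'⟩
    · refine ⟨x + z, ?_, ?_, ?_⟩
      · rw [map_add, hτx, hτz, CharTwo.add_self_eq_zero]
      · rw [map_add, hx1, hψz, add_zero]
      · intro k hk hkh
        rw [map_add, hx' k hk hkh, zero_add, hR.symm hk.1, hk.2]; rfl
  have hy1 : τ (z + h₁) = 1 := by rw [map_add, hτz, hh₁, add_zero]
  have hy2 : τ (z + h₁ + h) = 1 := by rw [map_add, hy1, hh, add_zero]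
  have hk1 : ∃ k ∈ R, k (z + h₁) m ≠ 0 := by
    refine ⟨k₁, hk₁, ?_⟩
    rw [hR.symm hk₁, hk₁m, map_add, hψz, hψ1, zero_add]
    exact one_ne_zero
  have hk2 : ∃ k ∈ R, k (z + h₁ + h) m ≠ 0 := by
    refine ⟨k₁, hk₁, ?_⟩
    rw [hR.symm hk₁, hk₁m, map_add, map_add, hψz, hψ1, hψh, zero_add, add_zero]
    exact one_ne_zero
  have hns : m ∉ Submodule.span (ZMod 2) {z + h₁ + e, h} := by
    intro hc
    obtain ⟨c, d, hcd⟩ := Submodule.mem_span_pair.1 hc
    have h3 := congrArg τ hcd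
    rw [map_add, map_smul, map_smul, map_add τ (z + h₁) e, hy1, hτe, hh, hτm, add_zero, smul_eq_mul,
      mul_one, smul_zero, add_zero] at h3
    rw [h3, zero_smul, zero_add] at hcd
    rcases zm d with rfl | rfl
    · rw [zero_smul] at hcd; exact hm0 hcd.symm
    · rw [one_smul] at hcd; exact hm hcd
  obtain ⟨χ, hχ, hχm⟩ := exists_sep hns
  have e1 : χ (z + h₁ + e) = 0 := hχ _ (Submodule.subset_span (by simp))
  have e2 : χ h = 0 := hχ _ (Submodule.subset_span (by simp))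
  obtain ⟨k₂, hk₂, f1⟩ := Ly ctx hy1 hk1 e1
  obtain ⟨k₃, hk₃, f2⟩ := Ly ctx hy2 hk2 (ψ := χ) (by
    have : z + h₁ + h + e = (z + h₁ + e) + h := by abel
    rw [this, map_add, e1, e2, add_zero])
  obtain ⟨l, hl, g1, g2⟩ := hL k₂ hk₂ k₃ hk₃ _ _ (f1.trans f2.symm)
  rw [f1] at g1 g2
  have hlh : l h = 0 := by
    rw [map_add l (z + h₁) h, g1] at g2
    simpa using g2
  have hlm : l h₁ m = 1 := by
    have h5 : l (z + h₁) m = 1 := by rw [g1, hχm]
    rwa [map_add, LinearMap.add_apply, hzm l hl, zero_add] at h5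
  have hfin := hco (l + wd e τ (l z)) (hfx l hl) (by
    rw [LinearMap.add_apply, hlh, wd_of_zero hh, hR.symm hl, hlh, LinearMap.zero_apply,
      zero_smul, add_zero])
  rw [hR.symm (hfx l hl).1, LinearMap.add_apply, LinearMap.add_apply, hlm, wd_of_zero hh₁,
    LinearMap.smul_apply, hτm, smul_zero, add_zero] at hfin
  exact one_ne_zero hfin

end Pool.Agent.ESG
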