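import Pool.Agent.ESG.Stmts

/-!
ESG module F3B: in the case `M = ⟨m⟩`, `M` is full or the form space `R^z` has only one component.
-/

set_option linter.unusedVariables false

namespace Pool.Agent.ESG

open Pool.Agent.ESL

namespace F3BX

variable {V : Type} [AddCommGroup V] [Module (ZMod 2) V]

theorem exists_one {φ : D V} (h : φ ≠ 0) : ∃ x, φ x = 1 := by
  by_contra hc
  push Not at hc
  exact h (LinearMap.ext fun x => zm_ne' (hc x))

/-- a common point with value one -/
theorem exists_common {φ ψ : D V} (h : φ ≠ 0) (h' : ψ ≠ 0) : ∃ x, φ x = 1 ∧ ψ x = 1 := by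
  obtain ⟨x, hx⟩ := exists_one h
  obtain ⟨y, hy⟩ := exists_one h'
  rcases zm (ψ x) with h1 | h1
  · rcases zm (φ y) with h2 | h2
    · exact ⟨x + y, by rw [map_add, hx, h2, add_zero], by rw [map_add, h1, hy, zero_add]⟩
    · exact ⟨y, h2, hy⟩
  · exact ⟨x, hx, h1⟩

/-- three functionals have a common zero in dimension `≥ 4` -/
theorem exists_zero [Finite V] (h : 4 ≤ fr V) (a b c : D V) : ∃ g, g ≠ 0 ∧ a g = 0 ∧ b g = 0 ∧ c g = 0 := by
  classical
  have h1 : Module.finrank (ZMod 2) (Submodule.span (ZMod 2) ({a, b, c} : Set (D V))) ≤ 3 := by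
    have h2 := finrank_span_finset_le_card (R := ZMod 2) ({a, b, c} : Finset (D V))
    have h3 : (({a, b, c} : Finset (D V)) : Set (D V)) = {a, b, c} := by simp
    rw [Set.finrank, h3] at h2
    exact h2.trans Finset.card_le_three
  have h4 := finrank_co (Submodule.span (ZMod 2) ({a, b, c} : Set (D V)))
  have h5 : co (Submodule.span (ZMod 2) ({a, b, c} : Set (D V))) ≠ ⊥ := by
    intro h6
    rw [h6, finrank_bot] at h4
    have h7 : 4 ≤ Module.finrank (ZMod 2) V := h
    omega
  obtain ⟨g, hg, hg0⟩ := Submodule.exists_mem_ne_zero_of_ne_bot h5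
  exact ⟨g, hg0, hg a (Submodule.subset_span (by simp)), hg b (Submodule.subset_span (by simp)),
    hg c (Submodule.subset_span (by simp))⟩

end F3BX

open F3BX in
theorem f3b_proof : Stmt_F3B := by
  intro V _ _ _ e R τ m z ctx F R₁ R₂ hsum hdis hmR₁
  have hR := ctx.wu
  have hS : IsSym R := ctx.wu.sym
  have hτz := F.one
  have hstar : ∀ ψ : D V, wd e τ ψ ∈ R ↔ ψ m = 0 := by
    intro ψ
    rw [ctx.star]
    constructor
    · intro h
      exact h m (Submodule.mem_span_singleton_self m)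
    · intro h x hx
      obtain ⟨c, rfl⟩ := Submodule.mem_span_singleton.1 hx
      rw [map_smul, h, smul_zero]
  have hτm : τ m = 0 := (hstar τ).1 (by rw [wd_self ctx.τe]; exact R.zero_mem)
  have hm0 : m ≠ 0 := by
    rintro rfl
    exact ctx.ne (by simp)
  have hfr : 4 ≤ fr V := by
    have h1 : Module.finrank (ZMod 2) (Submodule.span (ZMod 2) {m}) + 3 ≤ Module.finrank (ZMod 2) V :=
      ctx.three
    rw [finrank_span_singleton hm0] at h1
    exact h1
  have h1 : R₁ ≤ fx R z := by rw [hsum]; exact le_sup_left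
  have h2 : R₂ ≤ fx R z := by rw [hsum]; exact le_sup_right
  have hz1 : ∀ k ∈ R₁, k z = 0 := fun k hk => (h1 hk).2
  have hz2 : ∀ k ∈ R₂, k z = 0 := fun k hk => (h2 hk).2
  have hA1 : IsSym R₁ := hS.mono (h1.trans (fx_le R z))
  have hA2 : IsSym R₂ := hS.mono (h2.trans (fx_le R z))
  have hdec : ∀ k ∈ fx R z, ∃ a ∈ R₁, ∃ b ∈ R₂, a + b = k := by
    intro k hk
    rw [hsum] at hk
    exact Submodule.mem_sup.1 hk
  -- components of functionals
  have hcomp : ∀ a ∈ R₁, ∀ b ∈ R₂, ∀ a' ∈ R₁, ∀ b' ∈ R₂, ∀ x, a x + b x = a' x + b' x → a x = a' x := by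
    intro a ha b hb a' ha' b' hb' x h
    have h3 : a x + a' x = b x + b' x := by
      have h4 : a x + a' x + (b x + b' x) = 0 := by
        have h5 : a x + b x + (a' x + b' x) = 0 := by rw [h]; exact add_self' _
        calc a x + a' x + (b x + b' x) = a x + b x + (a' x + b' x) := by abel
          _ = 0 := h5
      exact eq_of_add h4
    have h8 : a x + a' x ∈ Sp R₁ ⊓ Sp R₂ :=
      ⟨Submodule.add_mem _ (mem_Sp ha x) (mem_Sp ha' x),
        h3 ▸ Submodule.add_mem _ (mem_Sp hb x) (mem_Sp hb' x)⟩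
    rw [hdis.eq_bot, Submodule.mem_bot] at h8
    exact eq_of_add h8
  have hzero : ∀ a ∈ R₁, ∀ b ∈ R₂, ∀ x, (a + b) x = 0 → a x = 0 := by
    intro a ha b hb x h
    exact hcomp a ha b hb 0 R₁.zero_mem 0 R₂.zero_mem x (by
      rw [← LinearMap.add_apply, h, LinearMap.zero_apply, add_zero])
  -- `m` is in the radical of `R₂`
  have hmR₂ : ∀ b ∈ R₂, b m = 0 := by
    intro b hb
    by_contra hbm
    obtain ⟨a, ha, ham⟩ : ∃ a ∈ R₁, a m ≠ 0 := by
      by_contra hc
      push Not at hc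
      exact hmR₁ hc
    have haz : a m z = 0 := by rw [hA1 a ha, hz1 a ha]; rfl
    have hbz : b m z = 0 := by rw [hA2 b hb, hz2 b hb]; rfl
    obtain ⟨h, hτh, hah, hbh, hh0, hhm⟩ : ∃ h, τ h = 0 ∧ a m h = 1 ∧ b m h = 1 ∧ h ≠ 0 ∧ h ≠ m := by
      obtain ⟨x, hx, hx'⟩ := exists_common ham hbm
      have e1 : τ (x + τ x • z) = 0 := by
        rw [map_add, map_smul, hτz, smul_eq_mul, mul_one, CharTwo.add_self_eq_zero]
      have e2 : a m (x + τ x • z) = 1 := by rw [map_add, map_smul, haz, smul_zero, add_zero, hx]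
      have e3 : b m (x + τ x • z) = 1 := by rw [map_add, map_smul, hbz, smul_zero, add_zero, hx']
      have h0 : ∀ y, a m y = 1 → y ≠ 0 := by
        rintro y hy rfl
        rw [map_zero] at hy
        exact zero_ne_one hy
      by_cases hxm : x + τ x • z = m
      · obtain ⟨g, hg0, g1, g2, g3⟩ := exists_zero hfr τ (a m) (b m)
        refine ⟨x + τ x • z + g, ?_, ?_, ?_, ?_, ?_⟩
        · rw [map_add, e1, g1, add_zero]
        · rw [map_add, e2, g2, add_zero]
        · rw [map_add, e3, g3, add_zero]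
        · apply h0
          rw [map_add, e2, g2, add_zero]
        · rw [hxm]
          intro h
          exact hg0 (by simpa using h)
      · exact ⟨_, e1, e2, e3, h0 _ e2, hxm⟩
    obtain ⟨k, hk, hkh, hkm⟩ := F.hh h hτh hh0 hhm (a m + b m)
      ⟨a + b, R.add_mem (h1 ha).1 (h2 hb).1, rfl⟩ (by
        rw [LinearMap.add_apply, hah, hbh, CharTwo.add_self_eq_zero])
    obtain ⟨a', ha', b', hb', rfl⟩ := hdec k hk
    have e1 : a' h = 0 := hzero a' ha' b' hb' h hkh
    have e2 : a' m = a m := hcomp a' ha' b' hb' a ha b hb m hkm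
    rw [← e2, hA1 a' ha', e1] at hah
    exact zero_ne_one hah
  -- `L_m = R₁ m`
  have hLm : ∀ k ∈ R, ∃ a ∈ R₁, a m = k m := by
    intro k hk
    obtain ⟨a, ha, b, hb, hab⟩ := hdec _ (F.red k hk)
    refine ⟨a, ha, ?_⟩
    have h3 := congrArg (fun G : Fm V => G m) hab
    simp only [LinearMap.add_apply] at h3
    rw [hmR₂ b hb, add_zero, wd_of_zero hτm, F.comm k hk, zero_smul, add_zero] at h3
    exact h3
  by_cases hfull : ∃ g ∈ rad R₁, τ g = 0 ∧ g ≠ 0
  · left
    obtain ⟨g, hg, hτg, hg0⟩ := hfull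
    have hgm : g ≠ m := by
      rintro rfl
      exact hmR₁ hg
    have key : ∀ k ∈ R, k m m = 0 → k m = 0 := by
      intro k hk hkm
      obtain ⟨a, ha, ham⟩ := hLm k hk
      obtain ⟨l, hl, hlh, hlm⟩ := F.hh (m + g) (by rw [map_add, hτm, hτg, add_zero])
        (fun h => hgm (eq_of_add h).symm) (fun h => hg0 (by simpa using h)) (k m) ⟨k, hk, rfl⟩ (by
          rw [map_add, hkm, zero_add, ← ham, hA1 a ha, hg a ha]; rfl)
      obtain ⟨a', ha', b', hb', rfl⟩ := hdec l hl
      have e1 : a' (m + g) = 0 := hzero a' ha' b' hb' _ hlh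
      rw [map_add, hg a' ha', add_zero] at e1
      rw [← hlm, LinearMap.add_apply, e1, hmR₂ b' hb', add_zero]
    intro m' hm' k hk hkk
    obtain ⟨c, rfl⟩ := Submodule.mem_span_singleton.1 hm'
    rcases zm c with rfl | rfl
    · rw [zero_smul, map_zero]
    · rw [one_smul] at hkk ⊢
      exact key k hk (hkk m (Submodule.mem_span_singleton_self m))
  right
  push Not at hfull
  have hrad1 : rad R₁ = Submodule.span (ZMod 2) {z} := by
    apply le_antisymm
    · intro x hx
      have h3 : x + τ x • z = 0 := by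
        apply hfull
        · intro k hk
          rw [map_add, map_smul, hx k hk, hz1 k hk, smul_zero, add_zero]
        · rw [map_add, map_smul, hτz, smul_eq_mul, mul_one, CharTwo.add_self_eq_zero]
      rw [eq_of_add h3]
      exact Submodule.smul_mem _ _ (Submodule.mem_span_singleton_self z)
    · rw [Submodule.span_singleton_le_iff_mem]
      exact hz1
  have hSp : Sp R₂ ≤ Sp R₁ := by
    rw [← an_rad hA1, hrad1]
    apply Sp_le.2
    intro k hk x y hy
    obtain ⟨c, rfl⟩ := Submodule.mem_span_singleton.1 hy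
    rw [map_smul, hA2 k hk, hz2 k hk, LinearMap.zero_apply, smul_zero]
  have hR2 : R₂ = ⊥ := by
    rw [eq_bot_iff]
    intro k hk
    rw [Submodule.mem_bot]
    ext x y
    have h3 : k x ∈ Sp R₁ ⊓ Sp R₂ := ⟨hSp (mem_Sp hk x), mem_Sp hk x⟩
    rw [hdis.eq_bot, Submodule.mem_bot] at h3
    rw [h3]; rfl
  refine ⟨hR2, ?_⟩
  rw [hsum, hR2, sup_bot_eq, hrad1]

end Pool.Agent.ESG
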