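import Pool.Agent.ESG.F1

/-!
F4A: every `w ∈ H \ M` is split.
-/

set_option linter.unusedVariables false

namespace Pool.Agent.ESG

open Pool.Agent.ESL

namespace F4AX

variable {V : Type} [AddCommGroup V] [Module (ZMod 2) V] [Finite V]

theorem Sp_kill {R' : FS V} {R : FS V} (hR : IsSym R) {w : V} (h : R' ≤ fx R w) {φ : D V}
    (hφ : φ ∈ Sp R') : φ w = 0 := by
  have h7 : Sp R' ≤ an (Submodule.span (ZMod 2) {w}) := by
    apply Sp_le.2
    intro k hk y z hz
    rcases F1X.mem_span_sing.1 hz with rfl | rfl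
    · exact map_zero _
    · rw [hR k (h hk).1, (h hk).2]
      rfl
  exact h7 hφ w (Submodule.mem_span_singleton_self _)

/-- the case of one component -/
theorem caseA {e : V} {R : FS V} {τ : D V} {M : Submodule (ZMod 2) V} (hC : CtxI e R τ M)
    (hFull : Full R M) {w : V} {R₁ R₂ : FS V} (hsum : fx R w = R₁ ⊔ R₂)
    (hdis : Disjoint (Sp R₁) (Sp R₂)) (hτ1 : τ ∈ Sp R₁)
    (hle : ∀ φ : D V, (∀ m ∈ M, φ m = 0) → φ w = 0 → φ ∈ Sp R₁) {σ : D V} (hσ : IsStar e R₁ σ) :
    Spl R M w := by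
  have hle1' : R₁ ≤ fx R w := le_sup_left.trans hsum.symm.le
  have hle1 : R₁ ≤ R := hle1'.trans (fx_le R w)
  have hle2' : R₂ ≤ fx R w := le_sup_right.trans hsum.symm.le
  obtain ⟨hσS, hσ0, hσe, hσs⟩ := hσ
  have hσM : σ ∈ an M := by
    have h5 : wd e τ σ ∈ R := by
      rw [wd_comm hC.τe hσe]
      exact hle1 (hσs τ hτ1)
    exact (hC.star σ).1 h5
  have hTM : Sp R₁ ≤ an M := by
    intro χ hχ m hm
    by_contra hne
    have h1 : χ m = 1 := zm_ne hne
    have h5 : wd e σ χ m = σ := wd_of_zero_one (hσM m hm) h1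
    have h6 := hFull m hm (wd e σ χ) (hle1 (hσs χ hχ)) (fun a ha => by
      rw [h5]; exact hσM a ha)
    rw [h5] at h6
    exact hσ0 h6
  apply F1X.step hC.wu.sym hsum hTM
  rw [Submodule.disjoint_def]
  intro φ hφ hφM
  exact Submodule.disjoint_def.1 hdis φ (hle φ hφM (Sp_kill hC.wu.sym hle2' hφ)) hφ

theorem disj4 {A A' B B' : Submodule (ZMod 2) (D V)} (h : Disjoint (A ⊔ A') (B ⊔ B'))
    (hA : Disjoint A A') (hB : Disjoint B B') : Disjoint (A' ⊔ B') (A ⊔ B) := by
  rw [Submodule.disjoint_def]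
  intro φ h1 h2
  obtain ⟨a', ha', b', hb', rfl⟩ := Submodule.mem_sup.1 h1
  obtain ⟨a, ha, b, hb, hab⟩ := Submodule.mem_sup.1 h2
  have e1 : a + a' = b + b' := by
    apply ESL.eq_of_add
    calc a + a' + (b + b') = (a + b) + (a' + b') := by abel
      _ = 0 := by rw [hab, ESL.add_self']
  have e2 : a + a' = 0 := Submodule.disjoint_def.1 h _
    (Submodule.add_mem_sup ha ha') (e1 ▸ Submodule.add_mem_sup hb hb')
  have e3 : b + b' = 0 := e1 ▸ e2
  have e4 : a = a' := ESL.eq_of_add e2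
  have e5 : b = b' := ESL.eq_of_add e3
  have e6 : a' = 0 := Submodule.disjoint_def.1 hA _ (e4 ▸ ha) ha'
  have e7 : b' = 0 := Submodule.disjoint_def.1 hB _ (e5 ▸ hb) hb'
  rw [e6, e7, add_zero]

end F4AX

open F4AX in
theorem f4a_proof (hRK : Stmt_RK2) (hRK1 : Stmt_RK1) (hS2 : Stmt_SUM2) (hF4X : Stmt_F4X)
    (hFULL : Stmt_FULL) : Stmt_F4A := by
  intro V _ _ _ e R τ M hC w hwM hτw
  have hFull : Full R M := hFULL V e R τ M hC
  have hw0 : w ≠ 0 := by
    rintro rfl
    exact hwM (Submodule.zero_mem _)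
  have hτM : τ ∈ an M := by
    rw [mem_an, ← hC.star, wd_self hC.τe]
    exact R.zero_mem
  let W : Submodule (ZMod 2) V := M ⊔ Submodule.span (ZMod 2) {w}
  have hmemW : ∀ φ : D V, φ ∈ an W ↔ (∀ m ∈ M, φ m = 0) ∧ φ w = 0 := by
    intro φ
    constructor
    · intro h
      exact ⟨fun m hm => h m (Submodule.mem_sup_left hm),
        h w (Submodule.mem_sup_right (Submodule.mem_span_singleton_self _))⟩
    · rintro ⟨h1, h2⟩
      rw [an_sup]
      refine ⟨h1, fun x hx => ?_⟩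
      rcases F1X.mem_span_sing.1 hx with rfl | rfl
      · exact map_zero _
      · exact h2
  have hfr : fr (an W) + fr W = fr V := finrank_an W
  have hfW : fr W ≤ fr M + 1 := by
    have h1 : fr W ≤ fr M + fr (Submodule.span (ZMod 2) ({w} : Set V)) :=
      Submodule.finrank_add_le_finrank_add_finrank _ _
    have h2 : fr (Submodule.span (ZMod 2) ({w} : Set V)) = 1 := finrank_span_singleton hw0
    omega
  have h3 := hC.three
  have h2 : 2 ≤ fr (an W) := by omega
  have hτW : τ ∈ an W := (hmemW τ).2 ⟨hτM, hτw⟩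
  have hT : ∀ ψ ∈ an W, wd e τ ψ ∈ fx R w := by
    intro ψ hψ
    obtain ⟨h1, h2⟩ := (hmemW ψ).1 hψ
    exact ⟨(hC.star ψ).2 h1, F1X.wd_kill hτw h2⟩
  by_cases hex : ∃ ψ₀ ∈ an W, ψ₀ e = 0 ∧ ψ₀ ≠ 0 ∧ ψ₀ ≠ τ
  · obtain ⟨ψ₀, hψ₀, hψe, hψ0, hψτ⟩ := hex
    obtain ⟨R₁, R₂, hsum, hdis, hle, σ, hσ⟩ :=
      F1X.sub hRK hS2 hC.wu hC.τ0 hC.τe (hC.et w hw0) hψ₀ hψe hψ0 hψτ hT
    exact caseA hC hFull hsum hdis (hle hτW) (fun φ h1 h2 => hle ((hmemW φ).2 ⟨h1, h2⟩)) hσ
  · have hno : ∀ φ ∈ an W, φ e = 0 → φ = 0 ∨ φ = τ := by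
      intro φ hφ h
      by_contra hc
      push Not at hc
      exact hex ⟨φ, hφ, h, hc.1, hc.2⟩
    have hT2 : fr (an W) ≤ 2 := by
      by_contra hc
      exact hex (F1X.exists_psi (e := e) hC.τ0 (by omega))
    -- `ψ` with `ψ e = 1`
    obtain ⟨ψ, hψ, hψe⟩ : ∃ ψ ∈ an W, ψ e = 1 := by
      by_contra hc
      push Not at hc
      have hle : an W ≤ Submodule.span (ZMod 2) {τ} := by
        intro φ hφ
        exact F1X.mem_span_sing.2 (hno φ hφ (zm_ne' (hc φ hφ)))
      have h6 := Submodule.finrank_mono hle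
      have h7 : Module.finrank (ZMod 2) (Submodule.span (ZMod 2) ({τ} : Set (D V))) = 1 :=
        finrank_span_singleton hC.τ0
      rw [h7] at h6
      have h8 : fr (an W) ≤ 1 := h6
      omega
    have hall : ∀ φ ∈ an W, φ = 0 ∨ φ = τ ∨ φ = ψ ∨ φ = ψ + τ := by
      intro φ hφ
      rcases zm (φ e) with h | h
      · rcases hno φ hφ h with h | h
        · exact Or.inl h
        · exact Or.inr (Or.inl h)
      · rcases hno (ψ + φ) (Submodule.add_mem _ hψ hφ) (by
          rw [LinearMap.add_apply, hψe, h, CharTwo.add_self_eq_zero]) with h' | h'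
        · exact Or.inr (Or.inr (Or.inl (ESL.eq_of_add h').symm))
        · refine Or.inr (Or.inr (Or.inr ?_))
          rw [← h', add_add_self]
    have hψ0 : ψ ≠ 0 := by
      rintro rfl
      exact zero_ne_one hψe
    have hψτ : ψ ≠ τ := by
      rintro rfl
      rw [hC.τe] at hψe
      exact zero_ne_one hψe
    have hne' : (ψ + τ) e = 1 := by rw [LinearMap.add_apply, hψe, hC.τe, add_zero]
    have hψτ0 : ψ + τ ≠ 0 := by
      intro h
      rw [h] at hne'
      exact zero_ne_one hne'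
    obtain ⟨hψM, hψw⟩ := (hmemW ψ).1 hψ
    have hrho : ∀ (f : D V) (R' : FS V), f e = 1 → rho f ∈ R' → f ∈ Sp R' := by
      intro f R' hf hm
      have : rho f e = f := by rw [rho_apply, hf, one_smul]
      rw [← this]
      exact mem_Sp hm e
    rcases hRK V e (fx R w) (hC.et w hw0) τ ψ hC.τe (hT ψ hψ) (F1X.wd_ne hC.τ0 hψ0 hψτ) with
      ⟨R₁, R₂, hsum, hdis, hτ1, hψ1, σ, hσ⟩ | ⟨-, R₁, R₂, het1, het2, hsum, hdis, hr1, hr2⟩
    · refine caseA hC hFull hsum hdis hτ1 (fun φ h1 h2 => ?_) hσ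
      rcases hall φ ((hmemW φ).2 ⟨h1, h2⟩) with rfl | rfl | rfl | rfl
      · exact Submodule.zero_mem _
      · exact hτ1
      · exact hψ1
      · exact Submodule.add_mem _ hψ1 hτ1
    · have hle1' : R₁ ≤ fx R w := le_sup_left.trans hsum.symm.le
      have hle2' : R₂ ≤ fx R w := le_sup_right.trans hsum.symm.le
      obtain ⟨A, A', hA, hdA, hAr, hA'⟩ := hRK1 V e R₁ het1 ψ hψ0 hr1
      obtain ⟨B, B', hB, hdB, hBr, hB'⟩ := hRK1 V e R₂ het2 (ψ + τ) hψτ0 hr2
      have hAle : A ≤ R₁ := le_sup_left.trans hA.symm.le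
      have hBle : B ≤ R₂ := le_sup_left.trans hB.symm.le
      have hA'le : A' ≤ R₁ := le_sup_right.trans hA.symm.le
      have hB'le : B' ≤ R₂ := le_sup_right.trans hB.symm.le
      have hrψ : rho ψ ∈ R := fx_le R w (hle1' hr1)
      have hrψτ : rho (ψ + τ) ∈ R := fx_le R w (hle2' hr2)
      have hfv : fr V ≤ fr M + 3 := by omega
      rcases hA' with hAs | ⟨hA3, hAst⟩
      swap
      · exfalso
        refine hF4X V e R τ M hC w hw0 hwM hτw ψ hψM hψe hrψ hrψτ A (hAle.trans hle1') hAr ?_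
          (by omega) hAst
        intro hm
        exact hψτ0 (Submodule.disjoint_def.1 hdis _ (Sp_mono hAle hm)
          (hrho _ R₂ hne' hr2))
      rcases hB' with hBs | ⟨hB3, hBst⟩
      swap
      · exfalso
        have hback : ψ + τ + τ = ψ := add_add_self' ψ τ
        refine hF4X V e R τ M hC w hw0 hwM hτw (ψ + τ) (fun m hm => ?_) hne' hrψτ ?_ B
          (hBle.trans hle2') hBr ?_ (by omega) hBst
        · rw [LinearMap.add_apply, hψM m hm, hτM m hm, add_zero]
        · rw [hback]; exact hrψ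
        · rw [hback]
          intro hm
          exact hψ0 (Submodule.disjoint_def.1 hdis _ (hrho _ R₁ hψe hr1) (Sp_mono hBle hm))
      -- the split case
      have hsum' : fx R w = (A ⊔ B) ⊔ (A' ⊔ B') := by
        rw [hsum, hA, hB]
        exact sup_sup_sup_comm A A' B B'
      have hSAB : Sp (A ⊔ B) ≤ an M := by
        rw [Sp_sup, hAs, hBs, Sp_span, Sp_span, range_rho, range_rho]
        refine sup_le ?_ ?_
        · rw [Submodule.span_singleton_le_iff_mem]
          exact hψM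
        · rw [Submodule.span_singleton_le_iff_mem]
          intro m hm
          rw [LinearMap.add_apply, hψM m hm, hτM m hm, add_zero]
      apply F1X.step hC.wu.sym hsum' hSAB
      rw [Submodule.disjoint_def]
      intro φ hφ hφM
      have hle4 : A' ⊔ B' ≤ fx R w := le_sup_right.trans hsum'.symm.le
      have hφw := Sp_kill hC.wu.sym hle4 hφ
      have mψ : ψ ∈ Sp (A ⊔ B) := Sp_mono le_sup_left (hrho _ A hψe hAr)
      have mψτ : ψ + τ ∈ Sp (A ⊔ B) := Sp_mono le_sup_right (hrho _ B hne' hBr)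
      have hφAB : φ ∈ Sp (A ⊔ B) := by
        rcases hall φ ((hmemW φ).2 ⟨hφM, hφw⟩) with rfl | rfl | rfl | rfl
        · exact Submodule.zero_mem _
        · have := Submodule.add_mem _ mψ mψτ
          rwa [add_add_self] at this
        · exact mψ
        · exact mψτ
      have hd4 : Disjoint (Sp A' ⊔ Sp B') (Sp A ⊔ Sp B) := by
        apply disj4 _ hdA hdB
        rw [← Sp_sup, ← Sp_sup, ← hA, ← hB]
        exact hdis
      rw [Sp_sup] at hφ hφAB
      exact Submodule.disjoint_def.1 hd4 φ hφ hφAB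

end Pool.Agent.ESG
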