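import Pool.Agent.ESG.Stmts

/-!
ESG module F4X: there are no two maximal stars sharing a real functional.
-/

set_option linter.unusedVariables false

namespace Pool.Agent.ESG

open Pool.Agent.ESL

namespace F4XX

variable {V : Type} [AddCommGroup V] [Module (ZMod 2) V] [Finite V]

/-- the functionals in `T` vanishing at `x` -/
theorem cut (T : Submodule (ZMod 2) (D V)) (x : V) :
    fr T ≤ fr (T ⊓ an (Submodule.span (ZMod 2) {x}) : Submodule (ZMod 2) (D V)) + 1 := by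
  have h1 := Submodule.finrank_sup_add_finrank_inf_eq T (an (Submodule.span (ZMod 2) {x}))
  have h2 : fr (T ⊔ an (Submodule.span (ZMod 2) {x}) : Submodule (ZMod 2) (D V)) ≤ fr (D V) :=
    Submodule.finrank_le _
  have h3 : fr (an (Submodule.span (ZMod 2) {x})) + fr (Submodule.span (ZMod 2) {x}) = fr V :=
    finrank_an _
  have h4 : fr (Submodule.span (ZMod 2) ({x} : Set V)) ≤ 1 := finrank_span_le_card ({x} : Set V) |>.trans
    (by simp)
  have h5 : fr (D V) = fr V := finrank_D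
  change fr _ + fr _ = fr _ + fr _ at h1
  omega

/-- Step 1: the two subspaces are disjoint -/
theorem disj {e : V} {R : FS V} (hR : IsWu e R) {M : Submodule (ZMod 2) V} {σ ψ χ : D V}
    (hψM : ∀ m ∈ M, ψ m = 0) (hψe : ψ e = 1) (hσM : ∃ m ∈ M, σ m = 1) (hχe : χ e = 0)
    (hχσ : χ ≠ σ) (hχ0 : χ ≠ 0) (h1 : wd e σ ψ ∈ R) (h2 : wd e σ χ ∈ R) {u : V}
    (hs : Spl R M u) (hσu : σ u = 0) (hψu : ψ u = 0) (hχu : χ u = 0) : False := by
  obtain ⟨C, hC, hk⟩ := hs
  have key : ∀ k ∈ R, k u = 0 → ∀ c ∈ C, ∀ m ∈ M, k c m = 0 := by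
    intro k hkR hku c hc m hm
    obtain ⟨κ, hκ, hκM, -, hκC⟩ := hk k hkR hku
    rw [hκC c hc, hR.symm hκ, hκM m hm]; rfl
  obtain ⟨m₀, hm₀, hσm₀⟩ := hσM
  have e1 : ∀ c ∈ C, ψ c = σ c := by
    intro c hc
    have h := key _ h1 (by rw [wd_of_zero hσu, hψu, zero_smul]) c hc m₀ hm₀
    rw [wd_apply₂, hψM m₀ hm₀, hσm₀, hψe, mul_zero, zero_add, mul_one, mul_one, one_mul] at h
    exact CharTwo.add_eq_zero.1 h
  have e2 : ∀ c ∈ C, ∀ m ∈ M, σ c * χ m + χ c * σ m = 0 := by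
    intro c hc m hm
    have h := key _ h2 (by rw [wd_of_zero hσu, hχu, zero_smul]) c hc m hm
    rwa [wd_apply₂, hχe, zero_mul, add_zero] at h
  have hall : ∀ x : V, ∃ c ∈ C, ∃ m ∈ M, c + m = x := fun x =>
    Submodule.mem_sup.1 (hC ▸ Submodule.mem_top)
  obtain ⟨c₀, hc₀, hσc₀⟩ : ∃ c ∈ C, σ c = 1 := by
    obtain ⟨c, hc, m, hm, hcm⟩ := hall e
    refine ⟨c, hc, ?_⟩
    rw [← e1 c hc]
    have := hψe
    rw [← hcm, map_add, hψM m hm, add_zero] at this
    exact this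
  have e3 : ∀ c ∈ C, χ c = χ m₀ * σ c := by
    intro c hc
    have h := e2 c hc m₀ hm₀
    rw [hσm₀, mul_one] at h
    rw [mul_comm]
    exact (CharTwo.add_eq_zero.1 h).symm
  have e4 : ∀ m ∈ M, χ m = χ m₀ * σ m := by
    intro m hm
    have h := e2 c₀ hc₀ m hm
    rw [hσc₀, one_mul, e3 c₀ hc₀, hσc₀, mul_one] at h
    exact CharTwo.add_eq_zero.1 h
  have e5 : χ = χ m₀ • σ := by
    ext x
    obtain ⟨c, hc, m, hm, rfl⟩ := hall x
    rw [LinearMap.smul_apply, map_add, map_add, e3 c hc, e4 m hm, smul_eq_mul]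
    ring
  rcases zm (χ m₀) with h | h
  · rw [h, zero_smul] at e5; exact hχ0 e5
  · rw [h, one_smul] at e5; exact hχσ e5

end F4XX

open F4XX in
theorem f4x_proof (hF1 : Stmt_F1) (hFULL : Stmt_FULL) : Stmt_F4X := by
  intro V _ _ _ e R τ M hC w hw0 hwM hτw ψ hψM hψe hρψ hρψτ R₁ hR₁ hρψ₁ hτ₁ hfr hst
  obtain ⟨σ, hstar⟩ := hst
  have hR := hC.wu
  have hσ1 := hstar.1
  have hσ0 := hstar.2.1
  have hσe := hstar.2.2.1
  have hR₁R : R₁ ≤ R := hR₁.trans (fx_le R w)
  have hstle : Sp R₁ ≤ St e R σ := hstar.le_St hR₁R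
  have hmax := hC.max σ hσ0 hσe
  have e1 : fr (Sp R₁) ≤ fr (St e R σ) := Submodule.finrank_mono hstle
  have hSt : Sp R₁ = St e R σ := by
    apply Submodule.eq_of_le_of_finrank_le hstle
    show fr (St e R σ) ≤ fr (Sp R₁)
    omega
  have e2 : fr (co (Sp R₁)) + fr (Sp R₁) = fr V := finrank_co _
  have hψ1 : ψ ∈ Sp R₁ := by
    have : rho ψ e = ψ := by rw [rho_apply, hψe, one_smul]
    rw [← this]
    exact mem_Sp hρψ₁ e
  have hτS : τ ∉ Sp R₁ := fun h => hτ₁ (Submodule.add_mem _ hψ1 h)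
  have hwM₂ : w ∈ co (Sp R₁) := by
    rw [co_Sp (hR.sym.mono hR₁R)]
    exact fun k hk => (hR₁ hk).2
  generalize hM₂ : co (Sp R₁) = M₂ at *
  have hanM₂ : an M₂ = Sp R₁ := by rw [← hM₂, an_co]
  have hfrM : fr M₂ = fr M := by
    have := hC.three
    omega
  have ctx2 : CtxI e R σ M₂ :=
    { wu := hR
      sl := hC.sl
      nd := hC.nd
      et := hC.et
      star := by
        intro χ
        have h1 : χ ∈ an M₂ ↔ χ ∈ St e R σ := by rw [hanM₂, hSt]
        exact h1.symm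
      max := by
        intro σ' h1 h2
        rw [hfrM]
        exact hC.max σ' h1 h2
      three := by
        rw [hfrM]
        exact hC.three
      ne := by
        intro h
        rw [h, Submodule.mem_bot] at hwM₂
        exact hw0 hwM₂
      τ0 := hσ0
      τe := hσe }
  have hM₂v : ∀ χ ∈ Sp R₁, ∀ x ∈ M₂, χ x = 0 := by
    intro χ hχ x hx
    rw [← hanM₂] at hχ
    exact hχ x hx
  have hτM : ∀ m ∈ M, τ m = 0 := by
    rw [← hC.star, wd_self hC.τe]
    exact R.zero_mem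
  -- `σ` does not vanish on `M`
  obtain ⟨u₂, hu₂, hσu₂⟩ : ∃ m ∈ M, σ m = 1 := by
    by_contra hc
    push Not at hc
    have h1 : wd e τ σ ∈ R := (hC.star σ).2 fun m hm => zm_ne' (hc m hm)
    rw [wd_comm hC.τe hσe] at h1
    apply hτS
    rw [hSt]
    exact h1
  -- Step 1
  have hinf : ∀ u ∈ M, u ∈ M₂ → u = 0 := by
    intro u hu hu2
    by_contra hu0
    obtain ⟨χ, hχ1, hχe, hχσ, hχ0⟩ : ∃ χ ∈ Sp R₁, χ e = 0 ∧ χ ≠ σ ∧ χ ≠ 0 := by
      have hlt : ¬ Sp R₁ ≤ Submodule.span (ZMod 2) {σ, ψ} := by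
        intro hle
        have h1 : fr (Sp R₁) ≤ fr (Submodule.span (ZMod 2) {σ, ψ}) := Submodule.finrank_mono hle
        have h2 : fr (Submodule.span (ZMod 2) ({σ, ψ} : Set (D V))) ≤ 2 := by
          classical
          have h3 := finrank_span_finset_le_card (R := ZMod 2) ({σ, ψ} : Finset (D V))
          rw [Finset.coe_pair] at h3
          exact h3.trans Finset.card_le_two
        have h3 := hC.three
        omega
      obtain ⟨χ, hχ, hχn⟩ := SetLike.not_le_iff_exists.1 hlt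
      rcases zm (χ e) with h | h
      · refine ⟨χ, hχ, h, ?_, ?_⟩
        · rintro rfl
          exact hχn (Submodule.subset_span (by simp))
        · rintro rfl
          exact hχn (Submodule.zero_mem _)
      · refine ⟨χ + ψ, Submodule.add_mem _ hχ hψ1, ?_, ?_, ?_⟩
        · rw [LinearMap.add_apply, h, hψe, CharTwo.add_self_eq_zero]
        · intro h1
          have h2 : χ = σ + ψ := by rw [← h1, add_add_self']
          apply hχn
          rw [h2]
          exact Submodule.add_mem _ (Submodule.subset_span (by simp)) (Submodule.subset_span (by simp))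
        · intro h1
          have h2 : χ = ψ := eq_of_add h1
          apply hχn
          rw [h2]
          exact Submodule.subset_span (by simp)
    exact disj hR hψM hψe ⟨u₂, hu₂, hσu₂⟩ hχe hχσ hχ0 (hR₁R (hstar.2.2.2 ψ hψ1))
      (hR₁R (hstar.2.2.2 χ hχ1)) (hF1 V e R τ M hC u hu hu0) (hM₂v σ hσ1 u hu2) (hM₂v ψ hψ1 u hu2)
      (hM₂v χ hχ1 u hu2)
  -- Step 2
  have hFull := hFULL V e R σ M₂ ctx2
  have hdim : 2 * fr M + 1 ≤ fr V := by
    have h1 := Submodule.finrank_sup_add_finrank_inf_eq M M₂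
    have h2 : M ⊓ M₂ = ⊥ := by
      rw [eq_bot_iff]
      rintro x ⟨hx, hx'⟩
      exact hinf x hx hx'
    rw [h2, finrank_bot, add_zero] at h1
    have h3 : M ⊔ M₂ ≠ ⊤ := by
      intro h4
      obtain ⟨a, ha, b, hb, hab⟩ := Submodule.mem_sup.1 (h4 ▸ Submodule.mem_top : e ∈ M ⊔ M₂)
      have h5 := hψe
      rw [← hab, map_add, hψM a ha, hM₂v ψ hψ1 b hb, add_zero] at h5
      exact zero_ne_one h5
    have h4 : fr (M ⊔ M₂ : Submodule (ZMod 2) V) < fr V := Submodule.finrank_lt h3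
    change fr _ = fr _ + fr _ at h1
    omega
  obtain ⟨w₂, hw₂, hτw₂⟩ : ∃ x ∈ M₂, τ x = 1 := by
    rw [← hM₂]
    exact exists_cosep hτS
  have hY : ∀ y ∈ M₂, τ y = 1 → ∀ k ∈ R, ∀ m ∈ M, k y m = 0 := by
    intro y hy hτy k hk m hm
    have h1 : an M ⊓ an (Submodule.span (ZMod 2) {y + e}) ≤ Lx R y := by
      rintro χ ⟨hχ, hχ'⟩
      exact ⟨wd e τ χ, (hC.star χ).2 hχ,
        wd_of_one_zero hτy (hχ' _ (Submodule.mem_span_singleton_self _))⟩
    have h2 : Disjoint (Lx R y) (an M₂) := by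
      rw [Submodule.disjoint_def]
      rintro _ ⟨l, hl, rfl⟩ hl2
      exact hFull y hy l hl hl2
    have h3 : fr (Lx R y) + fr (an M₂) ≤ fr (D V) := Submodule.finrank_add_finrank_le_of_disjoint h2
    have h4 : fr (D V) = fr V := finrank_D
    have h5 := cut (an M) (y + e)
    have h6 : fr (an M) + fr M = fr V := finrank_an M
    have h7 : fr (an M₂) + fr M₂ = fr V := finrank_an M₂
    have h8 : an M ⊓ an (Submodule.span (ZMod 2) {y + e}) = Lx R y := by
      apply Submodule.eq_of_le_of_finrank_le h1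
      show fr _ ≤ fr _
      omega
    have h9 : k y ∈ an M := by
      have h10 : k y ∈ Lx R y := Lx_mem hk y
      rw [← h8] at h10
      exact h10.1
    exact h9 m hm
  have hcomm : ∀ x ∈ M₂, ∀ k ∈ R, ∀ m ∈ M, k x m = 0 := by
    intro x hx k hk m hm
    rcases zm (τ x) with h | h
    · have h1 := hY (x + w₂) (Submodule.add_mem _ hx hw₂) (by rw [map_add, h, hτw₂, zero_add]) k hk m hm
      rw [map_add, LinearMap.add_apply, hY w₂ hw₂ hτw₂ k hk m hm, add_zero] at h1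
      exact h1
    · exact hY x hx h k hk m hm
  -- Step 3
  obtain ⟨u₁, hu₁, hu₁0, hσu₁⟩ : ∃ u ∈ M, u ≠ 0 ∧ σ u = 0 := by
    have h1 : ¬ M₂ ≤ Submodule.span (ZMod 2) {w} := by
      intro hle
      obtain ⟨c, hc⟩ := Submodule.mem_span_singleton.1 (hle hw₂)
      rw [← hc, map_smul, hτw, smul_zero] at hτw₂
      exact zero_ne_one hτw₂
    have h2 : 2 ≤ fr M := by
      rw [← hfrM]
      by_contra hlt
      apply h1
      have h3 : Submodule.span (ZMod 2) {w} ≤ M₂ := (Submodule.span_singleton_le_iff_mem _ _).2 hwM₂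
      have h4 : fr (Submodule.span (ZMod 2) ({w} : Set V)) = 1 := finrank_span_singleton hw0
      have h5 : Submodule.span (ZMod 2) {w} = M₂ := by
        apply Submodule.eq_of_le_of_finrank_le h3
        show fr M₂ ≤ fr _
        omega
      exact h5.symm.le
    have h3 : ¬ M ≤ Submodule.span (ZMod 2) {u₂} := by
      intro hle
      have h4 : fr M ≤ fr (Submodule.span (ZMod 2) {u₂}) := Submodule.finrank_mono hle
      have h5 : fr (Submodule.span (ZMod 2) ({u₂} : Set V)) ≤ 1 :=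
        finrank_span_le_card ({u₂} : Set V) |>.trans (by simp)
      omega
    obtain ⟨u, hu, hun⟩ := SetLike.not_le_iff_exists.1 h3
    rcases zm (σ u) with h | h
    · refine ⟨u, hu, ?_, h⟩
      rintro rfl
      exact hun (Submodule.zero_mem _)
    · refine ⟨u + u₂, Submodule.add_mem _ hu hu₂, ?_, ?_⟩
      · intro h4
        rw [eq_of_add h4] at hun
        exact hun (Submodule.mem_span_singleton_self _)
      · rw [map_add, h, hσu₂, CharTwo.add_self_eq_zero]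
  have hρψσ : rho (ψ + σ) ∈ R := by
    have h1 : wd e σ ψ ∈ R := hR₁R (hstar.2.2.2 ψ hψ1)
    rw [wd_eq_rho hψe] at h1
    have h2 := R.add_mem hρψ h1
    rwa [add_add_self] at h2
  have hφx : ψ + τ + σ ∈ Lx R (w₂ + u₁) := by
    refine Submodule.add_mem _ ⟨rho (ψ + τ), hρψτ, ?_⟩ ?_
    · rw [rho_apply, LinearMap.add_apply, map_add, map_add, hM₂v ψ hψ1 w₂ hw₂, hψM u₁ hu₁, hτw₂,
        hτM u₁ hu₁, add_zero, add_zero, zero_add, one_smul]
    · have h1 : w₂ + u₁ ∉ M₂ := by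
        intro h2
        have h3 := Submodule.add_mem _ hw₂ h2
        rw [add_add_self] at h3
        exact hu₁0 (hinf u₁ hu₁ h3)
      obtain ⟨χ, hχ, hχ1⟩ := exists_sep h1
      rw [hanM₂] at hχ
      exact ⟨wd e σ χ, hR₁R (hstar.2.2.2 χ hχ),
        wd_of_zero_one (by rw [map_add, hM₂v σ hσ1 w₂ hw₂, hσu₁, add_zero]) hχ1⟩
  have hφy : ψ + τ + σ ∈ Lx R (u₂ + w) := by
    have h0 : ψ + τ + σ = (ψ + σ) + τ := by abel
    rw [h0]
    refine Submodule.add_mem _ ⟨rho (ψ + σ), hρψσ, ?_⟩ ?_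
    · rw [rho_apply, LinearMap.add_apply, map_add, map_add, hψM u₂ hu₂, hM₂v ψ hψ1 w hwM₂, hσu₂,
        hM₂v σ hσ1 w hwM₂, add_zero, add_zero, zero_add, one_smul]
    · have h1 : u₂ + w ∉ M := by
        intro h2
        have h3 := Submodule.add_mem _ hu₂ h2
        rw [add_add_self] at h3
        exact hwM h3
      obtain ⟨χ, hχ, hχ1⟩ := exists_sep h1
      exact ⟨wd e τ χ, (hC.star χ).2 hχ,
        wd_of_zero_one (by rw [map_add, hτM u₂ hu₂, hτw, add_zero]) hχ1⟩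
  obtain ⟨k₁, hk₁, hk₁x⟩ := hφx
  obtain ⟨k₂, hk₂, hk₂y⟩ := hφy
  obtain ⟨k, hk, hkx, hky⟩ := hC.sl.linked k₁ hk₁ k₂ hk₂ _ _ (hk₁x.trans hk₂y.symm)
  rw [hk₁x] at hkx hky
  have f1 : k w₂ w = 0 := by
    have h1 : (ψ + τ + σ) w = 0 := by
      rw [LinearMap.add_apply, LinearMap.add_apply, hM₂v ψ hψ1 w hwM₂, hτw, hM₂v σ hσ1 w hwM₂,
        add_zero, add_zero]
    rw [← hkx, map_add, LinearMap.add_apply, hR.symm hk u₁ w, hcomm w hwM₂ k hk u₁ hu₁, add_zero] at h1
    exact h1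
  have f2 : k w w₂ = 1 := by
    have h1 : (ψ + τ + σ) w₂ = 1 := by
      rw [LinearMap.add_apply, LinearMap.add_apply, hM₂v ψ hψ1 w₂ hw₂, hτw₂, hM₂v σ hσ1 w₂ hw₂,
        add_zero, zero_add]
    rw [← hky, map_add, LinearMap.add_apply, hR.symm hk u₂ w₂, hcomm w₂ hw₂ k hk u₂ hu₂,
      zero_add] at h1
    exact h1
  rw [hR.symm hk, f1] at f2
  exact zero_ne_one f2

end Pool.Agent.ESG
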