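import Pool.Agent.ESG.Stmts

namespace Pool.Agent.ESG

open Pool.Agent.ESL

theorem full_proof (h1 : Stmt_F1) (h2 : Stmt_F2) (h3 : Stmt_F3) : Stmt_FULL := by
  intro V _ _ _ e R τ M h
  have hne : fr M ≠ 0 := fun h0 => h.ne (Submodule.finrank_eq_zero.mp h0)
  rcases Nat.lt_or_ge (fr M) 2 with hlt | hge
  · exact h3 V e R τ M h (by omega)
  · exact h2 V e R τ M h (h1 V e R τ M h) hge

end Pool.Agent.ESG
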