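import Pool.Agent.ESG.Stmts

/-!
Size of the blocks.
-/

set_option linter.unusedVariables false

namespace Pool.Agent.ESG

open Pool.Agent.ESL

namespace G2X

variable {V : Type} [AddCommGroup V] [Module (ZMod 2) V]

theorem mem_ats [Finite V] {R : FS V} {w : V} {a : Fm V} : a ∈ ats R w ↔ At R w a := by
  unfold ats
  rw [Set.Finite.mem_toFinset]; rfl

/-- `ρ` and `ρ + φ ⊗ φ` are not both disjoint from `φ ⊗ φ` -/
theorem not_both [Finite V] {ρ : Fm V} {φ : D V} (hs : ∀ x y, ρ x y = ρ y x) (h0 : φ ≠ 0)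
    (h1 : Disjoint (LinearMap.range ρ) (LinearMap.range (rho φ)))
    (h2 : Disjoint (LinearMap.range (ρ + rho φ)) (LinearMap.range (rho φ))) : False := by
  have hφ : φ ∈ LinearMap.range (rho φ) := by
    rw [range_rho]; exact Submodule.mem_span_singleton_self _
  have hn : φ ∉ LinearMap.range ρ := fun h => h0 (Submodule.disjoint_def.1 h1 φ h hφ)
  rw [mem_range_iff hs] at hn
  push Not at hn
  obtain ⟨x, hx, hφx⟩ := hn
  have h3 : (ρ + rho φ) x = φ := by
    rw [LinearMap.add_apply, hx, zero_add, rho_apply, zm_ne hφx, one_smul]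
  exact h0 (Submodule.disjoint_def.1 h2 φ ⟨x, h3⟩ hφ)

open Classical in
/-- a sum of atoms of rank one -/
theorem sum_small [Finite V] {e : V} {R : FS V} (hRA : Stmt_RA) (hR : IsWu e R) (hX : X1 R) {y : V}
    {I : Finset (Fm V)} (hI : I ⊆ ats R y) (hs : ∀ a ∈ I, ¬ 2 ≤ fr (LinearMap.range a)) :
    (∑ a ∈ I, a = 0 ∧ I = ∅) ∨ ∃ φ : D V, φ ≠ 0 ∧ I = {rho φ} := by
  by_cases h : I = ∅
  · left
    exact ⟨by rw [h, Finset.sum_empty], h⟩
  · right
    obtain ⟨a, ha⟩ := Finset.nonempty_iff_ne_empty.2 h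
    have hf : ∀ b ∈ I, ∃ φ : D V, φ ≠ 0 ∧ b = rho φ := by
      intro b hb
      have hAt := mem_ats.1 (hI hb)
      have := hs b hb
      exact (hRA V e R hR).2 b hAt.1 hAt.2.2.1 (by omega)
    obtain ⟨φ, hφ0, rfl⟩ := hf a ha
    refine ⟨φ, hφ0, Finset.eq_singleton_iff_unique_mem.2 ⟨ha, fun b hb => ?_⟩⟩
    obtain ⟨φ', hφ0', rfl⟩ := hf b hb
    rw [hX φ' φ hφ0' hφ0 (mem_ats.1 (hI hb)).1 (mem_ats.1 (hI ha)).1]

end G2X

open G2X

open Classical in
theorem g2_proof (hg1 : Stmt_G1) (h3 : Stmt_AU3) (hg5a : Stmt_G5A) (hRG : Stmt_RG) (hRA : Stmt_RA) :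
    Stmt_G2 := by
  intro V _ _ _ e R hR hX ψ k y hB hy hky
  have hy0 : y ≠ 0 := by
    rintro rfl
    rw [Lx_zero] at hy
    exact hB.ne ((Submodule.mem_bot _).1 hy)
  obtain ⟨z0, hz0⟩ := hB.ex
  obtain ⟨ρ0, hρ0, eρ0⟩ := hy
  have key : ∀ v : LinearMap.ker k, ∃ ρ, Blk R ψ ρ ∧ ρ (z0 + v) = ψ ∧ ρ y = ψ := by
    rintro ⟨v, hv⟩
    have hv' : k v = 0 := hv
    have e1 : k (z0 + v) = ψ := by rw [map_add, hv', add_zero, hz0]
    refine hg1 V e R hR ψ hB.ne (z0 + v) y ?_ ⟨k, hB.mem, e1⟩ ⟨ρ0, hρ0, eρ0⟩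
    intro h
    rw [h] at e1
    exact hky e1
  choose g hg using key
  -- `g` is injective
  have hginj : ∀ v v', g v = g v' → v = v' := by
    intro v v' h6
    by_contra hne
    have hu : (v : V) + v' ≠ 0 := by
      intro h
      exact hne (Subtype.ext (ESL.eq_of_add h))
    have hku : k ((v : V) + v') = 0 := by
      have e1 : k v = 0 := v.2
      have e2 : k v' = 0 := v'.2
      rw [map_add, e1, e2, add_zero]
    have hρu : g v ((v : V) + v') = 0 := by
      have e1 := (hg v).2.1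
      have e2 := (hg v').2.1
      rw [← h6] at e2
      have e3 : (v : V) + v' = (z0 + v) + (z0 + v') := by
        have : (z0 + (v : V)) + (z0 + v') = (z0 + z0) + (v + v') := by abel
        rw [this, ESL.add_self', zero_add]
      rw [e3, map_add, e1, e2, ESL.add_self']
    have := hB.all _ hu hku y ⟨ρ0, hρ0, eρ0⟩ ⟨g v, (hg v).1.mem, by
      rw [map_add, (hg v).2.2, hρu, add_zero]⟩
    exact hky this
  -- the sets of atoms
  have hmem : ∀ v, g v + ρ0 ∈ fx R y := by
    intro v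
    refine ⟨R.add_mem (hg v).1.mem hρ0, ?_⟩
    rw [LinearMap.add_apply, (hg v).2.2, eρ0, ESL.add_self']
  have hf : ∀ v, ∃ I ⊆ ats R y, g v + ρ0 = ∑ a ∈ I, a := by
    intro v
    obtain ⟨I, hI, hk, -⟩ := h3 V e R hR y hy0 _ (hmem v)
    exact ⟨I, hI, hk⟩
  choose f hf1 hf2 using hf
  have hinj : Function.Injective (fun v : LinearMap.ker k =>
      (⟨(f v).filter (fun a => 2 ≤ fr (LinearMap.range a)), by
        rw [Finset.mem_powerset]
        exact Finset.filter_subset_filter _ (hf1 v)⟩ :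
        ((ats R y).filter (fun a => 2 ≤ fr (LinearMap.range a))).powerset)) := by
    intro v v' hvv
    have h5 : (f v).filter (fun a => 2 ≤ fr (LinearMap.range a)) =
        (f v').filter (fun a => 2 ≤ fr (LinearMap.range a)) := congrArg Subtype.val hvv
    have hsplit : ∀ u, g u + ρ0 = ∑ a ∈ (f u).filter (fun a => 2 ≤ fr (LinearMap.range a)), a +
        ∑ a ∈ (f u).filter (fun a => ¬ 2 ≤ fr (LinearMap.range a)), a := by
      intro u
      rw [hf2 u, Finset.sum_filter_add_sum_filter_not]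
    have hsmall : ∀ u, (∑ a ∈ (f u).filter (fun a => ¬ 2 ≤ fr (LinearMap.range a)), a = 0 ∧
        (f u).filter (fun a => ¬ 2 ≤ fr (LinearMap.range a)) = ∅) ∨ ∃ φ : D V, φ ≠ 0 ∧
        (f u).filter (fun a => ¬ 2 ≤ fr (LinearMap.range a)) = {rho φ} := fun u =>
      sum_small hRA hR.wu hX ((Finset.filter_subset _ _).trans (hf1 u))
        (fun a ha => (Finset.mem_filter.1 ha).2)
    -- `g v + g v'`
    have hsum : g v + g v' = ∑ a ∈ (f v).filter (fun a => ¬ 2 ≤ fr (LinearMap.range a)), a +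
        ∑ a ∈ (f v').filter (fun a => ¬ 2 ≤ fr (LinearMap.range a)), a := by
      have e1 := hsplit v
      have e2 := hsplit v'
      rw [h5] at e1
      have e3 : g v + g v' = (g v + ρ0) + (g v' + ρ0) := by
        have : (g v + ρ0) + (g v' + ρ0) = (g v + g v') + (ρ0 + ρ0) := by abel
        rw [this, ESL.add_self', add_zero]
      rw [e3, e1, e2]
      have : ∀ s a b : Fm V, s + a + (s + b) = (s + s) + (a + b) := by intro s a b; abel
      rw [this, ESL.add_self', zero_add]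
    have hcontra : ∀ (φ : D V), φ ≠ 0 → rho φ ∈ ats R y → g v + g v' = rho φ → False := by
      intro φ hφ0 hφ hgg
      have hAt := mem_ats.1 hφ
      have hAtom : Atom R (rho φ) := ⟨y, hy0, hAt⟩
      have hGood := (hRG V e R hR.wu φ hφ0 hAt.1).2
      have hd1 := hg5a V e R hR (rho φ) hAtom hGood ψ (g v) y (hg v).1 (hg v).2.2 hAt.2.1
      have hd2 := hg5a V e R hR (rho φ) hAtom hGood ψ (g v') y (hg v').1 (hg v').2.2 hAt.2.1
      have e4 : g v' = g v + rho φ := by
        rw [← hgg, ← add_assoc, ESL.add_self', zero_add]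
      rw [e4] at hd2
      exact not_both (hR.wu.symm (hg v).1.mem) hφ0 hd1 hd2
    rcases hsmall v with ⟨s1, -⟩ | ⟨φ, hφ0, s1⟩ <;> rcases hsmall v' with ⟨s2, -⟩ | ⟨φ', hφ0', s2⟩
    · rw [s1, s2, add_zero] at hsum
      exact hginj v v' (ESL.eq_of_add hsum)
    · exfalso
      have hm : rho φ' ∈ ats R y := hf1 v' (Finset.filter_subset _ _ (by
        rw [s2]; exact Finset.mem_singleton_self _))
      rw [s1, s2, Finset.sum_singleton, zero_add] at hsum
      exact hcontra φ' hφ0' hm hsum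
    · exfalso
      have hm : rho φ ∈ ats R y := hf1 v (Finset.filter_subset _ _ (by
        rw [s1]; exact Finset.mem_singleton_self _))
      rw [s1, s2, Finset.sum_singleton, add_zero] at hsum
      exact hcontra φ hφ0 hm hsum
    · have hm : rho φ ∈ ats R y := hf1 v (Finset.filter_subset _ _ (by
        rw [s1]; exact Finset.mem_singleton_self _))
      have hm' : rho φ' ∈ ats R y := hf1 v' (Finset.filter_subset _ _ (by
        rw [s2]; exact Finset.mem_singleton_self _))
      have hφφ : φ = φ' := hX φ φ' hφ0 hφ0' (mem_ats.1 hm).1 (mem_ats.1 hm').1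
      rw [s1, s2, Finset.sum_singleton, Finset.sum_singleton, hφφ, ESL.add_self'] at hsum
      exact hginj v v' (ESL.eq_of_add hsum)
  have h8 := Nat.card_le_card_of_injective _ hinj
  rw [card_eq] at h8
  have h7 : Nat.card ((ats R y).filter (fun a => 2 ≤ fr (LinearMap.range a))).powerset =
      2 ^ ((ats R y).filter (fun a => 2 ≤ fr (LinearMap.range a))).card := by
    rw [Nat.card_eq_fintype_card, Fintype.card_coe, Finset.card_powerset]
  rw [h7] at h8
  exact (Nat.pow_le_pow_iff_right (by norm_num)).1 h8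

end Pool.Agent.ESG
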