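import Pool.Agent.ESG.Stmts

/-!
Module G2A: ranks of the atoms of `R^y`.
-/

set_option linter.unusedSectionVars false
set_option linter.unusedVariables false

namespace Pool.Agent.ESG

open Pool.Agent.ESL

namespace G2AX

variable {V : Type} [AddCommGroup V] [Module (ZMod 2) V]

theorem sum_finrank [Finite V] (A : Finset (Fm V)) (hA : IndB A) (I : Finset (Fm V)) (hI : I ⊆ A) :
    ∑ a ∈ I, fr (LinearMap.range a) = fr (I.sup (fun a : Fm V => LinearMap.range a) :
      Submodule (ZMod 2) (D V)) := by
  classical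
  have hs : A.SupIndep (fun a : Fm V => (LinearMap.range a : Submodule (ZMod 2) (D V))) :=
    (Finset.supIndep_attach (s := A)
      (f := fun a : Fm V => (LinearMap.range a : Submodule (ZMod 2) (D V)))).1
      (iSupIndep.supIndep' A.attach hA.2)
  induction I using Finset.induction_on with
  | empty =>
    rw [Finset.sum_empty, Finset.sup_empty]
    exact (finrank_bot _ _).symm
  | insert a I ha ih =>
    rw [Finset.sum_insert ha, Finset.sup_insert, ih (fun x hx => hI (Finset.mem_insert_of_mem hx))]
    have hd : Disjoint (LinearMap.range a : Submodule (ZMod 2) (D V))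
        (I.sup (fun a : Fm V => LinearMap.range a)) :=
      hs (fun x hx => hI (Finset.mem_insert_of_mem hx)) (hI (Finset.mem_insert_self _ _)) ha
    have h1 := Submodule.finrank_sup_add_finrank_inf_eq (LinearMap.range a)
      (I.sup (fun a : Fm V => (LinearMap.range a : Submodule (ZMod 2) (D V))))
    rw [hd.eq_bot, finrank_bot, add_zero] at h1
    exact h1.symm

theorem mem_ats [Finite V] {R : FS V} {w : V} {a : Fm V} : a ∈ ats R w ↔ At R w a := by
  unfold ats
  rw [Set.Finite.mem_toFinset]
  rfl

theorem sum_le (h1 : Stmt_AU1) [Finite V] {e : V} {R : FS V} (hR : CtxII e R) {y : V} (hy : y ≠ 0)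
    (I : Finset (Fm V)) (hI : I ⊆ ats R y) :
    ∑ a ∈ I, fr (LinearMap.range a) + 1 ≤ fr V := by
  rw [sum_finrank (ats R y) (h1 V e R hR y hy).1 I hI]
  have hle : (I.sup (fun a : Fm V => LinearMap.range a) : Submodule (ZMod 2) (D V)) ≤
      an (Submodule.span (ZMod 2) {y}) := by
    apply Finset.sup_le
    rintro a ha _ ⟨x, rfl⟩ z hz
    obtain ⟨c, rfl⟩ := Submodule.mem_span_singleton.1 hz
    have hat := mem_ats.1 (hI ha)
    rw [map_smul, hR.wu.symm hat.1, hat.2.1]
    simp
  have h2 := Submodule.finrank_mono hle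
  have h3 := finrank_an (Submodule.span (ZMod 2) {y})
  rw [finrank_span_singleton hy] at h3
  have h4 : fr (I.sup (fun a : Fm V => LinearMap.range a) : Submodule (ZMod 2) (D V)) ≤
    Module.finrank (ZMod 2) (an (Submodule.span (ZMod 2) {y})) := h2
  show _ + 1 ≤ Module.finrank (ZMod 2) V
  omega

end G2AX

open G2AX in
theorem g2a_proof (h1 : Stmt_AU1) : Stmt_G2A := by
  classical
  intro V _ _ _ e R hR y hy r hr
  have h2 := sum_le h1 hR hy ((ats R y).filter (fun a => 2 ≤ fr (LinearMap.range a)))
    (Finset.filter_subset _ _)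
  have h3 : ((ats R y).filter (fun a => 2 ≤ fr (LinearMap.range a))).card • r ≤
      ∑ a ∈ (ats R y).filter (fun a => 2 ≤ fr (LinearMap.range a)), fr (LinearMap.range a) := by
    apply Finset.card_nsmul_le_sum
    intro a ha
    rw [Finset.mem_filter] at ha
    exact hr a (mem_ats.1 ha.1) ha.2
  rw [smul_eq_mul, mul_comm] at h3
  have h4 : r * ((ats R y).filter (fun a => 2 ≤ fr (LinearMap.range a))).card ≤
    ∑ a ∈ (ats R y).filter (fun a => 2 ≤ fr (LinearMap.range a)), fr (LinearMap.range a) := h3
  calc _ ≤ ∑ a ∈ (ats R y).filter (fun a => 2 ≤ fr (LinearMap.range a)),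
        fr (LinearMap.range a) + 1 := Nat.add_le_add_right h4 1
    _ ≤ fr V := h2

end Pool.Agent.ESG
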