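import Pool.Agent.ESG.Stmts

set_option linter.unusedVariables false

namespace Pool.Agent.ESG

open Pool.Agent.ESL

theorem g4_proof : Stmt_G4 := by
  intro V _ _ _ R hR a ha hg ρ hρ
  by_cases hd : Disjoint (LinearMap.range ρ) (LinearMap.range a)
  · exact Or.inl hd
  right
  rw [Submodule.disjoint_def] at hd
  push Not at hd
  obtain ⟨φ, ⟨z₀, hz₀⟩, hφ, hφ0⟩ := hd
  have haz : a z₀ = φ := hg φ hφ hφ0 z₀ ⟨ρ, hρ, hz₀⟩
  have hker : LinearMap.ker ρ ≤ LinearMap.ker a := by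
    intro u hu
    rw [LinearMap.mem_ker] at hu ⊢
    have h1 := hg φ hφ hφ0 (z₀ + u) ⟨ρ, hρ, by rw [map_add, hu, add_zero, hz₀]⟩
    rw [map_add, haz] at h1
    simpa using h1
  refine ⟨?_, hker⟩
  rw [Submodule.disjoint_def]
  rintro φ' ⟨z, hz⟩ hφ'
  by_contra h0
  have h1 := hg φ' hφ' h0 z ⟨ρ + a, R.add_mem hρ ha, hz⟩
  rw [LinearMap.add_apply, h1] at hz
  have hρz : ρ z = 0 := by simpa using hz
  have : a z = 0 := hker hρz
  rw [this] at h1
  exact h0 h1.symm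

end Pool.Agent.ESG
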