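import Pool.Agent.ESG.Stmts

/-!
A good atom whose kernel meets `P_ψ`: then `P_ψ` is one block.
-/

set_option linter.unusedVariables false

namespace Pool.Agent.ESG

open Pool.Agent.ESL

namespace G5X

variable {V : Type} [AddCommGroup V] [Module (ZMod 2) V]

/-- two blocks sharing two points are equal -/
theorem blk_unique {R : FS V} {ψ : D V} {k k' : Fm V} (hk : k ∈ R) (hk' : Blk R ψ k') {x y : V}
    (hxy : x ≠ y) (h1 : k x = ψ) (h2 : k y = ψ) (h3 : k' x = ψ) (h4 : k' y = ψ) {z : V}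
    (hz : k z = ψ) : k' z = ψ := by
  have hu : x + y ≠ 0 := fun h => hxy (eq_of_add h)
  have e1 : k (x + y) = 0 := by rw [map_add, h1, h2, add_self']
  have e2 : k' (x + y) = 0 := by rw [map_add, h3, h4, add_self']
  exact hk'.all _ hu e2 z ⟨k, hk, hz⟩ ⟨k, hk, by rw [map_add, hz, e1, add_zero]⟩

/-- the blocks on which `a` is not constant -/
def TA (R : FS V) (ψ : D V) (a : Fm V) (B : Set V) : Prop :=
  ∃ k, Blk R ψ k ∧ B = {z | k z = ψ} ∧ Disjoint (LinearMap.range k) (LinearMap.range a)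

theorem exists_shift [Finite V] {R : FS V} (hR : IsSym R) {ψ : D V} {a : Fm V} (ha : a ∈ R) (δ : V)
    {B : Set V} (hB : TA R ψ a B) : ∃ t, a t = a δ ∧ ∀ z ∈ B, z + t ∈ B := by
  obtain ⟨k, hk, rfl, hd⟩ := hB
  have h1 := ker_sup_top (hR k hk.mem) (hR a ha) hd
  obtain ⟨s, hs, t, ht, hst⟩ := Submodule.mem_sup.1 (h1 ▸ Submodule.mem_top : δ ∈
    LinearMap.ker k ⊔ LinearMap.ker a)
  rw [LinearMap.mem_ker] at hs ht
  refine ⟨s, ?_, ?_⟩
  · rw [← hst, map_add, ht, add_zero]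
  · intro z hz
    have hz' : k z = ψ := hz
    show k (z + s) = ψ
    rw [map_add, hs, add_zero, hz']

theorem TA.unique {R : FS V} {ψ : D V} {a : Fm V} {B B' : Set V} (h : TA R ψ a B) (h' : TA R ψ a B')
    {x y : V} (hxy : x ≠ y) (h1 : x ∈ B) (h2 : y ∈ B) (h3 : x ∈ B') (h4 : y ∈ B') : B = B' := by
  obtain ⟨k, hk, rfl, -⟩ := h
  obtain ⟨k', hk', rfl, -⟩ := h'
  ext z
  exact ⟨fun hz => blk_unique hk.mem hk' hxy h1 h2 h3 h4 hz,
    fun hz => blk_unique hk'.mem hk hxy h3 h4 h1 h2 hz⟩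

/-- a choice of shifts -/
theorem exists_shifts [Finite V] {R : FS V} (hR : IsSym R) {ψ : D V} {a : Fm V} (ha : a ∈ R) (δ : V) :
    ∃ s : Set V → V, ∀ B, TA R ψ a B → a (s B) = a δ ∧ ∀ z ∈ B, z + s B ∈ B := by
  classical
  choose t ht1 ht2 using fun (B : {B : Set V // TA R ψ a B}) => exists_shift hR ha δ B.2
  refine ⟨fun B => if h : TA R ψ a B then t ⟨B, h⟩ else 0, fun B hB => ?_⟩
  simp only [dif_pos hB]
  exact ⟨ht1 ⟨B, hB⟩, ht2 ⟨B, hB⟩⟩

/-- shifting along the blocks through `p` -/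
theorem shift_map [Finite V] {R : FS V} (hR : IsSym R) {ψ : D V} {a : Fm V} (ha : a ∈ R) (δ : V)
    {s : Set V → V} (hs : ∀ B, TA R ψ a B → a (s B) = a δ ∧ ∀ z ∈ B, z + s B ∈ B)
    (p : V) (S : Set V) (B : V → Set V) (hB : ∀ v ∈ S, TA R ψ a (B v) ∧ v ∈ B v ∧ p ∈ B v)
    (hne : ∀ v ∈ S, a v + a δ ≠ a p) :
    Set.InjOn (fun v => v + s (B v)) S ∧
      (∀ v ∈ S, v + s (B v) ∈ B v ∧ a (v + s (B v)) = a v + a δ) ∧
      (∀ v ∈ S, ∀ B' : Set V, TA R ψ a B' → p ∈ B' → v + s (B v) ∈ B' → B' = B v) := by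
  have h2 : ∀ v ∈ S, v + s (B v) ∈ B v ∧ a (v + s (B v)) = a v + a δ := by
    intro v hv
    obtain ⟨h, hvB, -⟩ := hB v hv
    refine ⟨(hs _ h).2 v hvB, ?_⟩
    rw [map_add, (hs _ h).1]
  have h3 : ∀ v ∈ S, v + s (B v) ≠ p := by
    intro v hv h
    apply hne v hv
    rw [← (h2 v hv).2, h]
  have h4 : ∀ v ∈ S, ∀ B' : Set V, TA R ψ a B' → p ∈ B' → v + s (B v) ∈ B' → B' = B v := by
    intro v hv B' hB' hp hfv
    exact hB'.unique (hB v hv).1 (h3 v hv) hfv hp (h2 v hv).1 (hB v hv).2.2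
  refine ⟨?_, h2, h4⟩
  intro v hv v' hv' hvv
  have hvv' : v + s (B v) = v' + s (B v') := hvv
  have hBB : B v' = B v := h4 v hv (B v') (hB v' hv').1 (hB v' hv').2.2 (by
    rw [hvv']; exact (h2 v' hv').1)
  rw [hBB] at hvv'
  exact add_right_cancel hvv'

end G5X

open G5X

theorem g5_proof (h2 : Stmt_AU2) (hg1 : Stmt_G1) (hg4 : Stmt_G4) (hg5 : Stmt_G5A) : Stmt_G5 := by
  classical
  intro V _ _ _ e R hR a ha hgood hra ψ k u hk hu hau z hz
  by_contra hkz
  have hatom := ha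
  obtain ⟨w, hw, haw⟩ := ha
  have hS : IsSym R := hR.wu.sym
  have haR : a ∈ R := haw.1
  have hψ := hk.ne
  -- blocks through two points of `P`
  have hblk : ∀ x y, x ≠ y → ψ ∈ Lx R x → ψ ∈ Lx R y → ∃ k, Blk R ψ k ∧ k x = ψ ∧ k y = ψ :=
    fun x y => hg1 V e R hR ψ hψ x y
  -- all blocks through `u` are of type A
  have hTAu : ∀ k', Blk R ψ k' → k' u = ψ → TA R ψ a {z | k' z = ψ} := by
    intro k' hk' hk'u
    exact ⟨k', hk', rfl, hg5 V e R hR a hatom hgood ψ k' u hk' hk'u hau⟩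
  -- blocks with different values of `a` are of type A
  have hTAd : ∀ k' x y, Blk R ψ k' → k' x = ψ → k' y = ψ → a x ≠ a y →
      TA R ψ a {z | k' z = ψ} := by
    intro k' x y hk' h3 h4 h5
    refine ⟨k', hk', rfl, ?_⟩
    rcases hg4 V R hS a haR hgood k' hk'.mem with h | ⟨-, h⟩
    · exact h
    · exfalso
      apply h5
      have h6 : k' (x + y) = 0 := by rw [map_add, h3, h4, add_self']
      have h7 : a (x + y) = 0 := h h6
      rw [map_add] at h7
      exact eq_of_add h7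
  -- two blocks through `u`
  obtain ⟨k1, k2, v0, hb1, hb2, e1, e2, e3, e4⟩ : ∃ k1 k2 v0, Blk R ψ k1 ∧ Blk R ψ k2 ∧ k1 u = ψ ∧
      k2 u = ψ ∧ k1 v0 ≠ ψ ∧ k2 v0 = ψ := by
    by_cases hku : k u = ψ
    · have huz : u ≠ z := by rintro rfl; exact hkz hku
      obtain ⟨k2, hk2, h3, h4⟩ := hblk u z huz hu hz
      exact ⟨k, k2, z, hk, hk2, hku, h3, hkz, h4⟩
    · obtain ⟨z0, hz0⟩ := hk.ex
      obtain ⟨u0, hu0, hku0⟩ := hk.deg
      have hz1 : k (z0 + u0) = ψ := by rw [map_add, hz0, hku0, add_zero]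
      have hne0 : u ≠ z0 := by rintro rfl; exact hku hz0
      have hne1 : u ≠ z0 + u0 := by rintro h; rw [h] at hku; exact hku hz1
      obtain ⟨k1, hk1, h3, h4⟩ := hblk u z0 hne0 hu ⟨k, hk.mem, hz0⟩
      obtain ⟨k2, hk2, h5, h6⟩ := hblk u (z0 + u0) hne1 hu ⟨k, hk.mem, hz1⟩
      refine ⟨k1, k2, z0 + u0, hk1, hk2, h3, h5, ?_, h6⟩
      intro h7
      have hne2 : z0 ≠ z0 + u0 := by
        intro h
        apply hu0
        have := congrArg (z0 + ·) h
        simpa [add_add_self, add_self'] using this.symm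
      exact hku (blk_unique hk1.mem hk hne2 h4 h7 hz0 hz1 h3)
  have huv0 : u ≠ v0 := by rintro rfl; exact e3 e1
  -- two different nonzero values of `a`
  obtain ⟨x, y, hax, hay, haxy⟩ : ∃ x y, a x ≠ 0 ∧ a y ≠ 0 ∧ a x ≠ a y := by
    obtain ⟨x, hx⟩ : ∃ x, a x ≠ 0 := by
      by_contra hc
      push Not at hc
      exact haw.2.2.1 (LinearMap.ext hc)
    by_contra hc
    push Not at hc
    have hle : LinearMap.range a ≤ Submodule.span (ZMod 2) {a x} := by
      rintro _ ⟨y, rfl⟩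
      by_cases hy : a y = 0
      · rw [hy]; exact Submodule.zero_mem _
      · rw [← hc x y hx hy]
        exact Submodule.mem_span_singleton_self _
    have h1 := Submodule.finrank_mono hle
    rw [finrank_span_singleton hx] at h1
    have h2 : 2 ≤ Module.finrank (ZMod 2) (LinearMap.range a) := hra
    omega
  -- a point `p` in `P` with `a p = a y`
  obtain ⟨t, ht1, ht2⟩ := exists_shift hS haR y (hTAu k1 hb1 e1)
  set p := u + t with hp
  have hpB : k1 p = ψ := ht2 u e1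
  have hap : a p = a y := by rw [hp, map_add, hau, zero_add, ht1]
  -- the shifts
  obtain ⟨s, hs⟩ := exists_shifts hS (ψ := ψ) haR x
  -- the two sets
  set T0 : Set V := {v | ψ ∈ Lx R v ∧ a v = 0} with hT0
  set T1 : Set V := {v | ψ ∈ Lx R v ∧ a v = a x} with hT1
  -- `|T1| ≤ |T0|`
  have hle : T1.ncard ≤ T0.ncard := by
    have hB : ∀ v : V, ∃ B : Set V, v ∈ T1 → TA R ψ a B ∧ v ∈ B ∧ p ∈ B := by
      intro v
      by_cases hv : v ∈ T1
      · have hpv : p ≠ v := by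
          rintro rfl
          exact haxy (hv.2.symm.trans hap)
        obtain ⟨k', hk', h3, h4⟩ := hblk p v hpv ⟨k1, hb1.mem, hpB⟩ hv.1
        exact ⟨{z | k' z = ψ}, fun _ => ⟨hTAd k' p v hk' h3 h4 (by
          rw [hap, hv.2]; exact haxy.symm), h4, h3⟩⟩
      · exact ⟨∅, fun h => absurd h hv⟩
    choose B hB using hB
    obtain ⟨hf1, hf2, -⟩ := shift_map hS haR x hs p T1 B hB (by
      intro v hv
      rw [hv.2, add_self', hap]; exact hay.symm)
    refine Set.ncard_le_ncard_of_injOn (fun v => v + s (B v)) ?_ hf1 (Set.toFinite _)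
    intro v hv
    refine ⟨?_, by rw [(hf2 v hv).2, hv.2, add_self']⟩
    obtain ⟨k', hk', hB', -⟩ := (hB v hv).1
    have h5 : v + s (B v) ∈ {z | k' z = ψ} := by
      have h6 := (hf2 v hv).1
      exact (Set.ext_iff.1 hB' _).1 h6
    exact ⟨k', hk'.mem, h5⟩
  -- `|T0| < |T1|`
  have hlt : T0.ncard < T1.ncard := by
    have hB : ∀ v : V, ∃ B : Set V, (v ∈ T0 → TA R ψ a B ∧ v ∈ B ∧ u ∈ B) ∧
        (v = u → B = {z | k1 z = ψ}) := by
      intro v
      by_cases hvu : v = u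
      · refine ⟨{z | k1 z = ψ}, fun _ => ⟨hTAu k1 hb1 e1, ?_, e1⟩, fun _ => rfl⟩
        rw [hvu]; exact e1
      by_cases hv : v ∈ T0
      · obtain ⟨k', hk', h3, h4⟩ := hblk u v (Ne.symm hvu) hu hv.1
        exact ⟨{z | k' z = ψ}, fun _ => ⟨hTAu k' hk' h3, h4, h3⟩, fun h => absurd h hvu⟩
      · exact ⟨∅, fun h => absurd h hv, fun h => absurd h hvu⟩
    choose B hB using hB
    obtain ⟨hf1, hf2, hf3⟩ := shift_map hS haR x hs u T0 B (fun v hv => (hB v).1 hv) (by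
      intro v hv
      rw [hv.2, hau, zero_add]; exact hax)
    set t' := s {z | k2 z = ψ} with ht'
    obtain ⟨ht1', ht2'⟩ := hs _ (hTAu k2 hb2 e2)
    have hq : k2 (u + t') = ψ := ht2' u e2
    have hsub : (fun v => v + s (B v)) '' T0 ⊂ T1 := by
      refine (Set.ssubset_iff_of_subset ?_).2 ⟨u + t', ?_, ?_⟩
      · rintro _ ⟨v, hv, rfl⟩
        refine ⟨?_, by rw [(hf2 v hv).2, hv.2, zero_add]⟩
        obtain ⟨k', hk', hB', -⟩ := ((hB v).1 hv).1
        have h5 : v + s (B v) ∈ {z | k' z = ψ} := by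
          have h6 := (hf2 v hv).1
          exact (Set.ext_iff.1 hB' _).1 h6
        exact ⟨k', hk'.mem, h5⟩
      · exact ⟨⟨k2, hb2.mem, hq⟩, by rw [map_add, hau, zero_add, ht1']⟩
      · rintro ⟨v, hv, hfv⟩
        have hfv' : v + s (B v) = u + t' := hfv
        have h5 := hf3 v hv {z | k2 z = ψ} (hTAu k2 hb2 e2) e2 (by
          show k2 (v + s (B v)) = ψ
          rw [hfv', hq])
        -- `B v` is the block of `k2`
        by_cases hvu : v = u
        · rw [(hB v).2 hvu] at h5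
          have h6 : v0 ∈ {z | k1 z = ψ} := by rw [← h5]; exact e4
          exact e3 h6
        · rw [← h5, ht'] at hfv'
          exact hvu (add_right_cancel hfv')
    calc T0.ncard = ((fun v => v + s (B v)) '' T0).ncard := (Set.InjOn.ncard_image hf1).symm
      _ < T1.ncard := Set.ncard_lt_ncard hsub (Set.toFinite _)
  exact absurd hle (not_le.2 hlt)

end Pool.Agent.ESG
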