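import Pool.Agent.ESG.Stmts

/-!
Module G5A: a block form through a point of `ker a` is disjoint from the good atom `a`.
-/

set_option linter.unusedVariables false

namespace Pool.Agent.ESG

open Pool.Agent.ESL

theorem g5a_proof (hG4 : Stmt_G4) (hAU2 : Stmt_AU2) : Stmt_G5A := by
  intro V _ _ _ e R hR a ha hg ψ k u hk hku hau
  obtain ⟨w, hw0, haw⟩ := ha
  rcases hG4 V R hR.wu.sym a haw.1 hg k hk.mem with h | ⟨-, h⟩
  · exact h
  · exfalso
    obtain ⟨v, hv0, hv⟩ := hk.deg
    have hav : a v = 0 := h hv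
    have h1 : LinearMap.range a ≤ LinearMap.range k :=
      (range_le_iff (hR.wu.sym a haw.1) (hR.wu.sym k hk.mem)).2 h
    exact hk.at' v hv0 hv a (hAU2 V e R hR v w a hv0 hw0 haw hav) h1 u hku hau

end Pool.Agent.ESG
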