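import Pool.Agent.ESG.GA3B

/-!
Module GA0: in `R^m`, `a m = 0`, the forms disjoint from the atom `a` are closed under addition, and `ρ + a` is not
disjoint from `a`.
-/

set_option linter.unusedVariables false

namespace Pool.Agent.ESG

open Pool.Agent.ESL GA3BX

theorem ga0_proof (h1 : Stmt_AU1) (h2 : Stmt_AU2) (h3 : Stmt_AU3) : Stmt_GA0 := by
  intro V _ _ _ e R hR a ha m hm0 ham ρ hρ ρ' hρ' hd hd'
  have hsym := hR.wu.sym
  have haR := atom_mem ha
  constructor
  · rw [Submodule.disjoint_def]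
    rintro φ ⟨x, hx⟩ hφ
    have hx' : ρ x + ρ' x = φ := by rw [← hx]; rfl
    rw [← hx']
    exact no_mix h1 h2 h3 hR ha hm0 ham hρ hρ' hd hd' (by rw [hx']; exact hφ)
  · intro hc
    -- `a` is nonzero on some `x` with `ρ x = 0`
    have htop := ker_sup_top (hsym ρ hρ.1) (hsym a haR) hd
    have hex : ∃ x, a x ≠ 0 := by
      by_contra hne
      push Not at hne
      exact atom_ne ha (LinearMap.ext hne)
    obtain ⟨x, hx⟩ := hex
    obtain ⟨s, hs, t, ht, hst⟩ := Submodule.mem_sup.1 (htop ▸ Submodule.mem_top : x ∈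
      LinearMap.ker ρ ⊔ LinearMap.ker a)
    rw [LinearMap.mem_ker] at hs ht
    have has : a s = a x := by rw [← hst, map_add, ht, add_zero]
    have hmem : a s ∈ LinearMap.range (ρ + a) := ⟨s, by rw [LinearMap.add_apply, hs, zero_add]⟩
    have := Submodule.disjoint_def.1 hc (a s) hmem ⟨s, rfl⟩
    rw [has] at this
    exact hx this

end Pool.Agent.ESG
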