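import Pool.Agent.ESG.Stmts

/-!
Module GA1: the kernel of a good form is full.
-/

set_option linter.unusedVariables false

namespace Pool.Agent.ESG

open Pool.Agent.ESL

theorem ga1_proof : Stmt_GA1 := by
  intro V _ _ _ R hR a ha hg m hm k hk hkm
  by_contra h0
  have h1 : k m ∈ LinearMap.range a := by
    rw [← an_ker (hR a ha)]
    exact fun y hy => hkm y hy
  have h2 := hg (k m) h1 h0 m ⟨k, hk, rfl⟩
  rw [LinearMap.mem_ker.1 hm] at h2
  exact h0 h2.symm

end Pool.Agent.ESG
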