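import Pool.Agent.ESG.Stmts

/-!
Module GA2: if `a` is good and `a w ≠ 0`, the support of `R^w` and the range of `a` are disjoint.
-/

set_option linter.unusedVariables false

namespace Pool.Agent.ESG

open Pool.Agent.ESL

theorem ga2_proof (hI : Stmt_INDET) (hS : Stmt_SPV) : Stmt_GA2 := by
  intro V _ _ _ e R hR a ha hg w haw
  have hw0 : w ≠ 0 := by
    rintro rfl
    exact haw (map_zero a)
  obtain ⟨A, hA, hAw⟩ := hR.at' w hw0
  have hET : ET e (fx R w) := by
    rw [← hAw]
    apply hI V e A hA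
    intro b hb
    have : b ∈ fx R w := by
      rw [← hAw]
      exact Submodule.subset_span hb
    exact hR.wu b this.1
  rw [Submodule.disjoint_def]
  intro φ h1 h2
  by_contra h0
  obtain ⟨k, hk, u, hu⟩ := hS V e (fx R w) hET φ h1
  have e1 : a u = φ := hg φ h2 h0 u ⟨k, hk.1, hu⟩
  have e2 : a (u + w) = φ := hg φ h2 h0 (u + w) ⟨k, hk.1, by rw [map_add, hk.2, add_zero, hu]⟩
  rw [map_add, e1] at e2
  exact haw (by simpa using e2)

end Pool.Agent.ESG
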