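import Pool.Agent.ESG.GA3B

namespace Pool.Agent.ESG

open Pool.Agent.ESL

theorem ga3_proof (hD : Stmt_GA3D) (hF : Stmt_GA3F) : Stmt_GA3 := by
  classical
  intro V _ _ _ e R hR a hat hgood hblk m hm m' hm' k hk k' hk' heq
  by_contra hne
  have hs := hR.wu.sym
  have haR : a ∈ R := GA3BX.atom_mem hat
  have ha0 : a ≠ 0 := GA3BX.atom_ne hat
  have hθ : k m + k' m' ∈ LinearMap.range a := by
    rw [← an_ker (hs a haR), mem_an]
    intro v hv
    rw [LinearMap.add_apply, heq v hv, CharTwo.add_self_eq_zero]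
  have hθ0 : k m + k' m' ≠ 0 := fun h => hne (eq_of_add h)
  have hctx : Ctx9 e R a (k m) (k m + k' m') m m' :=
    { ctx := hR, atom := hat, good := hgood, blk := hblk, hm := LinearMap.mem_ker.mp hm,
      hm' := LinearMap.mem_ker.mp hm', mem := ⟨k, hk, rfl⟩,
      mem' := ⟨k', hk', (add_add_self (k m) (k' m')).symm⟩, hθ := hθ, hθ0 := hθ0 }
  obtain ⟨-, -, hcard⟩ := hD V e R a _ _ m m' hctx
  have hinv := hF V e R a _ _ m m' hctx
  have hdim : Module.finrank (ZMod 2) (LinearMap.range a) ≠ 0 := by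
    intro h0
    have := Submodule.finrank_eq_zero.mp h0
    exact ha0 (LinearMap.range_eq_bot.mp this)
  have hev : Even (Nat.card (NN R a)) := by
    rw [hcard, card_V]
    exact (Nat.even_pow' hdim).mpr even_two
  have hpos : 0 < Nat.card (NN R a) := by
    rw [hcard, card_V]
    exact pow_pos two_pos _
  have hfin : (NN R a).Finite := Set.toFinite _
  obtain ⟨⟨κ₀, hκ₀⟩⟩ : Nonempty (NN R a) := (Nat.card_pos_iff.mp hpos).1
  have hnotmem : a ∉ NN R a := by
    intro h
    have h1 := h.2.1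
    rw [disjoint_self] at h1
    exact ha0 (LinearMap.range_eq_bot.mp h1)
  set s : Finset (Fm V) := hfin.toFinset.erase κ₀ with hsdef
  have hmem : ∀ κ, κ ∈ s ↔ κ ≠ κ₀ ∧ κ ∈ NN R a := by
    intro κ
    rw [hsdef, Finset.mem_erase, Set.Finite.mem_toFinset]
  have hsum : ∑ κ ∈ s, (1 : ZMod 2) = 0 := by
    refine Finset.sum_involution (fun κ _ => κ + κ₀ + a) ?_ ?_ ?_ ?_
    · intro κ _
      decide
    · intro κ hκ _ h
      have h1 : κ₀ + a = 0 := by
        have h2 : κ + (κ₀ + a) = κ + 0 := by rw [← add_assoc, h, add_zero]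
        exact add_left_cancel h2
      have h3 : κ₀ = a := eq_of_add h1
      rw [h3] at hκ₀
      exact hnotmem hκ₀
    · intro κ hκ
      rw [hmem] at hκ ⊢
      refine ⟨?_, hinv κ hκ.2 κ₀ hκ₀ hκ.1⟩
      intro h
      have h2 : κ + a = 0 := by
        have h4 : κ₀ + (κ + a) = κ₀ + 0 := by rw [← add_assoc, add_comm κ₀ κ, h, add_zero]
        exact add_left_cancel h4
      have h3 : κ = a := eq_of_add h2
      rw [h3] at hκ
      exact hnotmem hκ.2
    · intro κ hκ
      have h1 : κ + κ₀ + a + κ₀ + a = κ + (κ₀ + κ₀) + (a + a) := by abel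
      rw [h1, add_self', add_self', add_zero, add_zero]
  rw [Finset.sum_const, nsmul_eq_mul, mul_one] at hsum
  have h2 : Even s.card := (ZMod.natCast_eq_zero_iff_even).mp hsum
  have h3 : s.card + 1 = Nat.card (NN R a) := by
    rw [hsdef, Finset.card_erase_of_mem (hfin.mem_toFinset.mpr hκ₀)]
    have h5 : hfin.toFinset.card = Nat.card (NN R a) := by
      rw [Nat.card_coe_set_eq, Set.ncard_eq_toFinset_card _ hfin]
    rw [h5]
    omega
  rw [← h3] at hev
  have := Nat.even_add_one.mp hev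
  exact this h2

end Pool.Agent.ESG
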