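import Pool.Agent.ESG.Stmts

namespace Pool.Agent.ESG

open Pool.Agent.ESL

theorem ga3a_proof (h1 : Stmt_GA1) : Stmt_GA3A := by
  intro V _ _ _ e R a α θ m m' H
  have haR : a ∈ R := by
    obtain ⟨w, _, hw⟩ := H.atom
    exact hw.1
  have hfull := h1 V R H.ctx.wu.sym a haR H.good
  obtain ⟨k, hk, hkm⟩ := H.mem
  by_contra hc
  push Not at hc
  have h0 : k m = 0 := by
    refine hfull m (LinearMap.mem_ker.mpr H.hm) k hk ?_
    intro b hb
    rw [hkm]
    by_contra h
    exact hc b (LinearMap.mem_ker.mp hb) (zm_ne h)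
  have hα : α = 0 := by rw [← hkm, h0]
  have hθ : θ ∈ Lx R m' := by
    have := H.mem'
    rwa [hα, zero_add] at this
  have := H.good θ H.hθ H.hθ0 m' hθ
  rw [H.hm'] at this
  exact H.hθ0 this.symm

end Pool.Agent.ESG
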