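import Pool.Agent.ESG.Stmts
import Pool.Agent.ESL.AU

/-!
Module GA3B: (e) for two colours, the block forms have kernels complementary to `ker a`.
-/

set_option linter.unusedVariables false

namespace Pool.Agent.ESG

open Pool.Agent.ESL

namespace GA3BX

variable {V : Type} [AddCommGroup V] [Module (ZMod 2) V]

/-- if `P_ψ` is a block, any block form at a point of `P_ψ` describes all of `P_ψ` -/
theorem blk_all {R : FS V} {ψ : D V} {ρ ρ' : Fm V} (hρR : ρ ∈ R) (hρ : ∀ z, ψ ∈ Lx R z → ρ z = ψ)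
    (h : Blk R ψ ρ') {u : V} (hu : ρ' u = ψ) (z : V) (hz : ψ ∈ Lx R z) : ρ' z = ψ := by
  obtain ⟨v, hv0, hv⟩ := h.deg
  have e1 : ρ u = ψ := hρ u ⟨ρ', h.mem, hu⟩
  have e2 : ρ (u + v) = ψ := hρ (u + v) ⟨ρ', h.mem, by rw [map_add, hv, add_zero, hu]⟩
  have e3 : ρ v = 0 := by
    rw [map_add, e1] at e2
    have := congrArg (fun t => ψ + t) e2
    simpa [add_add_self, add_self'] using this
  have e4 : ρ z = ψ := hρ z hz
  exact h.all v hv0 hv z hz ⟨ρ, hρR, by rw [map_add, e3, add_zero, e4]⟩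

theorem range_zero {R : FS V} (hs : IsSym R) {a : Fm V} (ha : a ∈ R) {η : D V}
    (hη : η ∈ LinearMap.range a) {b : V} (hb : a b = 0) : η b = 0 := by
  obtain ⟨x, rfl⟩ := hη
  rw [hs a ha, hb]; rfl

theorem ne_zero {R : FS V} (hs : IsSym R) {a : Fm V} (ha : a ∈ R) {α η : D V}
    (hη : η ∈ LinearMap.range a) {b : V} (hb : a b = 0) (hαb : α b = 1) : α + η ≠ 0 := by
  intro h
  have h1 := congrArg (fun f : D V => f b) h
  simp only [LinearMap.add_apply, LinearMap.zero_apply] at h1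
  rw [hαb, range_zero hs ha hη hb, add_zero] at h1
  exact one_ne_zero h1

theorem atom_ne {R : FS V} {a : Fm V} (h : Atom R a) : a ≠ 0 := by
  obtain ⟨w, -, h⟩ := h
  exact h.2.2.1

theorem atom_mem {R : FS V} {a : Fm V} (h : Atom R a) : a ∈ R := by
  obtain ⟨w, -, h⟩ := h
  exact h.1

/-- in `R^v`, `a v = 0`: the supports of two forms disjoint from `a` do not generate an element of the support
of `a` -/
theorem no_mix [Finite V] {e : V} {R : FS V} (h1 : Stmt_AU1) (h2 : Stmt_AU2) (h3 : Stmt_AU3)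
    (hR : CtxII e R) {a : Fm V} (ha : Atom R a) {v : V} (hv0 : v ≠ 0) (hav : a v = 0) {ρ ρ' : Fm V}
    (hρ : ρ ∈ fx R v) (hρ' : ρ' ∈ fx R v) (hd : Disjoint (LinearMap.range ρ) (LinearMap.range a))
    (hd' : Disjoint (LinearMap.range ρ') (LinearMap.range a)) {x x' : V}
    (hmem : ρ x + ρ' x' ∈ LinearMap.range a) : ρ x + ρ' x' = 0 := by
  classical
  obtain ⟨w, hw0, haw⟩ := ha
  have hat : At R v a := h2 V e R hR v w a hv0 hw0 haw hav
  have hats : a ∈ ats R v := by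
    unfold ats
    rw [Set.Finite.mem_toFinset]
    exact hat
  obtain ⟨hind, -⟩ := h1 V e R hR v hv0
  have key : ∀ σ ∈ fx R v, Disjoint (LinearMap.range σ) (LinearMap.range a) →
      ∃ I ⊆ ats R v, a ∉ I ∧ LinearMap.range σ ≤ ⨆ b ∈ I, LinearMap.range b := by
    intro σ hσ hdσ
    obtain ⟨I, hI, hsum, hiff, -, -⟩ := h3 V e R hR v hv0 σ hσ
    refine ⟨I, hI, ?_, ?_⟩
    · intro haI
      have hle := (hiff a hats).1 haI
      have : LinearMap.range a = ⊥ := disjoint_self.1 (hdσ.mono_left hle)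
      exact haw.2.2.1 (LinearMap.range_eq_bot.1 this)
    · rw [hsum]
      exact AUX.range_sum_le I
  obtain ⟨I, hI, haI, hle⟩ := key ρ hρ hd
  obtain ⟨I', hI', haI', hle'⟩ := key ρ' hρ' hd'
  have hdis := AUX.dis hind hats (I := I ∪ I') (Finset.union_subset hI hI') (by
    rw [Finset.mem_union]
    exact fun h => h.elim haI haI')
  have m1 : ρ x + ρ' x' ∈ ⨆ b ∈ I ∪ I', LinearMap.range b := by
    refine Submodule.add_mem _ ?_ ?_
    · refine (hle.trans ?_) ⟨x, rfl⟩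
      exact iSup₂_le fun b hb => le_iSup₂_of_le b (Finset.mem_union_left _ hb) le_rfl
    · refine (hle'.trans ?_) ⟨x', rfl⟩
      exact iSup₂_le fun b hb => le_iSup₂_of_le b (Finset.mem_union_right _ hb) le_rfl
  exact Submodule.disjoint_def.1 hdis _ hmem m1

end GA3BX

open GA3BX

theorem ga3b_proof (h1 : Stmt_AU1) (h2 : Stmt_AU2) (h3 : Stmt_AU3) (hA : Stmt_GA3A) (h5 : Stmt_G5A) :
    Stmt_GA3B := by
  intro V _ _ _ e R a α θ m m' h ρ hρ hu
  obtain ⟨u, hau, hρu⟩ := hu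
  have hsym := h.ctx.wu.sym
  have haR := atom_mem h.atom
  obtain ⟨b, hb, hαb⟩ := hA V e R a α θ m m' h
  have hα0 : α ≠ 0 := hρ.ne
  have hαθ : α + θ ≠ 0 := ne_zero hsym haR h.hθ hb hαb
  have hu0 : u ≠ 0 := by
    rintro rfl
    exact hα0 (by rw [← hρu, map_zero])
  have hm'0 : m' ≠ 0 := by
    rintro rfl
    have := h.mem'
    rw [Lx_zero, Submodule.mem_bot] at this
    exact hαθ this
  obtain ⟨ρ₀, hB₀, -, -, hall₀⟩ := h.blk u hu0 hau α ⟨ρ, hρ.mem, hρu⟩ hα0
  have hall : ∀ z, α ∈ Lx R z → ρ z = α := blk_all hB₀.mem hall₀ hρ hρu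
  obtain ⟨ρ', hB', -, hd', hall'⟩ := h.blk m' hm'0 h.hm' (α + θ) h.mem' hαθ
  have hd : Disjoint (LinearMap.range ρ) (LinearMap.range a) :=
    h5 V e R h.ctx a h.atom h.good α ρ u hρ hρu hau
  rw [eq_bot_iff]
  rintro v ⟨hv1, hv2⟩
  rw [SetLike.mem_coe, LinearMap.mem_ker] at hv1 hv2
  rw [Submodule.mem_bot]
  by_contra hv0
  obtain ⟨t, ht⟩ := h.hθ
  have htop := ker_sup_top (hsym ρ hρ.mem) (hsym a haR) hd
  obtain ⟨s, hs, s', hs', hss⟩ := Submodule.mem_sup.1 (htop ▸ Submodule.mem_top : t ∈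
    LinearMap.ker ρ ⊔ LinearMap.ker a)
  rw [LinearMap.mem_ker] at hs hs'
  have has : a s = θ := by
    rw [← ht, ← hss, map_add, hs', add_zero]
  have p1 : ρ' (u + s) = α + θ := by
    apply hall'
    refine ⟨ρ + a, R.add_mem hρ.mem haR, ?_⟩
    rw [LinearMap.add_apply, map_add, map_add, hρu, hs, hau, has, add_zero, zero_add]
  have p2 : ρ' (u + s + v) = α + θ := by
    apply hall'
    refine ⟨ρ + a, R.add_mem hρ.mem haR, ?_⟩
    rw [LinearMap.add_apply, map_add, map_add, map_add, map_add, hρu, hs, hau, has, hv1, hv2,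
      add_zero, add_zero, add_zero, zero_add]
  have p3 : ρ' v = 0 := by
    rw [map_add, p1] at p2
    have := congrArg (fun t => (α + θ) + t) p2
    simpa [add_add_self, add_self'] using this
  have e1 : ρ u + ρ' (u + s) = θ := by
    rw [hρu, p1, add_add_self]
  have := no_mix h1 h2 h3 h.ctx h.atom hv0 hv2 (x := u) (x' := u + s) ⟨hρ.mem, hv1⟩ ⟨hB'.mem, p3⟩ hd hd'
    (by rw [e1]; exact h.hθ)
  rw [e1] at this
  exact h.hθ0 this

end Pool.Agent.ESG
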