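import Pool.Agent.ESG.GA3C

/-!
Module GA3D: (g) the set `N` is in bijection with the colours.
-/

set_option linter.unusedVariables false

namespace Pool.Agent.ESG

open Pool.Agent.ESL GA3BX GA3CX

namespace GA3DX

variable {V : Type} [AddCommGroup V] [Module (ZMod 2) V] [Finite V]

/-- in `R^v` forms are determined by their kernels -/
theorem eq_of_ker {e : V} {R : FS V} (h3 : Stmt_AU3) (hR : CtxII e R) {v : V} (hv : v ≠ 0)
    {κ ρ : Fm V} (hκ : κ ∈ fx R v) (hρ : ρ ∈ fx R v) (hk : LinearMap.ker κ = LinearMap.ker ρ) :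
    κ = ρ := by
  have hs := hR.wu.sym
  have hr : LinearMap.range κ = LinearMap.range ρ := by
    rw [← an_ker (hs κ hκ.1), hk, an_ker (hs ρ hρ.1)]
  obtain ⟨I, hI, hIs, hIi, -, -⟩ := h3 V e R hR v hv κ hκ
  obtain ⟨J, hJ, hJs, hJi, -, -⟩ := h3 V e R hR v hv ρ hρ
  have : I = J := by
    ext b
    constructor
    · intro hb
      rw [hJi b (hI hb), ← hr]
      exact (hIi b (hI hb)).1 hb
    · intro hb
      rw [hIi b (hJ hb), hr]
      exact (hJi b (hJ hb)).1 hb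
  rw [hIs, hJs, this]

/-- the same hypotheses for the colour `η` -/
theorem shift_ctx {e : V} {R : FS V} (hC : Stmt_GA3C) {a : Fm V} {α θ : D V} {m m' : V}
    (h : Ctx9 e R a α θ m m') {η : D V} (hη : η ∈ LinearMap.range a) :
    ∃ u u', Ctx9 e R a (α + η) θ u u' := by
  obtain ⟨u, hu, hu'⟩ := hC V e R a α θ m m' h η hη
  obtain ⟨u', hv, hv'⟩ := hC V e R a α θ m m' h (η + θ) (Submodule.add_mem _ hη h.hθ)
  refine ⟨u, u', ⟨h.ctx, h.atom, h.good, h.blk, hu, hv, hu', ?_, h.hθ, h.hθ0⟩⟩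
  rw [add_assoc]
  exact hv'

/-- a form of `N` with value `α + η` is the block form of `P_{α + η}` -/
theorem core {e : V} {R : FS V} (hA : Stmt_GA3A) (hB : Stmt_GA3B) (hC : Stmt_GA3C) (h3 : Stmt_AU3)
    {a : Fm V} {α θ : D V} {m m' : V} (h : Ctx9 e R a α θ m m') {κ : Fm V} (hκ : κ ∈ NN R a)
    {η : D V} (hη : η ∈ LinearMap.range a) {x : V} (hx : κ x = α + η) :
    Blk R (α + η) κ ∧ (∃ u, a u = 0 ∧ κ u = α + η) ∧ ∀ z, α + η ∈ Lx R z → κ z = α + η := by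
  have hsym := h.ctx.wu.sym
  have haR := atom_mem h.atom
  obtain ⟨b, hb, hαb⟩ := hA V e R a α θ m m' h
  have hαη : α + η ≠ 0 := ne_zero hsym haR hη hb hαb
  obtain ⟨hκR, hκd, hκk⟩ := hκ
  obtain ⟨u, hu1, hu2⟩ := shift hsym hκR haR hκd x (Submodule.zero_mem (LinearMap.range a))
  rw [hx] at hu1
  have hu0 : u ≠ 0 := by
    rintro rfl
    exact hαη (by rw [← hu1, map_zero])
  obtain ⟨ρ, hρB, hρu, hρd, hρall⟩ := h.blk u hu0 hu2 (α + η) ⟨κ, hκR, hu1⟩ hαη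
  have hle : LinearMap.ker κ ≤ LinearMap.ker ρ := by
    intro v hv
    rw [LinearMap.mem_ker] at hv ⊢
    have := hρall (u + v) ⟨κ, hκR, by rw [map_add, hv, add_zero, hu1]⟩
    rw [map_add, hρu] at this
    have h1 := congrArg (fun t => (α + η) + t) this
    simpa [add_add_self, add_self'] using h1
  obtain ⟨w, w', h'⟩ := shift_ctx hC h hη
  have hbot := hB V e R a (α + η) θ w w' h' ρ hρB ⟨u, hu2, hρu⟩
  have htop := ker_sup_top (hsym κ hκR) (hsym a haR) hκd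
  have hge : LinearMap.ker ρ ≤ LinearMap.ker κ := by
    intro v hv
    obtain ⟨s, hs, t, ht, hst⟩ := Submodule.mem_sup.1 (htop ▸ Submodule.mem_top : v ∈
      LinearMap.ker κ ⊔ LinearMap.ker a)
    have ht2 : t ∈ LinearMap.ker ρ ⊓ LinearMap.ker a := by
      refine ⟨?_, ht⟩
      have : t = s + v := by rw [← hst, add_add_self]
      rw [SetLike.mem_coe, this]
      exact Submodule.add_mem _ (hle hs) hv
    rw [hbot, Submodule.mem_bot] at ht2
    rw [← hst, ht2, add_zero]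
    exact hs
  obtain ⟨v, hv0, hv⟩ := hρB.deg
  have hker := le_antisymm hle hge
  have heq : κ = ρ := eq_of_ker h3 h.ctx hv0 (κ := κ) (ρ := ρ) ⟨hκR, hge hv⟩ ⟨hρB.mem, hv⟩ hker
  rw [heq]
  exact ⟨hρB, ⟨u, hu2, hρu⟩, hρall⟩

end GA3DX

open GA3DX

theorem ga3d_proof (hA : Stmt_GA3A) (hB : Stmt_GA3B) (hC : Stmt_GA3C) (h3 : Stmt_AU3) :
    Stmt_GA3D := by
  intro V _ _ _ e R a α θ m m' h
  have hsym := h.ctx.wu.sym
  have haR := atom_mem h.atom
  obtain ⟨b, hb, hαb⟩ := hA V e R a α θ m m' h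
  have p1 : ∀ κ ∈ NN R a, ∃ η ∈ LinearMap.range a, Blk R (α + η) κ ∧
      (∃ u, a u = 0 ∧ κ u = α + η) := by
    intro κ hκ
    -- the ranges of `κ` and `a` generate everything
    have htop : LinearMap.range κ ⊔ LinearMap.range a = ⊤ := by
      rw [← an_ker (hsym κ hκ.1), ← an_ker (hsym a haR), ← an_inf, hκ.2.2, an_bot]
    obtain ⟨β, ⟨x, hx⟩, η, hη, hβη⟩ := Submodule.mem_sup.1 (htop ▸ Submodule.mem_top : α ∈
      LinearMap.range κ ⊔ LinearMap.range a)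
    have hx' : κ x = α + η := by
      rw [hx, ← hβη, add_add_self']
    obtain ⟨c1, c2, -⟩ := core hA hB hC h3 h hκ hη hx'
    exact ⟨η, hη, c1, c2⟩
  have p2 : ∀ κ ∈ NN R a, ∀ κ' ∈ NN R a, ∀ η ∈ LinearMap.range a, (∃ u, κ u = α + η) →
      (∃ u, κ' u = α + η) → κ = κ' := by
    rintro κ hκ κ' hκ' η hη ⟨x, hx⟩ ⟨x', hx'⟩
    obtain ⟨c1, -, c3⟩ := core hA hB hC h3 h hκ hη hx
    obtain ⟨c1', -, c3'⟩ := core hA hB hC h3 h hκ' hη hx'
    have hker : LinearMap.ker κ = LinearMap.ker κ' := by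
      apply le_antisymm
      · intro v hv
        rw [LinearMap.mem_ker] at hv ⊢
        have e1 := c3' x ⟨κ, hκ.1, hx⟩
        have e2 := c3' (x + v) ⟨κ, hκ.1, by rw [map_add, hv, add_zero, hx]⟩
        rw [map_add, e1] at e2
        have h1 := congrArg (fun t => (α + η) + t) e2
        simpa [add_add_self, add_self'] using h1
      · intro v hv
        rw [LinearMap.mem_ker] at hv ⊢
        have e1 := c3 x' ⟨κ', hκ'.1, hx'⟩
        have e2 := c3 (x' + v) ⟨κ', hκ'.1, by rw [map_add, hv, add_zero, hx']⟩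
        rw [map_add, e1] at e2
        have h1 := congrArg (fun t => (α + η) + t) e2
        simpa [add_add_self, add_self'] using h1
    obtain ⟨v, hv0, hv⟩ := c1.deg
    have hv' : κ' v = 0 := by
      have : v ∈ LinearMap.ker κ' := by rw [← hker]; exact hv
      exact this
    exact eq_of_ker h3 h.ctx hv0 ⟨hκ.1, hv⟩ ⟨hκ'.1, hv'⟩ hker
  refine ⟨p1, p2, ?_⟩
  choose f hf1 hf2 hf3 using p1
  let F : NN R a → LinearMap.range a := fun κ => ⟨f κ.1 κ.2, hf1 κ.1 κ.2⟩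
  apply Nat.card_congr
  refine Equiv.ofBijective F ⟨?_, ?_⟩
  · intro κ κ' hF
    have hF' : f κ.1 κ.2 = f κ'.1 κ'.2 := congrArg Subtype.val hF
    apply Subtype.ext
    obtain ⟨u, -, hu⟩ := hf3 κ.1 κ.2
    obtain ⟨u', -, hu'⟩ := hf3 κ'.1 κ'.2
    exact p2 κ.1 κ.2 κ'.1 κ'.2 (f κ.1 κ.2) (hf1 κ.1 κ.2) ⟨u, hu⟩ ⟨u', by rw [hF', hu']⟩
  · rintro ⟨η, hη⟩
    have hαη : α + η ≠ 0 := ne_zero hsym haR hη hb hαb
    obtain ⟨u, hu, hu'⟩ := hC V e R a α θ m m' h η hη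
    have hu0 : u ≠ 0 := by
      rintro rfl
      rw [Lx_zero, Submodule.mem_bot] at hu'
      exact hαη hu'
    obtain ⟨ρ, hρB, hρu, hρd, hρall⟩ := h.blk u hu0 hu (α + η) hu' hαη
    obtain ⟨w, w', h'⟩ := shift_ctx hC h hη
    have hbot := hB V e R a (α + η) θ w w' h' ρ hρB ⟨u, hu, hρu⟩
    have hρN : ρ ∈ NN R a := ⟨hρB.mem, hρd, hbot⟩
    refine ⟨⟨ρ, hρN⟩, ?_⟩
    apply Subtype.ext
    show f ρ hρN = η
    obtain ⟨x, -, hx⟩ := hf3 ρ hρN
    have m1 : f ρ hρN + η ∈ LinearMap.range ρ := by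
      refine ⟨x + u, ?_⟩
      rw [map_add, hx, hρu]
      calc α + f ρ hρN + (α + η) = f ρ hρN + η + (α + α) := by abel
        _ = _ := by rw [add_self', add_zero]
    have m2 := Submodule.disjoint_def.1 hρd _ m1 (Submodule.add_mem _ (hf1 ρ hρN) hη)
    exact eq_of_add m2

end Pool.Agent.ESG
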