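import Pool.Agent.ESG.GA3D

/-!
Module GA3E: (g) two different elements of `N`.
-/

set_option linter.unusedVariables false

namespace Pool.Agent.ESG

open Pool.Agent.ESL GA3BX GA3CX GA3DX

theorem ga3e_proof (hD : Stmt_GA3D) (h2 : Stmt_GA2) (hG4 : Stmt_G4) : Stmt_GA3E := by
  intro V _ _ _ e R a α θ m m' h κ hκ κ' hκ' hne
  have hsym := h.ctx.wu.sym
  have haR := atom_mem h.atom
  obtain ⟨p1, p2, -⟩ := hD V e R a α θ m m' h
  obtain ⟨η, hη, hB, u, hu, hκu⟩ := p1 κ hκ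
  obtain ⟨η', hη', hB', u', hu', hκu'⟩ := p1 κ' hκ'
  have hηη : η ≠ η' := by
    rintro rfl
    exact hne (p2 κ hκ κ' hκ' η hη ⟨u, hκu⟩ ⟨u', hκu'⟩)
  -- the block form of `P_{α + η'}`
  have hu'0 : u' ≠ 0 := by
    rintro rfl
    exact hB'.ne (by rw [← hκu', map_zero])
  obtain ⟨ρ, hρB, hρu, -, hρall⟩ := h.blk u' hu'0 hu' (α + η') ⟨κ', hκ'.1, hκu'⟩ hB'.ne
  have hall' : ∀ z, α + η' ∈ Lx R z → κ' z = α + η' := blk_all hρB.mem hρall hB' hκu'
  obtain ⟨z, hz1, hz2⟩ := shift hsym hκ.1 haR hκ.2.1 u (Submodule.add_mem _ hη hη')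
  rw [hκu] at hz1
  have hz3 : κ' z = α + η' := by
    apply hall'
    refine ⟨κ + a, R.add_mem hκ.1 haR, ?_⟩
    rw [LinearMap.add_apply, hz1, hz2]
    calc α + η + (η + η') = α + η' + (η + η) := by abel
      _ = α + η' := by rw [add_self', add_zero]
  have hz4 : (κ + κ') z = η + η' := by
    rw [LinearMap.add_apply, hz1, hz3]
    calc α + η + (α + η') = η + η' + (α + α) := by abel
      _ = η + η' := by rw [add_self', add_zero]
  have hz0 : η + η' ≠ 0 := fun h' => hηη (eq_of_add h')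
  have hmem : η + η' ∈ LinearMap.range a := Submodule.add_mem _ hη hη'
  constructor
  · rw [eq_bot_iff]
    rintro v ⟨hv1, hv2⟩
    rw [SetLike.mem_coe, LinearMap.mem_ker] at hv1 hv2
    rw [Submodule.mem_bot]
    by_contra hv0
    have hav : a v ≠ 0 := by
      intro hav
      have : v ∈ LinearMap.ker κ ⊓ LinearMap.ker a := ⟨hv1, hav⟩
      rw [hκ.2.2, Submodule.mem_bot] at this
      exact hv0 this
    have hdis := h2 V e R h.ctx a haR h.good v hav
    have hk : κ + κ' ∈ fx R v := ⟨R.add_mem hκ.1 hκ'.1, by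
      rw [LinearMap.add_apply, hv1, hv2, add_zero]⟩
    have := mem_Sp hk z
    rw [hz4] at this
    exact hz0 (Submodule.disjoint_def.1 hdis _ this hmem)
  · rcases hG4 V R hsym a haR h.good (κ + κ') (R.add_mem hκ.1 hκ'.1) with hd | ⟨hd, -⟩
    · exfalso
      exact hz0 (Submodule.disjoint_def.1 hd _ ⟨z, hz4⟩ hmem)
    · exact hd

end Pool.Agent.ESG
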