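import Pool.Agent.ESG.Stmts

/-!
Module GA3F: the involution.
-/

namespace Pool.Agent.ESG

open Pool.Agent.ESL

theorem ga3f_proof (hD : Stmt_GA3D) (hE : Stmt_GA3E) (h2 : Stmt_GA2) (h0 : Stmt_GA0) :
    Stmt_GA3F := by
  intro V _ _ _ e R a α θ m m' hc κ hκ κ' hκ' hne
  obtain ⟨w₀, hw₀, haR, -⟩ := hc.atom
  have haR' : a ∈ R := haR
  obtain ⟨hE1, hE2⟩ := hE V e R a α θ m m' hc κ hκ κ' hκ' hne
  have hsum : κ + κ' + a ∈ R := R.add_mem (R.add_mem hκ.1 hκ'.1) haR'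
  refine ⟨hsum, hE2, ?_⟩
  -- key lemma
  have key : ∀ κ ∈ NN R a, ∀ ρ ∈ R, LinearMap.ker κ ≤ LinearMap.ker ρ →
      Disjoint (LinearMap.range (κ + ρ)) (LinearMap.range a) := by
    intro κ hκ ρ hρ hle
    obtain ⟨η, -, hblk, -⟩ := (hD V e R a α θ m m' hc).1 κ hκ
    obtain ⟨w, hw, hκw⟩ := hblk.deg
    have haw : a w ≠ 0 := by
      intro h
      have h1 : w ∈ LinearMap.ker κ ⊓ LinearMap.ker a :=
        ⟨LinearMap.mem_ker.2 hκw, LinearMap.mem_ker.2 h⟩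
      rw [hκ.2.2, Submodule.mem_bot] at h1
      exact hw h1
    have hρw : ρ w = 0 := LinearMap.mem_ker.1 (hle (LinearMap.mem_ker.2 hκw))
    have h1 : κ + ρ ∈ fx R w := by
      refine ⟨R.add_mem hκ.1 hρ, ?_⟩
      rw [LinearMap.add_apply, hκw, hρw, add_zero]
    exact (h2 V e R hc.ctx a haR' hc.good w haw).mono_left (range_le_Sp h1)
  rw [Submodule.eq_bot_iff]
  rintro u ⟨hu1, hu2⟩
  rw [SetLike.mem_coe, LinearMap.mem_ker] at hu1 hu2
  by_contra hu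
  have hkk : κ u = κ' u := by
    rw [LinearMap.add_apply, LinearMap.add_apply, hu2, add_zero] at hu1
    exact eq_of_add hu1
  have hψ : κ u ≠ 0 := by
    intro h
    have h1 : u ∈ LinearMap.ker κ ⊓ LinearMap.ker a :=
      ⟨LinearMap.mem_ker.2 h, LinearMap.mem_ker.2 hu2⟩
    rw [hκ.2.2, Submodule.mem_bot] at h1
    exact hu h1
  obtain ⟨ρ, hρ, hρu, -, hρall⟩ := hc.blk u hu hu2 (κ u) (Lx_mem hκ.1 u) hψ
  have hle : LinearMap.ker κ ≤ LinearMap.ker ρ := by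
    intro z hz
    rw [LinearMap.mem_ker] at hz ⊢
    have h1 : κ (u + z) = κ u := by rw [map_add, hz, add_zero]
    have h3 := hρall (u + z) (by rw [← h1]; exact Lx_mem hκ.1 _)
    rw [map_add, hρu] at h3
    have h4 : κ u + ρ z = κ u + 0 := by rw [add_zero]; exact h3
    exact add_left_cancel h4
  have hle' : LinearMap.ker κ' ≤ LinearMap.ker ρ := by
    intro z hz
    rw [LinearMap.mem_ker] at hz ⊢
    have h1 : κ' (u + z) = κ u := by rw [map_add, hz, add_zero, hkk]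
    have h3 := hρall (u + z) (by rw [← h1]; exact Lx_mem hκ'.1 _)
    rw [map_add, hρu] at h3
    have h4 : κ u + ρ z = κ u + 0 := by rw [add_zero]; exact h3
    exact add_left_cancel h4
  have hd := key κ hκ ρ hρ.mem hle
  have hd' := key κ' hκ' ρ hρ.mem hle'
  have hf : κ + ρ ∈ fx R u := by
    refine ⟨R.add_mem hκ.1 hρ.mem, ?_⟩
    rw [LinearMap.add_apply, hρu]
    exact add_self' _
  have hf' : κ' + ρ ∈ fx R u := by
    refine ⟨R.add_mem hκ'.1 hρ.mem, ?_⟩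
    rw [LinearMap.add_apply, hρu, hkk]
    exact add_self' _
  obtain ⟨hs, -⟩ := h0 V e R hc.ctx a hc.atom u hu hu2 _ hf _ hf' hd hd'
  have e1 : κ + ρ + (κ' + ρ) = κ + κ' := by
    have : κ + ρ + (κ' + ρ) = κ + κ' + (ρ + ρ) := by abel
    rw [this, add_self', add_zero]
  rw [e1] at hs
  have hff : κ + κ' ∈ fx R u := by
    rw [← e1]
    exact (fx R u).add_mem hf hf'
  obtain ⟨-, hn⟩ := h0 V e R hc.ctx a hc.atom u hu hu2 _ hff _ hff hs hs
  exact hn hE2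

end Pool.Agent.ESG
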