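import Pool.Agent.ESG.Stmts

/-!
The good form splits off.
-/

namespace Pool.Agent.ESG

open Pool.Agent.ESL

namespace GA4X

variable {V : Type} [AddCommGroup V] [Module (ZMod 2) V] [Finite V]

/-- a form of `R` agrees with `0` or with `a` on the centralizer of `ker a` -/
theorem zero_or {e : V} {R : FS V} (hR : IsWu e R) {a : Fm V} (ha : a ∈ R) (hg : Good R a)
    {k : Fm V} (hk : k ∈ R) :
    (∀ v ∈ cent R (LinearMap.ker a), k v = 0) ∨ (∀ v ∈ cent R (LinearMap.ker a), k v = a v) := by
  have key : ∀ v ∈ cent R (LinearMap.ker a), k v = 0 ∨ k v = a v := by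
    intro v hv
    by_cases h0 : k v = 0
    · exact Or.inl h0
    · right
      have h1 : k v ∈ LinearMap.range a := by
        rw [mem_range_iff (hR.symm ha)]
        intro x hx
        rw [hR.symm hk]
        exact hv k hk x hx
      exact (hg _ h1 h0 v (Lx_mem hk v)).symm
  by_contra hc
  push Not at hc
  obtain ⟨⟨v, hv, hv'⟩, ⟨w, hw, hw'⟩⟩ := hc
  have h1 : k v = a v := (key v hv).resolve_left hv'
  have h2 : k w = 0 := (key w hw).resolve_right hw'
  rcases key (v + w) (Submodule.add_mem _ hv hw) with h3 | h3
  · rw [map_add, h2, add_zero] at h3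
    exact hv' h3
  · rw [map_add, map_add, h1, h2, add_zero] at h3
    apply hw'
    rw [h2]
    have : a w = a v + (a v + a w) := (add_add_self (V := D V) _ _).symm
    rw [this, ← h3, add_self' (V := D V)]

end GA4X

theorem ga4_proof (hSAT : Stmt_SAT) : Stmt_GA4 := by
  intro V _ _ _ e R hR hSL hrad hIH a ha ha0 hg hOC
  have hsat : LinearMap.ker a ⊔ cent R (LinearMap.ker a) = ⊤ :=
    hSAT V R (LinearMap.ker a) hR.sym hSL.linked hOC
  set C := cent R (LinearMap.ker a) with hC
  have hdisj : Disjoint (LinearMap.range a) (Sp (fxs R C)) := by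
    have h1 : Sp (fxs R C) ≤ an C := by
      apply Sp_le.2
      intro k hk x v hv
      rw [hR.symm hk.1, hk.2 v hv]; rfl
    have h2 : Disjoint (an (LinearMap.ker a)) (an C) := disjoint_an hsat
    rw [← an_ker (hR.symm ha)]
    exact h2.mono_right h1
  have hsum : R = Submodule.span (ZMod 2) {a} ⊔ fxs R C := by
    apply le_antisymm
    · intro k hk
      rcases GA4X.zero_or hR ha hg hk with h | h
      · exact Submodule.mem_sup_right ⟨hk, h⟩
      · have h1 : k + a ∈ fxs R C := by
          refine ⟨R.add_mem hk ha, fun v hv => ?_⟩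
          rw [LinearMap.add_apply, h v hv, add_self' (V := D V)]
        have h2 : k = a + (k + a) := by
          rw [add_comm k a]
          exact (add_add_self (V := Fm V) _ _).symm
        rw [h2]
        exact Submodule.add_mem _ (Submodule.mem_sup_left (Submodule.mem_span_singleton_self a))
          (Submodule.mem_sup_right h1)
    · apply sup_le
      · rw [Submodule.span_singleton_le_iff_mem]; exact ha
      · exact fxs_le R C
  have hne : fxs R C ≠ R := by
    intro h
    have h1 : a ∈ fxs R C := by rw [h]; exact ha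
    apply ha0
    have h2 : LinearMap.range a ≤ Sp (fxs R C) := range_le_Sp h1
    have h3 : LinearMap.range a = ⊥ := by
      have := hdisj.mono_right h2
      exact disjoint_self.1 this
    exact LinearMap.range_eq_bot.1 h3
  have hET : ET e (fxs R C) := hIH _ (fxs_le R C) hne (hSL.fxs C)
  rw [hsum]
  apply ET.sum _ _ (ET.loc a (hR a ha)) hET
  rw [Sp_span]
  exact hdisj

end Pool.Agent.ESG
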