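import Pool.Agent.ESG.Stmts

set_option linter.unusedSectionVars false
set_option linter.unusedVariables false

namespace Pool.Agent.ESG

open Pool.Agent.ESL

theorem gb0_proof (hG1 : Stmt_G1) (hG4 : Stmt_G4) (hG5A : Stmt_G5A) : Stmt_GB0 := by
  intro V _ _ _ e R hc a ha hg u hu hau ψ hψ hψ0
  have haR : a ∈ R := by
    obtain ⟨w, hw, h⟩ := ha
    exact h.1
  have ha0 : a ≠ 0 := by
    obtain ⟨w, hw, h⟩ := ha
    exact h.2.2.1
  -- a form disjoint from `a` with value `ψ` at `u`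
  have h1 : ∃ ρ ∈ R, ρ u = ψ ∧ Disjoint (LinearMap.range ρ) (LinearMap.range a) := by
    obtain ⟨k, hk, hk'⟩ := hψ
    rcases hG4 V R hc.wu.sym a haR hg k hk with h | h
    · exact ⟨k, hk, hk', h⟩
    · refine ⟨k + a, R.add_mem hk haR, ?_, h.1⟩
      rw [LinearMap.add_apply, hau, add_zero, hk']
  obtain ⟨ρ, hρ, hρu, hd⟩ := h1
  have h2 : ∃ v, v ≠ 0 ∧ ρ v = 0 := by
    by_contra hcon
    push Not at hcon
    have h3 : LinearMap.ker ρ = ⊥ := by
      rw [eq_bot_iff]
      intro x hx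
      by_contra h4
      exact hcon x h4 hx
    have h5 := ker_sup_top (fun x y => hc.wu.symm hρ x y) (fun x y => hc.wu.symm haR x y) hd
    rw [h3, bot_sup_eq, LinearMap.ker_eq_top] at h5
    exact ha0 h5
  obtain ⟨v, hv, hρv⟩ := h2
  have h6 : ψ ∈ Lx R (u + v) := ⟨ρ, hρ, by rw [map_add, hρu, hρv, add_zero]⟩
  have h7 : u ≠ u + v := by
    intro h
    apply hv
    have := congrArg (u + ·) h
    simp only [add_self', add_add_self] at this
    exact this.symm
  obtain ⟨k, hk, hku, -⟩ := hG1 V e R hc ψ hψ0 u (u + v) h7 hψ h6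
  exact ⟨k, hk, hku, hG5A V e R hc a ha hg ψ k u hk hku hau⟩

end Pool.Agent.ESG
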