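import Pool.Agent.ESG.Stmts

/-!
GB1: the rank one case.  If there is no good atom of rank at least two and at most one rank one form, then the
sets `P_ψ` meeting the kernel of the good atom `a` are blocks, with a form disjoint from `a`.
-/

set_option autoImplicit false

namespace Pool.Agent.ESG

open Pool.Agent.ESL

namespace GB1X

variable {V : Type} [AddCommGroup V] [Module (ZMod 2) V]

theorem mem_ats [Finite V] {R : FS V} {w : V} {a : Fm V} : a ∈ ats R w ↔ At R w a := by
  simp [ats]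

/-- a space of dimension one containing `u ≠ 0` -/
theorem eq_of_fr_one [Finite V] {W : Submodule (ZMod 2) V} (h : fr W = 1) {u x : V} (hu : u ∈ W) (hu0 : u ≠ 0)
    (hx : x ∈ W) : x = 0 ∨ x = u := by
  have h1 : Submodule.span (ZMod 2) {u} = W := by
    apply Submodule.eq_of_le_of_finrank_eq
    · rw [Submodule.span_singleton_le_iff_mem]; exact hu
    · rw [finrank_span_singleton hu0]; exact h.symm
  rw [← h1] at hx
  obtain ⟨c, rfl⟩ := Submodule.mem_span_singleton.1 hx
  rcases zm c with rfl | rfl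
  · left; rw [zero_smul]
  · right; rw [one_smul]

/-- a form of corank one killing `u`, and `φ u = 0` -/
theorem mem_range_of_corank [Finite V] {k : Fm V} (hs : ∀ x y, k x y = k y x)
    (hr : fr (LinearMap.range k) + 1 = fr V) {u : V} (hu0 : u ≠ 0) (hu : k u = 0) {φ : D V} (hφ : φ u = 0) :
    φ ∈ LinearMap.range k := by
  rw [ESG.mem_range_iff hs]
  intro x hx
  have h1 : fr (LinearMap.ker k) = 1 := by
    have := fr_range_add_ker k
    omega
  rcases eq_of_fr_one h1 (LinearMap.mem_ker.2 hu) hu0 (LinearMap.mem_ker.2 hx) with rfl | rfl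
  · rw [map_zero]
  · exact hφ

/-- not both `ρ` and `ρ + φ ⊗ φ` are disjoint from `φ ⊗ φ` -/
theorem not_both [Finite V] {ρ : Fm V} (hs : ∀ x y, ρ x y = ρ y x) {φ : D V} (hφ : φ ≠ 0)
    (h1 : Disjoint (LinearMap.range ρ) (LinearMap.range (rho φ)))
    (h2 : Disjoint (LinearMap.range (ρ + rho φ)) (LinearMap.range (rho φ))) : False := by
  have hmem : φ ∈ LinearMap.range (rho φ) := by
    rw [range_rho]; exact Submodule.mem_span_singleton_self φ
  have hn : φ ∉ LinearMap.range ρ := fun h => hφ (Submodule.disjoint_def.1 h1 φ h hmem)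
  rw [ESG.mem_range_iff hs] at hn
  push Not at hn
  obtain ⟨x, hx, hx1⟩ := hn
  apply hφ
  refine Submodule.disjoint_def.1 h2 φ ⟨x, ?_⟩ hmem
  rw [LinearMap.add_apply, hx, zero_add, rho_apply, zm_ne hx1, one_smul]

end GB1X

open GB1X in
theorem gb1_proof (hGB0 : Stmt_GB0) (hNG : Stmt_NG) (hRA : Stmt_RA) (hG1 : Stmt_G1)
    (hG5A : Stmt_G5A) (hAU1 : Stmt_AU1) : Stmt_GB1 := by
  intro V _ _ _ e R hR hX hno a ha hgood u hu0 hau ψ hψ hψ0
  -- `a` has rank one
  have haR : a ∈ R := by
    obtain ⟨w, -, hw⟩ := ha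
    exact hw.1
  have ha0 : a ≠ 0 := by
    obtain ⟨w, -, hw⟩ := ha
    exact hw.2.2.1
  obtain ⟨φ, hφ0, rfl⟩ := (hRA V e R hR.wu).2 a haR ha0 (by
    have := hno a ha hgood
    omega)
  have hφu : φ u = 0 := by
    rcases zm (φ u) with h | h
    · exact h
    · exfalso
      rw [rho_apply, h, one_smul] at hau
      exact hφ0 hau
  have hAt : At R u (rho φ) := (hRA V e R hR.wu).1 φ hφ0 haR u hφu
  obtain ⟨hInd, hspan⟩ := hAU1 V e R hR u hu0
  -- `ats R u = {a}`
  have hats : ∀ b ∈ ats R u, b = rho φ := by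
    intro b hb
    by_contra hne
    have hbAt := mem_ats.1 hb
    have hbR : b ∈ R := hbAt.1
    have hrk : 2 ≤ fr (LinearMap.range b) := by
      by_contra hc
      obtain ⟨φ', hφ', rfl⟩ := (hRA V e R hR.wu).2 b hbR hbAt.2.2.1 (by omega)
      exact hne (by rw [hX φ' φ hφ' hφ0 hbR haR])
    have hbatom : Atom R b := ⟨u, hu0, hbAt⟩
    have hng : ¬ Good R b := fun h => hno b hbatom h hrk
    have hcork := hNG V e R hR hX b hbatom hrk hng
    have hmem : φ ∈ LinearMap.range b :=
      mem_range_of_corank (hR.wu.sym b hbR) hcork hu0 hbAt.2.1 hφu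
    have hdis : Disjoint (LinearMap.range b) (LinearMap.range (rho φ)) := by
      have := hInd.2.pairwiseDisjoint (i := ⟨b, hb⟩) (j := ⟨rho φ, mem_ats.2 hAt⟩) (by
        intro h
        exact hne (congrArg Subtype.val h))
      exact this
    refine hφ0 (Submodule.disjoint_def.1 hdis φ hmem ?_)
    rw [range_rho]; exact Submodule.mem_span_singleton_self φ
  have hfx : ∀ k ∈ R, k u = 0 → k = 0 ∨ k = rho φ := by
    intro k hk hku
    have h1 : k ∈ fx R u := ⟨hk, hku⟩
    rw [← hspan] at h1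
    have h2 : Submodule.span (ZMod 2) (ats R u : Set (Fm V)) ≤ Submodule.span (ZMod 2) {rho φ} := by
      apply Submodule.span_mono
      intro b hb
      exact hats b hb
    obtain ⟨c, rfl⟩ := Submodule.mem_span_singleton.1 (h2 h1)
    rcases zm c with rfl | rfl
    · left; rw [zero_smul]
    · right; rw [one_smul]
  obtain ⟨ρ, hblk, hρu, hdis⟩ := hGB0 V e R hR (rho φ) ha hgood u hu0 hau ψ hψ hψ0
  refine ⟨ρ, hblk, hρu, hdis, fun z hz => ?_⟩
  by_cases hzu : u = z
  · rw [← hzu]; exact hρu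
  obtain ⟨k, hkblk, hku, hkz⟩ := hG1 V e R hR ψ hψ0 u z hzu hψ hz
  have hkdis := hG5A V e R hR (rho φ) ha hgood ψ k u hkblk hku hau
  rcases hfx (ρ + k) (R.add_mem hblk.mem hkblk.mem) (by
    rw [LinearMap.add_apply, hρu, hku, add_self']) with h | h
  · have : ρ = k := eq_of_add h
    rw [this]; exact hkz
  · exfalso
    have hk : k = ρ + rho φ := by
      rw [← h, add_add_self]
    rw [hk] at hkdis
    exact not_both (hR.wu.sym ρ hblk.mem) hφ0 hdis hkdis

end Pool.Agent.ESG
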