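import Pool.Agent.ESG.Stmts

/-!
Module GB4: good atoms of rank at least two have the block property.
-/

set_option linter.unusedSectionVars false
set_option linter.unusedVariables false

namespace Pool.Agent.ESG

open Pool.Agent.ESL

theorem gb4_proof (hGB0 : Stmt_GB0) (hG5 : Stmt_G5) : Stmt_GB4 := by
  intro V _ _ _ e R hR a ha hg h2 u hu hau ψ hψ hψ0
  obtain ⟨ρ, h1, h3, h4⟩ := hGB0 V e R hR a ha hg u hu hau ψ hψ hψ0
  exact ⟨ρ, h1, h3, h4, fun z hz => hG5 V e R hR a ha hg h2 ψ ρ u h1 hψ hau z hz⟩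

end Pool.Agent.ESG
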