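import Pool.Agent.ESG.Stmts

/-!
A space with a basis with independent supports is of elementary type.
-/

set_option linter.unusedSectionVars false
set_option linter.unusedVariables false

namespace Pool.Agent.ESG

open Pool.Agent.ESL

namespace INDETX

variable {V : Type} [AddCommGroup V] [Module (ZMod 2) V]

theorem Sp_fin (A : Finset (Fm V)) :
    Sp (Submodule.span (ZMod 2) (A : Set (Fm V))) = ⨆ a : A, LinearMap.range (a : Fm V) := by
  apply le_antisymm
  · apply Sp_le.2
    intro k hk x
    induction hk using Submodule.span_induction with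
    | mem a ha =>
      exact Submodule.mem_iSup_of_mem (⟨a, ha⟩ : A) ⟨x, rfl⟩
    | zero => exact Submodule.zero_mem _
    | add a b _ _ h1 h2 => exact Submodule.add_mem _ h1 h2
    | smul c a _ h1 => exact Submodule.smul_mem _ _ h1
  · apply iSup_le
    rintro ⟨a, ha⟩
    exact range_le_Sp (Submodule.subset_span ha)

end INDETX

open INDETX in
theorem indet_proof : Stmt_INDET := by
  intro V _ _ _ e A
  classical
  induction A using Finset.induction_on with
  | empty =>
    intro _ _
    have h : Submodule.span (ZMod 2) ((∅ : Finset (Fm V)) : Set (Fm V)) =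
        Submodule.span (ZMod 2) {(0 : Fm V)} := by
      rw [Finset.coe_empty, Submodule.span_empty, Submodule.span_zero_singleton]
    rw [h]
    exact ET.loc 0 (fun x => rfl)
  | insert a A ha ih =>
    rintro ⟨h0, hI⟩ hw
    have h1 : IndB A := by
      refine ⟨fun b hb => h0 b (Finset.mem_insert_of_mem hb), ?_⟩
      exact hI.comp (f := fun b : A => (⟨b.1, Finset.mem_insert_of_mem b.2⟩ : (insert a A : Finset (Fm V)))) (by
        rintro ⟨b, hb⟩ ⟨c, hc⟩ hbc
        have h2 := congrArg Subtype.val hbc
        exact Subtype.ext h2)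
    have h2 := ih h1 (fun b hb => hw b (Finset.mem_insert_of_mem hb))
    have h3 : ET e (Submodule.span (ZMod 2) {a}) := ET.loc a (hw a (Finset.mem_insert_self a A))
    rw [Finset.coe_insert, Submodule.span_insert]
    apply ET.sum _ _ h3 h2
    rw [Sp_span, Sp_fin]
    have h4 := hI (⟨a, Finset.mem_insert_self a A⟩ : (insert a A : Finset (Fm V)))
    refine h4.mono_right ?_
    apply iSup_le
    rintro ⟨b, hb⟩
    have hne : (⟨b, Finset.mem_insert_of_mem hb⟩ : (insert a A : Finset (Fm V))) ≠
        ⟨a, Finset.mem_insert_self a A⟩ := by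
      intro h
      apply ha
      have h5 : b = a := congrArg (fun z : (insert a A : Finset (Fm V)) => (z : Fm V)) h
      rw [← h5]; exact hb
    exact le_iSup₂_of_le (⟨b, Finset.mem_insert_of_mem hb⟩ : (insert a A : Finset (Fm V))) hne le_rfl

end Pool.Agent.ESG
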