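import Pool.Agent.ESG.StmtsJ
import Pool.Agent.ESL.J1

/-!
Squad ESG, module J1: a finite structure with the extension property is of elementary type
(general `-1`).
-/

set_option autoImplicit false

namespace Pool.Agent.ESG

open Pool.Agent.ESL

attribute [local instance] J1X.mdl

theorem J1Y.isWu (S : QS.QStruct) : IsWu (V := Additive S.G) (Additive.ofMul S.neg) (J1X.RR S) := by
  intro k hk x
  have h := hk x (Additive.ofMul S.neg + x) (S.qs1 x.toMul)
  rw [map_add] at h
  have h2 : k x x = - k x (Additive.ofMul S.neg) := eq_neg_of_add_eq_zero_right h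
  rw [h2]
  exact ZModModule.neg_eq_self _

theorem j1_proof (hM : Stmt_MAIN) (h2 : Stmt_J2) : Stmt_J1 := by
  intro S hfin hE
  have : Finite (Additive S.G) := hfin
  refine h2 (Additive S.G) (Additive.ofMul S.neg) (J1X.RR S)
    (hM _ _ _ (J1Y.isWu S) (J1X.sl S hE)) S hfin Additive.ofMul (fun a b => rfl) ?_ ?_
  · intro v
    refine ⟨v.toMul, ?_⟩
    have : v + Additive.ofMul v.toMul = 0 := ZModModule.add_self v
    rw [this]
    exact (rad (J1X.RR S)).zero_mem
  · intro a b
    constructor
    · intro h k hk
      exact hk _ _ h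
    · intro h
      exact J1X.sep S hE a b h

end Pool.Agent.ESG
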