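import Pool.Agent.ESG.StmtsJ

namespace Pool.Agent.ESG

open Pool.Agent.ESL

theorem j2_proof (hA : Stmt_ETWU) (hR : Stmt_J2R) (hL : Stmt_J2L) (hS : Stmt_J2S)
    (hE : Stmt_J2E) : Stmt_J2 := by
  intro V _ _ _ e R h
  induction h with
  | loc k h => exact hR V e _ (fun a ha x => (hA V e _ (ET.loc k h)) a ha x) (hL V e k h)
  | sum R₁ R₂ h₁ h₂ hd ih₁ ih₂ =>
    exact hR V e _ (hA V e _ (ET.sum R₁ R₂ h₁ h₂ hd)) (hS V e R₁ R₂ (hA V e R₁ h₁) (hA V e R₂ h₂) hd ih₁ ih₂)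
  | ext R L τ h hL' hτ he ih =>
    exact hR V e _ (hA V e _ (ET.ext R L τ h hL' hτ he)) (hE V e R L τ (hA V e R h) hL' hτ he ih)

end Pool.Agent.ESG
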