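import Pool.Agent.ESG.StmtsJ
import Pool.Agent.ESL.J2C

/-!
Module J2L: one form.
-/

namespace Pool.Agent.ESG

open Pool.Agent.ESL

open QS

theorem j2l_proof (hp : Stmt_EXTREC) : Stmt_J2L := by
  intro V _ _ _ e k hk S hf i hi hsur hnd hq
  have hi1 := J2C.i_one hi
  have hsym := symm_of_wu hk
  have hq' : ∀ a b, S.q a b = S.zero ↔ k (i a) (i b) = 0 := by
    intro a b
    rw [hq]
    constructor
    · exact fun h => h k (Submodule.mem_span_singleton_self k)
    · intro h k' hk'
      rcases J2C.mem_span_iff.1 hk' with rfl | rfl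
      · rfl
      · exact h
  have hrad : ∀ r, r ∈ rad (Submodule.span (ZMod 2) {k}) ↔ k r = 0 := by
    intro r
    constructor
    · exact fun h => h k (Submodule.mem_span_singleton_self k)
    · intro h k' hk'
      rcases J2C.mem_span_iff.1 hk' with rfl | rfl
      · rfl
      · exact h
  have hne : ∀ a, a ≠ 1 → k (i a) ≠ 0 := by
    intro a ha h
    exact ha (hnd a ((hrad _).2 h))
  have hsur' : ∀ v, ∃ x, ∀ w, k w v = k w (i x) := by
    intro v
    obtain ⟨x, hx⟩ := hsur v
    rw [hrad] at hx
    refine ⟨x, fun w => ?_⟩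
    apply eq_of_add
    rw [← map_add, hsym, hx]; rfl
  -- common partner
  have hboth : ∀ a c, k (i a) ≠ 0 → k (i c) ≠ 0 → ∃ x, k (i a) (i x) = 1 ∧ k (i c) (i x) = 1 := by
    intro a c ha hc
    obtain ⟨v, h1, h2⟩ := J2C.exists_both ha hc
    obtain ⟨x, h3⟩ := hsur' v
    exact ⟨x, by rw [← h3, h1], by rw [← h3, h2]⟩
  -- an element killed by everything is trivial
  have hkill : ∀ a, (∀ x, k (i a) (i x) = 0) → a = 1 := by
    intro a ha
    by_contra h1
    obtain ⟨x, hx, -⟩ := hboth a a (hne a h1) (hne a h1)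
    rw [ha] at hx
    exact zero_ne_one hx
  by_cases hc8 : 8 ≤ Nat.card S.G
  · -- local type
    obtain ⟨a, ha⟩ : ∃ a : S.G, a ≠ 1 := by
      by_contra hcon
      push Not at hcon
      have : Nat.card S.G = 1 := by
        rw [Nat.card_eq_one_iff_unique]
        exact ⟨⟨fun x y => by rw [hcon x, hcon y]⟩, ⟨1⟩⟩
      omega
    obtain ⟨t, ht, -⟩ := hboth a a (hne a ha) (hne a ha)
    refine ElemType.loc S hf hc8 ?_ ?_
    · intro b hb
      exact hkill b fun x => (hq' b x).1 (hb x)
    · have hqt : S.q a t ≠ S.zero := by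
        rw [Ne, hq', ht]
        exact one_ne_zero
      rw [Nat.card_eq_two_iff]
      refine ⟨S.zero, S.q a t, Ne.symm hqt, ?_⟩
      rw [Set.eq_univ_iff_forall]
      intro β
      obtain ⟨c, d, rfl⟩ := S.surj β
      by_cases hcd : S.q c d = S.zero
      · left; exact hcd
      right
      rw [Set.mem_singleton_iff]
      have hcd1 : k (i c) (i d) = 1 := zm_ne (fun h => hcd ((hq' c d).2 h))
      have hc : k (i c) ≠ 0 := by
        intro h
        rw [h] at hcd1
        exact zero_ne_one hcd1
      obtain ⟨x, hx1, hx2⟩ := hboth a c (hne a ha) hc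
      have e1 : S.q a t = S.q a x := by
        rw [S.qs3, hq', hi, map_add, ht, hx1]
        exact CharTwo.add_self_eq_zero _
      have e2 : S.q c d = S.q c x := by
        rw [S.qs3, hq', hi, map_add, hcd1, hx2]
        exact CharTwo.add_self_eq_zero _
      have e3 : S.q x a = S.q x c := by
        rw [S.qs3, hq', hi, map_add, hsym (i x), hsym (i x), hx1, hx2]
        exact CharTwo.add_self_eq_zero _
      rw [e2, S.qs2 c x, ← e3, S.qs2 x a, ← e1]
  -- the order is 1, 2 or 4
  have hpg : IsPGroup 2 S.G := fun g => ⟨1, by rw [pow_one, pow_two]; exact S.exp_two g⟩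
  obtain ⟨m, hm⟩ := (IsPGroup.iff_card (p := 2) (G := S.G)).1 hpg
  have hm3 : m < 3 := by
    by_contra h
    push Not at h
    apply hc8
    rw [hm]
    calc 8 = 2 ^ 3 := by norm_num
      _ ≤ 2 ^ m := Nat.pow_le_pow_right (by norm_num) h
  by_cases hm0 : m = 0
  · refine ElemType.L0 S ?_
    rw [hm, hm0, pow_zero]
  by_cases hm1 : m = 1
  · have hc2 : Nat.card S.G = 2 := by rw [hm, hm1, pow_one]
    obtain ⟨a, ha⟩ : ∃ a : S.G, a ≠ 1 := by
      by_contra hcon
      push Not at hcon
      have : Nat.card S.G = 1 := by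
        rw [Nat.card_eq_one_iff_unique]
        exact ⟨⟨fun x y => by rw [hcon x, hcon y]⟩, ⟨1⟩⟩
      omega
    have hall : ∀ x : S.G, x = 1 ∨ x = a := by
      intro x
      rw [← J2C.mem_zp S.exp_two]
      have : Subgroup.zpowers a = ⊤ := by
        apply Subgroup.eq_top_of_card_eq
        rw [J2C.card_zp S.exp_two ha, hc2]
      rw [this]
      exact Subgroup.mem_top x
    obtain ⟨t, ht, -⟩ := hboth a a (hne a ha) (hne a ha)
    have haa : k (i a) (i a) = 1 := by
      rcases hall t with h | h
      · rw [h, hi1, map_zero] at ht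
        exact absurd ht zero_ne_one
      · rwa [h] at ht
    have hqa : S.q a a ≠ S.zero := by
      rw [Ne, hq', haa]
      exact one_ne_zero
    have hn1 : S.neg ≠ 1 := by
      intro h
      apply hqa
      have := S.qs1 a
      rwa [h, one_mul] at this
    have hna : S.neg = a := (hall S.neg).resolve_left hn1
    refine ElemType.L1 S hc2 hn1 ?_
    rw [hna]
    exact hqa
  -- order four
  have hm2 : m = 2 := by omega
  have hc4 : Nat.card S.G = 4 := by rw [hm, hm2]; norm_num
  obtain ⟨a, ha, hna⟩ : ∃ a : S.G, a ≠ 1 ∧ (S.neg = 1 ∨ S.neg = a) := by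
    by_cases hn1 : S.neg = 1
    · obtain ⟨a, ha⟩ : ∃ a : S.G, a ≠ 1 := by
        by_contra hcon
        push Not at hcon
        have : Nat.card S.G = 1 := by
          rw [Nat.card_eq_one_iff_unique]
          exact ⟨⟨fun x y => by rw [hcon x, hcon y]⟩, ⟨1⟩⟩
        omega
      exact ⟨a, ha, Or.inl hn1⟩
    · exact ⟨S.neg, hn1, Or.inr rfl⟩
  have hzc := J2C.card_zp S.exp_two ha
  have hidx : (Subgroup.zpowers a).index = 2 := by
    have h1 := Subgroup.card_mul_index (Subgroup.zpowers a)
    rw [hzc, hc4] at h1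
    omega
  have hcov : ∀ t, t ∉ Subgroup.zpowers a → ∀ g, g ∈ Subgroup.zpowers a ∨ g * t ∈ Subgroup.zpowers a := by
    intro t ht g
    by_cases hg : g ∈ Subgroup.zpowers a
    · exact Or.inl hg
    · right
      rw [Subgroup.mul_mem_iff_of_index_two hidx]
      exact ⟨fun h => absurd h hg, fun h => absurd h ht⟩
  have h2 := S.exp_two
  have hqaa : k (i a) (i a) = 0 := by
    rcases hna with hn1 | hn1
    · have := S.qs1 a
      rw [hn1, one_mul] at this
      exact (hq' a a).1 this
    · by_contra hc
      have hc1 := zm_ne hc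
      obtain ⟨g, hg⟩ : ∃ g, g ∉ Subgroup.zpowers a := by
        by_contra hcon
        push Not at hcon
        have : Subgroup.zpowers a = ⊤ := by
          rw [Subgroup.eq_top_iff']
          exact hcon
        rw [this, Subgroup.card_top] at hzc
        omega
      obtain ⟨x, hx, hxa⟩ : ∃ x, x ∉ Subgroup.zpowers a ∧ k (i a) (i x) = 0 := by
        rcases zm (k (i a) (i g)) with h3 | h3
        · exact ⟨g, hg, h3⟩
        · refine ⟨g * a, ?_, ?_⟩
          · intro h
            exact hg ((Subgroup.mul_mem_cancel_right _ (Subgroup.mem_zpowers a)).1 h)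
          · rw [hi, map_add, h3, hc1]
            exact CharTwo.add_self_eq_zero _
      have hxx : k (i x) (i x) = 0 := by
        have h3 := (hq' _ _).1 (S.qs1 x)
        rw [hn1, hi, map_add, hsym (i x) (i a), hxa, zero_add] at h3
        exact h3
      have hx1 : x = 1 := by
        apply hkill
        intro y
        rcases hcov x hx y with h3 | h3
        · rw [J2C.mem_zp h2] at h3
          rcases h3 with rfl | rfl
          · rw [hi1, map_zero]
          · rw [hsym, hxa]
        · rw [J2C.mem_zp h2] at h3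
          rcases h3 with h3 | h3
          · have : y = x := (eq_iff_mul S y x).2 h3
            rw [this, hxx]
          · have : y = a * x := by
              rw [← h3, mul_assoc, h2, mul_one]
            rw [this, hi, map_add, hsym (i x) (i a), hxa, hxx, add_zero]
      apply hx
      rw [hx1]
      exact Subgroup.one_mem _
  obtain ⟨t, ht, -⟩ := hboth a a (hne a ha) (hne a ha)
  have hta : t ∉ Subgroup.zpowers a := by
    rw [J2C.mem_zp h2]
    rintro (rfl | rfl)
    · rw [hi1, map_zero] at ht
      exact zero_ne_one ht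
    · rw [hqaa] at ht
      exact zero_ne_one ht
  have hneg : S.neg ∈ Subgroup.zpowers a := by
    rw [J2C.mem_zp h2]
    exact hna
  have hq1 : ∀ h ∈ Subgroup.zpowers a, ∀ h' ∈ Subgroup.zpowers a, S.q h (h' * t) = S.zero ↔ h = 1 := by
    intro h hh h' hh'
    rw [J2C.mem_zp h2] at hh hh'
    rw [hq', hi, map_add]
    rcases hh with rfl | rfl
    · simp [hi1]
    · have e1 : k (i h) (i h') = 0 := by
        rcases hh' with rfl | rfl
        · rw [hi1, map_zero]
        · exact hqaa
      rw [e1, ht, zero_add]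
      exact ⟨fun h3 => absurd h3 one_ne_zero, fun h3 => absurd h3 ha⟩
  have hq2 : ∀ h ∈ Subgroup.zpowers a, ∀ h' ∈ Subgroup.zpowers a,
      S.q (h * t) (h' * t) = S.zero ↔ h * h' = S.neg := by
    intro h hh h' hh'
    have hc : S.neg * h * h' ∈ Subgroup.zpowers a :=
      Subgroup.mul_mem _ (Subgroup.mul_mem _ hneg hh) hh'
    have e1 : h' * t = S.neg * (h * t) * (S.neg * h * h') := by
      calc h' * t = (S.neg * S.neg) * (h * h) * (h' * t) := by rw [h2, h2, one_mul, one_mul]
        _ = _ := by ac_rfl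
    have e2 : S.q (h * t) (h' * t) = S.q (h * t) (S.neg * h * h') := by
      rw [e1]
      exact S.q_zero_mul (S.qs1 _)
    rw [e2, S.qs2, hq1 _ hc _ hh]
    constructor
    · intro h3
      apply Eq.symm
      rw [eq_iff_mul, ← mul_assoc]
      exact h3
    · intro h3
      rw [mul_assoc, h3, h2]
  obtain ⟨SH, f, hnH, hqH, hiso⟩ := hp S (Subgroup.zpowers a) t hta (hcov t hta) hneg hq1 hq2
  have hcH : Nat.card SH.G = 2 := by
    rw [Nat.card_congr f.toEquiv]
    exact hzc
  have hq0 : ∀ x y, SH.q x y = SH.zero := by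
    intro x y
    rw [hqH, hq']
    have h3 := (f x).2
    have h4 := (f y).2
    rw [J2C.mem_zp h2] at h3 h4
    rcases h3 with h3 | h3 <;> rcases h4 with h4 | h4 <;> rw [h3, h4]
    · rw [hi1, map_zero]
    · rw [hi1, map_zero]; rfl
    · rw [hi1, map_zero]
    · exact hqaa
  refine ElemType.iso _ _ hiso (ElemType.ext _ ?_)
  by_cases hn : SH.neg = 1
  · exact ElemType.L10 SH hcH hn hq0
  · exact ElemType.L11 SH hcH hn hq0

end Pool.Agent.ESG
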