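import Pool.Agent.ESG.StmtsJ

/-!
Module J3: structures of elementary type with `-1 = 1` have the extension property.
-/

namespace Pool.Agent.ESG

open Pool.Agent.ESL

/-- the structure `L_1`: nondegenerate with two quaternions -/
theorem J3X_L1 (S : QS.QStruct) (h : Nat.card S.G = 2) (h1 : S.neg ≠ 1)
    (h2 : S.q S.neg S.neg ≠ S.zero) :
    (∀ a, (∀ b, S.q a b = S.zero) → a = 1) ∧ Nat.card S.Q = 2 := by
  have hf : Finite S.G := Nat.finite_of_card_ne_zero (by rw [h]; norm_num)
  have hall : ∀ a : S.G, a = 1 ∨ a = S.neg := by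
    intro a
    by_contra hc
    push Not at hc
    have h3 : ({a, 1, S.neg} : Set S.G).ncard ≤ Nat.card S.G := Set.ncard_le_card _
    have h4 : ({a, 1, S.neg} : Set S.G).ncard = 3 := by
      rw [Set.ncard_eq_three]
      exact ⟨a, 1, S.neg, hc.1, hc.2, fun h => h1 h.symm, rfl⟩
    omega
  refine ⟨?_, ?_⟩
  · intro a ha
    rcases hall a with h3 | h3
    · exact h3
    · rw [h3] at ha
      exact absurd (ha S.neg) h2
  · have hQ : ∀ β : S.Q, β = S.zero ∨ β = S.q S.neg S.neg := by
      intro β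
      obtain ⟨a, b, hab⟩ := S.surj β
      rcases hall a with h3 | h3 <;> rcases hall b with h4 | h4
      · left; rw [← hab, h4, S.q_one]
      · left; rw [← hab, h3, S.qs2, S.q_one]
      · left; rw [← hab, h4, S.q_one]
      · right; rw [← hab, h3, h4]
    rw [Nat.card_eq_two_iff]
    refine ⟨S.zero, S.q S.neg S.neg, fun h => h2 h.symm, ?_⟩
    ext β
    simp only [Set.mem_insert_iff, Set.mem_singleton_iff, Set.mem_univ, iff_true]
    exact hQ β

theorem j3_proof (hP : Stmt_J3P) (hE : Stmt_J3E) (hL : Stmt_J3L) (hI : Stmt_J3I) : Stmt_J3 := by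
  have deg : ∀ S : QS.QStruct, (∀ a b, S.q a b = S.zero) → ExtProp S := by
    intro S h U β h1 h2 h3
    exact ⟨fun _ _ => 0, fun _ _ _ => (add_zero 0).symm, fun _ _ _ => (add_zero 0).symm,
      fun _ _ _ => rfl, fun u hu v => (h3 u hu v (h u v)).symm⟩
  intro S hS
  induction hS with
  | L0 S h =>
    apply deg
    intro a b
    have : Subsingleton S.G := (Nat.card_eq_one_iff_unique.1 h).1
    rw [Subsingleton.elim b 1, S.q_one]
  | L10 S h h1 h2 => exact deg S h2
  | L11 S h h1 h2 => exact deg S h2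
  | L1 S h h1 h2 =>
    have hf : Finite S.G := Nat.finite_of_card_ne_zero (by rw [h]; norm_num)
    obtain ⟨h3, h4⟩ := J3X_L1 S h h1 h2
    exact hL S hf h3 h4
  | loc S hf h h1 h2 => exact hL S hf h1 h2
  | prod S T h1 h2 ih1 ih2 => exact hP S T ih1 ih2
  | ext S h ih => exact hE S ih
  | iso S T h1 h2 ih => exact hI S T h1 ih

end Pool.Agent.ESG
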