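import Pool.Agent.ESG.StmtsJ

/-!
Module J3E: the extension property of group extensions (arbitrary `-1`).
-/

namespace Pool.Agent.ESG

open Pool.Agent.ESL

namespace J3EX

abbrev C2 : Type := Multiplicative (ZMod 2)

abbrev xx : C2 := Multiplicative.ofAdd 1

theorem z2 (a b : ZMod 2) (h : a + b = 0) : a = b := by
  revert a b; decide

theorem z2' (a b c : ZMod 2) (h : a + b + c = 0) : c = a + b := by
  revert a b c; decide

theorem z2s (a : ZMod 2) : a + a = 0 := by
  revert a; decide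

/-- the exponent as an element of `ZMod 2` -/
def ep (t : C2) : ZMod 2 := Multiplicative.toAdd t

theorem ep_mul (s t : C2) : ep (s * t) = ep s + ep t := rfl

theorem ep_one : ep 1 = 0 := rfl

theorem ep_xx : ep xx = 1 := rfl

/-- characters of a subgroup of an elementary abelian 2-group extend -/
theorem char_ext (S : QS.QStruct) (U : Subgroup S.G) (l : S.G → ZMod 2)
    (hl : ∀ u ∈ U, ∀ u' ∈ U, l (u * u') = l u + l u') :
    ∃ n : S.G → ZMod 2, (∀ a b, n (a * b) = n a + n b) ∧ ∀ u ∈ U, n u = l u := by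
  letI : Module (ZMod 2) (Additive S.G) := AddCommGroup.zmodModule (n := 2) (by
    intro x
    have : (Additive.toMul x) * (Additive.toMul x) = 1 := S.exp_two _
    rw [two_nsmul]
    exact this)
  let U' : Submodule (ZMod 2) (Additive S.G) := AddSubgroup.toZModSubmodule 2 (Subgroup.toAddSubgroup U)
  let f : U' →ₗ[ZMod 2] ZMod 2 := AddMonoidHom.toZModLinearMap 2
    (AddMonoidHom.mk' (fun u : U' => l (Additive.toMul (u : Additive S.G))) (by
      rintro ⟨a, ha⟩ ⟨b, hb⟩
      exact hl _ ha _ hb))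
  obtain ⟨g, hg⟩ := f.exists_extend
  refine ⟨fun a => g (Additive.ofMul a), fun a b => ?_, fun u hu => ?_⟩
  · show g (Additive.ofMul (a * b)) = g (Additive.ofMul a) + g (Additive.ofMul b)
    rw [ofMul_mul, map_add]
  · have := LinearMap.congr_fun hg (⟨Additive.ofMul u, hu⟩ : U')
    exact this

theorem main (S : QS.QStruct) (hS : ExtProp S) (U : Subgroup (S.G × C2))
    (β : S.G × C2 → S.G × C2 → ZMod 2)
    (h1 : ∀ u ∈ U, ∀ u' ∈ U, ∀ v, β (u * u') v = β u v + β u' v)
    (h2 : ∀ u ∈ U, ∀ v v', β u (v * v') = β u v + β u v')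
    (h3 : ∀ a b : S.G, (a, (1 : C2)) ∈ U → S.q a b = S.zero → β (a, 1) (b, 1) = 0)
    (h4 : ∀ a : S.G, (a, xx) ∈ U → β (a, xx) (S.neg * a, xx) = 0) :
    ∃ γ : S.G × C2 → S.G × C2 → ZMod 2,
      (∀ u u' v, γ (u * u') v = γ u v + γ u' v) ∧ (∀ u v v', γ u (v * v') = γ u v + γ u v') ∧
      (∀ a b : S.G, S.q a b = S.zero → γ (a, 1) (b, 1) = 0) ∧
      (∀ b : C2 , ∀ a : S.G, γ (1, 1) (a, b) = 0 ∧ γ (a, b) (1, 1) = 0) ∧
      (∀ a : S.G, γ (a, xx) (S.neg * a, xx) = 0) ∧
      ∀ u ∈ U, ∀ v, γ u v = β u v := by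
  let U0 : Subgroup S.G := U.comap (MonoidHom.inl S.G C2)
  have hU0 : ∀ a, a ∈ U0 ↔ (a, (1 : C2)) ∈ U := fun a => Iff.rfl
  have m11 : ∀ a b : S.G, ((a, 1) * (b, 1) : S.G × C2) = (a * b, 1) := fun a b =>
    Prod.ext rfl (one_mul 1)
  have m1x : ∀ a : S.G, ((a, 1) * (1, xx) : S.G × C2) = (a, xx) := fun a =>
    Prod.ext (mul_one a) (one_mul xx)
  obtain ⟨γ0, c1, c2, c3, c4⟩ := hS U0 (fun a b => β (a, 1) (b, 1))
    (by
      intro u hu u' hu' v
      show β (u * u', 1) (v, 1) = β (u, 1) (v, 1) + β (u', 1) (v, 1)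
      rw [← h1 (u, 1) hu (u', 1) hu', m11])
    (by
      intro u hu v v'
      show β (u, 1) (v * v', 1) = β (u, 1) (v, 1) + β (u, 1) (v', 1)
      rw [← h2 (u, 1) hu, m11])
    (by
      intro u hu v hq
      exact h3 _ _ hu hq)
  have cn : ∀ a, γ0 a (S.neg * a) = 0 := fun a => c3 _ _ (S.qs1 a)
  have cs : ∀ a, γ0 a a = γ0 a S.neg := by
    intro a
    have := cn a
    rw [c2] at this
    exact (z2 _ _ this).symm
  have csym : ∀ a b, γ0 a b = γ0 b a := by
    intro a b
    have h5 := cs (a * b)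
    rw [c1, c1, c2, c2, cs, cs] at h5
    generalize γ0 a b = x at h5 ⊢
    generalize γ0 b a = y at h5 ⊢
    generalize γ0 a S.neg = z at h5 ⊢
    generalize γ0 b S.neg = w at h5 ⊢
    revert x y z w; decide
  have c1z : ∀ a, γ0 1 a = 0 := fun a => c3 1 a (by rw [S.qs2, S.q_one])
  have c2z : ∀ a, γ0 a 1 = 0 := fun a => c3 a 1 (S.q_one a)
  -- the character ν
  have hν : ∃ ν : S.G → ZMod 2, (∀ a b, ν (a * b) = ν a + ν b) ∧
      (∀ a, (a, (1 : C2)) ∈ U → β (a, 1) (1, xx) = ν a) ∧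
      ∀ t, (t, xx) ∈ U → ∀ b, ∀ s : C2,
        β (t, xx) (b, s) = γ0 t b + ep s * (ν t + ν S.neg) + ν b := by
    by_cases hx : ∃ t, (t, xx) ∈ U
    · obtain ⟨t, ht⟩ := hx
      have tadd : ∀ a b, β (t, xx) (a * b, 1) = β (t, xx) (a, 1) + β (t, xx) (b, 1) := by
        intro a b
        rw [← h2 _ ht, m11]
      let ν : S.G → ZMod 2 := fun b => β (t, xx) (b, 1) + γ0 t b
      have hνd : ∀ b, ν b = β (t, xx) (b, 1) + γ0 t b := fun _ => rfl
      have hνd' : ∀ b, β (t, xx) (b, 1) = ν b + γ0 t b := by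
        intro b
        rw [hνd, add_assoc, z2s, add_zero]
      have νadd : ∀ a b, ν (a * b) = ν a + ν b := by
        intro a b
        rw [hνd, hνd, hνd, tadd, c2]
        ring
      have ht1 : β (t, xx) (1, xx) = ν t + ν S.neg := by
        have e := h4 t ht
        rw [← m1x (S.neg * t), h2 _ ht, hνd', cn, add_zero, νadd] at e
        have := z2 _ _ e
        rw [← this, add_comm]
      have ha1 : ∀ a, (a, (1 : C2)) ∈ U → β (a, 1) (1, xx) = ν a := by
        intro a ha
        have e : ((a, 1) * (t, xx) : S.G × C2) = (a * t, xx) := Prod.ext rfl (one_mul xx)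
        have hat : (a * t, xx) ∈ U := by
          have := U.mul_mem ha ht
          rwa [e] at this
        have e1 := h4 _ hat
        have e2 : β (a * t, xx) (S.neg * (a * t), xx) =
            (β (a, 1) (S.neg * (a * t), 1) + β (a, 1) (1, xx)) +
              (β (t, xx) (S.neg * (a * t), 1) + β (t, xx) (1, xx)) := by
          rw [← e, h1 _ ha _ ht, ← m1x (S.neg * (a * t)), h2 _ ha, h2 _ ht]
        have e3 : β (a, 1) (S.neg * (a * t), 1) = γ0 a (S.neg * (a * t)) :=
          (c4 a ha (S.neg * (a * t))).symm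
        have e4 : γ0 a (S.neg * (a * t)) = γ0 a t := by
          rw [← mul_assoc, c2, cn, zero_add]
        have e5 : γ0 t (S.neg * (a * t)) = γ0 t a := by
          rw [show S.neg * (a * t) = a * (S.neg * t) by ac_rfl, c2, cn, add_zero]
        rw [e2, e3, e4, hνd', e5, ht1, νadd, νadd, csym t a] at e1
        generalize γ0 a t = x at e1 ⊢
        generalize β (a, 1) (1, xx) = y at e1 ⊢
        generalize ν a = z at e1 ⊢
        generalize ν t = w at e1 ⊢
        generalize ν S.neg = v at e1 ⊢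
        revert x y z w v; decide
      refine ⟨ν, νadd, ha1, ?_⟩
      intro t' ht' b s
      -- first for `t`
      have hs : ∀ s : C2, β (t, xx) (b, s) = γ0 t b + ep s * (ν t + ν S.neg) + ν b := by
        intro s
        rcases QS.two_cases s with rfl | rfl
        · rw [ep_one, zero_mul, add_zero, hνd', add_comm]
        · rw [← m1x b, h2 _ ht, ht1, ep_xx, one_mul, hνd']
          ring
      -- `t' = a t`
      have ee : t' * t * t = t' := by rw [mul_assoc, S.exp_two, mul_one]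
      have e : ((t' * t, 1) * (t, xx) : S.G × C2) = (t', xx) := Prod.ext ee (one_mul xx)
      have ha : (t' * t, (1 : C2)) ∈ U := by
        have := U.mul_mem ht' ht
        have e' : ((t', xx) * (t, xx) : S.G × C2) = (t' * t, 1) := Prod.ext rfl QS.x_mul_x
        rwa [e'] at this
      have hb : β (t' * t, 1) (b, s) = γ0 (t' * t) b + ep s * ν (t' * t) := by
        rcases QS.two_cases s with rfl | rfl
        · rw [ep_one, zero_mul, add_zero]
          exact (c4 _ ha b).symm
        · rw [← m1x b, h2 _ ha, ha1 _ ha, ep_xx, one_mul]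
          have h6 : β (t' * t, 1) (b, 1) = γ0 (t' * t) b := (c4 _ ha b).symm
          rw [h6]
      rw [← e, h1 _ ha _ ht, hb, hs s]
      have e5 : γ0 t' b = γ0 (t' * t) b + γ0 t b := by rw [← c1, ee]
      have e6 : ν t' = ν (t' * t) + ν t := by rw [← νadd, ee]
      rw [e5, e6]
      ring
    · push Not at hx
      obtain ⟨ν, n1, n2⟩ := char_ext S U0 (fun a => β (a, 1) (1, xx))
        (by
          intro u hu u' hu'
          show β (u * u', 1) (1, xx) = β (u, 1) (1, xx) + β (u', 1) (1, xx)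
          rw [← h1 (u, 1) hu (u', 1) hu', m11])
      refine ⟨ν, n1, fun a ha => (n2 a ha).symm, fun t ht => absurd ht (hx t)⟩
  obtain ⟨ν, νadd, ν1, ν2⟩ := hν
  have ν0 : ν 1 = 0 := by
    have := νadd 1 1
    rw [mul_one] at this
    generalize ν 1 = x at this ⊢
    revert x; decide
  refine ⟨fun u v => γ0 u.1 v.1 + ep v.2 * ν u.1 + ep u.2 * ν v.1 + ep u.2 * ep v.2 * ν S.neg,
    ?_, ?_, ?_, ?_, ?_, ?_⟩
  · intro u u' v
    show γ0 (u.1 * u'.1) v.1 + ep v.2 * ν (u.1 * u'.1) + ep (u.2 * u'.2) * ν v.1 +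
      ep (u.2 * u'.2) * ep v.2 * ν S.neg = _
    rw [c1, νadd, ep_mul]
    ring
  · intro u v v'
    show γ0 u.1 (v.1 * v'.1) + ep (v.2 * v'.2) * ν u.1 + ep u.2 * ν (v.1 * v'.1) +
      ep u.2 * ep (v.2 * v'.2) * ν S.neg = _
    rw [c2, νadd, ep_mul]
    ring
  · intro a b hq
    show γ0 a b + ep 1 * ν a + ep 1 * ν b + ep 1 * ep 1 * ν S.neg = 0
    rw [c3 a b hq, ep_one]
    ring
  · intro b a
    constructor
    · show γ0 1 a + ep b * ν 1 + ep 1 * ν a + ep 1 * ep b * ν S.neg = 0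
      rw [c1z, ν0, ep_one]
      ring
    · show γ0 a 1 + ep 1 * ν a + ep b * ν 1 + ep b * ep 1 * ν S.neg = 0
      rw [c2z, ν0, ep_one]
      ring
  · intro a
    show γ0 a (S.neg * a) + ep xx * ν a + ep xx * ν (S.neg * a) + ep xx * ep xx * ν S.neg = 0
    rw [cn, ep_xx, νadd]
    generalize ν a = x
    generalize ν S.neg = y
    revert x y; decide
  · rintro ⟨a, s⟩ hu ⟨b, r⟩
    show γ0 a b + ep r * ν a + ep s * ν b + ep s * ep r * ν S.neg = β (a, s) (b, r)
    rcases QS.two_cases s with rfl | rfl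
    · have h7 : β (a, 1) (b, 1) = γ0 a b := (c4 a hu b).symm
      rw [ep_one, zero_mul, zero_mul, zero_mul, add_zero, add_zero]
      rcases QS.two_cases r with rfl | rfl
      · rw [ep_one, zero_mul, add_zero, h7]
      · rw [← m1x b, h2 _ hu, ν1 a hu, ep_xx, one_mul, h7]
    · rw [ν2 a hu b r, ep_xx, one_mul, one_mul]
      ring

end J3EX

open J3EX in
theorem j3e_proof : Stmt_J3E := by
  intro S hS U β h1 h2 h3
  have hz : ∀ u v : S.G × C2, QS.extMap S u v = (S.zero, 1) →
      (QS.ext S).q u v = (QS.ext S).zero := fun u v h => Subtype.ext h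
  have hz' : ∀ u v : S.G × C2, (QS.ext S).q u v = (QS.ext S).zero →
      QS.extMap S u v = (S.zero, 1) := fun u v h => congrArg Subtype.val h
  obtain ⟨γ, g1, g2, g3, g4, g5, g6⟩ := J3EX.main S hS U β h1 h2
    (fun a b ha hq => h3 _ ha _ (hz _ _ (by rw [QS.extMap_one_one, hq])))
    (fun a ha => h3 _ ha _ (hz _ _ (by
      rw [QS.extMap_x_x, S.exp_two, S.qs1])))
  refine ⟨γ, g1, g2, ?_, g6⟩
  rintro ⟨a, s⟩ ⟨b, r⟩ hq
  have hq' := hz' _ _ hq
  rcases QS.two_cases s with rfl | rfl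
  · rcases QS.two_cases r with rfl | rfl
    · rw [QS.extMap_one_one] at hq'
      exact g3 a b (Prod.ext_iff.1 hq').1
    · rw [QS.extMap_one_x] at hq'
      have ha : a = 1 := (Prod.ext_iff.1 hq').2
      rw [ha]
      exact (g4 _ b).1
  · rcases QS.two_cases r with rfl | rfl
    · rw [QS.extMap_x_one] at hq'
      have hb : b = 1 := (Prod.ext_iff.1 hq').2
      rw [hb]
      exact (g4 _ a).2
    · rw [QS.extMap_x_x] at hq'
      have hab : S.neg * a * b = 1 := (Prod.ext_iff.1 hq').2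
      have : S.neg * a = b := (QS.eq_iff_mul S _ b).2 hab
      rw [← this]
      exact g5 a

end Pool.Agent.ESG
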