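import Pool.Agent.ESG.StmtsJ

/-!
Module J3L: the extension property of nondegenerate structures with two quaternions (arbitrary `-1`).
-/

namespace Pool.Agent.ESG

open Pool.Agent.ESL

theorem j3l_proof : Stmt_J3L := by
  classical
  intro S hfin hnd hQ U β h1 h2 h3
  have one : ∀ c : S.G, S.q 1 c = S.zero := fun c => by rw [S.qs2, S.q_one]
  have two : ∀ x y : S.Q, x ≠ S.zero → y ≠ S.zero → x = y := by
    intro x y hx hy
    by_contra hxy
    haveI : Finite S.Q := Nat.finite_of_card_ne_zero (by omega)
    haveI := Fintype.ofFinite S.Q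
    have hc : Fintype.card S.Q = 2 := by rw [← Nat.card_eq_fintype_card, hQ]
    have : 2 < Fintype.card S.Q := by
      rw [Fintype.two_lt_card_iff]
      exact ⟨x, y, S.zero, hxy, hx, hy⟩
    omega
  let e : S.G → S.G → ZMod 2 := fun a b => if S.q a b = S.zero then 0 else 1
  have e0 : ∀ a b, e a b = 0 ↔ S.q a b = S.zero := by
    intro a b
    by_cases h : S.q a b = S.zero
    · simp [e, h]
    · simp [e, h]
  have e1 : ∀ a b, e a b = 1 ↔ S.q a b ≠ S.zero := by
    intro a b
    by_cases h : S.q a b = S.zero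
    · simp [e, h]
    · simp [e, h]
  have ecases : ∀ z : ZMod 2, z = 0 ∨ z = 1 := by decide
  have eadd : ∀ a b c, e a (b * c) = e a b + e a c := by
    intro a b c
    rcases ecases (e a b) with hb | hb
    · have hb' := (e0 a b).1 hb
      have : S.q a (b * c) = S.q a c := S.q_zero_mul hb'
      show (if S.q a (b * c) = S.zero then (0 : ZMod 2) else 1) = _
      rw [this, hb, zero_add]
    · rcases ecases (e a c) with hc | hc
      · have hc' := (e0 a c).1 hc
        have : S.q a (c * b) = S.q a b := S.q_zero_mul hc'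
        show (if S.q a (b * c) = S.zero then (0 : ZMod 2) else 1) = _
        rw [mul_comm b c, this, hc, add_zero]
      · have hb' := (e1 a b).1 hb
        have hc' := (e1 a c).1 hc
        have : S.q a (b * c) = S.zero := (S.qs3 a b c).1 (two _ _ hb' hc')
        rw [(e0 a (b * c)).2 this, hb, hc]
        decide
  have esymm : ∀ a b, e a b = e b a := by
    intro a b
    show (if S.q a b = S.zero then (0 : ZMod 2) else 1) = if S.q b a = S.zero then 0 else 1
    rw [S.qs2]
  have eadd' : ∀ a b c, e (a * b) c = e a c + e b c := by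
    intro a b c
    rw [esymm, eadd, esymm c a, esymm c b]
  have end' : ∀ a, a ≠ 1 → ∃ b, e a b = 1 := by
    intro a ha
    by_contra hcon
    push Not at hcon
    apply ha
    apply hnd
    intro b
    rcases ecases (e a b) with h | h
    · exact (e0 a b).1 h
    · exact absurd h (hcon b)
  -- β u = c(u) e u
  have hc : ∀ u ∈ U, u ≠ 1 → ∃ c : ZMod 2, ∀ v, β u v = c * e u v := by
    intro u hu hu1
    obtain ⟨w, hw⟩ := end' u hu1
    refine ⟨β u w, fun v => ?_⟩
    rcases ecases (e u v) with h | h
    · rw [h, mul_zero]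
      exact h3 u hu v ((e0 u v).1 h)
    · rw [h, mul_one]
      have h4 : e u (v * w) = 0 := by
        rw [eadd, h, hw]; decide
      have h5 := h3 u hu (v * w) ((e0 _ _).1 h4)
      rw [h2 u hu] at h5
      generalize β u v = x at h5 ⊢
      generalize β u w = y at h5 ⊢
      revert x y; decide
  have hcc : ∀ u ∈ U, u ≠ 1 → ∀ u' ∈ U, u' ≠ 1 → ∀ c c' : ZMod 2, (∀ v, β u v = c * e u v) →
      (∀ v, β u' v = c' * e u' v) → c = c' := by
    intro u hu hu1 u' hu' hu1' c c' h h'
    by_cases huu : u = u'
    · subst huu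
      obtain ⟨w, hw⟩ := end' u hu1
      have a1 := h w
      have a2 := h' w
      rw [hw, mul_one] at a1 a2
      rw [← a1, a2]
    have huu1 : u * u' ≠ 1 := by
      intro h9
      apply huu
      calc u = u * (u' * u') := by rw [S.exp_two, mul_one]
        _ = u' := by rw [← mul_assoc, h9, one_mul]
    obtain ⟨c'', h''⟩ := hc (u * u') (U.mul_mem hu hu') huu1
    have key : ∀ (a b : S.G) (ca cb : ZMod 2), a ≠ 1 → b ≠ 1 → a * b ≠ 1 →
        ∃ v, e a v = 1 ∧ e b v = 0 := by
      intro a b _ _ ha hb hab
      obtain ⟨v, hv⟩ := end' (a * b) hab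
      rw [eadd'] at hv
      rcases ecases (e a v) with h6 | h6
      · -- e b v = 1
        have h7 : e b v = 1 := by rw [h6, zero_add] at hv; exact hv
        obtain ⟨w, hw⟩ := end' a ha
        rcases ecases (e b w) with h8 | h8
        · exact ⟨w, hw, h8⟩
        · refine ⟨w * v, ?_, ?_⟩
          · rw [eadd, hw, h6]; decide
          · rw [eadd, h8, h7]; decide
      · refine ⟨v, h6, ?_⟩
        rw [h6] at hv
        generalize e b v = y at hv ⊢
        revert y; decide
    have r1 : c = c'' := by
      obtain ⟨v, hv, hv'⟩ := key u u' 0 0 hu1 hu1' huu1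
      have t1 := h1 u hu u' hu' v
      rw [h'', h, h', eadd', hv, hv'] at t1
      generalize c = x at t1 ⊢
      generalize c'' = y at t1 ⊢
      generalize c' = z at t1
      revert x y z; decide
    have r2 : c' = c'' := by
      obtain ⟨v, hv, hv'⟩ := key u' u 0 0 hu1' hu1 (by rwa [mul_comm] at huu1)
      have t1 := h1 u hu u' hu' v
      rw [h'', h, h', eadd', hv, hv'] at t1
      generalize c = x at t1
      generalize c'' = y at t1 ⊢
      generalize c' = z at t1 ⊢
      revert x y z; decide
    rw [r1, r2]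
  have hfinal : ∃ c : ZMod 2, ∀ u ∈ U, ∀ v, β u v = c * e u v := by
    by_cases hU : ∃ u ∈ U, u ≠ 1
    · obtain ⟨u, hu, hu1⟩ := hU
      obtain ⟨c, hcu⟩ := hc u hu hu1
      refine ⟨c, fun u' hu' v => ?_⟩
      by_cases hu1' : u' = 1
      · rw [(e0 u' v).2 (by rw [hu1']; exact one v), mul_zero]
        exact h3 u' hu' v (by rw [hu1']; exact one v)
      · obtain ⟨c', hc'⟩ := hc u' hu' hu1'
        rw [hc', hcc u hu hu1 u' hu' hu1' c c' hcu hc']
    · push Not at hU
      refine ⟨0, fun u' hu' v => ?_⟩
      rw [zero_mul]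
      exact h3 u' hu' v (by rw [hU u' hu']; exact one v)
  obtain ⟨c, hcf⟩ := hfinal
  refine ⟨fun a b => c * e a b, ?_, ?_, ?_, ?_⟩
  · intro u u' v
    show c * e (u * u') v = c * e u v + c * e u' v
    rw [eadd', mul_add]
  · intro u v v'
    show c * e u (v * v') = c * e u v + c * e u v'
    rw [eadd, mul_add]
  · intro u v h
    show c * e u v = 0
    rw [(e0 u v).2 h, mul_zero]
  · intro u hu v
    exact (hcf u hu v).symm

end Pool.Agent.ESG
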