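import Pool.Agent.ESG.Stmts

namespace Pool.Agent.ESG

open Pool.Agent.ESL

namespace LINEX

variable {V : Type} [AddCommGroup V] [Module (ZMod 2) V]

theorem eq_rho {k : Fm V} {l : D V} (hs : ∀ x y, k x y = k y x)
    (h : ∀ x, k x ∈ Submodule.span (ZMod 2) {l}) (h0 : k ≠ 0) : k = rho l := by
  have h1 : ∀ x, ∃ c : ZMod 2, c • l = k x := fun x => Submodule.mem_span_singleton.1 (h x)
  choose c hc using h1
  obtain ⟨x0, hx0⟩ : ∃ x0, k x0 ≠ 0 := by
    by_contra hc
    push Not at hc
    exact h0 (LinearMap.ext hc)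
  have hc0 : c x0 = 1 := by
    apply zm_ne
    intro h2
    apply hx0
    rw [← hc, h2, zero_smul]
  have hk0 : k x0 = l := by rw [← hc, hc0, one_smul]
  have hl0 : l ≠ 0 := by rw [← hk0]; exact hx0
  obtain ⟨y, hy⟩ : ∃ y, l y = 1 := by
    by_contra h2
    push Not at h2
    exact hl0 (LinearMap.ext fun y => zm_ne' (h2 y))
  have h2 : ∀ x, c x * l y = c y * l x := by
    intro x
    have h3 := hs x y
    rw [← hc x, ← hc y] at h3
    exact h3
  have h4 : c y = 1 := by
    have h5 := h2 x0
    rw [hc0, hy, mul_one] at h5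
    apply zm_ne
    intro h6
    rw [h6, zero_mul] at h5
    exact one_ne_zero h5
  refine LinearMap.ext fun x => ?_
  rw [rho_apply, ← hc x]
  have h5 := h2 x
  rw [hy, mul_one, h4, one_mul] at h5
  rw [h5]

end LINEX

theorem line_proof : Stmt_LINE := by
  intro V _ _ _ e R l hR hS
  by_cases h : R = ⊥
  · exact Or.inl h
  · right
    obtain ⟨k, hk, hk0⟩ := Submodule.exists_mem_ne_zero_of_ne_bot h
    have h1 : ∀ k ∈ R, k ≠ 0 → k = rho l := fun k hk hk0 =>
      LINEX.eq_rho (hR.symm hk) (fun x => hS (mem_Sp hk x)) hk0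
    have h2 := h1 k hk hk0
    have hle : l e = 1 := by
      apply zm_ne
      intro h3
      apply hk0
      have h4 : ∀ x, l x = 0 := by
        intro x
        have h5 := hR k hk x
        rw [h2, rho_apply₂, rho_apply₂, h3, mul_zero] at h5
        rcases zm (l x) with h6 | h6
        · exact h6
        · rw [h6, mul_one] at h5; exact absurd h5 one_ne_zero
      rw [h2]
      refine LinearMap.ext fun x => ?_
      rw [rho_apply, h4, zero_smul]; rfl
    refine ⟨hle, ?_⟩
    apply le_antisymm
    · intro k' hk'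
      by_cases h3 : k' = 0
      · rw [h3]; exact Submodule.zero_mem _
      · rw [h1 k' hk' h3]; exact Submodule.mem_span_singleton_self _
    · rw [Submodule.span_singleton_le_iff_mem, ← h2]
      exact hk

end Pool.Agent.ESG
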