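import Pool.Agent.ESG.Stmts

/-!
Module MAIN.
-/

set_option linter.unusedVariables false

namespace Pool.Agent.ESG

open Pool.Agent.ESL

namespace MAINX

variable {V : Type} [AddCommGroup V] [Module (ZMod 2) V]

theorem fx_ne {R : FS V} (h0 : rad R = ⊥) {w : V} (hw : w ≠ 0) : fx R w ≠ R := by
  intro h
  apply hw
  have : w ∈ rad R := by
    intro k hk
    rw [← h] at hk
    exact hk.2
  rwa [h0, Submodule.mem_bot] at this

end MAINX

open MAINX in
theorem main_proof (hRED : Stmt_RED) (hEXT : Stmt_EXT) (hI : Stmt_PARTI) (hII : Stmt_PARTII)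
    (hATB : Stmt_ATB) : Stmt_MAIN := by
  apply hRED
  intro V _ _ _ e R hA hS h0 hIH
  by_cases hext : ∃ τ : D V, τ ≠ 0 ∧ τ e = 0 ∧ St e R τ = ⊤
  · obtain ⟨τ, hτ, hτe, hst⟩ := hext
    exact hEXT V e R hA hS h0 hIH τ hτ hτe hst
  push Not at hext
  have het : ∀ w, w ≠ 0 → ET e (fx R w) :=
    fun w hw => hIH _ (fx_le R w) (fx_ne h0 hw) (hS.fx w)
  by_cases htwo : ∀ τ : D V, τ ≠ 0 → τ e = 0 → fr (St e R τ) ≤ 2
  · refine hII V e R ?_ hIH
    refine
      { wu := hA
        sl := hS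
        nd := h0
        at' := ?_
        two := htwo
        top := hext }
    intro w hw
    refine hATB V e (fx R w) (het w hw) ?_
    intro σ hσ hσe
    exact (Submodule.finrank_mono (St_mono (fx_le R w) σ)).trans (htwo σ hσ hσe)
  push Not at htwo
  obtain ⟨τ₁, hτ₁, hτ₁e, hst₁⟩ := htwo
  -- maximal star
  obtain ⟨τ, hτ, hmax⟩ := Set.exists_max_image {τ : D V | τ ≠ 0 ∧ τ e = 0}
    (fun τ => fr (St e R τ)) (Set.toFinite _) ⟨τ₁, hτ₁, hτ₁e⟩
  have hτ0 : τ ≠ 0 := hτ.1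
  have hτe : τ e = 0 := hτ.2
  have h3 : 3 ≤ fr (St e R τ) := le_trans hst₁ (hmax τ₁ ⟨hτ₁, hτ₁e⟩)
  have hfr := finrank_co (St e R τ)
  refine hI V e R τ (co (St e R τ)) ?_ hIH
  refine
    { wu := hA
      sl := hS
      nd := h0
      et := het
      star := ?_
      max := ?_
      three := ?_
      ne := ?_
      τ0 := hτ0
      τe := hτe }
  · intro ψ
    rw [← mem_St, ← mem_an, an_co]
  · intro σ hσ hσe
    have h4 : fr (St e R σ) ≤ fr (St e R τ) := hmax σ ⟨hσ, hσe⟩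
    have h5 : fr (co (St e R τ)) + fr (St e R τ) = fr V := hfr
    omega
  · have h4 : fr (co (St e R τ)) + fr (St e R τ) = fr V := hfr
    omega
  · intro h5
    apply hext τ hτ0 hτe
    rw [← an_co (St e R τ), h5, an_bot]

end Pool.Agent.ESG
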