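import Pool.Agent.ESG.Stmts

/-!
Module MET (arbitrary Wu class): the forms killing a full `M` are a direct summand of a form space of
elementary type, or there is a bad star.
-/

set_option linter.unusedSectionVars false
set_option linter.unusedVariables false

namespace Pool.Agent.ESG.METX

open Pool.Agent.ESL

variable {V : Type} [AddCommGroup V] [Module (ZMod 2) V]

theorem full_mono {R R' : FS V} (h : R' ≤ R) {M : Submodule (ZMod 2) V} (hF : Full R M) :
    Full R' M := fun m hm k hk h0 => hF m hm k (h hk) h0

/-- `fxs` of a sum with independent supports -/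
theorem fxs_sup {R₁ R₂ : FS V} (h : Disjoint (Sp R₁) (Sp R₂)) (M : Submodule (ZMod 2) V) :
    fxs (R₁ ⊔ R₂) M = fxs R₁ M ⊔ fxs R₂ M := by
  apply le_antisymm
  · rintro k ⟨hk, hkM⟩
    obtain ⟨a, ha, b, hb, rfl⟩ := Submodule.mem_sup.1 hk
    have hab : ∀ m ∈ M, a m = 0 ∧ b m = 0 := by
      intro m hm
      have h1 : a m + b m = 0 := by
        have := hkM m hm
        rwa [LinearMap.add_apply] at this
      have h2 : a m = b m := eq_of_add h1
      have h3 : a m ∈ Sp R₂ := by rw [h2]; exact mem_Sp hb m
      have h4 : a m = 0 := (Submodule.disjoint_def.1 h) _ (mem_Sp ha m) h3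
      exact ⟨h4, by rw [← h2, h4]⟩
    exact Submodule.add_mem_sup ⟨ha, fun m hm => (hab m hm).1⟩ ⟨hb, fun m hm => (hab m hm).2⟩
  · apply sup_le
    · rintro k ⟨hk, hkM⟩
      exact ⟨Submodule.mem_sup_left hk, hkM⟩
    · rintro k ⟨hk, hkM⟩
      exact ⟨Submodule.mem_sup_right hk, hkM⟩

/-- four subspaces -/
theorem disj4 {E : Type} [AddCommGroup E] [Module (ZMod 2) E] {S₁ S₂ A₁ A₂ B₁ B₂ : Submodule (ZMod 2) E}
    (h : Disjoint S₁ S₂) (a₁ : A₁ ≤ S₁) (a₂ : A₂ ≤ S₂) (b₁ : B₁ ≤ S₁) (b₂ : B₂ ≤ S₂)
    (h₁ : Disjoint A₁ B₁) (h₂ : Disjoint A₂ B₂) : Disjoint (A₁ ⊔ A₂) (B₁ ⊔ B₂) := by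
  rw [Submodule.disjoint_def]
  intro x hx hx'
  obtain ⟨p, hp, q, hq, rfl⟩ := Submodule.mem_sup.1 hx
  obtain ⟨r, hr, s, hs, hrs⟩ := Submodule.mem_sup.1 hx'
  have e1 : p + r = q + s := by
    apply eq_of_add
    calc p + r + (q + s) = (p + q) + (r + s) := by abel
      _ = 0 := by rw [hrs, add_self']
  have m1 : p + r ∈ S₁ := S₁.add_mem (a₁ hp) (b₁ hr)
  have m2 : p + r ∈ S₂ := by rw [e1]; exact S₂.add_mem (a₂ hq) (b₂ hs)
  have z1 : p + r = 0 := (Submodule.disjoint_def.1 h) _ m1 m2
  have z2 : q + s = 0 := by rw [← e1, z1]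
  have p0 : p = 0 := by
    have := eq_of_add z1
    exact (Submodule.disjoint_def.1 h₁) _ hp (by rw [this]; exact hr)
  have q0 : q = 0 := by
    have := eq_of_add z2
    exact (Submodule.disjoint_def.1 h₂) _ hq (by rw [this]; exact hs)
  rw [p0, q0, add_zero]

/-- the trivial splittings -/
theorem triv_top {R : FS V} {M : Submodule (ZMod 2) V} (h : ∀ k ∈ R, ∀ m ∈ M, k m = 0) :
    ∃ R' : FS V, R = fxs R M ⊔ R' ∧ Disjoint (Sp (fxs R M)) (Sp R') := by
  refine ⟨⊥, ?_, ?_⟩
  · rw [sup_bot_eq]
    exact le_antisymm (fun k hk => ⟨hk, h k hk⟩) (fxs_le R M)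
  · rw [Sp_bot]; exact disjoint_bot_right

theorem triv_bot {R : FS V} {M : Submodule (ZMod 2) V} (h : fxs R M = ⊥) :
    ∃ R' : FS V, R = fxs R M ⊔ R' ∧ Disjoint (Sp (fxs R M)) (Sp R') := by
  refine ⟨R, ?_, ?_⟩
  · rw [h, bot_sup_eq]
  · rw [h, Sp_bot]; exact disjoint_bot_left

end Pool.Agent.ESG.METX

namespace Pool.Agent.ESG

open Pool.Agent.ESL METX

theorem met_proof (hw : Stmt_ETWU) (hline : Stmt_LINE) : Stmt_MET := by
  intro V _ _ _ e R hR M
  induction hR with
  | loc k h =>
    intro hF
    left
    by_cases hk : ∀ m ∈ M, k m = 0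
    · apply triv_top
      intro l hl m hm
      obtain ⟨c, rfl⟩ := Submodule.mem_span_singleton.1 hl
      rw [LinearMap.smul_apply, hk m hm, smul_zero]
    · apply triv_bot
      rw [eq_bot_iff]
      rintro l ⟨hl, hl'⟩
      obtain ⟨c, rfl⟩ := Submodule.mem_span_singleton.1 hl
      rcases zm c with rfl | rfl
      · rw [zero_smul]; exact Submodule.zero_mem _
      · exfalso
        apply hk
        intro m hm
        have := hl' m hm
        rwa [one_smul] at this
  | sum R₁ R₂ h₁ h₂ h ih₁ ih₂ =>
    intro hF
    rcases ih₁ (full_mono le_sup_left hF) with ⟨R₁', e₁, d₁⟩ | hbad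
    swap
    · right
      obtain ⟨σ, φ, a1, a2, a3, a4, ⟨m, hm, hm0, hσm, k, hk, hkm⟩, a6⟩ := hbad
      exact ⟨σ, φ, a1, a2, a3, Submodule.mem_sup_left a4,
        ⟨m, hm, hm0, hσm, k, Submodule.mem_sup_left hk, hkm⟩, a6⟩
    rcases ih₂ (full_mono le_sup_right hF) with ⟨R₂', e₂, d₂⟩ | hbad
    swap
    · right
      obtain ⟨σ, φ, a1, a2, a3, a4, ⟨m, hm, hm0, hσm, k, hk, hkm⟩, a6⟩ := hbad
      exact ⟨σ, φ, a1, a2, a3, Submodule.mem_sup_right a4,
        ⟨m, hm, hm0, hσm, k, Submodule.mem_sup_right hk, hkm⟩, a6⟩
    left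
    refine ⟨R₁' ⊔ R₂', ?_, ?_⟩
    · rw [fxs_sup h]
      nth_rewrite 1 [e₁]
      nth_rewrite 1 [e₂]
      exact sup_sup_sup_comm _ _ _ _
    · rw [fxs_sup h, Sp_sup, Sp_sup]
      have r₁ : R₁' ≤ R₁ := by rw [e₁]; exact le_sup_right
      have r₂ : R₂' ≤ R₂ := by rw [e₂]; exact le_sup_right
      exact disj4 h (Sp_mono (fxs_le _ _)) (Sp_mono (fxs_le _ _)) (Sp_mono r₁) (Sp_mono r₂) d₁ d₂
  | ext R L τ h hL hτ hτe ih =>
    intro hF
    set R₀ : FS V := R ⊔ L.map (wd e τ) with hR₀
    have hET : ET e R₀ := ET.ext R L τ h hL hτ hτe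
    have hWu : IsWu e R₀ := hw V e R₀ hET
    by_cases hM : ∀ k ∈ R₀, ∀ m ∈ M, k m = 0
    · left; exact triv_top hM
    · push Not at hM
      obtain ⟨k, hk, m, hm, hkm⟩ := hM
      -- the space `T = L ⊔ ⟨τ⟩`
      set T : Submodule (ZMod 2) (D V) := L ⊔ Submodule.span (ZMod 2) {τ} with hT
      have hτT : τ ∈ T := Submodule.mem_sup_right (Submodule.mem_span_singleton_self τ)
      have hLT : L ≤ T := le_sup_left
      have hstar : ∀ ψ ∈ T, wd e τ ψ ∈ R₀ := by
        intro ψ hψ
        obtain ⟨l, hl, t, ht, rfl⟩ := Submodule.mem_sup.1 hψ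
        obtain ⟨c, rfl⟩ := Submodule.mem_span_singleton.1 ht
        rw [map_add, map_smul, wd_self hτe, smul_zero, add_zero]
        exact Submodule.mem_sup_right (Submodule.mem_map_of_mem hl)
      have hSp : Sp R₀ ≤ T := by
        rw [hR₀, Sp_sup]
        apply sup_le (hL.trans hLT)
        apply Sp_le.2
        rintro _ ⟨l, hl, rfl⟩ x
        rw [wd_apply]
        exact T.add_mem (T.add_mem (T.smul_mem _ (hLT hl)) (T.smul_mem _ hτT)) (T.smul_mem _ hτT)
      have hτ0 : τ ≠ 0 := by
        rintro rfl
        exact hτ L.zero_mem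
      -- a value 1
      have hval : ∀ k' ∈ R₀, ∀ a, k' a ≠ 0 → ∃ χ ∈ T, χ a = 1 := by
        intro k' hk' a ha
        have : ∃ x, k' a x ≠ 0 := by
          by_contra hc
          push Not at hc
          exact ha (LinearMap.ext hc)
        obtain ⟨x, hx⟩ := this
        refine ⟨k' x, hSp (mem_Sp hk' x), ?_⟩
        rw [hWu.symm hk']
        exact zm_ne hx
      obtain ⟨χ, hχ, hχm⟩ := hval k hk m hkm
      obtain ⟨m1, hm1, h1⟩ : ∃ m1 ∈ M, τ m1 = 1 := by
        by_contra hc
        push Not at hc
        have hτM : ∀ a ∈ M, τ a = 0 := fun a ha => zm_ne' (hc a ha)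
        have e1 : wd e τ χ m = τ := wd_of_zero_one (hτM m hm) hχm
        have := hF m hm (wd e τ χ) (hstar χ hχ) (by rw [e1]; exact hτM)
        rw [e1] at this
        exact hτ0 this
      have hB : ∀ ψ ∈ T, (∀ a ∈ M, ψ a = 0) → ψ e = 0 → ψ = 0 := by
        intro ψ hψ hψM hψe
        have e1 : wd e τ ψ m1 = ψ := wd_of_one_zero h1 (by rw [map_add, hψM m1 hm1, hψe, add_zero])
        have := hF m1 hm1 (wd e τ ψ) (hstar ψ hψ) (by rw [e1]; exact hψM)
        rwa [e1] at this
      by_cases hdis : ∀ ψ ∈ T, (∀ a ∈ M, ψ a = 0) → ψ = 0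
      · left
        apply triv_bot
        rw [eq_bot_iff]
        rintro l ⟨hl, hl'⟩
        rw [Submodule.mem_bot]
        apply LinearMap.ext
        intro v
        rw [LinearMap.zero_apply]
        apply hdis (l v) (hSp (mem_Sp hl v))
        intro a haM
        rw [hWu.symm hl, hl' a haM]
        rfl
      push Not at hdis
      obtain ⟨f, hfT, hfM, hf0⟩ := hdis
      have hfe : f e = 1 := by
        rcases zm (f e) with h2 | h2
        · exact absurd (hB f hfT hfM h2) hf0
        · exact h2
      by_cases hbad : ∃ a ∈ M, τ a = 0 ∧ ∃ k' ∈ R₀, k' a ≠ 0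
      · right
        obtain ⟨a, ha, hτa, k', hk', hka⟩ := hbad
        obtain ⟨χ', hχ', hχa⟩ := hval k' hk' a hka
        refine ⟨τ, f, hτe, hfe, hfM, hstar f hfT, ⟨a, ha, ?_, hτa, wd e τ χ', hstar χ' hχ', ?_⟩,
          m1, hm1, h1⟩
        · rintro rfl
          exact hka (map_zero k')
        · exact wd_of_zero_one hτa hχa
      push Not at hbad
      left
      -- functionals of `T` restricted to `M`
      have hres : ∀ ψ ∈ T, ∀ a ∈ M, τ a = 0 → ψ a = 0 := by
        intro ψ hψ a ha hτa
        by_contra hc
        have e1 : wd e τ ψ a = τ := wd_of_zero_one hτa (zm_ne hc)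
        have := hbad a ha hτa (wd e τ ψ) (hstar ψ hψ)
        rw [e1] at this
        exact hτ0 this
      have hcl : ∀ ψ ∈ T, (∀ a ∈ M, ψ a = 0) → ψ = 0 ∨ ψ = f := by
        intro ψ hψ hψM
        rcases zm (ψ e) with h2 | h2
        · exact Or.inl (hB ψ hψ hψM h2)
        · right
          apply eq_of_add
          apply hB (ψ + f) (T.add_mem hψ hfT)
          · intro a ha
            rw [LinearMap.add_apply, hψM a ha, hfM a ha, add_zero]
          · rw [LinearMap.add_apply, h2, hfe]; rfl
      have hcl2 : ∀ ψ ∈ T, (ψ = 0 ∨ ψ = f) ∨ (ψ = τ ∨ ψ = f + τ) := by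
        intro ψ hψ
        rcases zm (ψ m1) with h2 | h2
        · left
          apply hcl ψ hψ
          intro a ha
          rcases zm (τ a) with h3 | h3
          · exact hres ψ hψ a ha h3
          · have := hres ψ hψ (a + m1) (M.add_mem ha hm1) (by rw [map_add, h3, h1]; rfl)
            rwa [map_add, h2, add_zero] at this
        · right
          have hcc : ψ + τ = 0 ∨ ψ + τ = f := by
            apply hcl (ψ + τ) (T.add_mem hψ hτT)
            intro a ha
            rcases zm (τ a) with h3 | h3
            · rw [LinearMap.add_apply, hres ψ hψ a ha h3, h3, add_zero]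
            · have := hres ψ hψ (a + m1) (M.add_mem ha hm1) (by rw [map_add, h3, h1]; rfl)
              rw [map_add] at this
              have h4 : ψ a = ψ m1 := eq_of_add this
              rw [LinearMap.add_apply, h3, h4, h2]; rfl
          rcases hcc with h3 | h3
          · left; exact eq_of_add h3
          · right
            rw [← h3, add_assoc, add_self', add_zero]
      -- the line `L`
      obtain ⟨l, hlL, hl2⟩ : ∃ l ∈ L, l = f ∨ l = f + τ := by
        obtain ⟨l, hl, t, ht, hlt⟩ := Submodule.mem_sup.1 hfT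
        obtain ⟨c, rfl⟩ := Submodule.mem_span_singleton.1 ht
        refine ⟨l, hl, ?_⟩
        rcases zm c with rfl | rfl
        · left; rw [← hlt, zero_smul, add_zero]
        · right; rw [← hlt, one_smul, add_assoc, add_self', add_zero]
      have hle : l e = 1 := by
        rcases hl2 with rfl | rfl
        · exact hfe
        · rw [LinearMap.add_apply, hfe, hτe, add_zero]
      have hLl : L ≤ Submodule.span (ZMod 2) {l} := by
        intro x hx
        rw [Submodule.mem_span_singleton]
        rcases hcl2 x (hLT hx) with (h2 | h2) | (h2 | h2)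
        · exact ⟨0, by rw [h2, zero_smul]⟩
        · rcases hl2 with h3 | h3
          · exact ⟨1, by rw [one_smul, h2, h3]⟩
          · exfalso
            apply hτ
            have : x + l = τ := by rw [h2, h3, ← add_assoc, add_self', zero_add]
            rw [← this]; exact L.add_mem hx hlL
        · exact absurd (h2 ▸ hx) hτ
        · rcases hl2 with h3 | h3
          · exfalso
            apply hτ
            have : x + l = τ := by rw [h2, h3, add_comm f τ, add_assoc, add_self', add_zero]
            rw [← this]; exact L.add_mem hx hlL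
          · exact ⟨1, by rw [one_smul, h2, h3]⟩
      have hmap : L.map (wd e τ) = Submodule.span (ZMod 2) {wd e τ l} := by
        apply le_antisymm
        · rintro _ ⟨x, hx, rfl⟩
          obtain ⟨c, rfl⟩ := Submodule.mem_span_singleton.1 (hLl hx)
          rw [map_smul]
          exact Submodule.smul_mem _ _ (Submodule.mem_span_singleton_self _)
        · rw [Submodule.span_singleton_le_iff_mem]
          exact Submodule.mem_map_of_mem hlL
      have hwu' : IsWu e R := hw V e R h
      rcases hline V e R l hwu' (hL.trans hLl) with hR0 | ⟨-, hR1⟩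
      · apply triv_bot
        rw [eq_bot_iff]
        rintro x ⟨hx, hx'⟩
        rw [hR₀, hR0, bot_sup_eq, hmap] at hx
        obtain ⟨c, rfl⟩ := Submodule.mem_span_singleton.1 hx
        rcases zm c with rfl | rfl
        · rw [zero_smul]; exact Submodule.zero_mem _
        · exfalso
          have h2 := hx' m1 hm1
          rw [one_smul, wd_of_one h1] at h2
          rcases zm (l (m1 + e)) with h3 | h3
          · rw [h3, zero_smul, add_zero] at h2
            rw [h2] at hle
            exact absurd hle (by simp)
          · rw [h3, one_smul] at h2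
            exact hτ ((eq_of_add h2) ▸ hlL)
      · set g : D V := f + τ with hg
        have hgm : g m1 = 1 := by rw [hg, LinearMap.add_apply, hfM m1 hm1, h1, zero_add]
        have hg0 : g ≠ 0 := by
          intro h2
          rw [h2] at hgm
          exact absurd hgm (by simp)
        have hR2 : R₀ = Submodule.span (ZMod 2) {rho f} ⊔ Submodule.span (ZMod 2) {rho g} := by
          rw [hR₀, hR1, hmap, wd_eq_rho hle]
          have key : ∀ a b : Fm V, Submodule.span (ZMod 2) {a} ⊔ Submodule.span (ZMod 2) {a + b} =
              Submodule.span (ZMod 2) {a} ⊔ Submodule.span (ZMod 2) {b} := by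
            intro a b
            apply le_antisymm
            · refine sup_le le_sup_left ?_
              rw [Submodule.span_singleton_le_iff_mem]
              exact Submodule.add_mem_sup (Submodule.mem_span_singleton_self a)
                (Submodule.mem_span_singleton_self b)
            · refine sup_le le_sup_left ?_
              rw [Submodule.span_singleton_le_iff_mem]
              have : b = a + (a + b) := (add_add_self a b).symm
              rw [this]
              exact Submodule.add_mem _ (Submodule.mem_sup_left (Submodule.mem_span_singleton_self a))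
                (Submodule.mem_sup_right (by
                  rw [← this]
                  exact Submodule.mem_span_singleton_self _))
          rw [key]
          rcases hl2 with h2 | h2
          · rw [h2]
          · rw [h2, add_assoc, add_self', add_zero, sup_comm]
        have hfx : fxs R₀ M = Submodule.span (ZMod 2) {rho f} := by
          apply le_antisymm
          · rintro x ⟨hx, hx'⟩
            rw [hR2] at hx
            obtain ⟨a, ha, b, hb, rfl⟩ := Submodule.mem_sup.1 hx
            obtain ⟨c, rfl⟩ := Submodule.mem_span_singleton.1 ha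
            obtain ⟨d, rfl⟩ := Submodule.mem_span_singleton.1 hb
            have h2 := hx' m1 hm1
            rw [LinearMap.add_apply, LinearMap.smul_apply, LinearMap.smul_apply, rho_apply, rho_apply,
              hfM m1 hm1, hgm, zero_smul, smul_zero, zero_add, one_smul] at h2
            rcases zm d with rfl | rfl
            · rw [zero_smul, add_zero]
              exact Submodule.smul_mem _ _ (Submodule.mem_span_singleton_self _)
            · rw [one_smul] at h2
              exact absurd h2 hg0
          · rw [Submodule.span_singleton_le_iff_mem]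
            refine ⟨?_, fun a ha => ?_⟩
            · rw [hR2]; exact Submodule.mem_sup_left (Submodule.mem_span_singleton_self _)
            · rw [rho_apply, hfM a ha, zero_smul]
        have hSpr : ∀ a : D V, Sp (Submodule.span (ZMod 2) {rho a}) ≤ Submodule.span (ZMod 2) {a} := by
          intro a
          apply Sp_le.2
          intro x hx v
          obtain ⟨c, rfl⟩ := Submodule.mem_span_singleton.1 hx
          rw [LinearMap.smul_apply, rho_apply]
          exact Submodule.smul_mem _ _ (Submodule.smul_mem _ _ (Submodule.mem_span_singleton_self a))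
        refine ⟨Submodule.span (ZMod 2) {rho g}, ?_, ?_⟩
        · rw [hfx]; exact hR2
        · rw [hfx]
          apply Disjoint.mono (hSpr f) (hSpr g)
          rw [Submodule.disjoint_def]
          intro x hx hx'
          obtain ⟨c, rfl⟩ := Submodule.mem_span_singleton.1 hx
          obtain ⟨d, hd⟩ := Submodule.mem_span_singleton.1 hx'
          rcases zm c with rfl | rfl
          · rw [zero_smul]
          · exfalso
            have h2 := congrArg (fun φ : D V => φ m1) hd
            simp only [LinearMap.smul_apply, hgm, hfM m1 hm1, smul_eq_mul, mul_one, mul_zero] at h2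
            rw [h2, zero_smul, one_smul] at hd
            exact hf0 hd.symm

end Pool.Agent.ESG
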