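import Pool.Agent.ESG.Stmts

/-!
Module NA1: without good atoms, every degenerate form has a radical of dimension one, and every `R^w` has at most
one nonzero form.
-/

set_option linter.unusedVariables false

namespace Pool.Agent.ESG

open Pool.Agent.ESL

namespace NA1X

variable {V : Type} [AddCommGroup V] [Module (ZMod 2) V]

/-- two different nonzero functionals span a plane -/
theorem two_le {T : Submodule (ZMod 2) (D V)} [Finite V] {τ ψ : D V} (hτ : τ ∈ T) (hψ : ψ ∈ T) (h0 : τ ≠ 0)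
    (h1 : ψ ≠ 0) (h2 : ψ ≠ τ) : 2 ≤ fr T := by
  by_contra hc
  have h3 : fr T ≤ 1 := by omega
  obtain ⟨v, hv⟩ := finrank_le_one_iff.1 h3
  obtain ⟨c, hc1⟩ := hv ⟨τ, hτ⟩
  obtain ⟨c', hc2⟩ := hv ⟨ψ, hψ⟩
  have e1 : c = 1 := by
    apply zm_ne
    rintro rfl
    rw [zero_smul] at hc1
    exact h0 (congrArg Subtype.val hc1).symm
  have e2 : c' = 1 := by
    apply zm_ne
    rintro rfl
    rw [zero_smul] at hc2
    exact h1 (congrArg Subtype.val hc2).symm
  rw [e1] at hc1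
  rw [e2] at hc2
  exact h2 (congrArg Subtype.val (hc2.symm.trans hc1))

/-- no form of rank one -/
theorem no_rho [Finite V] {e : V} {R : FS V} (hRG : Stmt_RG) (hRA : Stmt_RA) (h : CtxN e R) (h2 : 2 ≤ fr R)
    {φ : D V} (h0 : φ ≠ 0) : rho φ ∉ R := by
  intro hφ
  have hg := (hRG V e R h.ctx.wu φ h0 hφ).2
  by_cases hk : ∃ w, w ≠ 0 ∧ φ w = 0
  · obtain ⟨w, hw0, hw⟩ := hk
    exact h.no (rho φ) ⟨w, hw0, (hRA V e R h.ctx.wu).1 φ h0 hφ w hw⟩ hg
  · push Not at hk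
    have hinj : Function.Injective φ := by
      rw [injective_iff_map_eq_zero]
      intro w hw
      by_contra hc
      exact hk w hc hw
    have h3 : fr V ≤ 1 := by
      have := LinearMap.finrank_le_finrank_of_injective (f := φ) hinj
      simpa using this
    have h4 : fr R ≤ fr V * fr V := by
      have := Submodule.finrank_le R
      have h5 : fr (Fm V) = fr V * fr (D V) := Module.finrank_linearMap (ZMod 2) (ZMod 2) V (D V)
      have h6 : fr (D V) = fr V := finrank_D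
      rw [h6] at h5
      exact this.trans h5.le
    have h5 : fr V * fr V ≤ 1 * 1 := Nat.mul_le_mul h3 h3
    omega

theorem rank_two [Finite V] {e : V} {R : FS V} (hRG : Stmt_RG) (hRA : Stmt_RA) (h : CtxN e R) (h2 : 2 ≤ fr R)
    {k : Fm V} (hk : k ∈ R) (h0 : k ≠ 0) : 2 ≤ fr (LinearMap.range k) := by
  by_contra hc
  obtain ⟨φ, hφ0, rfl⟩ := (hRA V e R h.ctx.wu).2 k hk h0 (by omega)
  exact no_rho hRG hRA h h2 hφ0 hk

theorem dim_three [Finite V] {e : V} {R : FS V} (hT2 : Stmt_T2) (hRG : Stmt_RG) (hRA : Stmt_RA) (h : CtxN e R)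
    (h2 : 2 ≤ fr R) : 3 ≤ fr V := by
  by_contra hc
  have hne : R ≠ ⊥ := by
    rintro rfl
    have : fr (⊥ : FS V) = 0 := finrank_bot (ZMod 2) (Fm V)
    omega
  obtain ⟨k, hk, hk0⟩ := Submodule.exists_mem_ne_zero_of_ne_bot hne
  have h3 := rank_two hRG hRA h h2 hk hk0
  have h4 : fr (LinearMap.range k) ≤ fr (D V) := Submodule.finrank_le _
  have h5 : fr (D V) = fr V := finrank_D
  obtain ⟨τ, ψ, t1, t2, t3, t4, t5, t6, t7, t8⟩ := hT2 V e k (h.ctx.wu k hk) (by omega)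
  apply h.ctx.top τ t1 t4
  have h6 : 2 ≤ fr (St e R τ) := by
    apply two_le (self_mem_St e R t4) (ψ := ψ) _ t1 t2 t3
    rw [mem_St, ← t5]
    exact hk
  apply Submodule.eq_top_of_finrank_eq
  have h7 : fr (St e R τ) ≤ fr (D V) := Submodule.finrank_le _
  show fr (St e R τ) = fr (D V)
  omega

theorem atom_rank [Finite V] {e : V} {R : FS V} (hRG : Stmt_RG) (hRA : Stmt_RA) (hNG : Stmt_NG) (h : CtxN e R)
    (h2 : 2 ≤ fr R) {w : V} (hw : w ≠ 0) {a : Fm V} (ha : At R w a) :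
    fr (LinearMap.range a) + 1 = fr V := by
  have hA : Atom R a := ⟨w, hw, ha⟩
  refine hNG V e R h.ctx ?_ a hA (rank_two hRG hRA h h2 ha.1 ha.2.2.1) (h.no a hA)
  intro φ φ' h3 _ h4
  exact absurd h4 (no_rho hRG hRA h h2 h3)

theorem mem_ats' [Finite V] {R : FS V} {w : V} {a : Fm V} : a ∈ ats R w ↔ At R w a := by
  rw [ats, Set.Finite.mem_toFinset]; rfl

/-- there is an atom below a nonzero form -/
theorem below [Finite V] {e : V} {R : FS V} (hAU3 : Stmt_AU3) (h : CtxII e R) {w : V} (hw : w ≠ 0) {k : Fm V}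
    (hk : k ∈ fx R w) (h0 : k ≠ 0) : ∃ I ⊆ ats R w, k = ∑ a ∈ I, a ∧ I.Nonempty ∧
      ∀ a ∈ I, LinearMap.range a ≤ LinearMap.range k := by
  obtain ⟨I, h1, h2, h3, h4, h5⟩ := hAU3 V e R h w hw k hk
  refine ⟨I, h1, h2, ?_, fun a ha => (h3 a (h1 ha)).1 ha⟩
  rw [Finset.nonempty_iff_ne_empty]
  rintro rfl
  exact h0 (by rw [h2, Finset.sum_empty])

theorem ker_le [Finite V] {e : V} {R : FS V} (hRG : Stmt_RG) (hRA : Stmt_RA) (hNG : Stmt_NG) (hAU3 : Stmt_AU3)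
    (h : CtxN e R) (h2 : 2 ≤ fr R) {k : Fm V} (hk : k ∈ R) (h0 : k ≠ 0) : fr (LinearMap.ker k) ≤ 1 := by
  by_cases hb : LinearMap.ker k = ⊥
  · rw [hb]
    have : fr (⊥ : Submodule (ZMod 2) V) = 0 := finrank_bot (ZMod 2) V
    omega
  · obtain ⟨w, hw, hw0⟩ := Submodule.exists_mem_ne_zero_of_ne_bot hb
    obtain ⟨I, h3, h4, ⟨a, ha⟩, h5⟩ := below hAU3 h.ctx hw0 (k := k) ⟨hk, hw⟩ h0
    have h6 := atom_rank hRG hRA hNG h h2 hw0 (mem_ats'.1 (h3 ha))
    have h7 : fr (LinearMap.range a) ≤ fr (LinearMap.range k) := Submodule.finrank_mono (h5 a ha)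
    have h8 := fr_range_add_ker k
    omega

theorem uniq [Finite V] {e : V} {R : FS V} (hT2 : Stmt_T2) (hRG : Stmt_RG) (hRA : Stmt_RA) (hNG : Stmt_NG)
    (hAU1 : Stmt_AU1) (hAU3 : Stmt_AU3) (h : CtxN e R) (h2 : 2 ≤ fr R) {w : V} (hw0 : w ≠ 0) {k k' : Fm V}
    (hk : k ∈ fx R w) (hk' : k' ∈ fx R w) (h0 : k ≠ 0) (h0' : k' ≠ 0) : k = k' := by
  have h3 := dim_three hT2 hRG hRA h h2
  have hone : ∀ a ∈ ats R w, ∀ b ∈ ats R w, a = b := by
    intro a ha b hb
    by_contra hab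
    have hI := (hAU1 V e R h.ctx w hw0).1
    have hd : Disjoint (LinearMap.range a) (LinearMap.range b) :=
      hI.2.pairwiseDisjoint (show (⟨a, ha⟩ : ats R w) ≠ ⟨b, hb⟩ from fun h => hab (congrArg Subtype.val h))
    have e1 := atom_rank hRG hRA hNG h h2 hw0 (mem_ats'.1 ha)
    have e2 := atom_rank hRG hRA hNG h h2 hw0 (mem_ats'.1 hb)
    have e3 : fr (↥(LinearMap.range a ⊔ LinearMap.range b)) + fr (↥(LinearMap.range a ⊓ LinearMap.range b)) =
        fr (LinearMap.range a) + fr (LinearMap.range b) :=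
      Submodule.finrank_sup_add_finrank_inf_eq (LinearMap.range a) (LinearMap.range b)
    have e6 : fr (↥(LinearMap.range a ⊓ LinearMap.range b)) = 0 := by
      rw [hd.eq_bot]
      exact finrank_bot (ZMod 2) (D V)
    have e4 : fr (↥(LinearMap.range a ⊔ LinearMap.range b)) ≤ fr (D V) := Submodule.finrank_le _
    have e5 : fr (D V) = fr V := finrank_D
    omega
  have key : ∀ l ∈ fx R w, l ≠ 0 → l ∈ ats R w := by
    intro l hl hl0
    obtain ⟨I, e1, e2, ⟨a, ha⟩, e4⟩ := below hAU3 h.ctx hw0 hl hl0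
    have : I = {a} := by
      apply Finset.eq_singleton_iff_unique_mem.2
      exact ⟨ha, fun b hb => hone b (e1 hb) a (e1 ha)⟩
    rw [this, Finset.sum_singleton] at e2
    rw [e2]
    exact e1 ha
  exact hone k (key k hk h0) k' (key k' hk' h0')

end NA1X

theorem na1_proof (hT2 : Stmt_T2) (hRG : Stmt_RG) (hRA : Stmt_RA) (hNG : Stmt_NG)
    (hAU1 : Stmt_AU1) (hAU3 : Stmt_AU3) : Stmt_NA1 := by
  intro V _ _ _ e R h h2
  exact ⟨fun k hk h0 => NA1X.ker_le hRG hRA hNG hAU3 h h2 hk h0,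
    fun w hw k hk k' hk' h0 h0' => NA1X.uniq hT2 hRG hRA hNG hAU1 hAU3 h h2 hw hk hk' h0 h0',
    fun k hk h0 => NA1X.rank_two hRG hRA h h2 hk h0, NA1X.dim_three hT2 hRG hRA h h2⟩

end Pool.Agent.ESG
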