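import Pool.Agent.ESG.Stmts

/-!
Module NA2: the count without good atoms.
-/

set_option linter.unusedVariables false
set_option linter.unusedSectionVars false

namespace Pool.Agent.ESG

open Pool.Agent.ESL

namespace NA2X

variable {V : Type} [AddCommGroup V] [Module (ZMod 2) V]

/-- evaluation at `x` -/
def ev (x : V) : Fm V →ₗ[ZMod 2] D V where
  toFun k := k x
  map_add' _ _ := rfl
  map_smul' _ _ := rfl

/-- `dim R = dim L_x + dim R^x` -/
theorem fr_R [Finite V] (R : FS V) (x : V) : fr (Lx R x) + fr (fx R x) = fr R := by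
  have h1 := LinearMap.finrank_range_add_finrank_ker ((ev x).domRestrict R)
  have h2 : LinearMap.range ((ev x).domRestrict R) = Lx R x := by
    ext ψ
    constructor
    · rintro ⟨⟨k, hk⟩, rfl⟩
      exact ⟨k, hk, rfl⟩
    · rintro ⟨k, hk, rfl⟩
      exact ⟨⟨k, hk⟩, rfl⟩
  have h3 : fr (LinearMap.ker ((ev x).domRestrict R)) = fr (fx R x) := by
    have h4 : (LinearMap.ker ((ev x).domRestrict R)).map R.subtype = fx R x := by
      ext k
      rw [Submodule.mem_map]
      constructor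
      · rintro ⟨⟨k, hk⟩, h1, rfl⟩
        exact ⟨hk, h1⟩
      · rintro ⟨hk, h1⟩
        exact ⟨⟨k, hk⟩, h1, rfl⟩
    rw [← h4]
    exact (Submodule.finrank_map_subtype_eq R _).symm
  rw [h2] at h1
  rw [← h3]
  exact h1

/-- a radical of dimension one has one nonzero point -/
theorem ker_one [Finite V] {k : Fm V} (h : fr (LinearMap.ker k) ≤ 1) {x y : V} (hx : k x = 0) (hy : k y = 0)
    (h0 : x ≠ 0) (h1 : y ≠ 0) : x = y := by
  obtain ⟨v, hv⟩ := finrank_le_one_iff.1 h
  obtain ⟨c, hc⟩ := hv ⟨x, hx⟩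
  obtain ⟨c', hc'⟩ := hv ⟨y, hy⟩
  have e1 : c = 1 := by
    apply zm_ne
    rintro rfl
    rw [zero_smul] at hc
    exact h0 (congrArg Subtype.val hc).symm
  have e2 : c' = 1 := by
    apply zm_ne
    rintro rfl
    rw [zero_smul] at hc'
    exact h1 (congrArg Subtype.val hc').symm
  rw [e1] at hc
  rw [e2] at hc'
  exact congrArg Subtype.val (hc.symm.trans hc')

/-- `R^w` has at most two elements -/
theorem fx_one [Finite V] {R : FS V} {w : V}
    (h : ∀ k ∈ fx R w, ∀ k' ∈ fx R w, k ≠ 0 → k' ≠ 0 → k = k') : fr (fx R w) ≤ 1 := by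
  by_cases hb : fx R w = ⊥
  · rw [hb]
    have : fr (⊥ : FS V) = 0 := finrank_bot (ZMod 2) (Fm V)
    omega
  · obtain ⟨k, hk, hk0⟩ := Submodule.exists_mem_ne_zero_of_ne_bot hb
    apply finrank_le_one_iff.2
    refine ⟨⟨k, hk⟩, fun w' => ?_⟩
    by_cases hw : (w' : Fm V) = 0
    · exact ⟨0, by rw [zero_smul]; exact Subtype.ext hw.symm⟩
    · exact ⟨1, by rw [one_smul]; exact Subtype.ext (h k hk _ w'.2 hk0 hw)⟩

open Classical in
/-- `|P_ψ| ≤ 3` -/
theorem three [Finite V] [Fintype V] {e : V} {R : FS V} (hG1 : Stmt_G1) (h : CtxII e R)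
    (h1 : ∀ k ∈ R, k ≠ 0 → fr (LinearMap.ker k) ≤ 1)
    (h2 : ∀ w, w ≠ 0 → ∀ k ∈ fx R w, ∀ k' ∈ fx R w, k ≠ 0 → k' ≠ 0 → k = k') {ψ : D V} (hψ : ψ ≠ 0) :
    ((Finset.univ.filter (fun x : V => x ≠ 0)).filter (fun x => ψ ∈ Lx R x)).card ≤ 3 := by
  by_contra hc
  push Not at hc
  obtain ⟨y, hy⟩ := Finset.card_pos.1 (by omega : 0 <
    ((Finset.univ.filter (fun x : V => x ≠ 0)).filter (fun x => ψ ∈ Lx R x)).card)
  have hc2 : 2 < (((Finset.univ.filter (fun x : V => x ≠ 0)).filter (fun x => ψ ∈ Lx R x)).erase y).card := by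
    rw [Finset.card_erase_of_mem hy]; omega
  obtain ⟨a, b, c, ha, hb, hc', hab, hac, hbc⟩ := Finset.two_lt_card_iff.1 hc2
  simp only [Finset.mem_erase, Finset.mem_filter, Finset.mem_univ, true_and] at ha hb hc' hy
  have key : ∀ z, z ≠ y → ψ ∈ Lx R z → ∃ k ∈ R, k z = ψ ∧ k y = ψ := by
    intro z hz hz2
    obtain ⟨k, hk, e1, e2⟩ := hG1 V e R h ψ hψ z y hz hz2 hy.2
    exact ⟨k, hk.mem, e1, e2⟩
  obtain ⟨ka, ka1, ka2, ka3⟩ := key a ha.1 ha.2.2
  obtain ⟨kb, kb1, kb2, kb3⟩ := key b hb.1 hb.2.2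
  obtain ⟨kc, kc1, kc2, kc3⟩ := key c hc'.1 hc'.2.2
  have hno : ∀ k ∈ R, ∀ z z', z ≠ y → z' ≠ y → z ≠ z' → k y = ψ → k z = ψ → k z' = ψ → False := by
    intro k hk z z' hz hz' hzz e1 e2 e3
    have hk0 : k ≠ 0 := by
      rintro rfl
      exact hψ e1.symm
    have := ker_one (h1 k hk hk0) (x := y + z) (y := y + z')
      (by rw [map_add, e1, e2]; exact add_self' ψ) (by rw [map_add, e1, e3]; exact add_self' ψ)
      (fun h => hz (eq_of_add h).symm) (fun h => hz' (eq_of_add h).symm)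
    exact hzz (add_left_cancel this)
  have m1 : ka + kb ∈ fx R y := ⟨R.add_mem ka1 kb1, by
    rw [LinearMap.add_apply, ka3, kb3]; exact add_self' ψ⟩
  have m2 : ka + kc ∈ fx R y := ⟨R.add_mem ka1 kc1, by
    rw [LinearMap.add_apply, ka3, kc3]; exact add_self' ψ⟩
  by_cases n1 : ka + kb = 0
  · have e : ka = kb := eq_of_add n1
    exact hno kb kb1 a b ha.1 hb.1 hab kb3 (e ▸ ka2) kb2
  by_cases n2 : ka + kc = 0
  · have e : ka = kc := eq_of_add n2
    exact hno kc kc1 a c ha.1 hc'.1 hac kc3 (e ▸ ka2) kc2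
  have e : kb = kc := add_left_cancel (h2 y hy.1 _ m1 _ m2 n1 n2)
  exact hno kc kc1 b c hb.1 hc'.1 hbc kc3 (e ▸ kb2) kc2

/-- `|L_x| - 1` -/
theorem card_L [Finite V] [Fintype V] [Fintype (D V)] (R : FS V) (x : V) [DecidablePred (fun φ : D V => φ ≠ 0)]
    [DecidablePred (fun φ : D V => φ ∈ Lx R x)] :
    ((Finset.univ.filter (fun φ : D V => φ ≠ 0)).filter (fun φ => φ ∈ Lx R x)).card + 1 =
      2 ^ fr (Lx R x) := by
  classical
  rw [← card_eq (V := D V) (Lx R x), Nat.card_eq_fintype_card, Fintype.card_subtype]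
  have h0 : (0 : D V) ∈ Finset.univ.filter (fun φ : D V => φ ∈ Lx R x) := by
    rw [Finset.mem_filter]
    exact ⟨Finset.mem_univ _, (Lx R x).zero_mem⟩
  rw [← Finset.card_erase_add_one h0]
  congr 2
  ext φ
  simp only [Finset.mem_filter, Finset.mem_univ, true_and, Finset.mem_erase]

theorem card_ne (W : Type) [AddCommGroup W] [Module (ZMod 2) W] [Finite W] [Fintype W]
    [DecidablePred (fun x : W => x ≠ 0)] :
    (Finset.univ.filter (fun x : W => x ≠ 0)).card + 1 = 2 ^ fr W := by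
  classical
  rw [← card_V (V := W), Nat.card_eq_fintype_card]
  have h0 : (0 : W) ∈ (Finset.univ : Finset W) := Finset.mem_univ _
  have : (Finset.univ.filter (fun x : W => x ≠ 0)) = Finset.univ.erase 0 := by
    ext φ
    simp only [Finset.mem_filter, Finset.mem_univ, true_and, Finset.mem_erase, and_true]
  rw [this, Finset.card_erase_add_one h0, Finset.card_univ]

end NA2X

open Classical in
theorem na2_proof (hNA1 : Stmt_NA1) (hG1 : Stmt_G1) : Stmt_NA2 := by
  intro V _ _ _ e R h h2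
  obtain ⟨h3, h4, h5, h6⟩ := hNA1 V e R h h2
  let _ : Fintype V := Fintype.ofFinite V
  let _ : Fintype (D V) := Fintype.ofFinite (D V)
  set A := Finset.univ.filter (fun x : V => x ≠ 0) with hA
  set B := Finset.univ.filter (fun φ : D V => φ ≠ 0) with hB
  have hdc : ∑ x ∈ A, (B.filter (fun φ => φ ∈ Lx R x)).card = ∑ φ ∈ B, (A.filter (fun x => φ ∈ Lx R x)).card :=
    Finset.sum_card_bipartiteAbove_eq_sum_card_bipartiteBelow (s := A) (t := B) (fun x φ => φ ∈ Lx R x)
  have cA : A.card + 1 = 2 ^ fr V := @NA2X.card_ne V _ _ _ _ _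
  have hAB : A.card = B.card := by
    have e1 := cA
    have e2 : B.card + 1 = 2 ^ fr (D V) := @NA2X.card_ne (D V) _ _ _ _ _
    have e3 : fr (D V) = fr V := finrank_D
    rw [e3] at e2
    omega
  have hup : ∑ φ ∈ B, (A.filter (fun x => φ ∈ Lx R x)).card ≤ ∑ φ ∈ B, 3 := by
    apply Finset.sum_le_sum
    intro φ hφ
    exact NA2X.three hG1 h.ctx h3 h4 (Finset.mem_filter.1 hφ).2
  rw [Finset.sum_const, smul_eq_mul, ← hAB] at hup
  have hA0 : 0 < A.card := by
    have e1 := cA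
    have : 2 ^ 1 ≤ 2 ^ fr V := Nat.pow_le_pow_right (by norm_num) (by omega)
    omega
  have cL : ∀ x, (B.filter (fun φ => φ ∈ Lx R x)).card + 1 = 2 ^ fr (Lx R x) := fun x =>
    @NA2X.card_L V _ _ _ _ _ R x _ _
  have hlow : ∀ x ∈ A, 2 ^ (fr R - 1) ≤ (B.filter (fun φ => φ ∈ Lx R x)).card + 1 := by
    intro x hx
    rw [cL x]
    apply Nat.pow_le_pow_right (by norm_num)
    have e1 := NA2X.fr_R R x
    have e2 := NA2X.fx_one (h4 x (Finset.mem_filter.1 hx).2)
    omega
  have hR3 : fr R ≤ 3 := by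
    by_contra hc
    have e1 : ∀ x ∈ A, 7 ≤ (B.filter (fun φ => φ ∈ Lx R x)).card := by
      intro x hx
      have := hlow x hx
      have e2 : 2 ^ 3 ≤ 2 ^ (fr R - 1) := Nat.pow_le_pow_right (by norm_num) (by omega)
      omega
    have e2 := Finset.sum_le_sum e1
    rw [Finset.sum_const, smul_eq_mul, hdc] at e2
    omega
  rcases Nat.lt_or_ge (fr R) 3 with hlt | hge
  · left; omega
  right
  have hR : fr R = 3 := by omega
  rw [hR] at hlow
  have e1 : ∀ x ∈ A, 3 ≤ (B.filter (fun φ => φ ∈ Lx R x)).card := by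
    intro x hx
    have := hlow x hx
    omega
  have hfx : ∀ x ∈ A, fx R x ≠ ⊥ := by
    intro x hx hb
    have e2 : 3 < (B.filter (fun φ => φ ∈ Lx R x)).card := by
      have e3 := NA2X.fr_R R x
      have e4 : fr (fx R x) = 0 := by
        rw [hb]; exact finrank_bot (ZMod 2) (Fm V)
      have e5 := cL x
      have e6 : fr (Lx R x) = 3 := by omega
      rw [e6] at e5
      omega
    have e3 := Finset.sum_lt_sum e1 ⟨x, hx, e2⟩
    rw [Finset.sum_const, smul_eq_mul, hdc] at e3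
    omega
  have hch : ∀ x : A, ∃ k : R, (k : Fm V) ≠ 0 ∧ (k : Fm V) x = 0 := by
    rintro ⟨x, hx⟩
    obtain ⟨k, hk, hk0⟩ := Submodule.exists_mem_ne_zero_of_ne_bot (hfx x hx)
    exact ⟨⟨k, hk.1⟩, hk0, hk.2⟩
  choose f hf0 hf using hch
  let g : A → {k : R // (k : Fm V) ≠ 0} := fun x => ⟨f x, hf0 x⟩
  have hg : Function.Injective g := by
    intro x y hxy
    have e2 : (f x : Fm V) = f y := congrArg (fun t : {k : R // (k : Fm V) ≠ 0} => ((t.1 : R) : Fm V)) hxy
    apply Subtype.ext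
    exact NA2X.ker_one (h3 _ (f x).2 (hf0 x)) (hf x) (by rw [e2]; exact hf y) (Finset.mem_filter.1 x.2).2
      (Finset.mem_filter.1 y.2).2
  have hcR : Nat.card {k : R // (k : Fm V) ≠ 0} = 7 := by
    let _ : Fintype R := Fintype.ofFinite R
    have e2 : (Finset.univ.filter (fun x : R => x ≠ 0)).card + 1 = 2 ^ fr R := @NA2X.card_ne R _ _ _ _ _
    rw [Nat.card_eq_fintype_card, Fintype.card_subtype]
    have e3 : (Finset.univ.filter (fun k : R => (k : Fm V) ≠ 0)).card =
        (Finset.univ.filter (fun k : R => k ≠ 0)).card := by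
      congr 1
      ext k
      simp only [Finset.mem_filter, Finset.mem_univ, true_and, ne_eq, ZeroMemClass.coe_eq_zero]
    rw [e3]
    rw [hR] at e2
    omega
  have hcA : Nat.card A = A.card := by
    rw [Nat.card_eq_fintype_card, Fintype.card_coe]
  have e2 : Nat.card A ≤ 7 := by
    rw [← hcR]
    exact Nat.card_le_card_of_injective g hg
  have e3 := cA
  have hV3 : fr V = 3 := by
    by_contra hc
    have e4 : 2 ^ 4 ≤ 2 ^ fr V := Nat.pow_le_pow_right (by norm_num) (by omega)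
    rw [hcA] at e2
    omega
  refine ⟨hR, hV3, fun k hk => ?_⟩
  have hcard : Nat.card A = Nat.card {k : R // (k : Fm V) ≠ 0} := by
    rw [hcR, hcA]
    rw [hV3] at e3
    omega
  have hsurj : Function.Surjective g := by
    have hb : Function.Bijective g := (Nat.bijective_iff_injective_and_card g).2 ⟨hg, hcard⟩
    exact hb.2
  intro hker
  have hkb : LinearMap.ker k = ⊥ := Submodule.finrank_eq_zero.1 hker
  by_cases hk0 : k = 0
  · rw [hk0, LinearMap.ker_zero] at hker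
    have : fr (⊤ : Submodule (ZMod 2) V) = fr V := finrank_top (ZMod 2) V
    omega
  · obtain ⟨x, hx⟩ := hsurj ⟨⟨k, hk⟩, hk0⟩
    have e5 : (f x : Fm V) = k := congrArg (fun t : {k : R // (k : Fm V) ≠ 0} => ((t.1 : R) : Fm V)) hx
    have e6 : (x : V) ∈ LinearMap.ker k := by
      rw [LinearMap.mem_ker, ← e5]
      exact hf x
    rw [hkb] at e6
    exact (Finset.mem_filter.1 x.2).2 e6

end Pool.Agent.ESG
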