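import Pool.Agent.ESG.Stmts

set_option linter.unusedSectionVars false
set_option linter.unusedVariables false

namespace Pool.Agent.ESG.NA3X

open Pool.Agent.ESL Pool.Agent.ESG

variable {V : Type} [AddCommGroup V] [Module (ZMod 2) V]

/-- two nonzero vectors of a space of dimension at most two in the kernel of a nonzero functional -/
theorem two_of_one {W : Type} [AddCommGroup W] [Module (ZMod 2) W] [Finite W] (S : Submodule (ZMod 2) W)
    (h : Module.finrank (ZMod 2) S ≤ 2) (g : W →ₗ[ZMod 2] ZMod 2) {p a b : W} (hp : p ∈ S) (ha : a ∈ S)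
    (hb : b ∈ S) (gp : g p = 1) (ga : g a = 0) (gb : g b = 0) (a0 : a ≠ 0) (b0 : b ≠ 0) : a = b := by
  by_contra hne
  let g' : S →ₗ[ZMod 2] ZMod 2 := g.domRestrict S
  have h1 : LinearMap.range g' = ⊤ := by
    rw [eq_top_iff]
    rintro c -
    refine ⟨c • ⟨p, hp⟩, ?_⟩
    rw [map_smul]
    show c • g p = c
    rw [gp, smul_eq_mul, mul_one]
  have h2 := LinearMap.finrank_range_add_finrank_ker g'
  rw [h1, finrank_top, Module.finrank_self] at h2
  have hka : (⟨a, ha⟩ : S) ∈ LinearMap.ker g' := ga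
  have hkb : (⟨b, hb⟩ : S) ∈ LinearMap.ker g' := gb
  have hli : LinearIndependent (ZMod 2) ![(⟨⟨a, ha⟩, hka⟩ : LinearMap.ker g'), ⟨⟨b, hb⟩, hkb⟩] := by
    rw [LinearIndependent.pair_iff' (by
      intro h0
      exact a0 (congrArg (fun z : LinearMap.ker g' => ((z : S) : W)) h0))]
    intro c hc
    have ha' : c • a = b := congrArg (fun z : LinearMap.ker g' => ((z : S) : W)) hc
    rcases zm c with h3 | h3
    · rw [h3, zero_smul] at ha'; exact b0 ha'.symm
    · rw [h3, one_smul] at ha'; exact hne ha'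
  have h3 := hli.fintype_card_le_finrank
  rw [Fintype.card_fin] at h3
  omega

/-- coordinates of an alternating form in dimension three -/
noncomputable def crd (B : Module.Basis (Fin 3) (ZMod 2) V) : Fm V →ₗ[ZMod 2] (ZMod 2 × ZMod 2 × ZMod 2) where
  toFun a := (a (B 0) (B 1), a (B 0) (B 2), a (B 1) (B 2))
  map_add' a b := rfl
  map_smul' c a := rfl

theorem alt_zero (B : Module.Basis (Fin 3) (ZMod 2) V) {a : Fm V} (h : ∀ x, a x x = 0)
    (hs : ∀ x y, a x y = a y x) (h0 : crd B a = 0) : a = 0 := by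
  have h1 : a (B 0) (B 1) = 0 := congrArg Prod.fst h0
  have h2 : a (B 0) (B 2) = 0 := congrArg (fun z => z.2.1) h0
  have h3 : a (B 1) (B 2) = 0 := congrArg (fun z => z.2.2) h0
  have h4 : a (B 1) (B 0) = 0 := by rw [hs]; exact h1
  have h5 : a (B 2) (B 0) = 0 := by rw [hs]; exact h2
  have h6 : a (B 2) (B 1) = 0 := by rw [hs]; exact h3
  refine B.ext fun i => B.ext fun j => ?_
  fin_cases i <;> fin_cases j
  · exact h _
  · exact h1
  · exact h2
  · exact h4
  · exact h _
  · exact h3
  · exact h5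
  · exact h6
  · exact h _

end Pool.Agent.ESG.NA3X

namespace Pool.Agent.ESG

open Pool.Agent.ESL NA3X

theorem na3_proof (hNA1 : Stmt_NA1) (hT2 : Stmt_T2) : Stmt_NA3 := by
  rintro V _ _ _ e R hN ⟨hR3, hV3, hker⟩
  obtain ⟨n1, n2, n3, n4⟩ := hNA1 V e R hN (by omega)
  have hwu := hN.ctx.wu
  have hrk : ∀ k ∈ R, k ≠ 0 → fr (LinearMap.range k) = 2 := by
    intro k hk h0
    have h1 := fr_range_add_ker k
    have h2 := n1 k hk h0
    have h3 := hker k hk
    omega
  by_cases he : e = 0
  · -- all forms are alternating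
    subst he
    have halt : ∀ k ∈ R, ∀ x, k x x = 0 := fun k hk x => by rw [hwu k hk x, map_zero]
    let B := Module.finBasisOfFinrankEq (ZMod 2) V hV3
    let f : R →ₗ[ZMod 2] (ZMod 2 × ZMod 2 × ZMod 2) := (crd B).domRestrict R
    have hinj : Function.Injective f := by
      rw [injective_iff_map_eq_zero]
      intro k hk
      exact Subtype.ext (alt_zero B (halt k k.2) (symm_of_wu (hwu k k.2)) hk)
    have hfin : Module.finrank (ZMod 2) R = Module.finrank (ZMod 2) (ZMod 2 × ZMod 2 × ZMod 2) := by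
      rw [Module.finrank_prod, Module.finrank_prod, Module.finrank_self]
      exact hR3
    have hsurj : Function.Surjective f := (LinearMap.injective_iff_surjective_of_finrank_eq_finrank hfin).1 hinj
    have hall : ∀ a : Fm V, (∀ x, a x x = 0) → (∀ x y, a x y = a y x) → a ∈ R := by
      intro a h1 h2
      obtain ⟨k, hk⟩ := hsurj (crd B a)
      have h3 : a + (k : Fm V) = 0 := by
        apply alt_zero B
        · intro x
          rw [LinearMap.add_apply, LinearMap.add_apply, h1, halt k k.2, add_zero]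
        · intro x y
          rw [LinearMap.add_apply, LinearMap.add_apply, LinearMap.add_apply, LinearMap.add_apply, h2,
            symm_of_wu (hwu k k.2)]
        · rw [map_add]
          have : crd B (k : Fm V) = crd B a := hk
          rw [this]
          exact CharTwo.add_self_eq_zero _
      rw [eq_of_add h3]
      exact k.2
    obtain ⟨σ, hσ⟩ : ∃ σ : D V, σ ≠ 0 := by
      have : Nontrivial (D V) := Module.nontrivial_of_finrank_pos (R := ZMod 2) (by
        rw [finrank_D]
        have : Module.finrank (ZMod 2) V = 3 := hV3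
        omega)
      exact exists_ne 0
    apply hN.ctx.top σ hσ (map_zero σ)
    rw [eq_top_iff]
    rintro χ -
    rw [mem_St]
    apply hall
    · intro x
      rw [wd_wu (map_zero σ), map_zero]
    · exact wd_symm _ _ _
  · -- `k ↦ k e` is not injective
    have hee : ∀ k ∈ R, k e e = 0 := by
      intro k hk
      by_cases h0 : k = 0
      · rw [h0]; rfl
      by_cases h1 : k e = 0
      · rw [h1]; rfl
      obtain ⟨τ, ψ, t1, t2, t3, t4, t5, t6, t7, t8⟩ := hT2 V e k (hwu k hk) (hrk k hk h0)
      rw [(t8 h1).1, t4]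
    let f : R →ₗ[ZMod 2] an (Submodule.span (ZMod 2) {e}) :=
      { toFun := fun k => ⟨(k : Fm V) e, fun x hx => by
          obtain ⟨c, rfl⟩ := Submodule.mem_span_singleton.1 hx
          rw [map_smul, hee k k.2, smul_zero]⟩
        map_add' := fun a b => rfl
        map_smul' := fun c a => rfl }
    have hdim : Module.finrank (ZMod 2) (an (Submodule.span (ZMod 2) {e})) < Module.finrank (ZMod 2) R := by
      have h1 := finrank_an (Submodule.span (ZMod 2) {e})
      rw [finrank_span_singleton he] at h1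
      have h2 : Module.finrank (ZMod 2) V = 3 := hV3
      have h3 : Module.finrank (ZMod 2) R = 3 := hR3
      omega
    obtain ⟨k₀, hk₀, hk₀0⟩ := (Submodule.ne_bot_iff _).1 (LinearMap.ker_ne_bot_of_finrank_lt (f := f) hdim)
    have e0 : (k₀ : Fm V) e = 0 := congrArg Subtype.val hk₀
    have k00 : (k₀ : Fm V) ≠ 0 := fun h => hk₀0 (Subtype.ext h)
    -- some form does not kill `e`
    obtain ⟨k, hk, hke⟩ : ∃ k ∈ R, k e ≠ 0 := by
      by_contra hc
      push Not at hc
      have : e ∈ rad R := fun k hk => hc k hk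
      rw [hN.ctx.nd] at this
      exact he this
    have hk0 : k ≠ 0 := by
      intro h; rw [h] at hke; exact hke rfl
    have hk' : k + k₀ ∈ R := R.add_mem hk k₀.2
    have hke' : (k + k₀ : Fm V) e = k e := by rw [LinearMap.add_apply, e0, add_zero]
    have hk0' : k + (k₀ : Fm V) ≠ 0 := by
      intro h; rw [h] at hke'; exact hke hke'.symm
    obtain ⟨τ, ψ, t1, t2, t3, t4, t5, t6, t7, t8⟩ := hT2 V e k (hwu k hk) (hrk k hk hk0)
    obtain ⟨τ', ψ', s1, s2, s3, s4, s5, s6, s7, s8⟩ := hT2 V e _ (hwu _ hk') (hrk _ hk' hk0')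
    obtain ⟨t9, t10⟩ := t8 hke
    obtain ⟨s9, s10⟩ := s8 (by rw [hke']; exact hke)
    have hττ : τ' = τ := by rw [← s9, hke', t9]
    subst hττ
    have m1 : τ' ∈ St e R τ' := self_mem_St e R t4
    have m2 : ψ ∈ St e R τ' := by rw [mem_St, ← t5]; exact hk
    have m3 : ψ' ∈ St e R τ' := by rw [mem_St, ← s5]; exact hk'
    have hw : wd e τ' (ψ + ψ') = k₀ := by
      rw [map_add, ← t5, ← s5, add_add_self]
    let g : D V →ₗ[ZMod 2] ZMod 2 := LinearMap.applyₗ e
    have hg : ∀ φ : D V, g φ = φ e := fun φ => rfl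
    have h5 := two_of_one (St e R τ') (hN.ctx.two τ' t1 t4) g (p := ψ) (a := τ') (b := ψ + ψ') m2 m1
      (Submodule.add_mem _ m2 m3) (by rw [hg, t10]) (by rw [hg, t4]) (by
        rw [hg, LinearMap.add_apply, t10, s10]; decide) t1 (by
        intro h
        rw [h, map_zero] at hw
        exact k00 hw.symm)
    rw [← h5, wd_self t4] at hw
    exact k00 hw.symm

end Pool.Agent.ESG
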