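import Pool.Agent.ESG.Stmts

set_option linter.unusedSectionVars false
set_option linter.unusedVariables false

namespace Pool.Agent.ESG.NA4X

open Pool.Agent.ESL Pool.Agent.ESG

variable {V : Type} [AddCommGroup V] [Module (ZMod 2) V]

/-- a two-dimensional space over `F_2` -/
theorem four {W : Type} [AddCommGroup W] [Module (ZMod 2) W] (R : Submodule (ZMod 2) W)
    (h : Module.finrank (ZMod 2) R = 2) :
    ∃ a ∈ R, ∃ b ∈ R, a ≠ 0 ∧ b ≠ 0 ∧ a ≠ b ∧ ∀ l ∈ R, l = 0 ∨ l = a ∨ l = b ∨ l = a + b := by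
  have hF : Module.Finite (ZMod 2) R := Module.finite_of_finrank_pos (by omega)
  let B := Module.finBasisOfFinrankEq (ZMod 2) R h
  refine ⟨(B 0 : R), (B 0).2, (B 1 : R), (B 1).2, ?_, ?_, ?_, ?_⟩
  · intro h0
    exact B.ne_zero 0 (Subtype.ext h0)
  · intro h0
    exact B.ne_zero 1 (Subtype.ext h0)
  · intro h0
    have h1 : (0 : Fin 2) = 1 := B.injective (Subtype.ext h0)
    exact absurd h1 (by decide)
  · intro l hl
    have h1 := B.sum_repr ⟨l, hl⟩
    rw [Fin.sum_univ_two] at h1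
    have h2 : B.repr ⟨l, hl⟩ 0 • ((B 0 : R) : W) + B.repr ⟨l, hl⟩ 1 • ((B 1 : R) : W) = l :=
      congrArg Subtype.val h1
    rcases zm (B.repr ⟨l, hl⟩ 0) with h3 | h3 <;> rcases zm (B.repr ⟨l, hl⟩ 1) with h4 | h4 <;>
      rw [h3, h4] at h2
    · left; rw [← h2]; simp
    · right; right; left; rw [← h2]; simp
    · right; left; rw [← h2]; simp
    · right; right; right; rw [← h2]; simp

/-- the three nonzero forms of `R` -/
structure Tri (R : FS V) (k k' : Fm V) : Prop where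
  lk : Linked R
  mem : k ∈ R
  mem' : k' ∈ R
  ne : k ≠ 0
  ne' : k' ≠ 0
  nee : k ≠ k'
  all : ∀ l ∈ R, l = 0 ∨ l = k ∨ l = k' ∨ l = k + k'

theorem Tri.swap {R : FS V} {k k' : Fm V} (h : Tri R k k') : Tri R k' k :=
  ⟨h.lk, h.mem', h.mem, h.ne', h.ne, h.nee.symm, fun l hl => by
    rcases h.all l hl with h1 | h1 | h1 | h1
    · exact Or.inl h1
    · exact Or.inr (Or.inr (Or.inl h1))
    · exact Or.inr (Or.inl h1)
    · exact Or.inr (Or.inr (Or.inr (by rw [h1, add_comm])))⟩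

theorem Tri.rot {R : FS V} {k k' : Fm V} (h : Tri R k k') : Tri R (k + k') k :=
  ⟨h.lk, R.add_mem h.mem h.mem', h.mem, fun h0 => h.nee (eq_of_add h0), h.ne, fun h0 => h.ne' (by
      have : k + k' + k = 0 := by rw [h0, add_self']
      rw [← this]
      rw [add_comm k k', add_add_self'])
    , fun l hl => by
    rcases h.all l hl with h1 | h1 | h1 | h1
    · exact Or.inl h1
    · exact Or.inr (Or.inr (Or.inl h1))
    · refine Or.inr (Or.inr (Or.inr ?_))
      rw [h1, add_comm k k', add_add_self']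
    · exact Or.inr (Or.inl h1)⟩

theorem Tri.link {R : FS V} {k k' : Fm V} (h : Tri R k k') {x y : V} {ψ : D V} (h0 : ψ ≠ 0)
    (hx : k x = ψ) (hy : k' y = ψ) :
    (k + k') y = 0 ∨ (k + k') x = 0 ∨ (k' x = 0 ∧ k y = 0) := by
  obtain ⟨l, hl, e1, e2⟩ := h.lk k h.mem k' h.mem' x y (hx.trans hy.symm)
  rw [hx] at e1 e2
  rcases h.all l hl with h1 | h1 | h1 | h1
  · subst h1
    exact absurd e1.symm h0
  · subst h1
    left
    rw [LinearMap.add_apply, e2, hy, add_self']
  · subst h1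
    right; left
    rw [LinearMap.add_apply, hx, e1, add_self']
  · subst h1
    right; right
    rw [LinearMap.add_apply] at e1 e2
    rw [hx] at e1
    rw [hy] at e2
    constructor
    · have : ψ + (ψ + k' x) = 0 := by rw [e1, add_self']
      rwa [add_add_self] at this
    · have : k y + ψ + ψ = 0 := by rw [e2, add_self']
      rwa [add_add_self'] at this

/-- two nonzero vectors in a kernel of dimension at most one -/
theorem uniq [Finite V] {k : Fm V} (h : fr (LinearMap.ker k) ≤ 1) {x y : V} (hx : x ≠ 0) (hy : y ≠ 0)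
    (h1 : k x = 0) (h2 : k y = 0) : x = y := by
  by_contra hne
  have hli : LinearIndependent (ZMod 2) ![(⟨x, h1⟩ : LinearMap.ker k), ⟨y, h2⟩] := by
    rw [LinearIndependent.pair_iff' (by intro h0; exact hx (congrArg Subtype.val h0))]
    intro a ha
    have ha' : a • x = y := congrArg Subtype.val ha
    rcases zm a with h3 | h3
    · rw [h3, zero_smul] at ha'; exact hy ha'.symm
    · rw [h3, one_smul] at ha'; exact hne ha'
  have := hli.fintype_card_le_finrank
  rw [Fintype.card_fin] at this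
  have h4 : Module.finrank (ZMod 2) (LinearMap.ker k) ≤ 1 := h
  omega

/-- case B: no `ker k` is zero -/
theorem caseB [Finite V] {R : FS V} {k k' : Fm V} (h : Tri R k k') (h1 : fr (LinearMap.ker (k + k')) ≤ 1)
    (h2 : 2 ≤ fr (LinearMap.range k')) (hsym : ∀ x y, k x y = k y x) (h3 : ∀ x, k x = 0 → x = 0) : False := by
  have key : ∀ ψ ∈ LinearMap.range k', ψ ≠ 0 → ∃ u, u ≠ 0 ∧ (k + k') u = 0 ∧ ψ = k u := by
    intro ψ hψ h0
    obtain ⟨y, hy⟩ := hψ
    have hr : ψ ∈ LinearMap.range k := (mem_range_iff hsym).2 (fun x hx => by rw [h3 x hx, map_zero])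
    obtain ⟨x, hx⟩ := hr
    have hy0 : y ≠ 0 := by
      intro hc; rw [hc, map_zero] at hy; exact h0 hy.symm
    have hx0 : x ≠ 0 := by
      intro hc; rw [hc, map_zero] at hx; exact h0 hx.symm
    rcases h.link h0 hx hy with h4 | h4 | h4
    · refine ⟨y, hy0, h4, ?_⟩
      rw [LinearMap.add_apply, hy] at h4
      exact (eq_of_add h4).symm
    · exact ⟨x, hx0, h4, hx.symm⟩
    · exact absurd (h3 y h4.2) hy0
  have hone : ∀ a ∈ LinearMap.range k', ∀ b ∈ LinearMap.range k', a ≠ 0 → b ≠ 0 → a = b := by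
    intro a ha b hb ha0 hb0
    obtain ⟨u, hu, hu1, hu2⟩ := key a ha ha0
    obtain ⟨v, hv, hv1, hv2⟩ := key b hb hb0
    rw [hu2, hv2, uniq h1 hu hv hu1 hv1]
  obtain ⟨a, b, hab⟩ : ∃ a b : LinearMap.range k', a ≠ 0 ∧ b ≠ 0 ∧ a ≠ b := by
    have hF : Module.Finite (ZMod 2) (LinearMap.range k') := inferInstance
    have hpos : Nontrivial (LinearMap.range k') :=
      Module.nontrivial_of_finrank_pos (R := ZMod 2) (by have : 2 ≤ Module.finrank (ZMod 2) (LinearMap.range k') := h2; omega)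
    obtain ⟨a, ha⟩ := exists_ne (0 : LinearMap.range k')
    by_contra hc
    push Not at hc
    have h5 := finrank_le_one (R := ZMod 2) a (fun w => by
      by_cases hw : w = 0
      · exact ⟨0, by rw [hw, zero_smul]⟩
      · exact ⟨1, by rw [one_smul]; exact hc a w ha hw⟩)
    have h6 : 2 ≤ Module.finrank (ZMod 2) (LinearMap.range k') := h2
    omega
  exact hab.2.2 (Subtype.ext (hone a a.2 b b.2 (fun h0 => hab.1 (Subtype.ext h0))
    (fun h0 => hab.2.1 (Subtype.ext h0))))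

/-- case A: the common values -/
theorem caseA [Finite V] {R : FS V} {k k' : Fm V} (h : Tri R k k')
    (h1 : fr (LinearMap.ker k) ≤ 1) (h2 : fr (LinearMap.ker k') ≤ 1) (h3 : fr (LinearMap.ker (k + k')) ≤ 1)
    {u u' u'' : V} (hu : u ≠ 0) (hu' : u' ≠ 0) (hu'' : u'' ≠ 0) (e1 : k u = 0) (e2 : k' u' = 0)
    (e3 : (k + k') u'' = 0) {φ : D V} (h0 : φ ≠ 0) (hr : φ ∈ LinearMap.range k)
    (hr' : φ ∈ LinearMap.range k') : k u' = φ ∧ k' u = φ := by
  obtain ⟨x0, hx⟩ := hr
  obtain ⟨y0, hy⟩ := hr'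
  have nz : ∀ x, k x = φ → x ≠ 0 := by
    intro x hx hc; rw [hc, map_zero] at hx; exact h0 hx.symm
  have nz' : ∀ y, k' y = φ → y ≠ 0 := by
    intro x hx hc; rw [hc, map_zero] at hx; exact h0 hx.symm
  have T : ∀ x y, k x = φ → k' y = φ → y = u'' ∨ x = u'' ∨ (x = u' ∧ y = u) := by
    intro x y hx hy
    rcases h.link h0 hx hy with h4 | h4 | h4
    · exact Or.inl (uniq h3 (nz' y hy) hu'' h4 e3)
    · exact Or.inr (Or.inl (uniq h3 (nz x hx) hu'' h4 e3))
    · exact Or.inr (Or.inr ⟨uniq h2 (nz x hx) hu' h4.1 e2, uniq h1 (nz' y hy) hu h4.2 e1⟩)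
  have hx1 : k (x0 + u) = φ := by rw [map_add, hx, e1, add_zero]
  have hy1 : k' (y0 + u') = φ := by rw [map_add, hy, e2, add_zero]
  have dx : x0 ≠ x0 + u := fun hc => hu (by
    have : x0 + (x0 + u) = 0 := by rw [← hc, add_self']
    rwa [add_add_self] at this)
  have dy : y0 ≠ y0 + u' := fun hc => hu' (by
    have : y0 + (y0 + u') = 0 := by rw [← hc, add_self']
    rwa [add_add_self] at this)
  -- some `y` is different from `u''`
  obtain ⟨y, hy2, hyn⟩ : ∃ y, k' y = φ ∧ y ≠ u'' := by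
    by_cases hc : y0 = u''
    · exact ⟨y0 + u', hy1, fun hc' => dy (hc.trans hc'.symm)⟩
    · exact ⟨y0, hy, hc⟩
  obtain ⟨x, hx2, hxn⟩ : ∃ x, k x = φ ∧ x ≠ u'' := by
    by_cases hc : x0 = u''
    · exact ⟨x0 + u, hx1, fun hc' => dx (hc.trans hc'.symm)⟩
    · exact ⟨x0, hx, hc⟩
  rcases T x y hx2 hy2 with h4 | h4 | h4
  · exact absurd h4 hyn
  · exact absurd h4 hxn
  · exact ⟨h4.1 ▸ hx2, h4.2 ▸ hy2⟩

theorem exists_fun [Finite V] (u u' : V) (h : 3 ≤ fr V) : ∃ τ : D V, τ ≠ 0 ∧ τ u = 0 ∧ τ u' = 0 := by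
  let f : D V →ₗ[ZMod 2] ZMod 2 × ZMod 2 :=
    { toFun := fun φ => (φ u, φ u')
      map_add' := fun a b => rfl
      map_smul' := fun c a => rfl }
  have h1 : Module.finrank (ZMod 2) (ZMod 2 × ZMod 2) < Module.finrank (ZMod 2) (D V) := by
    rw [finrank_D, Module.finrank_prod, Module.finrank_self]
    exact h
  have h2 := LinearMap.ker_ne_bot_of_finrank_lt (f := f) h1
  obtain ⟨τ, hτ, hτ0⟩ := (Submodule.ne_bot_iff _).1 h2
  have h3 : (τ u, τ u') = (0, 0) := hτ
  exact ⟨τ, hτ0, congrArg Prod.fst h3, congrArg Prod.snd h3⟩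

end Pool.Agent.ESG.NA4X

namespace Pool.Agent.ESG

open Pool.Agent.ESL NA4X

theorem na4_proof (hNA1 : Stmt_NA1) : Stmt_NA4 := by
  intro V _ _ _ e R hN hfr
  obtain ⟨n1, n2, n3, n4⟩ := hNA1 V e R hN (by omega)
  obtain ⟨k, hk, k', hk', h0, h0', hne, hall⟩ := four R hfr
  have hsym : ∀ l ∈ R, ∀ x y, l x y = l y x := fun l hl => symm_of_wu (hN.ctx.wu l hl)
  have hT : Tri R k k' := ⟨hN.ctx.sl.linked, hk, hk', h0, h0', hne, hall⟩
  have hk3 : k + k' ∈ R := R.add_mem hk hk'
  have h03 : k + k' ≠ 0 := fun hc => hne (eq_of_add hc)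
  have hs : k + k' + k = k' := by rw [add_comm k k', add_add_self']
  -- all kernels are nonzero
  have c1 : ∃ u, u ≠ 0 ∧ k u = 0 := by
    by_contra hc
    push Not at hc
    exact caseB hT (n1 _ hk3 h03) (n3 k' hk' h0') (hsym k hk) (fun x hx => by
      by_contra hx0; exact hc x hx0 hx)
  have c2 : ∃ u, u ≠ 0 ∧ k' u = 0 := by
    by_contra hc
    push Not at hc
    exact caseB hT.swap (by rw [add_comm]; exact n1 _ hk3 h03) (n3 k hk h0) (hsym k' hk') (fun x hx => by
      by_contra hx0; exact hc x hx0 hx)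
  have c3 : ∃ u, u ≠ 0 ∧ (k + k') u = 0 := by
    by_contra hc
    push Not at hc
    exact caseB hT.rot (by rw [hs]; exact n1 _ hk' h0') (n3 k hk h0) (hsym _ hk3) (fun x hx => by
      by_contra hx0; exact hc x hx0 hx)
  obtain ⟨u, hu, eu⟩ := c1
  obtain ⟨u', hu', eu'⟩ := c2
  obtain ⟨u'', hu'', eu''⟩ := c3
  have hker : ∀ x, k x = 0 → x = 0 ∨ x = u := fun x hx => by
    by_cases hc : x = 0
    · exact Or.inl hc
    · exact Or.inr (uniq (n1 k hk h0) hc hu hx eu)
  have hker' : ∀ x, k' x = 0 → x = 0 ∨ x = u' := fun x hx => by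
    by_cases hc : x = 0
    · exact Or.inl hc
    · exact Or.inr (uniq (n1 k' hk' h0') hc hu' hx eu')
  -- functionals vanishing at `u` and `u'`
  have hval : ∀ φ : D V, φ u = 0 → φ u' = 0 → φ ≠ 0 → k u' = φ ∧ k' u = φ := by
    intro φ h1 h2 hφ
    apply caseA hT (n1 k hk h0) (n1 k' hk' h0') (n1 _ hk3 h03) hu hu' hu'' eu eu' eu'' hφ
    · exact (mem_range_iff (hsym k hk)).2 (fun x hx => by
        rcases hker x hx with h3 | h3 <;> rw [h3]
        · exact map_zero φ
        · exact h1)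
    · exact (mem_range_iff (hsym k' hk')).2 (fun x hx => by
        rcases hker' x hx with h3 | h3 <;> rw [h3]
        · exact map_zero φ
        · exact h2)
  obtain ⟨τ, hτ0, hτu, hτu'⟩ := exists_fun u u' n4
  obtain ⟨a1, a2⟩ := hval τ hτu hτu' hτ0
  have hτe : τ e = 0 := by
    have h5 := hN.ctx.wu k hk u'
    rw [a1] at h5
    rw [← h5, hτu']
  obtain ⟨z, hz⟩ : ∃ z, τ z = 1 := by
    by_contra hc
    push Not at hc
    exact hτ0 (LinearMap.ext fun x => zm_ne' (hc x))
  -- a form killing `u`, `u'` and `z` is zero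
  have hzero : ∀ δ : Fm V, (∀ x y, δ x y = δ y x) → δ u = 0 → δ u' = 0 → δ z = 0 → δ = 0 := by
    intro δ hs d1 d2 d3
    refine LinearMap.ext fun x => ?_
    by_contra hc
    have h5 := (hval (δ x) (by rw [hs, d1]; rfl) (by rw [hs, d2]; rfl) hc).1
    have h6 : δ x z = 0 := by rw [hs, d3]; rfl
    rw [← h5, a1, hz] at h6
    exact absurd h6 (by decide)
  have hform : ∀ l ∈ R, (l u = 0 ∧ l u' = τ) ∨ (l u = τ ∧ l u' = 0) → wd e τ (l z) = l := by
    intro l hl hcase
    have hls := hsym l hl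
    have hzz : l z (z + e) = 0 := by
      rw [map_add, hN.ctx.wu l hl z, CharTwo.add_self_eq_zero]
    have hd : wd e τ (l z) + l = 0 := by
      apply hzero
      · intro x y
        rw [LinearMap.add_apply, LinearMap.add_apply, LinearMap.add_apply, LinearMap.add_apply, wd_symm, hls]
      · rw [LinearMap.add_apply]
        rcases hcase with h5 | h5
        · rw [wd_of_zero hτu, hls z u, h5.1]
          simp
        · rw [wd_of_zero_one hτu (by rw [hls z u, h5.1, hz]), h5.1, add_self']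
      · rw [LinearMap.add_apply]
        rcases hcase with h5 | h5
        · rw [wd_of_zero_one hτu' (by rw [hls z u', h5.2, hz]), h5.2, add_self']
        · rw [wd_of_zero hτu', hls z u', h5.2]
          simp
      · rw [LinearMap.add_apply, wd_of_one_zero hz hzz, add_self']
    exact eq_of_add hd
  have f1 := hform k hk (Or.inl ⟨eu, a1⟩)
  have f2 := hform k' hk' (Or.inr ⟨a2, eu'⟩)
  have v1 : k z u' = 1 := by rw [hsym k hk z u', a1, hz]
  have v2 : k z u = 0 := by rw [hsym k hk z u, eu]; rfl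
  have v3 : k' z u = 1 := by rw [hsym k' hk' z u, a2, hz]
  have v4 : k' z u' = 0 := by rw [hsym k' hk' z u', eu']; rfl
  apply hN.ctx.top τ hτ0 hτe
  rw [eq_top_iff]
  rintro χ -
  rw [mem_St]
  -- subtract the values
  have hχ : wd e τ (χ + (χ u' • k z + χ u • k' z)) = 0 := by
    by_cases hc : χ + (χ u' • k z + χ u • k' z) = 0
    · rw [hc, map_zero]
    · have h5 := (hval (χ + (χ u' • k z + χ u • k' z)) (by
        rw [LinearMap.add_apply, LinearMap.add_apply, LinearMap.smul_apply, LinearMap.smul_apply, v2, v3]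
        rcases zm (χ u) with h6 | h6 <;> rcases zm (χ u') with h7 | h7 <;> rw [h6, h7] <;> decide) (by
        rw [LinearMap.add_apply, LinearMap.add_apply, LinearMap.smul_apply, LinearMap.smul_apply, v1, v4]
        rcases zm (χ u) with h6 | h6 <;> rcases zm (χ u') with h7 | h7 <;> rw [h6, h7] <;> decide) hc).1
      rw [← h5, a1, wd_self hτe]
  rw [map_add, map_add, map_smul, map_smul, f1, f2] at hχ
  rw [eq_of_add hχ]
  exact R.add_mem (R.smul_mem _ hk) (R.smul_mem _ hk')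

end Pool.Agent.ESG
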