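import Pool.Agent.ESG.Stmts

/-!
Module NG: atoms of rank at least two which are not good have rank `n - 1` (at most one rank one form).
-/

set_option linter.unusedSectionVars false
set_option linter.unusedVariables false

namespace Pool.Agent.ESG

open Pool.Agent.ESL

namespace NGX

variable {V : Type} [AddCommGroup V] [Module (ZMod 2) V]

/-- an atom has a nontrivial kernel -/
theorem rank_lt [Finite V] {R : FS V} {a : Fm V} (h : Atom R a) : fr (LinearMap.range a) + 1 ≤ fr V := by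
  obtain ⟨w, hw, hat⟩ := h
  have h1 := fr_range_add_ker a
  have h2 : 0 < fr (LinearMap.ker a) := by
    rw [Module.finrank_pos_iff_exists_ne_zero]
    exact ⟨⟨w, LinearMap.mem_ker.2 hat.2.1⟩, fun h => hw (congrArg Subtype.val h)⟩
  omega

theorem arith {n r g : ℕ} (hr : 2 ≤ r) (h1 : r ≤ n) (h2 : n ≤ r + g) (h3 : r * g + 1 ≤ n) : n ≤ r + 1 := by
  obtain ⟨k, rfl⟩ := Nat.exists_eq_add_of_le h1
  obtain ⟨s, rfl⟩ := Nat.exists_eq_add_of_le hr
  have h4 : k ≤ g := by omega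
  have h5 : (2 + s) * k ≤ (2 + s) * g := Nat.mul_le_mul_left _ h4
  by_contra hc
  push Not at hc
  have h6 : 2 ≤ k := by omega
  nlinarith

end NGX

open NGX

theorem ng_proof (h1 : Stmt_G1A) (h2 : Stmt_G2) (h3 : Stmt_G2A) (h5 : Stmt_G5) : Stmt_NG := by
  classical
  intro V _ _ _ e R hR hX a ha ha2 hng
  have hex : ∃ r, ∃ b, Atom R b ∧ 2 ≤ fr (LinearMap.range b) ∧ ¬ Good R b ∧
      fr (LinearMap.range b) = r := ⟨_, a, ha, ha2, hng, rfl⟩
  obtain ⟨b, hb, hb2, hbg, hbr⟩ := Nat.find_spec hex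
  have hmin : ∀ c, Atom R c → 2 ≤ fr (LinearMap.range c) → ¬ Good R c →
      Nat.find hex ≤ fr (LinearMap.range c) := fun c hc hc2 hcg =>
    Nat.find_min' hex ⟨c, hc, hc2, hcg, rfl⟩
  set r := Nat.find hex with hr
  have hr2 : 2 ≤ r := by rw [← hbr]; exact hb2
  have hbn := rank_lt hb
  -- `b` is not good
  have hbg' : ∃ φ ∈ LinearMap.range b, φ ≠ 0 ∧ ∃ y, φ ∈ Lx R y ∧ b y ≠ φ := by
    by_contra hc
    push Not at hc
    exact hbg fun φ hφ hφ0 x hx => hc φ hφ hφ0 x hx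
  obtain ⟨φ, hφ, hφ0, y, hy, hby⟩ := hbg'
  have hy0 : y ≠ 0 := by
    rintro rfl
    rw [Lx_zero] at hy
    exact hφ0 ((Submodule.mem_bot _).1 hy)
  have hblk := h1 V e R hR b hb φ hφ hφ0
  have hg := h2 V e R hR hX φ b y hblk hy hby
  have hnot : ∀ c, At R y c → 2 ≤ fr (LinearMap.range c) → r ≤ fr (LinearMap.range c) := by
    intro c hc hc2
    apply hmin c ⟨y, hy0, hc⟩ hc2
    intro hgood
    exact hby (h5 V e R hR c ⟨y, hy0, hc⟩ hgood hc2 φ b y hblk hy hc.2.1 y hy)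
  have hg2 := h3 V e R hR y hy0 r hnot
  have hsum := fr_range_add_ker b
  rw [hbr] at hsum hbn
  have hn : fr V ≤ r + 1 := arith hr2 (by omega) (by omega) hg2
  have h4 := hmin a ha ha2 hng
  have h6 := rank_lt ha
  omega

end Pool.Agent.ESG
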