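import Pool.Agent.ESG.Stmts

/-!
Module PARTI: assembly of Part I.
-/

namespace Pool.Agent.ESG

open Pool.Agent.ESL

theorem parti_proof (hC3 : Stmt_C3) (hSAT : Stmt_SAT) (hCROSS : Stmt_CROSS)
    (hENDD : Stmt_ENDD) : Stmt_PARTI := by
  intro V _ _ _ e R τ M h hIH
  have hoc : OC R M := hC3 V e R τ M h
  have hsat : M ⊔ cent R M = ⊤ := hSAT V R M h.wu.sym h.sl.linked hoc
  have hτM : ∀ m ∈ M, τ m = 0 := (h.star τ).1 (by rw [wd_self h.τe]; exact R.zero_mem)
  have hcross := hCROSS V e R τ M h.wu h.sl.linked h.nd h.τ0 h.τe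
    (fun ψ hψ => (h.star ψ).2 hψ) hτM hsat
  have hne : M ≠ ⊤ := by
    rintro rfl
    have h4 : fr (⊤ : Submodule (ZMod 2) V) = fr V := finrank_top (ZMod 2) V
    have := h.three
    omega
  exact hENDD V e R M h.wu h.sl h.nd hIH h.ne hne hsat hcross

end Pool.Agent.ESG
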