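import Pool.Agent.ESG.Stmts

/-!
Module PARTII: assembly of Part II.
-/

namespace Pool.Agent.ESG

open Pool.Agent.ESL

namespace PARTIIX

variable {V : Type} [AddCommGroup V] [Module (ZMod 2) V]

/-- a space of dimension at most one is local -/
theorem et_of_fr_le_one [Finite V] {e : V} {R : FS V} (hR : IsWu e R) (h : fr R ≤ 1) : ET e R := by
  obtain ⟨v, hv⟩ := finrank_le_one_iff.1 h
  have h4 : R = Submodule.span (ZMod 2) {(v : Fm V)} := by
    apply le_antisymm
    · intro k hk
      obtain ⟨c, hc⟩ := hv ⟨k, hk⟩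
      rw [Submodule.mem_span_singleton]
      exact ⟨c, congrArg Subtype.val hc⟩
    · rw [Submodule.span_singleton_le_iff_mem]
      exact v.2
  rw [h4]
  exact ET.loc _ (hR v v.2)

end PARTIIX

open PARTIIX in
theorem partii_proof (hGB4 : Stmt_GB4) (hGB1 : Stmt_GB1) (hGA3 : Stmt_GA3) (hGA4 : Stmt_GA4)
    (_hNA1 : Stmt_NA1) (hNA2 : Stmt_NA2) (hNA3 : Stmt_NA3) (hNA4 : Stmt_NA4) (hXEND : Stmt_XEND)
    (_hRA : Stmt_RA) (hRG : Stmt_RG) : Stmt_PARTII := by
  intro V _ _ _ e R hc hIH
  by_cases h1 : fr R ≤ 1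
  · exact et_of_fr_le_one hc.wu h1
  have h2 : 2 ≤ fr R := by omega
  by_cases hX : X1 R
  · -- at most one rank one form
    have key : ∀ a, Atom R a → Good R a → GBlk R a → ET e R := by
      intro a ha hg hb
      obtain ⟨w, hw, haR, haw, ha0, -⟩ := id ha
      exact hGA4 V e R hc.wu hc.sl hc.nd hIH a haR ha0 hg (hGA3 V e R hc a ha hg hb)
    by_cases hA : ∃ a, Atom R a ∧ Good R a ∧ 2 ≤ fr (LinearMap.range a)
    · obtain ⟨a, ha, hg, h3⟩ := hA
      exact key a ha hg (hGB4 V e R hc a ha hg h3)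
    · push Not at hA
      by_cases hB : ∃ a, Atom R a ∧ Good R a
      · obtain ⟨a, ha, hg⟩ := hB
        exact key a ha hg (hGB1 V e R hc hX (fun b hb hgb h3 => absurd h3 (not_le.2 (hA b hb hgb))) a ha hg)
      · push Not at hB
        have hN : CtxN e R := ⟨hc, hB⟩
        rcases hNA2 V e R hN h2 with h3 | ⟨h3, h4, h5⟩
        · exact absurd h3 (hNA4 V e R hN)
        · exact absurd ⟨h3, h4, h5⟩ (hNA3 V e R hN)
  · -- two rank one forms
    unfold X1 at hX
    push Not at hX
    obtain ⟨f, g, hf0, hg0, hf, hg, hne⟩ := hX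
    have fe := (hRG V e R hc.wu f hf0 hf).1
    have ge := (hRG V e R hc.wu g hg0 hg).1
    exact hXEND V e R f g (co (Submodule.span (ZMod 2) {f, g}))
      { ctx := hc, hf := hf, hg := hg, fe := fe, ge := ge, ne := hne
        mem := by
          intro x
          rw [mem_co]
          constructor
          · intro h
            exact ⟨h f (Submodule.subset_span (by simp)), h g (Submodule.subset_span (by simp))⟩
          · rintro ⟨h3, h4⟩ φ hφ
            obtain ⟨a, b, rfl⟩ := Submodule.mem_span_pair.1 hφ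
            rw [LinearMap.add_apply, LinearMap.smul_apply, LinearMap.smul_apply, h3, h4, smul_zero, smul_zero,
              add_zero] } hIH

end Pool.Agent.ESG
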