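import Mathlib
import Pool.Agent.ESG.StmtsJ

/-!
Squad ESG, module PRODREC: recognition of products (general `-1`).
-/

set_option autoImplicit false

namespace Pool.Agent.ESG

open Pool.Agent.ESL

namespace PRODRECX

open QS

/-- The structure induced on a subgroup which is closed under (QS4), with new `-1` equal to `n`. -/
def sub (S : QStruct) (A : Subgroup S.G) (n : A)
    (hn : ∀ a : A, S.q (a : S.G) ((n : S.G) * (a : S.G)) = S.zero)
    (h4 : ∀ a ∈ A, ∀ b ∈ A, ∀ c ∈ A, ∀ d ∈ A, S.q a b = S.q c d →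
      ∃ x ∈ A, S.q a b = S.q a x ∧ S.q c d = S.q c x) : QStruct where
  G := A
  Q := {β : S.Q // ∃ a b : A, S.q a b = β}
  neg := n
  zero := ⟨S.zero, 1, 1, S.q_one 1⟩
  q := fun a b => ⟨S.q a b, a, b, rfl⟩
  exp_two := fun a => Subtype.ext (S.exp_two a)
  surj := by
    rintro ⟨β, a, b, h⟩
    exact ⟨a, b, Subtype.ext h⟩
  qs1 := fun a => by
    apply Subtype.ext
    exact hn a
  qs2 := fun a b => Subtype.ext (S.qs2 a b)
  qs3 := by
    intro a b c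
    rw [Subtype.mk.injEq, Subtype.mk.injEq]
    exact S.qs3 _ _ _
  qs4 := by
    intro a b c d h
    obtain ⟨x, hx, h1, h2⟩ := h4 a a.2 b b.2 c c.2 d d.2 (congrArg Subtype.val h)
    exact ⟨⟨x, hx⟩, Subtype.ext h1, Subtype.ext h2⟩

theorem sub_zero_iff (S : QStruct) (A : Subgroup S.G) (n : A)
    (hn : ∀ a : A, S.q (a : S.G) ((n : S.G) * (a : S.G)) = S.zero)
    (h4 : ∀ a ∈ A, ∀ b ∈ A, ∀ c ∈ A, ∀ d ∈ A, S.q a b = S.q c d →
      ∃ x ∈ A, S.q a b = S.q a x ∧ S.q c d = S.q c x) (x y : A) :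
    (sub S A n hn h4).q x y = (sub S A n hn h4).zero ↔ S.q (x : S.G) (y : S.G) = S.zero := by
  show (⟨S.q (x : S.G) (y : S.G), _⟩ : {β : S.Q // ∃ a b : A, S.q a b = β}) = ⟨S.zero, _⟩ ↔ _
  rw [Subtype.mk.injEq]

/-- the isomorphism `A × B ≃* G` -/
noncomputable def prodEquiv {G : Type} [CommGroup G] (A B : Subgroup G) (h : IsCompl A B) :
    A × B ≃* G :=
  MulEquiv.ofBijective (MonoidHom.coprod A.subtype B.subtype) (by
    constructor
    · rw [injective_iff_map_eq_one]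
      rintro ⟨a, b⟩ hab
      have hab' : (a : G) * (b : G) = 1 := by simpa using hab
      have ha : (a : G) ∈ B := by
        have : (a : G) = (b : G)⁻¹ := eq_inv_of_mul_eq_one_left hab'
        rw [this]; exact B.inv_mem b.2
      have ha1 : (a : G) = 1 := by
        have := (Subgroup.disjoint_def.1 h.disjoint) a.2 ha
        exact this
      have hb1 : (b : G) = 1 := by
        rw [ha1, one_mul] at hab'; exact hab'
      exact Prod.ext (Subtype.ext ha1) (Subtype.ext hb1)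
    · intro g
      have : g ∈ A ⊔ B := by rw [h.sup_eq_top]; trivial
      obtain ⟨a, ha, b, hb, hab⟩ := Subgroup.mem_sup.1 this
      exact ⟨(⟨a, ha⟩, ⟨b, hb⟩), by simpa using hab⟩)

theorem prodEquiv_apply {G : Type} [CommGroup G] (A B : Subgroup G) (h : IsCompl A B)
    (p : A × B) : prodEquiv A B h p = (p.1 : G) * (p.2 : G) := rfl

theorem prod_iff (S : QStruct) (A B : Subgroup S.G) (nA : A) (nB : B)
    (hnA : ∀ a : A, S.q (a : S.G) ((nA : S.G) * (a : S.G)) = S.zero)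
    (hnB : ∀ a : B, S.q (a : S.G) ((nB : S.G) * (a : S.G)) = S.zero)
    (h4A : ∀ a ∈ A, ∀ b ∈ A, ∀ c ∈ A, ∀ d ∈ A, S.q a b = S.q c d →
      ∃ x ∈ A, S.q a b = S.q a x ∧ S.q c d = S.q c x)
    (h4B : ∀ a ∈ B, ∀ b ∈ B, ∀ c ∈ B, ∀ d ∈ B, S.q a b = S.q c d →
      ∃ x ∈ B, S.q a b = S.q a x ∧ S.q c d = S.q c x) (hAB : IsCompl A B)
    (hq : ∀ a ∈ A, ∀ b ∈ B, ∀ a' ∈ A, ∀ b' ∈ B, S.q (a * b) (a' * b') = S.zero ↔
      S.q a a' = S.zero ∧ S.q b b' = S.zero) (xa : A) (xb : B) (ya : A) (yb : B) :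
    (QS.prod (sub S A nA hnA h4A) (sub S B nB hnB h4B)).q (xa, xb) (ya, yb) =
      (QS.prod (sub S A nA hnA h4A) (sub S B nB hnB h4B)).zero ↔
        S.q (prodEquiv A B hAB (xa, xb)) (prodEquiv A B hAB (ya, yb)) = S.zero := by
  rw [prodEquiv_apply, prodEquiv_apply, hq _ xa.2 _ xb.2 _ ya.2 _ yb.2]
  show ((sub S A nA hnA h4A).q xa ya, (sub S B nB hnB h4B).q xb yb) =
      ((sub S A nA hnA h4A).zero, (sub S B nB hnB h4B).zero) ↔ _
  rw [Prod.mk.injEq]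
  exact and_congr (sub_zero_iff S A nA hnA h4A xa ya) (sub_zero_iff S B nB hnB h4B xb yb)

end PRODRECX

open QS PRODRECX

theorem prodrec_proof (h : Pool.Agent.ESL.Stmt_ISOC) : Stmt_PRODREC := by
  intro S A B hAB hq
  have keyA : ∀ a ∈ A, ∀ b ∈ A, ∀ x, S.q a b = S.q a x → ∀ xa ∈ A, ∀ xb ∈ B, xa * xb = x →
      S.q a b = S.q a xa := by
    intro a ha b hb x hx xa hxa xb hxb e
    rw [S.qs3, ← e, ← mul_assoc] at hx
    have := (hq a ha 1 B.one_mem (b * xa) (A.mul_mem hb hxa) xb hxb).1 (by rwa [mul_one])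
    rw [S.qs3]; exact this.1
  have keyB : ∀ a ∈ B, ∀ b ∈ B, ∀ x, S.q a b = S.q a x → ∀ xa ∈ A, ∀ xb ∈ B, xa * xb = x →
      S.q a b = S.q a xb := by
    intro a ha b hb x hx xa hxa xb hxb e
    rw [S.qs3, ← e, mul_left_comm] at hx
    have := (hq 1 A.one_mem a ha xa hxa (b * xb) (B.mul_mem hb hxb)).1 (by rwa [one_mul])
    rw [S.qs3]; exact this.2
  have dec : ∀ x : S.G, ∃ xa ∈ A, ∃ xb ∈ B, xa * xb = x := by
    intro x
    have : x ∈ A ⊔ B := by rw [hAB.sup_eq_top]; trivial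
    exact Subgroup.mem_sup.1 this
  have h4A : ∀ a ∈ A, ∀ b ∈ A, ∀ c ∈ A, ∀ d ∈ A, S.q a b = S.q c d →
      ∃ x ∈ A, S.q a b = S.q a x ∧ S.q c d = S.q c x := by
    intro a ha b hb c hc d hd e
    obtain ⟨x, h1, h2⟩ := S.qs4 a b c d e
    obtain ⟨xa, hxa, xb, hxb, ex⟩ := dec x
    exact ⟨xa, hxa, keyA a ha b hb x h1 xa hxa xb hxb ex, keyA c hc d hd x h2 xa hxa xb hxb ex⟩
  have h4B : ∀ a ∈ B, ∀ b ∈ B, ∀ c ∈ B, ∀ d ∈ B, S.q a b = S.q c d →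
      ∃ x ∈ B, S.q a b = S.q a x ∧ S.q c d = S.q c x := by
    intro a ha b hb c hc d hd e
    obtain ⟨x, h1, h2⟩ := S.qs4 a b c d e
    obtain ⟨xa, hxa, xb, hxb, ex⟩ := dec x
    exact ⟨xb, hxb, keyB a ha b hb x h1 xa hxa xb hxb ex, keyB c hc d hd x h2 xa hxa xb hxb ex⟩
  obtain ⟨nA, hA, nB, hB, hn⟩ := dec S.neg
  have hnA : ∀ a : A, S.q (a : S.G) (((⟨nA, hA⟩ : A) : S.G) * (a : S.G)) = S.zero := by
    intro a
    have h0 := S.qs1 (a : S.G)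
    rw [← hn, mul_right_comm] at h0
    have := (hq a a.2 1 B.one_mem (nA * a) (A.mul_mem hA a.2) nB hB).1 (by rwa [mul_one])
    exact this.1
  have hnB : ∀ a : B, S.q (a : S.G) (((⟨nB, hB⟩ : B) : S.G) * (a : S.G)) = S.zero := by
    intro a
    have h0 := S.qs1 (a : S.G)
    rw [← hn, mul_assoc] at h0
    have := (hq 1 A.one_mem a a.2 nA hA (nB * a) (B.mul_mem hB a.2)).1 (by rwa [one_mul])
    exact this.2
  refine ⟨sub S A ⟨nA, hA⟩ hnA h4A, sub S B ⟨nB, hB⟩ hnB h4B, MulEquiv.refl A, MulEquiv.refl B,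
    hn, sub_zero_iff S A ⟨nA, hA⟩ hnA h4A, sub_zero_iff S B ⟨nB, hB⟩ hnB h4B, ?_⟩
  refine h (QS.prod (sub S A ⟨nA, hA⟩ hnA h4A) (sub S B ⟨nB, hB⟩ hnB h4B)) S
    (prodEquiv A B hAB) ?_ ?_
  · exact hn
  · rintro ⟨xa, xb⟩ ⟨ya, yb⟩
    exact prod_iff S A B ⟨nA, hA⟩ ⟨nB, hB⟩ hnA hnB h4A h4B hAB hq xa xb ya yb

end Pool.Agent.ESG
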