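import Pool.Agent.ESG.Stmts

/-!
Forms of rank one are atoms.
-/

set_option linter.unusedSectionVars false
set_option linter.unusedVariables false

namespace Pool.Agent.ESG

open Pool.Agent.ESL

namespace RAX

variable {V : Type} [AddCommGroup V] [Module (ZMod 2) V]

theorem rho_ne {φ : D V} (h : φ ≠ 0) : rho φ ≠ 0 := by
  intro h0
  have : ∃ x, φ x ≠ 0 := by
    by_contra hc
    push Not at hc
    exact h (LinearMap.ext hc)
  obtain ⟨x, hx⟩ := this
  have h1 : rho φ x x = 0 := by rw [h0]; rfl
  rw [rho_apply₂, zm_ne hx] at h1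
  exact absurd h1 (by decide)

/-- a form with values in a line -/
theorem of_range {e : V} {k : Fm V} (hk : ∀ x, k x x = k x e) {φ : D V}
    (h : LinearMap.range k ≤ Submodule.span (ZMod 2) {φ}) : k = 0 ∨ k = rho φ := by
  by_cases h0 : k = 0
  · exact Or.inl h0
  right
  have hv : ∀ x, k x = 0 ∨ k x = φ := by
    intro x
    obtain ⟨c, hc⟩ := Submodule.mem_span_singleton.1 (h ⟨x, rfl⟩)
    rcases zm c with h1 | h1
    · left; rw [← hc, h1, zero_smul]
    · right; rw [← hc, h1, one_smul]
  obtain ⟨z, hz⟩ : ∃ z, k z ≠ 0 := by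
    by_contra hc
    push Not at hc
    exact h0 (LinearMap.ext hc)
  have hz' : k z = φ := (hv z).resolve_left hz
  have hs := symm_of_wu hk
  have hf : φ ≠ 0 := by rw [← hz']; exact hz
  obtain ⟨y, hy⟩ : ∃ y, φ y ≠ 0 := by
    by_contra hc
    push Not at hc
    exact hf (LinearMap.ext hc)
  have key : ∀ x, φ x = 0 → k x = 0 := by
    intro x hx
    rcases hv x with h1 | h1
    · exact h1
    · exfalso
      have h2 : k x y = φ y := by rw [h1]
      have h3 : k y x = 0 := by
        rcases hv y with h4 | h4
        · rw [h4]; rfl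
        · rw [h4, hx]
      rw [hs x y, h3] at h2
      exact hy h2.symm
  apply LinearMap.ext
  intro x
  rw [rho_apply]
  rcases zm (φ x) with h1 | h1
  · rw [key x h1, h1, zero_smul]
  · rw [h1, one_smul]
    have hzz : φ z = 1 := by
      rcases zm (φ z) with h2 | h2
      · exact absurd (key z h2) hz
      · exact h2
    have h2 : k (x + z) = 0 := key _ (by rw [map_add, h1, hzz]; rfl)
    rw [map_add, hz'] at h2
    exact eq_of_add h2

end RAX

open RAX in
theorem ra_proof : Stmt_RA := by
  intro V _ _ _ e R hR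
  refine ⟨?_, ?_⟩
  · intro φ hφ hρ w hw
    refine ⟨hρ, ?_, rho_ne hφ, ?_⟩
    · rw [rho_apply, hw, zero_smul]
    · intro k hk _ hle
      exact of_range (hR k hk) (hle.trans (range_rho_le φ))
  · intro a ha ha0 hr
    obtain ⟨z, hz⟩ : ∃ z, a z ≠ 0 := by
      by_contra hc
      push Not at hc
      exact ha0 (LinearMap.ext hc)
    refine ⟨a z, hz, ?_⟩
    have hle : Submodule.span (ZMod 2) {a z} ≤ LinearMap.range a := by
      rw [Submodule.span_singleton_le_iff_mem]
      exact ⟨z, rfl⟩
    have heq : Submodule.span (ZMod 2) {a z} = LinearMap.range a := by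
      apply Submodule.eq_of_le_of_finrank_le hle
      rw [finrank_span_singleton hz]
      exact hr
    exact (of_range (hR a ha) heq.ge).resolve_left ha0

end Pool.Agent.ESG
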