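import Pool.Agent.ESG.Stmts

/-!
Squad ESG, module RG: rank one forms are good.
-/

namespace Pool.Agent.ESG

open Pool.Agent.ESL

theorem rg_proof : Stmt_RG := by
  intro V _ _ _ e R hR φ hφ hmem
  have hx : ∃ x, φ x = 1 := by
    by_contra hcon
    push Not at hcon
    apply hφ
    ext x
    exact zm_ne' (hcon x)
  obtain ⟨x0, hx0⟩ := hx
  have he : φ e = 1 := by
    have h := hR _ hmem x0
    rw [rho_apply₂, rho_apply₂, hx0, one_mul, one_mul] at h
    exact h.symm
  refine ⟨he, ?_⟩
  intro ψ hψ hψ0 x hx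
  have hψφ : ψ = φ := by
    have h1 := range_rho_le φ hψ
    obtain ⟨c, hc⟩ := Submodule.mem_span_singleton.mp h1
    rcases zm c with h | h
    · rw [h, zero_smul] at hc
      exact absurd hc.symm hψ0
    · rw [h, one_smul] at hc
      exact hc.symm
  subst hψφ
  have h2 := Lx_e hR hx
  rw [map_add, he] at h2
  have h3 : ψ x = 1 := by
    rcases zm (ψ x) with h | h
    · rw [h] at h2; exact absurd h2 (by decide)
    · exact h
  rw [rho_apply, h3, one_smul]

end Pool.Agent.ESG
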