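import Pool.Agent.ESG.RK2

/-!
Module RK1: the component of a form of rank one.
-/

namespace Pool.Agent.ESG

open Pool.Agent.ESL

namespace RK1X

variable {V : Type} [AddCommGroup V] [Module (ZMod 2) V]

theorem rho_ne {φ : D V} (h : φ ≠ 0) : rho φ ≠ 0 := by
  intro h0
  have : LinearMap.range (rho φ) = Submodule.span (ZMod 2) {φ} := range_rho
  rw [h0, LinearMap.range_zero] at this
  have h1 : φ ∈ (⊥ : Submodule (ZMod 2) (D V)) := by
    rw [this]; exact Submodule.mem_span_singleton_self φ
  exact h ((Submodule.mem_bot _).1 h1)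

theorem mem_span_sing {E : Type} [AddCommGroup E] [Module (ZMod 2) E] {x y : E}
    (h : x ∈ Submodule.span (ZMod 2) {y}) : x = 0 ∨ x = y := by
  obtain ⟨c, rfl⟩ := Submodule.mem_span_singleton.1 h
  rcases zm c with rfl | rfl
  · left; rw [zero_smul]
  · right; rw [one_smul]

/-- the range of `φ ⊗ φ` determines `φ` -/
theorem rho_inj {φ ψ : D V} (h : φ ≠ 0) (hh : rho φ = rho ψ) : φ = ψ := by
  have h1 : φ ∈ Submodule.span (ZMod 2) {ψ} := by
    rw [← range_rho, ← hh, range_rho]
    exact Submodule.mem_span_singleton_self φ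
  rcases mem_span_sing h1 with h2 | h2
  · exact absurd h2 h
  · exact h2

theorem Sp_rho (φ : D V) : Sp (Submodule.span (ZMod 2) {rho φ}) = Submodule.span (ZMod 2) {φ} := by
  rw [Sp_span, range_rho]

theorem disj_span {E : Type} [AddCommGroup E] [Module (ZMod 2) E] {x y : E} (hx : x ≠ 0)
    (hxy : x ≠ y) : Disjoint (Submodule.span (ZMod 2) {x}) (Submodule.span (ZMod 2) {y}) := by
  rw [Submodule.disjoint_def]
  intro z hz hz'
  rcases mem_span_sing hz with h1 | h1
  · exact h1
  · rcases mem_span_sing hz' with h2 | h2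
    · exact h2
    · exact absurd (h1.symm.trans h2) hxy

/-- `[τ, ψ]` is not of rank one -/
theorem wd_ne_rho [Finite V] {e : V} {τ ψ φ : D V} (he : τ e = 0) (h : wd e τ ψ ≠ 0) : wd e τ ψ ≠ rho φ := by
  intro hh
  have h1 := RK2X.left_mem_range he h
  have h2 := RK2X.right_mem_range he h
  rw [hh, range_rho] at h1 h2
  rcases mem_span_sing h1 with h3 | h3
  · exact RK2X.left_ne h h3
  · rcases mem_span_sing h2 with h4 | h4
    · exact RK2X.right_ne h h4
    · exact RK2X.ne he h (h4.trans h3.symm)

end RK1X

open COMPX RK1X in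
theorem rk1_proof (hrho : Stmt_RHO1) (hwu : Stmt_ETWU) (hline : Stmt_LINE) : Stmt_RK1 := by
  intro V _ _ _ e R h
  induction h with
  | loc k h =>
    intro φ hφ hm
    have hk : rho φ = k := by
      rcases mem_span_sing hm with h1 | h1
      · exact absurd h1 (rho_ne hφ)
      · exact h1
    refine ⟨_, ⊥, (sup_bot_eq _).symm, by rw [Sp_bot]; exact disjoint_bot_right, hm, Or.inl ?_⟩
    rw [hk]
  | sum R' R'' h' h'' hd ih' ih'' =>
    intro φ hφ hm
    obtain ⟨a, ha, b, hb, hab⟩ := Submodule.mem_sup.1 hm
    have hda : Disjoint (LinearMap.range a) (LinearMap.range b) :=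
      hd.mono (range_le_Sp ha) (range_le_Sp hb)
    rcases hrho V φ a b (symm_of_wu (hwu V e R' h' a ha)) (symm_of_wu (hwu V e R'' h'' b hb)) hda hab.symm with
      rfl | rfl
    · rw [zero_add] at hab
      subst hab
      obtain ⟨R₁, R₂, hR, hd', h1, ho⟩ := ih'' φ hφ hb
      refine ⟨R₁, R₂ ⊔ R', ?_, disj hd.symm hR hd', h1, ho⟩
      rw [← sup_assoc, ← hR, sup_comm]
    · rw [add_zero] at hab
      subst hab
      obtain ⟨R₁, R₂, hR, hd', h1, ho⟩ := ih' φ hφ ha
      refine ⟨R₁, R₂ ⊔ R'', ?_, disj hd hR hd', h1, ho⟩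
      rw [← sup_assoc, ← hR]
  | ext R L τ' h hL hτ he' ih =>
    intro φ hφ hm
    have hL0 : L ≠ ⊥ := by
      intro hL0
      rw [ext_bot e R L τ' hL hL0] at hm
      exact rho_ne hφ ((Submodule.mem_bot _).1 hm)
    have htau := tau_mem_Sp e R L τ' hτ hL0
    have hτ0 := tau_ne L τ' hτ
    by_cases h3 : 3 ≤ fr (Sp (R ⊔ L.map (wd e τ')))
    · exact ⟨_, ⊥, (sup_bot_eq _).symm, by rw [Sp_bot]; exact disjoint_bot_right, hm,
        Or.inr ⟨h3, τ', htau, hτ0, he', star_ext e R L τ' hL he'⟩⟩
    -- `L` is a line
    obtain ⟨l, hl, hl0⟩ := Submodule.exists_mem_ne_zero_of_ne_bot hL0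
    have hne : ∀ l' ∈ L, l' ≠ 0 → wd e τ' l' ≠ 0 := by
      intro l' hl' hl0' h0
      obtain ⟨x, hx1, hx0⟩ := sep2 (τ := l') (ψ := τ') hl0' (by rintro rfl; exact hτ hl')
      have h1 := wd_of_zero_one (e := e) hx0 hx1
      rw [h0] at h1
      exact hτ0 h1.symm
    have hLSp : L ⊔ Submodule.span (ZMod 2) {τ'} ≤ Sp (R ⊔ L.map (wd e τ')) := by
      apply sup_le
      · intro l' hl'
        by_cases h0 : l' = 0
        · rw [h0]; exact Submodule.zero_mem _
        · exact range_le_Sp (wd_mem e R L τ' hl') (RK2X.right_mem_range he' (hne l' hl' h0))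
      · rw [Submodule.span_singleton_le_iff_mem]; exact htau
    have hdis : Disjoint L (Submodule.span (ZMod 2) {τ'}) := by
      rw [Submodule.disjoint_def]
      intro z hz hz'
      rcases mem_span_sing hz' with h1 | h1
      · exact h1
      · exact absurd (h1 ▸ hz) hτ
    have hfr : fr L ≤ 1 := by
      have e1 := Submodule.finrank_mono hLSp
      have e2 := Submodule.finrank_sup_add_finrank_inf_eq L (Submodule.span (ZMod 2) {τ'})
      rw [hdis.eq_bot, finrank_bot, add_zero, finrank_span_singleton hτ0] at e2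
      show Module.finrank (ZMod 2) L ≤ 1
      have e3 : Module.finrank (ZMod 2) (Sp (R ⊔ L.map (wd e τ'))) < 3 := not_le.1 h3
      omega
    have hLl : L = Submodule.span (ZMod 2) {l} := by
      symm
      apply Submodule.eq_of_le_of_finrank_le
      · rw [Submodule.span_singleton_le_iff_mem]; exact hl
      · rw [finrank_span_singleton hl0]; exact hfr
    have hlτ : l ≠ τ' := by rintro rfl; exact hτ hl
    have hw : wd e τ' l ≠ 0 := hne l hl hl0
    have hmap : L.map (wd e τ') = Submodule.span (ZMod 2) {wd e τ' l} := by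
      rw [hLl, Submodule.map_span, Set.image_singleton]
    rcases hline V e R l (hwu V e R h) (hL.trans hLl.le) with hR | ⟨hle, hR⟩
    · -- no form of rank one
      exfalso
      rw [hR, bot_sup_eq, hmap] at hm
      rcases mem_span_sing hm with h1 | h1
      · exact rho_ne hφ h1
      · exact wd_ne_rho he' hw h1.symm
    · have hsplit : R ⊔ L.map (wd e τ') =
          Submodule.span (ZMod 2) {rho l} ⊔ Submodule.span (ZMod 2) {rho (l + τ')} := by
        rw [hmap, hR, wd_eq_rho hle]
        apply le_antisymm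
        · refine sup_le le_sup_left ?_
          rw [Submodule.span_singleton_le_iff_mem]
          exact Submodule.add_mem_sup (Submodule.mem_span_singleton_self _) (Submodule.mem_span_singleton_self _)
        · refine sup_le le_sup_left ?_
          rw [Submodule.span_singleton_le_iff_mem]
          have h1 : rho (l + τ') = rho l + (rho l + rho (l + τ')) := by
            rw [← add_assoc, ZModModule.add_self, zero_add]
          have h2 : rho l + (rho l + rho (l + τ')) ∈ Submodule.span (ZMod 2) {rho l} ⊔
              Submodule.span (ZMod 2) {rho l + rho (l + τ')} :=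
            Submodule.add_mem_sup (Submodule.mem_span_singleton_self _) (Submodule.mem_span_singleton_self _)
          rwa [← h1] at h2
      have hlt0 : l + τ' ≠ 0 := fun h0 => hlτ (eq_of_add h0)
      have hlt1 : l ≠ l + τ' := by
        intro h0
        apply hτ0
        have := congrArg (l + ·) h0
        simpa [ZModModule.add_self, add_add_self] using this.symm
      have hd : Disjoint (Sp (Submodule.span (ZMod 2) {rho l}))
          (Sp (Submodule.span (ZMod 2) {rho (l + τ')})) := by
        rw [Sp_rho, Sp_rho]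
        exact disj_span hl0 hlt1
      rw [hsplit] at hm
      obtain ⟨a, ha, b, hb, hab⟩ := Submodule.mem_sup.1 hm
      rcases mem_span_sing ha with ha' | ha' <;> rcases mem_span_sing hb with hb' | hb'
      · rw [ha', hb', add_zero] at hab
        exact absurd hab.symm (rho_ne hφ)
      · rw [ha', hb', zero_add] at hab
        have := rho_inj hlt0 hab
        subst this
        exact ⟨_, _, hsplit.trans (sup_comm _ _), hd.symm, Submodule.mem_span_singleton_self _, Or.inl rfl⟩
      · rw [ha', hb', add_zero] at hab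
        have := rho_inj hl0 hab
        subst this
        exact ⟨_, _, hsplit, hd, Submodule.mem_span_singleton_self _, Or.inl rfl⟩
      · rw [ha', hb', ← wd_eq_rho hle] at hab
        exact absurd hab (wd_ne_rho he' hw)

end Pool.Agent.ESG
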