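import Pool.Agent.ESG.COMP

/-!
Module RK2: the component(s) of a form of rank two.
-/

namespace Pool.Agent.ESG

open Pool.Agent.ESL

namespace RK2X

variable {V : Type} [AddCommGroup V] [Module (ZMod 2) V]

theorem left_ne {e : V} {τ ψ : D V} (h : wd e τ ψ ≠ 0) : τ ≠ 0 := by
  rintro rfl
  apply h
  apply LinearMap.ext
  intro x
  rw [wd_apply]
  simp

theorem right_ne {e : V} {τ ψ : D V} (h : wd e τ ψ ≠ 0) : ψ ≠ 0 := by
  rintro rfl
  exact h (map_zero _)

theorem ne {e : V} {τ ψ : D V} (he : τ e = 0) (h : wd e τ ψ ≠ 0) : ψ ≠ τ := by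
  rintro rfl
  exact h (wd_self he)

section finite
variable [Finite V]

theorem left_mem_range {e : V} {τ ψ : D V} (he : τ e = 0) (h : wd e τ ψ ≠ 0) :
    τ ∈ LinearMap.range (wd e τ ψ) := by
  obtain ⟨x, hx1, hx0⟩ := COMPX.sep2 (τ := ψ) (ψ := τ) (right_ne h) (ne he h)
  exact ⟨x, wd_of_zero_one hx0 hx1⟩

theorem right_mem_range {e : V} {τ ψ : D V} (he : τ e = 0) (h : wd e τ ψ ≠ 0) :
    ψ ∈ LinearMap.range (wd e τ ψ) := by
  obtain ⟨x, hx1, hx0⟩ := COMPX.sep2 (τ := τ) (ψ := ψ) (left_ne h) (ne he h).symm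
  have h1 : wd e τ ψ x = ψ + ψ (x + e) • τ := wd_of_one hx1
  have h2 : ψ = wd e τ ψ x + ψ (x + e) • τ := by
    rw [h1, add_assoc, ← add_smul, CharTwo.add_self_eq_zero, zero_smul, add_zero]
  have h3 := Submodule.add_mem _ (LinearMap.mem_range_self (wd e τ ψ) x)
    (Submodule.smul_mem _ (ψ (x + e)) (left_mem_range he h))
  rwa [← h2] at h3

end finite

end RK2X

open COMPX RK2X in
theorem rk2_proof (hsum : Stmt_SUM2) (hwu : Stmt_ETWU) : Stmt_RK2 := by
  intro V _ _ _ e R h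
  induction h with
  | loc k h =>
    intro τ ψ he hm h0
    left
    have hk : wd e τ ψ = k := by
      obtain ⟨c, hc⟩ := Submodule.mem_span_singleton.1 hm
      rcases zm c with rfl | rfl
      · rw [zero_smul] at hc
        exact absurd hc.symm h0
      · rw [one_smul] at hc
        exact hc.symm
    refine ⟨_, ⊥, (sup_bot_eq _).symm, by rw [Sp_bot]; exact disjoint_bot_right, ?_, ?_, τ, ?_, left_ne h0, he, ?_⟩
    · exact range_le_Sp hm (left_mem_range he h0)
    · exact range_le_Sp hm (right_mem_range he h0)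
    · exact range_le_Sp hm (left_mem_range he h0)
    · intro χ hχ
      rw [Sp_span] at hχ
      obtain ⟨v, rfl⟩ := hχ
      rw [← hk, wd_apply, map_add, map_add, map_smul, map_smul, map_smul, wd_self he, smul_zero, add_zero,
        smul_zero, add_zero]
      exact Submodule.smul_mem _ _ (Submodule.mem_span_singleton_self _)
  | sum R' R'' h' h'' hd ih' ih'' =>
    intro τ ψ he hm h0
    obtain ⟨a, ha, b, hb, hab⟩ := Submodule.mem_sup.1 hm
    have hda : Disjoint (LinearMap.range a) (LinearMap.range b) :=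
      hd.mono (range_le_Sp ha) (range_le_Sp hb)
    rcases hsum V e τ ψ a b he (hwu V e R' h' a ha) (hwu V e R'' h'' b hb) hda hab.symm with
      rfl | rfl | ⟨hψ, h3⟩
    · rw [zero_add] at hab
      subst hab
      rcases ih'' τ ψ he hb h0 with ⟨R₁, R₂, hR, hd', h1, h2, ho⟩ | ⟨hψ, R₁, R₂, e1, e2, hR, hd', h1, h2⟩
      · left
        refine ⟨R₁, R₂ ⊔ R', ?_, disj hd.symm hR hd', h1, h2, ho⟩
        rw [← sup_assoc, ← hR, sup_comm]
      · right
        refine ⟨hψ, R₁, R₂ ⊔ R', e1, ET.sum R₂ R' e2 h' ?_, ?_, disj hd.symm hR hd', h1,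
          Submodule.mem_sup_left h2⟩
        · exact hd.symm.mono_left (Sp_mono (hR ▸ le_sup_right))
        · rw [← sup_assoc, ← hR, sup_comm]
    · rw [add_zero] at hab
      subst hab
      rcases ih' τ ψ he ha h0 with ⟨R₁, R₂, hR, hd', h1, h2, ho⟩ | ⟨hψ, R₁, R₂, e1, e2, hR, hd', h1, h2⟩
      · left
        refine ⟨R₁, R₂ ⊔ R'', ?_, disj hd hR hd', h1, h2, ho⟩
        rw [← sup_assoc, ← hR]
      · right
        refine ⟨hψ, R₁, R₂ ⊔ R'', e1, ET.sum R₂ R'' e2 h'' ?_, ?_, disj hd hR hd', h1,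
          Submodule.mem_sup_left h2⟩
        · exact hd.mono_left (Sp_mono (hR ▸ le_sup_right))
        · rw [← sup_assoc, ← hR]
    · right
      rcases h3 with ⟨e1, e2⟩ | ⟨e1, e2⟩
      · exact ⟨hψ, R', R'', h', h'', rfl, hd, e1 ▸ ha, e2 ▸ hb⟩
      · exact ⟨hψ, R'', R', h'', h', sup_comm _ _, hd.symm, e2 ▸ hb, e1 ▸ ha⟩
  | ext R L τ' h hL hτ he' ih =>
    intro τ ψ he hm h0
    have hL0 : L ≠ ⊥ := by
      intro hL0
      rw [ext_bot e R L τ' hL hL0] at hm
      exact h0 ((Submodule.mem_bot _).1 hm)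
    left
    exact ⟨_, ⊥, (sup_bot_eq _).symm, by rw [Sp_bot]; exact disjoint_bot_right,
      range_le_Sp hm (left_mem_range he h0), range_le_Sp hm (right_mem_range he h0),
      τ', tau_mem_Sp e R L τ' hτ hL0, tau_ne L τ' hτ, he', star_ext e R L τ' hL he'⟩

end Pool.Agent.ESG
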