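import Pool.Agent.ESG.Stmts
import Pool.Agent.ESG.SatQ

/-!
Saturation: `V = M + V_M`.
-/

namespace Pool.Agent.ESG

open Pool.Agent.ESL

namespace SATX

variable {V : Type} [AddCommGroup V] [Module (ZMod 2) V]

/-- the annihilator of a common kernel in `M` -/
theorem ann_restrict [Finite V] {R : FS V} {M : Submodule (ZMod 2) V} (a : V) (φ : D M)
    (h : ∀ m : M, (∀ k ∈ R, k a m = 0) → φ m = 0) : ∃ k ∈ R, ∀ m : M, k a m = φ m := by
  -- the subspace of restrictions
  let T : Submodule (ZMod 2) (D M) := (Lx R a).map (M.subtype.lcomp (ZMod 2) (ZMod 2))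
  have hT : φ ∈ T := by
    rw [← an_co T]
    intro m hm
    apply h
    intro k hk
    have : (M.subtype.lcomp (ZMod 2) (ZMod 2)) (k a) ∈ T :=
      Submodule.mem_map_of_mem (Lx_mem hk a)
    exact hm _ this
  obtain ⟨ψ, ⟨k, hk, rfl⟩, hψ⟩ := Submodule.mem_map.1 hT
  exact ⟨k, hk, fun m => by rw [← hψ]; rfl⟩

/-- separation for a sum of two subspaces -/
theorem mem_sup_of_forall {W : Type} [AddCommGroup W] [Module (ZMod 2) W]
    {A B : Submodule (ZMod 2) W} {x : W}
    (h : ∀ φ : D W, (∀ a ∈ A, φ a = 0) → (∀ b ∈ B, φ b = 0) → φ x = 0) : x ∈ A ⊔ B := by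
  by_contra hx
  obtain ⟨f, hf, h1⟩ := exists_sep hx
  have := h f (fun a ha => hf a (Submodule.mem_sup_left ha))
    (fun b hb => hf b (Submodule.mem_sup_right hb))
  rw [this] at h1
  exact zero_ne_one h1

/-- the quaternionic data on `M` -/
def dat [Finite V] {R : FS V} {M : Submodule (ZMod 2) V} (hR : IsSym R) (hl : Linked R)
    (hO : OC R M) : SatQ.QD M (R → ZMod 2) where
  q x y := fun k => (k : Fm V) x y
  z := 0
  symm x y := by
    funext k
    exact hR k k.2 _ _
  add x y w := by
    constructor
    · intro h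
      funext k
      have := congrFun h k
      simp only [Submodule.coe_add, map_add, Pi.zero_apply] at this ⊢
      rw [this]
      exact CharTwo.add_self_eq_zero _
    · intro h
      funext k
      have := congrFun h k
      simp only [Submodule.coe_add, map_add, Pi.zero_apply] at this ⊢
      exact CharTwo.add_eq_zero.1 this
  link a b c d h := by
    have h' : ∀ k ∈ R, k a b = k c d := fun k hk => congrFun h ⟨k, hk⟩
    let A : Submodule (ZMod 2) M := (Vx R (a : V)).comap M.subtype
    let C : Submodule (ZMod 2) M := (Vx R (c : V)).comap M.subtype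
    have key : b + d ∈ A ⊔ C := by
      apply mem_sup_of_forall
      intro φ hA hC
      obtain ⟨k, hk, hk'⟩ := ann_restrict (R := R) (M := M) (a : V) φ (by
        intro m hm
        exact hA m (mem_Vx.2 hm))
      obtain ⟨k₁, hk₁, hk₁'⟩ := ann_restrict (R := R) (M := M) (c : V) φ (by
        intro m hm
        exact hC m (mem_Vx.2 hm))
      have e : k (a : V) = k₁ (c : V) := hO a a.2 c c.2 k hk k₁ hk₁ (fun y hy => by
        rw [hk' ⟨y, hy⟩, hk₁' ⟨y, hy⟩])
      obtain ⟨l, hlR, l1, l2⟩ := hl k hk k₁ hk₁ (a : V) (c : V) e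
      rw [map_add, ← hk' b, ← hk₁' d, ← e, ← l1]
      have := h' l hlR
      rw [this, l1, l2]
      exact CharTwo.add_self_eq_zero _
    obtain ⟨u, hu, w, hw, huw⟩ := Submodule.mem_sup.1 key
    refine ⟨b + u, ?_, ?_⟩
    · funext k
      have : (k : Fm V) (a : V) (u : V) = 0 := mem_Vx.1 hu k k.2
      simp only [Submodule.coe_add, map_add, this, add_zero]
    · funext k
      have : (k : Fm V) (c : V) (w : V) = 0 := mem_Vx.1 hw k k.2
      have e : b + u = d + w := by
        have h3 : b + u = b + (b + d) + w := by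
          rw [← huw]
          have : w + w = 0 := add_self' w
          rw [add_assoc, add_assoc, this, add_zero]
        rw [h3, add_add_self]
      rw [e]
      simp only [Submodule.coe_add, map_add, this, add_zero]

end SATX

theorem sat_proof : Stmt_SAT := by
  intro V _ _ _ R M hR hl hO
  rw [eq_top_iff]
  intro v _
  have hfin : Finite M := inferInstance
  obtain ⟨p, hp⟩ := SatQ.saturation (S := SATX.dat hR hl hO)
    (α := fun m : M => fun k : R => (k : Fm V) m v) (by
      intro x x'
      have key : v ∈ M ⊔ (Vx R (x : V) ⊓ Vx R (x' : V)) := by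
        apply SATX.mem_sup_of_forall
        intro φ h1 h2
        have h3 : φ ∈ Lx R (x : V) ⊔ Lx R (x' : V) := by
          rw [← an_co (Lx R (x : V) ⊔ Lx R (x' : V)), co_sup]
          exact fun y hy => h2 y hy
        obtain ⟨_, ⟨k, hk, rfl⟩, _, ⟨k', hk', rfl⟩, rfl⟩ := Submodule.mem_sup.1 h3
        have e : k (x : V) = k' (x' : V) := hO x x.2 x' x'.2 k hk k' hk' (fun a ha => by
          have := h1 a ha
          rw [LinearMap.add_apply] at this
          exact CharTwo.add_eq_zero.1 this)
        rw [e, add_self']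
        rfl
      obtain ⟨m, hm, u, ⟨hu, hu'⟩, rfl⟩ := Submodule.mem_sup.1 key
      have e1 : ∀ k ∈ R, k (x : V) u = 0 := mem_Vx.1 hu
      have e2 : ∀ k ∈ R, k (x' : V) u = 0 := mem_Vx.1 hu'
      refine ⟨⟨m, hm⟩, ?_, ?_, ?_⟩
      · funext k
        show (k : Fm V) x (m + u) = (k : Fm V) x m
        rw [map_add, e1 k k.2, add_zero]
      · funext k
        show (k : Fm V) x' (m + u) = (k : Fm V) x' m
        rw [map_add, e2 k k.2, add_zero]
      · funext k
        show (k : Fm V) ((x : V) + (x' : V)) (m + u) = (k : Fm V) ((x : V) + (x' : V)) m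
        simp only [map_add, LinearMap.add_apply, e1 k k.2, e2 k k.2, add_zero])
  have h3 : (p : V) + v ∈ cent R M := by
    intro k hk m hm
    have := congrFun (hp ⟨m, hm⟩) ⟨k, hk⟩
    have h4 : k m v = k m (p : V) := this
    rw [map_add, h4]
    exact CharTwo.add_self_eq_zero _
  have : v = (p : V) + ((p : V) + v) := (add_add_self _ _).symm
  rw [this]
  exact Submodule.add_mem_sup p.2 h3

end Pool.Agent.ESG
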