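import Pool.Agent.ESG.Stmts

/-!
Module SPV: every functional in the support of an ET space is a value.
-/

namespace Pool.Agent.ESG

open Pool.Agent.ESL

namespace SPVX

variable {V : Type} [AddCommGroup V] [Module (ZMod 2) V]

/-- two independent functionals over `F_2` -/
theorem sep2 [Finite V] {τ ψ : D V} (h : τ ≠ 0) (h' : τ ≠ ψ) : ∃ x, τ x = 1 ∧ ψ x = 0 := by
  obtain ⟨x, hx, hx1⟩ := exists_cosep (T := Submodule.span (ZMod 2) {ψ}) (φ := τ) (by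
    intro hm
    obtain ⟨c, hc⟩ := Submodule.mem_span_singleton.1 hm
    rcases zm c with rfl | rfl
    · rw [zero_smul] at hc; exact h hc.symm
    · rw [one_smul] at hc; exact h' hc.symm)
  exact ⟨x, hx1, hx ψ (Submodule.mem_span_singleton_self ψ)⟩

theorem sepc [Finite V] {τ ψ : D V} (h : τ ≠ 0) (h0 : ψ ≠ 0) (h' : τ ≠ ψ) (c : ZMod 2) :
    ∃ x, τ x = 1 ∧ ψ x = c := by
  rcases zm c with rfl | rfl
  · exact sep2 h h'
  · obtain ⟨x, h1, h2⟩ := sep2 (τ := τ) (ψ := ψ + τ) h (by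
      intro he
      exact h0 (right_eq_add.1 he))
    refine ⟨x, h1, ?_⟩
    rw [LinearMap.add_apply, h1] at h2
    revert h2; generalize ψ x = p; revert p; decide

section ext

variable (e : V) (R : FS V) (L : Submodule (ZMod 2) (D V)) (τ : D V)

theorem Sp_ext_le (hL : Sp R ≤ L) :
    Sp (R ⊔ L.map (wd e τ)) ≤ L ⊔ Submodule.span (ZMod 2) {τ} := by
  apply Sp_le.2
  intro k hk x
  obtain ⟨a, ha, b, ⟨l, hl, rfl⟩, rfl⟩ := Submodule.mem_sup.1 hk
  have h1 : (a + wd e τ l) x = (a x + τ x • l) + (l x + l e * τ x) • τ := by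
    rw [LinearMap.add_apply, wd_apply, add_smul]
    abel
  rw [h1]
  apply Submodule.add_mem_sup
  · exact L.add_mem (hL (mem_Sp ha x)) (L.smul_mem _ hl)
  · exact Submodule.smul_mem _ _ (Submodule.mem_span_singleton_self τ)

theorem wd_mem {l : D V} (hl : l ∈ L) : wd e τ l ∈ R ⊔ L.map (wd e τ) :=
  Submodule.mem_sup_right (Submodule.mem_map_of_mem hl)

theorem tau_ne (hτ : τ ∉ L) : τ ≠ 0 := by
  rintro rfl
  exact hτ L.zero_mem

theorem ext_bot (hL : Sp R ≤ L) (h : L = ⊥) : R ⊔ L.map (wd e τ) = ⊥ := by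
  subst h
  rw [Submodule.map_bot, sup_bot_eq, eq_bot_iff]
  intro k hk
  rw [Submodule.mem_bot]
  apply LinearMap.ext
  intro x
  exact (Submodule.mem_bot _).1 (hL (mem_Sp hk x))

end ext

end SPVX

open SPVX in
theorem spv_proof (hwu : Stmt_ETWU) : Stmt_SPV := by
  intro V _ _ _ e R h
  induction h with
  | loc k h =>
    intro φ hφ
    rw [Sp_span] at hφ
    obtain ⟨u, rfl⟩ := hφ
    exact ⟨k, Submodule.mem_span_singleton_self k, u, rfl⟩
  | sum R₁ R₂ h₁ h₂ hd ih₁ ih₂ =>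
    intro φ hφ
    rw [Sp_sup] at hφ
    obtain ⟨φ₁, hφ₁, φ₂, hφ₂, rfl⟩ := Submodule.mem_sup.1 hφ
    obtain ⟨k₁, hk₁, u₁, rfl⟩ := ih₁ φ₁ hφ₁
    obtain ⟨k₂, hk₂, u₂, rfl⟩ := ih₂ φ₂ hφ₂
    have hr : rad R₁ ⊔ rad R₂ = ⊤ := by
      rw [← co_Sp (hwu V e R₁ h₁).sym, ← co_Sp (hwu V e R₂ h₂).sym]
      exact co_sup_top hd
    obtain ⟨r₁, hr₁, r₂, hr₂, hr⟩ := Submodule.mem_sup.1 (show u₁ + u₂ ∈ _ by rw [hr]; trivial)
    have hu : u₁ + r₁ = u₂ + r₂ := by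
      apply eq_of_add
      calc u₁ + r₁ + (u₂ + r₂) = (u₁ + u₂) + (r₁ + r₂) := by abel
        _ = 0 := by rw [hr, add_self']
    refine ⟨k₁ + k₂, Submodule.add_mem_sup hk₁ hk₂, u₁ + r₁, ?_⟩
    rw [LinearMap.add_apply]
    nth_rewrite 2 [hu]
    rw [map_add k₁, map_add k₂, hr₁ k₁ hk₁, hr₂ k₂ hk₂, add_zero, add_zero]
  | ext R L τ h hL hτ he ih =>
    intro φ hφ
    have hτ0 := tau_ne L τ hτ
    by_cases hL0 : L = ⊥
    · rw [ext_bot e R L τ hL hL0, Sp_bot, Submodule.mem_bot] at hφ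
      exact ⟨0, Submodule.zero_mem _, 0, by rw [hφ]; rfl⟩
    obtain ⟨l, hl, m, hm, rfl⟩ := Submodule.mem_sup.1 (Sp_ext_le e R L τ hL hφ)
    obtain ⟨c, rfl⟩ := Submodule.mem_span_singleton.1 hm
    by_cases hl0 : l = 0
    · subst hl0
      rcases zm c with rfl | rfl
      · exact ⟨0, Submodule.zero_mem _, 0, by simp⟩
      · obtain ⟨χ, hχ, hχ0⟩ := Submodule.exists_mem_ne_zero_of_ne_bot hL0
        obtain ⟨x, h1, h2⟩ := sep2 (τ := χ) (ψ := τ) hχ0 (by rintro rfl; exact hτ hχ)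
        refine ⟨_, wd_mem e R L τ hχ, x, ?_⟩
        rw [wd_of_zero_one h2 h1, one_smul, zero_add]
    · have hlτ : τ ≠ l := by rintro rfl; exact hτ hl
      obtain ⟨x, h1, h2⟩ := sepc (τ := τ) (ψ := l) hτ0 hl0 hlτ (l e + c)
      refine ⟨_, wd_mem e R L τ hl, x, ?_⟩
      rw [wd_of_one h1, map_add, h2, add_comm (l e) c, add_assoc, CharTwo.add_self_eq_zero,
        add_zero]

end Pool.Agent.ESG
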