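import Pool.Agent.ESG.Stmts

/-!
Module SUM2: decompositions of `[τ, ψ]`.
-/

namespace Pool.Agent.ESG

open Pool.Agent.ESL

namespace SUM2X

variable {V : Type} [AddCommGroup V] [Module (ZMod 2) V]

/-- if `ker a + ker b = V` and `a ≠ 0`, then `a` is nonzero on `ker b` -/
theorem pair_in_ker {a b : Fm V} (ha : ∀ x y, a x y = a y x)
    (h : LinearMap.ker a ⊔ LinearMap.ker b = ⊤) (h0 : a ≠ 0) : ∃ x y, b x = 0 ∧ b y = 0 ∧ a x y = 1 := by
  obtain ⟨x0, hx0⟩ : ∃ x0, a x0 ≠ 0 := by
    by_contra hc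
    push Not at hc
    exact h0 (LinearMap.ext hc)
  obtain ⟨y0, hy0⟩ : ∃ y0, a x0 y0 ≠ 0 := by
    by_contra hc
    push Not at hc
    exact hx0 (LinearMap.ext hc)
  have h1 := zm_ne hy0
  obtain ⟨xa, hxa, xb, hxb, rfl⟩ := Submodule.mem_sup.1 (show x0 ∈ _ by rw [h]; trivial)
  obtain ⟨ya, hya, yb, hyb, rfl⟩ := Submodule.mem_sup.1 (show y0 ∈ _ by rw [h]; trivial)
  rw [LinearMap.mem_ker] at hxa hxb hya hyb
  refine ⟨xb, yb, hxb, hyb, ?_⟩
  rw [map_add a, hxa, zero_add, map_add, ha xb ya, hya] at h1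
  simpa using h1

theorem half {a b : Fm V} {e : V} {τ ψ : D V} (ha : ∀ x y, a x y = a y x) (hb : ∀ x y, b x y = b y x)
    (h : LinearMap.ker a ⊔ LinearMap.ker b = ⊤) (hw : wd e τ ψ = a + b) (he : ψ e = 1)
    (h1 : ∀ u, b u = 0 → ψ u = 0) (h2 : ∀ u, a u = 0 → ψ u = τ u) :
    a = rho (ψ + τ) ∧ b = rho ψ := by
  have hE : ∀ u v, τ u * ψ v + ψ u * τ v + ψ e * (τ u * τ v) = a u v + b u v := by
    intro u v
    rw [← wd_apply₂, hw]; rfl
  constructor
  · ext u v
    obtain ⟨ua, hua, ub, hub, rfl⟩ := Submodule.mem_sup.1 (show u ∈ _ by rw [h]; trivial)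
    obtain ⟨va, hva, vb, hvb, rfl⟩ := Submodule.mem_sup.1 (show v ∈ _ by rw [h]; trivial)
    rw [LinearMap.mem_ker] at hua hub hva hvb
    have e1 := hE ub vb
    rw [hub, LinearMap.zero_apply, add_zero, h1 ub hub, h1 vb hvb, he] at e1
    rw [map_add a, hua, zero_add, map_add, ha ub va, hva, LinearMap.zero_apply, zero_add, ← e1,
      rho_apply₂, LinearMap.add_apply, LinearMap.add_apply]
    simp only [map_add]
    rw [h1 ub hub, h1 vb hvb, h2 ua hua, h2 va hva]
    generalize τ ua = p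
    generalize τ ub = q
    generalize τ va = r
    generalize τ vb = s
    revert p q r s
    decide
  · ext u v
    obtain ⟨ua, hua, ub, hub, rfl⟩ := Submodule.mem_sup.1 (show u ∈ _ by rw [h]; trivial)
    obtain ⟨va, hva, vb, hvb, rfl⟩ := Submodule.mem_sup.1 (show v ∈ _ by rw [h]; trivial)
    rw [LinearMap.mem_ker] at hua hub hva hvb
    have e1 := hE ua va
    rw [hua, LinearMap.zero_apply, zero_add, h2 ua hua, h2 va hva, he] at e1
    rw [map_add b, hub, add_zero, map_add, hb ua vb, hvb, LinearMap.zero_apply, add_zero, ← e1,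
      rho_apply₂]
    simp only [map_add]
    rw [h1 ub hub, h1 vb hvb, h2 ua hua, h2 va hva]
    generalize τ ua = p
    generalize τ va = r
    revert p r
    decide

end SUM2X

open SUM2X in
theorem sum2_proof : Stmt_SUM2 := by
  intro V _ _ _ e τ ψ a b hτ hwa hwb hd hw
  by_contra hc
  push Not at hc
  obtain ⟨ha0, hb0, hc⟩ := hc
  have ha := symm_of_wu hwa
  have hb := symm_of_wu hwb
  have hk := ker_sup_top ha hb hd
  have hk' : LinearMap.ker b ⊔ LinearMap.ker a = ⊤ := by rw [sup_comm]; exact hk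
  obtain ⟨x, y, hx, hy, hxy⟩ := pair_in_ker ha hk ha0
  obtain ⟨x', y', hx', hy', hxy'⟩ := pair_in_ker hb hk' hb0
  have hE : ∀ u v, τ u * ψ v + ψ u * τ v + ψ e * (τ u * τ v) = a u v + b u v := by
    intro u v
    rw [← wd_apply₂, hw]; rfl
  have hO : ∀ u v, b u = 0 → a v = 0 → τ u * ψ v + ψ u * τ v + ψ e * (τ u * τ v) = 0 := by
    intro u v hu hv
    rw [hE, ha u v, hv, hu]; rfl
  have e1 := hE x y
  have e2 := hE x' y'
  rw [hx, hxy] at e1
  rw [hx', hxy'] at e2
  simp only [LinearMap.zero_apply, add_zero, zero_add] at e1 e2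
  have e3 := hO x x' hx hx'
  have e4 := hO y x' hy hx'
  have e5 := hO x y' hx hy'
  have e6 := hO y y' hy hy'
  have key : ψ e = 1 ∧ ((τ x = 1 ∧ ψ x = 0 ∧ τ x' = 1 ∧ ψ x' = 1) ∨
      (τ x = 1 ∧ ψ x = 1 ∧ τ x' = 1 ∧ ψ x' = 0)) := by
    revert e1 e2 e3 e4 e5 e6
    generalize τ x = p
    generalize τ y = q
    generalize τ x' = r
    generalize τ y' = s
    generalize ψ x = p'
    generalize ψ y = q'
    generalize ψ x' = r'
    generalize ψ y' = s'
    generalize ψ e = c
    revert p q r s p' q' r' s' c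
    decide
  obtain ⟨he, h1 | h1⟩ := key
  · obtain ⟨k1, k2, k3, k4⟩ := h1
    have g1 : ∀ u, b u = 0 → ψ u = 0 := by
      intro u hu
      have := hO u x' hu hx'
      rw [k3, k4, he] at this
      revert this
      generalize τ u = p
      generalize ψ u = q
      revert p q
      decide
    have g2 : ∀ u, a u = 0 → ψ u = τ u := by
      intro u hu
      have := hO x u hx hu
      rw [k1, k2, he] at this
      revert this
      generalize τ u = p
      generalize ψ u = q
      revert p q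
      decide
    obtain ⟨m1, m2⟩ := half ha hb hk hw he g1 g2
    exact (hc he).2 m1 m2
  · obtain ⟨k1, k2, k3, k4⟩ := h1
    have g1 : ∀ u, a u = 0 → ψ u = 0 := by
      intro u hu
      have := hO x u hx hu
      rw [k1, k2, he] at this
      revert this
      generalize τ u = p
      generalize ψ u = q
      revert p q
      decide
    have g2 : ∀ u, b u = 0 → ψ u = τ u := by
      intro u hu
      have := hO u x' hu hx'
      rw [k3, k4, he] at this
      revert this
      generalize τ u = p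
      generalize ψ u = q
      revert p q
      decide
    obtain ⟨m1, m2⟩ := half hb ha hk' (by rw [hw, add_comm]) he g1 g2
    exact (hc he).1 m2 m1

end Pool.Agent.ESG
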