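import Pool.Agent.ESG.Stmts

namespace Pool.Agent.ESG

open Pool.Agent.ESL

namespace T2X

variable {V : Type} [AddCommGroup V] [Module (ZMod 2) V] [Finite V]

/-- two independent values span the range -/
theorem span2 {k : Fm V} (h : fr (LinearMap.range k) = 2) {a b : D V} (ha : a ∈ LinearMap.range k)
    (hb : b ∈ LinearMap.range k) (ha0 : a ≠ 0) (hb0 : b ≠ 0) (hab : b ≠ a) (v : V) :
    ∃ s t : ZMod 2, k v = s • a + t • b := by
  have hli : LinearIndependent (ZMod 2) ![a, b] := by
    rw [LinearIndependent.pair_iff]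
    intro s t hst
    rcases zm s with hs | hs <;> rcases zm t with ht | ht
    · exact ⟨hs, ht⟩
    · exfalso
      rw [hs, ht, zero_smul, one_smul, zero_add] at hst
      exact hb0 hst
    · exfalso
      rw [hs, ht, zero_smul, one_smul, add_zero] at hst
      exact ha0 hst
    · exfalso
      rw [hs, ht, one_smul, one_smul] at hst
      exact hab (eq_of_add hst).symm
  have h1 : Submodule.span (ZMod 2) (Set.range ![a, b]) ≤ LinearMap.range k := by
    rw [Submodule.span_le]
    rintro _ ⟨i, rfl⟩
    fin_cases i
    · exact ha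
    · exact hb
  have h2 : Submodule.span (ZMod 2) (Set.range ![a, b]) = LinearMap.range k := by
    apply Submodule.eq_of_le_of_finrank_eq h1
    rw [finrank_span_eq_card hli]
    exact h.symm
  have h3 : k v ∈ Submodule.span (ZMod 2) (Set.range ![a, b]) := by
    rw [h2]; exact ⟨v, rfl⟩
  rw [Matrix.range_cons, Matrix.range_cons, Matrix.range_empty, Set.union_empty,
    Set.singleton_union, Submodule.mem_span_pair] at h3
  obtain ⟨s, t, h4⟩ := h3
  exact ⟨s, t, h4.symm⟩

theorem exists_not {k : Fm V} (h : fr (LinearMap.range k) = 2) (τ : D V) :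
    ∃ w, k w ≠ 0 ∧ k w ≠ τ := by
  by_contra hc
  push Not at hc
  have h1 : LinearMap.range k ≤ Submodule.span (ZMod 2) {τ} := by
    rintro _ ⟨w, rfl⟩
    by_cases h0 : k w = 0
    · rw [h0]; exact Submodule.zero_mem _
    · rw [hc w h0]; exact Submodule.mem_span_singleton_self τ
  have h2 := Submodule.finrank_mono h1
  have h3 := finrank_span_le_card (R := ZMod 2) ({τ} : Set (D V))
  simp only [Set.toFinset_singleton, Finset.card_singleton] at h3
  have h4 : fr (LinearMap.range k) ≤ 1 := h2.trans h3
  omega

end T2X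

theorem t2_proof : Stmt_T2 := by
  intro V _ _ _ e k hk hr
  have hsym : ∀ x y, k x y = k y x := symm_of_wu hk
  by_cases he : k e = 0
  · -- alternating
    have halt : ∀ x, k x x = 0 := by
      intro x
      rw [hk, hsym, he]; rfl
    obtain ⟨x, hx, -⟩ := T2X.exists_not hr 0
    obtain ⟨y, hy⟩ : ∃ y, k x y = 1 := by
      by_contra hc
      push Not at hc
      exact hx (LinearMap.ext fun y => zm_ne' (hc y))
    have hbx : k y x = 1 := by rw [hsym]; exact hy
    have hb0 : k y ≠ 0 := by
      intro h0
      rw [h0] at hbx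
      exact zero_ne_one hbx
    have hab : k y ≠ k x := by
      intro h0
      rw [h0, halt] at hbx
      exact zero_ne_one hbx
    refine ⟨k x, k y, hx, hb0, hab, ?_, ?_, ⟨x, rfl⟩, ⟨y, rfl⟩, fun h => absurd he h⟩
    · rw [hsym, he]; rfl
    · refine LinearMap.ext fun v => ?_
      obtain ⟨s, t, hst⟩ := T2X.span2 hr ⟨x, rfl⟩ ⟨y, rfl⟩ hx hb0 hab v
      have h1 : t = k x v := by
        have := congrArg (fun f : D V => f x) hst
        simp only [LinearMap.add_apply, LinearMap.smul_apply, smul_eq_mul, halt, mul_zero, zero_add,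
          hbx, mul_one] at this
        rw [← this, hsym]
      have h2 : s = k y v := by
        have := congrArg (fun f : D V => f y) hst
        simp only [LinearMap.add_apply, LinearMap.smul_apply, smul_eq_mul, halt, mul_zero, add_zero,
          hy, mul_one] at this
        rw [← this, hsym]
      rw [wd_apply, hst, h1, h2]
      have h3 : k y e = 0 := by rw [hsym, he]; rfl
      rw [h3, zero_mul, zero_smul, add_zero, add_comm]
  · obtain ⟨z, hz⟩ : ∃ z, k e z = 1 := by
      by_contra hc
      push Not at hc
      exact he (LinearMap.ext fun y => zm_ne' (hc y))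
    have hze : k z e = 1 := by rw [hsym]; exact hz
    have hτe : k e e = 0 := by
      apply zm_ne'
      intro h1
      obtain ⟨w0, h2, h3⟩ := T2X.exists_not hr (k e)
      obtain ⟨w, hw0, hwe, hwτ⟩ : ∃ w, k w ≠ 0 ∧ k w ≠ k e ∧ k e w = 0 := by
        rcases zm (k e w0) with h4 | h4
        · exact ⟨w0, h2, h3, h4⟩
        · refine ⟨w0 + e, ?_, ?_, ?_⟩
          · intro h5
            rw [map_add] at h5
            exact h3 (eq_of_add h5)
          · intro h5
            rw [map_add] at h5
            exact h2 (add_eq_right.mp h5)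
          · rw [map_add, h4, h1]; rfl
      have hww : k w w = 0 := by rw [hk, hsym, hwτ]
      have hwe' : k w e = 0 := by rw [hsym, hwτ]
      apply hw0
      ext v
      obtain ⟨s, t, hst⟩ := T2X.span2 hr ⟨e, rfl⟩ ⟨w, rfl⟩ he hw0 hwe v
      have h5 := congrArg (fun f : D V => f w) hst
      simp only [LinearMap.add_apply, LinearMap.smul_apply, smul_eq_mul, hww, hwτ, mul_zero,
        add_zero] at h5
      rw [hsym, h5]; rfl
    have hz0 : k z ≠ 0 := by
      intro h0
      rw [h0] at hze
      exact zero_ne_one hze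
    have hzne : k z ≠ k e := by
      intro h0
      rw [h0, hτe] at hze
      exact zero_ne_one hze
    have hzz : k z z = 1 := by rw [hk, hze]
    refine ⟨k e, k z, he, hz0, hzne, hτe, ?_, ⟨e, rfl⟩, ⟨z, rfl⟩, fun _ => ⟨rfl, hze⟩⟩
    refine LinearMap.ext fun v => ?_
    obtain ⟨s, t, hst⟩ := T2X.span2 hr ⟨e, rfl⟩ ⟨z, rfl⟩ he hz0 hzne v
    have h1 : t = k e v := by
      have := congrArg (fun f : D V => f e) hst
      simp only [LinearMap.add_apply, LinearMap.smul_apply, smul_eq_mul, hτe, mul_zero, zero_add,
        hze, mul_one] at this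
      rw [← this, hsym]
    have h2 : s = k z v + k e v := by
      have h3 := congrArg (fun f : D V => f z) hst
      simp only [LinearMap.add_apply, LinearMap.smul_apply, smul_eq_mul, hz, mul_one,
        hzz, h1] at h3
      rw [hsym z v, h3, add_assoc, CharTwo.add_self_eq_zero, add_zero]
    rw [wd_apply, hst, h1, h2, hze, one_mul, add_smul]
    abel

end Pool.Agent.ESG
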