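import Pool.Agent.ESG.Stmts

/-!
XC: two rank one forms, one colour (counting on the four classes of `V / M`).
-/

set_option linter.unusedVariables false

namespace Pool.Agent.ESG

open Pool.Agent.ESL

namespace XCX

variable {X : Type} [AddCommGroup X] [Module (ZMod 2) X] [Finite X]

theorem sOn_of (S : Set (D X)) (h : D X → ℤ) (A : Finset (D X)) (hA : ∀ θ, θ ∈ S ↔ θ ∈ A) :
    sOn S h = ∑ θ ∈ A, h θ := by
  unfold sOn
  congr 1
  ext θ
  rw [Set.Finite.mem_toFinset, hA]

theorem sOn1 (S : Set (D X)) (h : D X → ℤ) (a : D X) (hA : ∀ θ, θ ∈ S ↔ θ = a) :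
    sOn S h = h a := by
  classical
  rw [sOn_of S h {a} (by intro θ; rw [hA, Finset.mem_singleton]), Finset.sum_singleton]

theorem sOn2 (S : Set (D X)) (h : D X → ℤ) (a b : D X) (hab : a ≠ b)
    (hA : ∀ θ, θ ∈ S ↔ θ = a ∨ θ = b) : sOn S h = h a + h b := by
  classical
  rw [sOn_of S h {a, b} (by intro θ; rw [hA, Finset.mem_insert, Finset.mem_singleton]),
    Finset.sum_pair hab]

theorem sOn4 (S : Set (D X)) (h : D X → ℤ) (a b c d : D X) (hab : a ≠ b) (hac : a ≠ c)
    (had : a ≠ d) (hbc : b ≠ c) (hbd : b ≠ d) (hcd : c ≠ d)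
    (hA : ∀ θ, θ ∈ S ↔ θ = a ∨ θ = b ∨ θ = c ∨ θ = d) : sOn S h = h a + h b + h c + h d := by
  classical
  rw [sOn_of S h {a, b, c, d} (by
    intro θ; rw [hA, Finset.mem_insert, Finset.mem_insert, Finset.mem_insert,
      Finset.mem_singleton])]
  rw [Finset.sum_insert (by simp [hab, hac, had]), Finset.sum_insert (by simp [hbc, hbd]),
    Finset.sum_pair hcd]
  ring

theorem shift (a b t : D X) : a + t = b ↔ a = b + t := by
  constructor
  · rintro rfl
    rw [add_assoc, add_self', add_zero]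
  · rintro rfl
    rw [add_assoc, add_self', add_zero]

end XCX

open XCX in
theorem xc_proof (hXF1 : Stmt_XF1) (hXF2 : Stmt_XF2) (hXF4 : Stmt_XF4) (hXR : Stmt_XR)
    (hDIAG : Stmt_DIAG) (hPAIR : Stmt_PAIR) (hP3 : Stmt_P3) (hPZ : Stmt_PZ) (hXNUM : Stmt_XNUM)
    (hOC : Stmt_OC) : Stmt_XC := by
  intro V _ _ _ e R f g M hC
  have hwu := hC.ctx.wu
  have hlink := hC.ctx.sl.linked
  obtain ⟨F, hF⟩ := exists_comp (M := M) (ψ := f) (fun m hm => ((hC.mem m).1 hm).1)
  obtain ⟨G, hG⟩ := exists_comp (M := M) (ψ := g) (fun m hm => ((hC.mem m).1 hm).2)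
  have hF' : ∀ x, F (M.mkQ x) = f x := fun x => congrArg (fun f : D V => f x) hF
  have hG' : ∀ x, G (M.mkQ x) = g x := fun x => congrArg (fun f : D V => f x) hG
  have hsurj := M.mkQ_surjective
  have hmem : ∀ x : V, M.mkQ x = 0 ↔ x ∈ M := fun x => by
    rw [← LinearMap.mem_ker, Submodule.ker_mkQ]
  -- injectivity of `(F, G)`
  have hinj0 : ∀ x : V ⧸ M, F x = 0 → G x = 0 → x = 0 := by
    intro x h1 h2
    obtain ⟨x, rfl⟩ := hsurj x
    rw [hmem, hC.mem, ← hF', ← hG']
    exact ⟨h1, h2⟩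
  have hinj : ∀ x y : V ⧸ M, F x = F y → G x = G y → x = y := by
    intro x y h1 h2
    apply eq_of_add
    apply hinj0
    · rw [map_add, h1, add_self']
    · rw [map_add, h2, add_self']
  set E : V ⧸ M := M.mkQ e with hE
  have hFE : F E = 1 := by rw [hE, hF', hC.fe]
  have hGE : G E = 1 := by rw [hE, hG', hC.ge]
  have hxa : ∃ x : V ⧸ M, F x = 1 ∧ G x = 0 := by
    have : ∃ x, f x ≠ g x := by
      by_contra hc
      push Not at hc
      exact hC.ne (LinearMap.ext hc)
    obtain ⟨x, hx⟩ := this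
    rcases zm (f x) with h1 | h1
    · have h2 : g x = 1 := by
        apply zm_ne
        intro h2
        exact hx (h1.trans h2.symm)
      refine ⟨M.mkQ x + E, ?_, ?_⟩
      · rw [map_add, hF', h1, hFE, zero_add]
      · rw [map_add, hG', h2, hGE]
        decide
    · have h2 : g x = 0 := by
        apply zm_ne'
        intro h2
        exact hx (h1.trans h2.symm)
      exact ⟨M.mkQ x, by rw [hF', h1], by rw [hG', h2]⟩
  obtain ⟨xa, hFa, hGa⟩ := hxa
  set xb : V ⧸ M := xa + E with hxb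
  have hFb : F xb = 0 := by
    rw [hxb, map_add, hFa, hFE]
    decide
  have hGb : G xb = 1 := by
    rw [hxb, map_add, hGa, hGE, zero_add]
  have hab : xa + xb = E := by rw [hxb, add_add_self]
  have hEa : E + xa = xb := by rw [hxb, add_comm]
  have hEb : E + xb = xa := by
    rw [hxb, add_comm xa, add_add_self]
  -- all functionals
  have hcases : ∀ x : V ⧸ M, x = 0 ∨ x = xa ∨ x = xb ∨ x = E := by
    intro x
    rcases zm (F x) with h1 | h1 <;> rcases zm (G x) with h2 | h2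
    · exact Or.inl (hinj0 x h1 h2)
    · exact Or.inr (Or.inr (Or.inl (hinj _ _ (h1.trans hFb.symm) (h2.trans hGb.symm))))
    · exact Or.inr (Or.inl (hinj _ _ (h1.trans hFa.symm) (h2.trans hGa.symm)))
    · exact Or.inr (Or.inr (Or.inr (hinj _ _ (h1.trans hFE.symm) (h2.trans hGE.symm))))
  have hext : ∀ θ θ' : D (V ⧸ M), θ xa = θ' xa → θ xb = θ' xb → θ = θ' := by
    intro θ θ' h1 h2
    apply LinearMap.ext
    intro x
    rcases hcases x with h | h | h | h
    · rw [h, map_zero, map_zero]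
    · rw [h, h1]
    · rw [h, h2]
    · rw [h, ← hab, map_add θ xa xb, map_add θ' xa xb, h1, h2]
  have hall : ∀ θ : D (V ⧸ M), θ = 0 ∨ θ = F ∨ θ = G ∨ θ = F + G := by
    intro θ
    rcases zm (θ xa) with h1 | h1 <;> rcases zm (θ xb) with h2 | h2
    · exact Or.inl (hext _ _ (by rw [h1]; rfl) (by rw [h2]; rfl))
    · exact Or.inr (Or.inr (Or.inl (hext _ _ (by rw [h1, hGa]) (by rw [h2, hGb]))))
    · exact Or.inr (Or.inl (hext _ _ (by rw [h1, hFa]) (by rw [h2, hFb])))
    · refine Or.inr (Or.inr (Or.inr (hext _ _ ?_ ?_)))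
      · rw [h1, LinearMap.add_apply, hFa, hGa, add_zero]
      · rw [h2, LinearMap.add_apply, hFb, hGb, zero_add]
  have n0F : (0 : D (V ⧸ M)) ≠ F := by
    intro h
    rw [← h] at hFE
    exact zero_ne_one hFE
  have n0G : (0 : D (V ⧸ M)) ≠ G := by
    intro h
    rw [← h] at hGE
    exact zero_ne_one hGE
  have nFG : F ≠ G := by
    intro h
    rw [h, hGa] at hFa
    exact zero_ne_one hFa
  have nFFG : F ≠ F + G := by
    intro h
    apply n0G
    have := congrArg (F + ·) h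
    simp only [add_add_self, add_self'] at this
    exact this
  have nGFG : G ≠ F + G := by
    intro h
    apply n0F
    have := congrArg (· + G) h
    simp only [add_assoc, add_self', add_zero] at this
    exact this
  have n0FG : (0 : D (V ⧸ M)) ≠ F + G := by
    intro h
    exact nFG (eq_of_add h.symm)
  have nFG0 : F + G ≠ 0 := fun h => n0FG h.symm
  -- the forms
  have pF : pull M.mkQ (rho F) = rho f := by
    ext x y
    rw [pull_apply, rho_apply₂, rho_apply₂, hF', hF']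
  have pG : pull M.mkQ (rho G) = rho g := by
    ext x y
    rw [pull_apply, rho_apply₂, rho_apply₂, hG', hG']
  have hRF : rho F ∈ R0 R M := by rw [mem_R0, pF]; exact hC.hf
  have hRG : rho G ∈ R0 R M := by rw [mem_R0, pG]; exact hC.hg
  have hR0 : ∀ κ ∈ R0 R M, κ = 0 ∨ κ = rho F ∨ κ = rho G ∨ κ = rho F + rho G := by
    intro κ hκ
    rcases (hXR V e R f g M hC).2.2 _ hκ (fun m hm => pull_ker κ hm) with h | h | h | h
    · left; apply pull_inj hsurj; rw [h, map_zero]
    · right; left; apply pull_inj hsurj; rw [h, pF]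
    · right; right; left; apply pull_inj hsurj; rw [h, pG]
    · right; right; right; apply pull_inj hsurj; rw [h, map_add, pF, pG]
  have rFa : rho F xa = F := by rw [rho_apply, hFa, one_smul]
  have rFb : rho F xb = 0 := by rw [rho_apply, hFb, zero_smul]
  have rFE : rho F E = F := by rw [rho_apply, hFE, one_smul]
  have rGa : rho G xa = 0 := by rw [rho_apply, hGa, zero_smul]
  have rGb : rho G xb = G := by rw [rho_apply, hGb, one_smul]
  have rGE : rho G E = G := by rw [rho_apply, hGE, one_smul]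
  have La : ∀ ψ, ψ ∈ Lx (R0 R M) xa ↔ ψ = 0 ∨ ψ = F := by
    intro ψ
    constructor
    · rintro ⟨κ, hκ, rfl⟩
      rcases hR0 κ hκ with h | h | h | h
      · left; rw [h]; rfl
      · right; rw [h, rFa]
      · left; rw [h, rGa]
      · right; rw [h, LinearMap.add_apply, rFa, rGa, add_zero]
    · rintro (h | h)
      · rw [h]; exact Submodule.zero_mem _
      · rw [h]; exact ⟨_, hRF, rFa⟩
  have Lb : ∀ ψ, ψ ∈ Lx (R0 R M) xb ↔ ψ = 0 ∨ ψ = G := by
    intro ψ
    constructor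
    · rintro ⟨κ, hκ, rfl⟩
      rcases hR0 κ hκ with h | h | h | h
      · left; rw [h]; rfl
      · left; rw [h, rFb]
      · right; rw [h, rGb]
      · right; rw [h, LinearMap.add_apply, rFb, rGb, zero_add]
    · rintro (h | h)
      · rw [h]; exact Submodule.zero_mem _
      · rw [h]; exact ⟨_, hRG, rGb⟩
  have LE : ∀ ψ, ψ ∈ Lx (R0 R M) E := by
    intro ψ
    have h1 : F ∈ Lx (R0 R M) E := ⟨_, hRF, rFE⟩
    have h2 : G ∈ Lx (R0 R M) E := ⟨_, hRG, rGE⟩
    rcases hall ψ with h | h | h | h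
    · rw [h]; exact Submodule.zero_mem _
    · rw [h]; exact h1
    · rw [h]; exact h2
    · rw [h]; exact Submodule.add_mem _ h1 h2
  have Fa : ∀ ψ, ψ ∈ Lx (fx (R0 R M) xa) E ↔ ψ = 0 ∨ ψ = G := by
    intro ψ
    constructor
    · rintro ⟨κ, ⟨hκ, hκ'⟩, rfl⟩
      rcases hR0 κ hκ with h | h | h | h
      · left; rw [h]; rfl
      · rw [h, rFa] at hκ'; exact absurd hκ'.symm n0F
      · right; rw [h, rGE]
      · rw [h, LinearMap.add_apply, rFa, rGa, add_zero] at hκ'; exact absurd hκ'.symm n0F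
    · rintro (h | h)
      · rw [h]; exact Submodule.zero_mem _
      · rw [h]; exact ⟨_, ⟨hRG, rGa⟩, rGE⟩
  have Fb : ∀ ψ, ψ ∈ Lx (fx (R0 R M) xb) E ↔ ψ = 0 ∨ ψ = F := by
    intro ψ
    constructor
    · rintro ⟨κ, ⟨hκ, hκ'⟩, rfl⟩
      rcases hR0 κ hκ with h | h | h | h
      · left; rw [h]; rfl
      · right; rw [h, rFE]
      · rw [h, rGb] at hκ'; exact absurd hκ'.symm n0G
      · rw [h, LinearMap.add_apply, rFb, rGb, zero_add] at hκ'; exact absurd hκ'.symm n0G
    · rintro (h | h)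
      · rw [h]; exact Submodule.zero_mem _
      · rw [h]; exact ⟨_, ⟨hRF, rFb⟩, rFE⟩
  have FE : ∀ ψ, ψ ∈ Lx (fx (R0 R M) E) xa ↔ ψ = 0 := by
    intro ψ
    constructor
    · rintro ⟨κ, ⟨hκ, hκ'⟩, rfl⟩
      rcases hR0 κ hκ with h | h | h | h
      · rw [h]; rfl
      · rw [h, rFE] at hκ'; exact absurd hκ'.symm n0F
      · rw [h, rGa]
      · rw [h, LinearMap.add_apply, rFE, rGE] at hκ'; exact absurd hκ' nFG0
    · intro h
      rw [h]; exact Submodule.zero_mem _
  have hspl : ∀ v v' : V ⧸ M, v ≠ v' → ∀ w : V, M.mkQ w = v + v' → Spl R M w := by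
    intro v v' hne w hw
    apply hXF4 V e R f g M hC w
    rintro rfl
    rw [map_zero] at hw
    exact hne (eq_of_add hw.symm)
  have nab : xa ≠ xb := by
    intro h
    rw [h, hGb] at hGa
    exact one_ne_zero hGa
  have nEa : E ≠ xa := by
    intro h
    rw [h, hGa] at hGE
    exact zero_ne_one hGE
  have nEb : E ≠ xb := by
    intro h
    rw [h, hFb] at hFE
    exact zero_ne_one hFE
  apply hOC V R M
  intro α θ θ' hθ hθ'
  set P : D (V ⧸ M) → V ⧸ M → ℤ := fun θ x => (PP R M α θ x : ℤ) with hP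
  have P0 : ∀ θ x, 0 ≤ P θ x := fun θ x => Int.natCast_nonneg _
  have P1 : ∀ θ x, 1 ≤ P θ x ↔ 1 ≤ PP R M α θ x := by
    intro θ x
    change (1 : ℤ) ≤ (PP R M α θ x : ℤ) ↔ _
    exact Nat.one_le_cast
  -- (P0)
  have z1 : P F xa = P 0 xa := by
    have := hPZ V R M α _ hRF 0 xa
    rw [rFa, zero_add] at this
    exact congrArg _ this
  have z2 : P (F + G) xa = P G xa := by
    have := hPZ V R M α _ hRF G xa
    rw [rFa, add_comm] at this
    exact congrArg _ this
  have z3 : P G xb = P 0 xb := by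
    have := hPZ V R M α _ hRG 0 xb
    rw [rGb, zero_add] at this
    exact congrArg _ this
  have z4 : P (F + G) xb = P F xb := by
    have := hPZ V R M α _ hRG F xb
    rw [rGb] at this
    exact congrArg _ this
  have z5 : P F E = P 0 E := by
    have := hPZ V R M α _ hRF 0 E
    rw [rFE, zero_add] at this
    exact congrArg _ this
  have z6 : P G E = P 0 E := by
    have := hPZ V R M α _ hRG 0 E
    rw [rGE, zero_add] at this
    exact congrArg _ this
  have z7 : P (F + G) E = P 0 E := by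
    have := hPZ V R M α _ hRG F E
    rw [rGE] at this
    have h2 : P (F + G) E = P F E := congrArg _ this
    rw [h2, z5]
  -- DIAG
  have hD : ∀ θ x, P θ x ^ 2 - P θ x =
      sOn {θ' | θ' + θ ∈ Lx (R0 R M) x} (fun θ' => P θ' 0 ^ 2 - P θ' 0) := fun θ x =>
    hDIAG V R M α hwu.sym hlink (fun w _ hw => hXF4 V e R f g M hC w hw) θ x
  have d1 : P 0 xa ^ 2 - P 0 xa = (P 0 0 ^ 2 - P 0 0) + (P F 0 ^ 2 - P F 0) := by
    rw [hD]
    exact sOn2 _ _ 0 F n0F (fun θ => by
      rw [Set.mem_ofPred_eq, add_zero, La])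
  have d2 : P G xa ^ 2 - P G xa = (P G 0 ^ 2 - P G 0) + (P (F + G) 0 ^ 2 - P (F + G) 0) := by
    rw [hD]
    exact sOn2 _ _ G (F + G) nGFG (fun θ => by
      rw [Set.mem_ofPred_eq, La, shift, shift, zero_add])
  have d3 : P 0 xb ^ 2 - P 0 xb = (P 0 0 ^ 2 - P 0 0) + (P G 0 ^ 2 - P G 0) := by
    rw [hD]
    exact sOn2 _ _ 0 G n0G (fun θ => by
      rw [Set.mem_ofPred_eq, add_zero, Lb])
  have d4 : P F xb ^ 2 - P F xb = (P F 0 ^ 2 - P F 0) + (P (F + G) 0 ^ 2 - P (F + G) 0) := by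
    rw [hD]
    exact sOn2 _ _ F (F + G) nFFG (fun θ => by
      rw [Set.mem_ofPred_eq, Lb, shift, shift, zero_add, add_comm G F])
  have d5 : P 0 E ^ 2 - P 0 E = (P 0 0 ^ 2 - P 0 0) + (P F 0 ^ 2 - P F 0) +
      (P G 0 ^ 2 - P G 0) + (P (F + G) 0 ^ 2 - P (F + G) 0) := by
    rw [hD]
    exact sOn4 _ _ 0 F G (F + G) n0F n0G n0FG nFG nFFG nGFG (fun θ =>
      ⟨fun _ => hall θ, fun _ => LE _⟩)
  -- PAIR
  have hQ : ∀ v v' : V ⧸ M, v ≠ v' → ∀ θ, P θ v * P θ v' =
      sOn {θ' | θ' + θ ∈ Lx (fx (R0 R M) (v + v')) v} (fun θ' => P θ' 0 * P θ' (v + v')) :=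
    fun v v' hne θ => hPAIR V R M α hwu.sym hlink v v' hne (hspl v v' hne) θ
  have q1 : ∀ θ, P θ xa * P θ xb = P θ 0 * P θ E := by
    intro θ
    have := hQ xa xb nab θ
    rw [hab] at this
    rw [this]
    exact sOn1 _ _ θ (fun θ' => by
      rw [Set.mem_ofPred_eq, FE, shift, zero_add])
  have q2 : ∀ θ, P θ E * P θ xb = P θ 0 * P θ xa + P (θ + G) 0 * P (θ + G) xa := by
    intro θ
    have := hQ E xb nEb θ
    rw [hEb] at this
    rw [this]
    exact sOn2 _ _ θ (θ + G) (fun h => n0G (by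
        have := congrArg (θ + ·) h
        simp only [add_add_self, add_self'] at this
        exact this)) (fun θ' => by
      rw [Set.mem_ofPred_eq, Fa, shift, shift, zero_add, add_comm G θ])
  have q3 : ∀ θ, P θ E * P θ xa = P θ 0 * P θ xb + P (θ + F) 0 * P (θ + F) xb := by
    intro θ
    have := hQ E xa nEa θ
    rw [hEa] at this
    rw [this]
    exact sOn2 _ _ θ (θ + F) (fun h => n0F (by
        have := congrArg (θ + ·) h
        simp only [add_add_self, add_self'] at this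
        exact this)) (fun θ' => by
      rw [Set.mem_ofPred_eq, Fb, shift, shift, zero_add, add_comm F θ])
  -- (P3)
  have hfull := hXF2 V e R f g M hC
  have t1 : ∀ θ, 1 ≤ P θ 0 → 1 ≤ P θ xa := by
    intro θ h
    have h0 : 1 ≤ PP R M α θ 0 := (P1 _ _).1 h
    have := hP3 V e R M α hwu hfull xa (fun ψ hψ => by
      rw [La]
      rw [← hE, ← hxb] at hψ
      rcases hall ψ with h | h | h | h
      · exact Or.inl h
      · exact Or.inr h
      · rw [h, hGb] at hψ; exact absurd hψ one_ne_zero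
      · rw [h, LinearMap.add_apply, hFb, hGb, zero_add] at hψ; exact absurd hψ one_ne_zero) θ h0
    exact (P1 _ _).2 this
  have t2 : ∀ θ, 1 ≤ P θ 0 → 1 ≤ P θ xb := by
    intro θ h
    have h0 : 1 ≤ PP R M α θ 0 := (P1 _ _).1 h
    have := hP3 V e R M α hwu hfull xb (fun ψ hψ => by
      rw [Lb]
      rw [← hE, add_comm, hEb] at hψ
      rcases hall ψ with h | h | h | h
      · exact Or.inl h
      · rw [h, hFa] at hψ; exact absurd hψ one_ne_zero
      · exact Or.inr h
      · rw [h, LinearMap.add_apply, hFa, hGa, add_zero] at hψ; exact absurd hψ one_ne_zero) θ h0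
    exact (P1 _ _).2 this
  have t3 : ∀ θ, 1 ≤ P θ 0 → 1 ≤ P θ E := by
    intro θ h
    have h0 : 1 ≤ PP R M α θ 0 := (P1 _ _).1 h
    have := hP3 V e R M α hwu hfull E (fun ψ hψ => LE ψ) θ h0
    exact (P1 _ _).2 this
  have h1 : 1 ≤ P θ 0 := (P1 _ _).2 hθ
  have h1' : 1 ≤ P θ' 0 := (P1 _ _).2 hθ'
  have u1 : 1 ≤ P 0 xa + P G xa := by
    have h2 := t1 θ h1
    have p1 := P0 0 xa
    have p2 := P0 G xa
    rcases hall θ with h | h | h | h
    · rw [h] at h2; linarith
    · rw [h, z1] at h2; linarith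
    · rw [h] at h2; linarith
    · rw [h, z2] at h2; linarith
  have u2 : 1 ≤ P 0 xb + P F xb := by
    have h2 := t2 θ h1
    have p1 := P0 0 xb
    have p2 := P0 F xb
    rcases hall θ with h | h | h | h
    · rw [h] at h2; linarith
    · rw [h] at h2; linarith
    · rw [h, z3] at h2; linarith
    · rw [h, z4] at h2; linarith
  have u3 : 1 ≤ P 0 E := by
    have h2 := t3 θ h1
    rcases hall θ with h | h | h | h
    · rw [h] at h2; exact h2
    · rw [h, z5] at h2; exact h2
    · rw [h, z6] at h2; exact h2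
    · rw [h, z7] at h2; exact h2
  have r1 := q1 0
  have r2 := q1 F
  rw [z1, z5] at r2
  have r3 := q1 G
  rw [z3, z6] at r3
  have r4 := q1 (F + G)
  rw [z2, z4, z7] at r4
  have r5 := q2 0
  rw [zero_add] at r5
  have r6 := q2 F
  rw [z5, z1, z2] at r6
  have r7 := q3 0
  rw [zero_add] at r7
  have r8 := q3 G
  rw [z6, z3, add_comm G F, z4] at r8
  have key := hXNUM (P 0 0) (P F 0) (P G 0) (P (F + G) 0) (P 0 xa) (P G xa) (P 0 xb) (P F xb)
    (P 0 E) (P0 _ _) (P0 _ _) (P0 _ _) (P0 _ _) (P0 _ _) (P0 _ _) (P0 _ _) (P0 _ _) (P0 _ _)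
    r1 r2 r3 r4 r5 r6 r7 r8 d1 d2 d3 d4 d5 u1 u2 u3
  have fin : ∀ θ, 1 ≤ P θ 0 → P θ 0 ≠ 0 := fun θ h => by linarith
  rcases hall θ with h | h | h | h <;> rcases hall θ' with h' | h' | h' | h' <;>
    first
    | exact h.trans h'.symm
    | (exfalso
       rw [h] at h1
       rw [h'] at h1'
       rcases key with k | k | k | k <;> obtain ⟨k1, k2, k3⟩ := k <;>
         simp only [k1, k2, k3] at h1 h1' <;> omega)

end Pool.Agent.ESG
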