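import Pool.Agent.ESG.Stmts

/-!
Module XEND: two rank one forms, `R` decomposes.
-/

set_option linter.unusedVariables false

namespace Pool.Agent.ESG

open Pool.Agent.ESL

theorem xend_proof (hXC : Stmt_XC) (hXR : Stmt_XR) (hSAT : Stmt_SAT) (hCR : Stmt_CROSS)
    (hEND : Stmt_ENDD) : Stmt_XEND := by
  intro V _ _ _ e R f g M h hIH
  have hwu := h.ctx.wu
  have hoc := hXC V e R f g M h
  have hsat := hSAT V R M hwu.sym h.ctx.sl.linked hoc
  obtain ⟨hM0, -, -⟩ := hXR V e R f g M h
  have hMco : M = co (Submodule.span (ZMod 2) {f, g}) := by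
    ext x
    rw [h.mem, mem_co]
    constructor
    · rintro ⟨h1, h2⟩ φ hφ
      obtain ⟨a, b, rfl⟩ := Submodule.mem_span_pair.1 hφ
      rw [LinearMap.add_apply, LinearMap.smul_apply, LinearMap.smul_apply, h1, h2, smul_zero,
        smul_zero, add_zero]
    · intro hφ
      exact ⟨hφ f (Submodule.subset_span (by simp)), hφ g (Submodule.subset_span (by simp))⟩
  have han : an M = Submodule.span (ZMod 2) {f, g} := by rw [hMco, an_co]
  have hMt : M ≠ ⊤ := by
    intro hc
    have h1 : e ∈ M := by rw [hc]; exact Submodule.mem_top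
    have h2 := ((h.mem e).1 h1).1
    rw [h.fe] at h2
    exact one_ne_zero h2
  have hτ0 : f + g ≠ 0 := fun hc => h.ne (eq_of_add hc)
  have hτe : (f + g) e = 0 := by
    rw [LinearMap.add_apply, h.fe, h.ge, CharTwo.add_self_eq_zero]
  have hwf : wd e (f + g) f ∈ R := by
    rw [wd_eq_rho h.fe, show f + (f + g) = g from add_add_self f g]
    exact R.add_mem h.hf h.hg
  have hwg : wd e (f + g) g ∈ R := by
    rw [wd_eq_rho h.ge, show g + (f + g) = f by rw [add_comm f g]; exact add_add_self g f]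
    exact R.add_mem h.hg h.hf
  refine hEND V e R M hwu h.ctx.sl h.ctx.nd hIH hM0 hMt hsat ?_
  refine hCR V e R (f + g) M hwu h.ctx.sl.linked h.ctx.nd hτ0 hτe ?_ ?_ hsat
  · intro ψ hψ
    rw [han] at hψ
    obtain ⟨a, b, rfl⟩ := Submodule.mem_span_pair.1 hψ
    rw [map_add, map_smul, map_smul]
    exact R.add_mem (R.smul_mem _ hwf) (R.smul_mem _ hwg)
  · intro m hm
    obtain ⟨h1, h2⟩ := (h.mem m).1 hm
    rw [LinearMap.add_apply, h1, h2, add_zero]

end Pool.Agent.ESG
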