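import Pool.Agent.ESG.Stmts

/-!
XF1: with two rank one forms `f ⊗ f`, `g ⊗ g` and `M = ker f ∩ ker g`, every `w ∈ M`, `w ≠ 0`, is split.
-/

set_option autoImplicit false

namespace Pool.Agent.ESG

open Pool.Agent.ESL

namespace XF1X

variable {V : Type} [AddCommGroup V] [Module (ZMod 2) V]

theorem mem_ats [Finite V] {R : FS V} {w : V} {a : Fm V} : a ∈ ats R w ↔ At R w a := by
  simp [ats]

theorem mem_spanA {A : Finset (Fm V)} {k : Fm V}
    (hk : k ∈ Submodule.span (ZMod 2) (A : Set (Fm V))) : ∃ I ⊆ A, k = ∑ b ∈ I, b := by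
  classical
  obtain ⟨f, -, hf⟩ := Submodule.mem_span_finset.1 hk
  refine ⟨A.filter (fun a => f a ≠ 0), Finset.filter_subset _ _, ?_⟩
  rw [← hf, Finset.sum_filter]
  refine Finset.sum_congr rfl fun a ha => ?_
  split_ifs with h
  · rw [zm_ne h, one_smul]
  · push Not at h
    rw [h, zero_smul]

theorem dis2 {A J K : Finset (Fm V)} (hA : IndB A) (hJ : J ⊆ A) (hK : K ⊆ A) (h : Disjoint J K) :
    Disjoint (⨆ b ∈ J, LinearMap.range b) (⨆ b ∈ K, LinearMap.range b) := by
  classical
  have h1 := iSupIndep.disjoint_biSup_biSup' (s := {a : A | a.1 ∈ J}) (t := {a : A | a.1 ∈ K}) hA.2 (by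
    rw [Set.disjoint_left]
    intro a ha hb
    exact (Finset.disjoint_left.1 h) ha hb) (Set.toFinite _)
  refine h1.mono ?_ ?_
  · refine iSup₂_le fun b hb => ?_
    exact le_iSup₂_of_le (⟨b, hJ hb⟩ : A) hb le_rfl
  · refine iSup₂_le fun b hb => ?_
    exact le_iSup₂_of_le (⟨b, hK hb⟩ : A) hb le_rfl

end XF1X

open XF1X in
theorem xf1_proof (hRA : Stmt_RA) (hAU1 : Stmt_AU1) : Stmt_XF1 := by
  classical
  intro V _ _ _ e R f g M h w hw hw0
  have hR := h.ctx
  have hfw : f w = 0 := ((h.mem w).1 hw).1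
  have hgw : g w = 0 := ((h.mem w).1 hw).2
  have hf0 : f ≠ 0 := by
    rintro rfl
    have := h.fe
    rw [LinearMap.zero_apply] at this
    exact zero_ne_one this
  have hg0 : g ≠ 0 := by
    rintro rfl
    have := h.ge
    rw [LinearMap.zero_apply] at this
    exact zero_ne_one this
  have hAf : At R w (rho f) := (hRA V e R hR.wu).1 f hf0 h.hf w hfw
  have hAg : At R w (rho g) := (hRA V e R hR.wu).1 g hg0 h.hg w hgw
  obtain ⟨hInd, hspan⟩ := hAU1 V e R hR w hw0
  set A := ats R w with hA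
  let K : Finset (Fm V) := {rho f, rho g}
  let J : Finset (Fm V) := A.filter (fun b => b ∉ K)
  have hKA : K ⊆ A := by
    intro b hb
    rcases Finset.mem_insert.1 hb with rfl | hb
    · exact mem_ats.2 hAf
    · rw [Finset.mem_singleton] at hb
      rw [hb]; exact mem_ats.2 hAg
  have hJA : J ⊆ A := Finset.filter_subset _ _
  have hJK : Disjoint J K := by
    rw [Finset.disjoint_left]
    intro b hb
    exact (Finset.mem_filter.1 hb).2
  have hdis := dis2 hInd hJA hKA hJK
  have hKM : ∀ b ∈ K, ∀ m ∈ M, b m = 0 := by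
    intro b hb m hm
    rcases Finset.mem_insert.1 hb with rfl | hb
    · rw [rho_apply, ((h.mem m).1 hm).1, zero_smul]
    · rw [Finset.mem_singleton] at hb
      rw [hb, rho_apply, ((h.mem m).1 hm).2, zero_smul]
  refine ⟨co (⨆ b ∈ J, LinearMap.range b), ?_, ?_⟩
  · rw [eq_top_iff, ← co_sup_top hdis]
    refine sup_le_sup_left ?_ _
    intro x hx
    rw [h.mem x]
    have key : ∀ φ : D V, rho φ ∈ K → φ x = 0 := by
      intro φ hφ
      have h1 : φ ∈ LinearMap.range (rho φ) := by
        rw [range_rho]; exact Submodule.mem_span_singleton_self φ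
      exact hx φ (Submodule.mem_iSup_of_mem (rho φ) (Submodule.mem_iSup_of_mem hφ h1))
    exact ⟨key f (by simp [K]), key g (by simp [K])⟩
  · intro k hk hkw
    have h1 : k ∈ fx R w := ⟨hk, hkw⟩
    rw [← hspan] at h1
    obtain ⟨I, hI, hkI⟩ := mem_spanA h1
    refine ⟨∑ b ∈ I.filter (fun b => b ∈ K), b, ?_, ?_, ?_, ?_⟩
    · refine R.sum_mem fun b hb => ?_
      exact (mem_ats.1 (hI (Finset.mem_filter.1 hb).1)).1
    · intro m hm
      rw [LinearMap.sum_apply]
      exact Finset.sum_eq_zero fun b hb => hKM b (Finset.mem_filter.1 hb).2 m hm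
    · rw [LinearMap.sum_apply]
      exact Finset.sum_eq_zero fun b hb => hKM b (Finset.mem_filter.1 hb).2 w hw
    · intro c hc
      have h2 : (∑ b ∈ I.filter (fun b => b ∉ K), b) c = 0 := by
        rw [LinearMap.sum_apply]
        refine Finset.sum_eq_zero fun b hb => ?_
        obtain ⟨hbI, hbK⟩ := Finset.mem_filter.1 hb
        have hbR : b ∈ R := (mem_ats.1 (hI hbI)).1
        have h3 : c ∈ co (LinearMap.range b) := by
          intro φ hφ
          exact hc φ (Submodule.mem_iSup_of_mem b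
            (Submodule.mem_iSup_of_mem (Finset.mem_filter.2 ⟨hI hbI, hbK⟩) hφ))
        rw [ESG.co_range (hR.wu.sym b hbR)] at h3
        exact h3
      rw [hkI, ← Finset.sum_filter_add_sum_filter_not I (fun b => b ∈ K), LinearMap.add_apply, h2, add_zero]

end Pool.Agent.ESG
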