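import Pool.Agent.ESG.Stmts

/-!
ESG module XF2: two rank one forms, `M` is full.
-/

set_option linter.unusedVariables false

namespace Pool.Agent.ESG

open Pool.Agent.ESL

namespace XF2X

variable {V : Type} [AddCommGroup V] [Module (ZMod 2) V]

/-- a functional vanishing on `C` and `M` is zero -/
theorem eq_zero_of {C M : Submodule (ZMod 2) V} (h : C ⊔ M = ⊤) {f : D V} (hC : ∀ c ∈ C, f c = 0)
    (hM : ∀ m ∈ M, f m = 0) : f = 0 := by
  ext v
  obtain ⟨c, hc, m, hm, rfl⟩ := Submodule.mem_sup.1 (show v ∈ C ⊔ M by rw [h]; trivial)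
  rw [map_add, hC c hc, hM m hm, add_zero]; rfl

/-- the key use of split vectors -/
theorem key {e : V} {R : FS V} (hR : IsWu e R) {M : Submodule (ZMod 2) V} {w : V} (hs : Spl R M w)
    {k : Fm V} (hk : k ∈ R) (hw : k w = 0) {m : V} (hm : m ∈ M) (h : ∀ b ∈ M, k m b = 0) :
    k m = 0 := by
  obtain ⟨C, hC, hsp⟩ := hs
  obtain ⟨κ, hκ, hκM, -, hκC⟩ := hsp k hk hw
  apply eq_zero_of hC _ h
  intro c hc
  rw [hR.symm hk, hκC c hc, hR.symm hκ, hκM m hm]; rfl

end XF2X

open XF2X in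
theorem xf2_proof (hXF1 : Stmt_XF1) (hXF3 : Stmt_XF3) (hXR : Stmt_XR) : Stmt_XF2 := by
  intro V _ _ _ e R f g M ctx
  obtain ⟨hMne, hfr, -⟩ := hXR V e R f g M ctx
  by_cases h1 : fr M = 1
  · exact hXF3 V e R f g M ctx h1
  have hM0 : fr M ≠ 0 := by
    intro h0
    exact hMne (Submodule.finrank_eq_zero.1 h0)
  have h2 : 2 ≤ fr M := by omega
  have hspl := hXF1 V e R f g M ctx
  intro m hm k hk hkM
  by_contra hne
  have hR := ctx.ctx.wu
  have hL := ctx.ctx.sl.linked
  set ψ : D V := k m with hψ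
  have hm0 : m ≠ 0 := by
    rintro rfl
    exact hne (by rw [hψ, map_zero])
  have hψ0 : ψ ≠ 0 := hne
  -- `ψ` vanishes on `ker f ∩ ker g`
  have hψfg : ψ = f + g := by
    have hspan : ψ ∈ an M := hkM
    have hMeq : M = co (Submodule.span (ZMod 2) {f, g}) := by
      ext x
      rw [ctx.mem, mem_co]
      constructor
      · rintro ⟨hf, hg⟩ φ hφ
        obtain ⟨c, d, rfl⟩ := Submodule.mem_span_pair.1 hφ
        simp [hf, hg]
      · intro h
        exact ⟨h f (Submodule.subset_span (by simp)), h g (Submodule.subset_span (by simp))⟩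
    rw [hMeq, an_co] at hspan
    obtain ⟨c, d, hcd⟩ := Submodule.mem_span_pair.1 hspan
    have hψe : ψ e = 0 := by
      rw [hψ, ← hR k hk m]
      exact hkM m hm
    have hval : c + d = 0 := by
      have : (c • f + d • g) e = 0 := by rw [hcd, hψe]
      simpa [ctx.fe, ctx.ge] using this
    rcases zm c with rfl | rfl
    · have hd : d = 0 := by simpa using hval
      rw [hd, zero_smul, zero_smul, add_zero] at hcd
      exact absurd hcd.symm hψ0
    · have hd : d = 1 := by
        rcases zm d with h | h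
        · rw [h] at hval
          exact absurd hval (by decide)
        · exact h
      rw [hd, one_smul, one_smul] at hcd
      exact hcd.symm
  -- choose `a`
  obtain ⟨a, ha, ha0, ham⟩ : ∃ a ∈ M, a ≠ 0 ∧ a ≠ m := by
    by_contra hc
    push Not at hc
    have hle : M ≤ Submodule.span (ZMod 2) {m} := by
      intro x hx
      by_cases hx0 : x = 0
      · rw [hx0]; exact Submodule.zero_mem _
      · rw [hc x hx hx0]; exact Submodule.mem_span_singleton_self m
    have h1 := Submodule.finrank_mono hle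
    have h3 : Module.finrank (ZMod 2) (Submodule.span (ZMod 2) {m}) ≤ 1 := by
      rw [finrank_span_singleton hm0]
    have h4 : 2 ≤ Module.finrank (ZMod 2) M := h2
    omega
  obtain ⟨C, hC, hsp⟩ := hspl m hm hm0
  -- the form `κ`
  have hA : ∀ h, f h = 1 → g h = 1 → ∃ κ ∈ R, (∀ b ∈ M, κ b = 0) ∧ κ h = ψ := by
    intro h hf hg
    refine ⟨rho f + rho g, R.add_mem ctx.hf ctx.hg, fun b hb => ?_, ?_⟩
    · have := (ctx.mem b).1 hb
      rw [LinearMap.add_apply, rho_apply, rho_apply, this.1, this.2, zero_smul, zero_smul, add_zero]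
    · rw [LinearMap.add_apply, rho_apply, rho_apply, hf, hg, one_smul, one_smul, hψfg]
  have hB : ∀ h ∈ C, f h = 1 → g h = 1 →
      ∃ k' ∈ R, k' m = ψ ∧ (∀ b ∈ M, k' a b = 0) ∧ k' a h = 0 := by
    intro h hh hf hg
    obtain ⟨κ, hκ, hκM, hκh⟩ := hA h hf hg
    have step : ∀ a' ∈ M, ∃ l ∈ R, l m = ψ ∧ l (h + a') = 0 := by
      intro a' ha'
      obtain ⟨l, hl, h1, h2⟩ := hL k hk κ hκ m (m + (h + a')) (by
        rw [map_add, map_add, hκM m hm, hκM a' ha', hκh, zero_add, add_zero])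
      refine ⟨l, hl, h1, ?_⟩
      rw [map_add l m, h1] at h2
      simpa using h2
    obtain ⟨l₀, hl₀, e1, e2⟩ := step 0 M.zero_mem
    obtain ⟨l₁, hl₁, e3, e4⟩ := step a ha
    rw [add_zero] at e2
    have hsum : (l₁ + l₀) m = 0 := by
      rw [LinearMap.add_apply, e1, e3, add_self']
    obtain ⟨κ', hκ', hκ'M, hκ'm, hκ'C⟩ := hsp (l₁ + l₀) (R.add_mem hl₁ hl₀) hsum
    have hd : ∀ x, (l₁ + l₀ + κ') x = l₁ x + l₀ x + κ' x := fun x => rfl
    have hmem : l₀ + (l₁ + l₀ + κ') ∈ R := R.add_mem hl₀ (R.add_mem (R.add_mem hl₁ hl₀) hκ')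
    have ek : (l₀ + (l₁ + l₀ + κ')) a = κ' h := by
      have h5 : l₁ h + l₀ h = κ' h := hκ'C h hh
      rw [e2, add_zero] at h5
      rw [map_add, h5] at e4
      have h6 : κ' h = l₁ a := eq_of_add e4
      rw [LinearMap.add_apply, hd, hκ'M a ha, h6, add_zero, add_comm (l₁ a), add_add_self]
    have hab : ∀ b ∈ M, (l₀ + (l₁ + l₀ + κ')) a b = 0 := by
      intro b hb
      rw [ek, hR.symm hκ', hκ'M b hb]; rfl
    refine ⟨l₀ + (l₁ + l₀ + κ'), hmem, ?_, hab, ?_⟩
    · rw [LinearMap.add_apply, hd, hκ'm, e1, e3, add_self', add_zero, add_zero]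
    · rw [ek, hR κ' hκ' h, ← ek, ← hR _ hmem a]
      exact hab a ha
  have hCl : ∀ k₁ ∈ R, ∀ k₂ ∈ R, k₁ m = ψ → k₂ m = ψ → (∀ b ∈ M, k₁ a b = 0) →
      (∀ b ∈ M, k₂ a b = 0) → k₁ a = k₂ a := by
    intro k₁ h₁ k₂ h₂ e1 e2 f1 f2
    obtain ⟨κ, hκ, hκM, -, hκC⟩ := hsp (k₁ + k₂) (R.add_mem h₁ h₂) (by
      rw [LinearMap.add_apply, e1, e2, add_self'])
    have : (k₁ + k₂) a = 0 := by
      apply eq_zero_of hC
      · intro c hc
        rw [hR.symm (R.add_mem h₁ h₂), hκC c hc, hR.symm hκ, hκM a ha]; rfl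
      · intro b hb
        rw [LinearMap.add_apply, LinearMap.add_apply, f1 b hb, f2 b hb, add_zero]
    exact eq_of_add this
  -- projection to `C`
  have hproj : ∀ v, f v = 1 → g v = 1 → ∃ c ∈ C, f c = 1 ∧ g c = 1 ∧ v + c ∈ M := by
    intro v hf hg
    obtain ⟨c, hc, b, hb, rfl⟩ := Submodule.mem_sup.1 (show v ∈ C ⊔ M by rw [hC]; trivial)
    have hb' := (ctx.mem b).1 hb
    rw [map_add, hb'.1, add_zero] at hf
    rw [map_add, hb'.2, add_zero] at hg
    refine ⟨c, hc, hf, hg, ?_⟩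
    rw [add_comm c b, add_assoc, add_self', add_zero]; exact hb
  obtain ⟨c₀, hc₀, hf₀, hg₀, -⟩ := hproj e ctx.fe ctx.ge
  obtain ⟨k', hk', e1, e2, -⟩ := hB c₀ hc₀ hf₀ hg₀
  have hvan : ∀ v, f v = 1 → g v = 1 → k' a v = 0 := by
    intro v hf hg
    obtain ⟨c, hc, hf', hg', hvc⟩ := hproj v hf hg
    obtain ⟨k'', hk'', f1, f2, f3⟩ := hB c hc hf' hg'
    have h6 := hCl k' hk' k'' hk'' e1 f1 e2 f2
    have h7 : v = (v + c) + c := (add_add_self' v c).symm
    rw [h7, map_add, e2 _ hvc, zero_add, h6, f3]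
  have hker : ∀ v, ψ v = 0 → k' a v = 0 := by
    intro v hv
    have hv' : f v + g v = 0 := by
      have := hv
      rw [hψfg] at this
      exact this
    rcases zm (f v) with hf | hf
    · have hg : g v = 0 := by rw [hf, zero_add] at hv'; exact hv'
      exact e2 v ((ctx.mem v).2 ⟨hf, hg⟩)
    · have hg : g v = 1 := by
        rcases zm (g v) with h | h
        · rw [hf, h] at hv'
          exact absurd hv' (by decide)
        · exact h
      exact hvan v hf hg
  have hval : k' a = 0 ∨ k' a = ψ := by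
    by_cases h0 : k' a = 0
    · exact Or.inl h0
    right
    ext v
    rcases zm (ψ v) with h | h
    · rw [h, hker v h]
    · rw [h]
      by_contra hcon
      have h11 : k' a v = 0 := zm_ne' hcon
      apply h0
      ext u
      rcases zm (ψ u) with h' | h'
      · rw [hker u h']; rfl
      · have h12 := hker (u + v) (by rw [map_add, h, h', CharTwo.add_self_eq_zero])
        rw [map_add, h11, add_zero] at h12
        rw [h12]; rfl
  rcases hval with h | h
  · have := key hR (hspl a ha ha0) hk' h hm (by rw [e1]; exact hkM)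
    exact hψ0 (e1 ▸ this)
  · have := key hR (w := m + a) (hspl (m + a) (M.add_mem hm ha) (fun h' => ham (eq_of_add h').symm)) hk'
      (by rw [map_add, e1, h, add_self']) hm (by rw [e1]; exact hkM)
    exact hψ0 (e1 ▸ this)

end Pool.Agent.ESG
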