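import Pool.Agent.ESG.Stmts

/-!
ESG module XF3: two rank one forms, `dim M = 1`: `M` is full.
-/

set_option linter.unusedVariables false

namespace Pool.Agent.ESG

open Pool.Agent.ESL

namespace XF3X

variable {V : Type} [AddCommGroup V] [Module (ZMod 2) V]

/-- two functionals agreeing at `m`, `e`, `x` are equal -/
theorem ext3 {f g : D V} {e m x : V}
    (hM : ∀ v, f v = 0 → g v = 0 → v = 0 ∨ v = m)
    (fe : f e = 1) (ge : g e = 1) (fx : f x = 1) (gx : g x = 0) {α β : D V}
    (hm : α m = β m) (he : α e = β e) (hx : α x = β x) : α = β := by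
  ext v
  have h1 : f (v + g v • e + (f v + g v) • x) = 0 := by
    simp only [map_add, map_smul, smul_eq_mul, fe, fx]
    generalize f v = a
    generalize g v = b
    revert a b
    decide
  have h2 : g (v + g v • e + (f v + g v) • x) = 0 := by
    simp only [map_add, map_smul, smul_eq_mul, ge, gx]
    generalize f v = a
    generalize g v = b
    revert a b
    decide
  have h3 : α (v + g v • e + (f v + g v) • x) = β (v + g v • e + (f v + g v) • x) := by
    rcases hM _ h1 h2 with h | h
    · rw [h, map_zero, map_zero]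
    · rw [h, hm]
  simp only [map_add, map_smul, smul_eq_mul, he, hx] at h3
  have key : ∀ a b c d : ZMod 2, a + c + d = b + c + d → a = b := by decide
  exact key _ _ _ _ h3

/-- the main computation: `f x = 1`, `g x = 0` -/
theorem main {f g : D V} {e m x : V}
    (hM : ∀ v, f v = 0 → g v = 0 → v = 0 ∨ v = m)
    (fm : f m = 0) (fe : f e = 1) (ge : g e = 1) (fx : f x = 1) (gx : g x = 0)
    {κ : D V} (hκ : κ m = 1) (hκ' : κ (x + e) = 0) {φ : D V} (hφ : φ (x + e) = 0) :
    φ = φ m • κ + (φ e + φ m * κ e) • f := by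
  rw [map_add] at hκ' hφ
  have hκx : κ x = κ e := eq_of_add hκ'
  have hφx : φ x = φ e := eq_of_add hφ
  refine ext3 hM fe ge fx gx ?_ ?_ ?_
  · simp only [LinearMap.add_apply, LinearMap.smul_apply, smul_eq_mul, hκ, fm, mul_one, mul_zero,
      add_zero]
  · simp only [LinearMap.add_apply, LinearMap.smul_apply, smul_eq_mul, fe, mul_one]
    generalize φ m * κ e = a
    generalize φ e = b
    revert a b
    decide
  · simp only [LinearMap.add_apply, LinearMap.smul_apply, smul_eq_mul, fx, mul_one, hκx, hφx]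
    generalize φ m * κ e = a
    generalize φ e = b
    revert a b
    decide

end XF3X

open XF3X in
theorem xf3_proof : Stmt_XF3 := by
  intro V _ _ _ e R f g M ctx h1
  intro m hm k hk hkM
  by_contra hne
  have hR := ctx.ctx.wu
  have fe := ctx.fe
  have ge := ctx.ge
  have hm0 : m ≠ 0 := by
    rintro rfl
    exact hne (map_zero k)
  obtain ⟨fm, gm⟩ := (ctx.mem m).1 hm
  -- `M = {0, m}`
  have hM : ∀ v, f v = 0 → g v = 0 → v = 0 ∨ v = m := by
    intro v hf hg
    have hv : v ∈ M := (ctx.mem v).2 ⟨hf, hg⟩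
    have hne' : (⟨m, hm⟩ : M) ≠ 0 := by
      intro h
      exact hm0 (congrArg Subtype.val h)
    obtain ⟨c, hc⟩ := (finrank_eq_one_iff_of_nonzero' (⟨m, hm⟩ : M) hne').1 h1 ⟨v, hv⟩
    have hc' : c • m = v := congrArg Subtype.val hc
    rcases zm c with h | h
    · left; rw [← hc', h, zero_smul]
    · right; rw [← hc', h, one_smul]
  set τ : D V := f + g with hτ
  have τe : τ e = 0 := by
    rw [hτ, LinearMap.add_apply, fe, ge]; decide
  have τ0 : τ ≠ 0 := by
    intro h
    exact ctx.ne (eq_of_add h)
  -- a point where `f` and `g` differ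
  obtain ⟨x₀, fx₀, gx₀⟩ : ∃ x₀, f x₀ = 1 ∧ g x₀ = 0 := by
    obtain ⟨x, hx⟩ : ∃ x, f x ≠ g x := by
      by_contra h
      push Not at h
      exact ctx.ne (LinearMap.ext h)
    rcases zm (f x) with h | h
    · rcases zm (g x) with h' | h'
      · exact absurd (h.trans h'.symm) hx
      · refine ⟨x + e, ?_, ?_⟩
        · rw [map_add, h, fe]; decide
        · rw [map_add, h', ge]; decide
    · rcases zm (g x) with h' | h'
      · exact ⟨x, h, h'⟩
      · exact absurd (h.trans h'.symm) hx
  -- `k m = τ`
  have hmm : k m m = 0 := hkM m hm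
  have hme : k m e = 0 := by rw [← hR k hk m]; exact hmm
  have hkm : k m = τ := by
    have hx : k m x₀ = 1 := by
      rcases zm (k m x₀) with h | h
      · exfalso
        apply hne
        refine ext3 hM fe ge fx₀ gx₀ ?_ ?_ ?_
        · rw [hmm]; rfl
        · rw [hme]; rfl
        · rw [h]; rfl
      · exact h
    refine ext3 hM fe ge fx₀ gx₀ ?_ ?_ ?_
    · rw [hmm, hτ, LinearMap.add_apply, fm, gm, add_zero]
    · rw [hme, τe]
    · rw [hx, hτ, LinearMap.add_apply, fx₀, gx₀, add_zero]
  -- all `[τ, ψ]` are pointwise inner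
  refine ctx.ctx.top τ τ0 τe ?_
  rw [eq_top_iff]
  intro ψ _
  rw [mem_St]
  refine ctx.ctx.sl.univ ?_
  intro x
  rcases zm (τ x) with hx | hx
  · rw [wd_of_zero hx]
    have hfg : f x = g x := by
      rw [hτ, LinearMap.add_apply] at hx
      exact eq_of_add hx
    rcases zm (f x) with h | h
    · rcases hM x h (hfg ▸ h) with h' | h'
      · rw [h', Lx_zero, Submodule.mem_bot, map_zero, zero_smul]
      · refine Submodule.smul_mem _ _ ?_
        rw [h', ← hkm]; exact Lx_mem hk m
    · refine Submodule.smul_mem _ _ ⟨rho f + rho g, R.add_mem ctx.hf ctx.hg, ?_⟩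
      rw [LinearMap.add_apply, rho_apply, rho_apply, ← hfg, h, one_smul, one_smul]
  · have hκ : k x m = 1 := by rw [hR.symm hk, hkm, hx]
    have hκ' : k x (x + e) = 0 := Lx_e hR (Lx_mem hk x)
    have hφ : wd e τ ψ x (x + e) = 0 := by
      rw [map_add, wd_wu τe, CharTwo.add_self_eq_zero]
    have hfg : f x + g x = 1 := by rw [hτ, LinearMap.add_apply] at hx; exact hx
    rcases zm (f x) with h | h
    · have gx : g x = 1 := by rw [h, zero_add] at hfg; exact hfg
      have hM' : ∀ v, g v = 0 → f v = 0 → v = 0 ∨ v = m := fun v a b => hM v b a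
      rw [main hM' gm ge fe gx h hκ hκ' hφ]
      refine Submodule.add_mem _ (Submodule.smul_mem _ _ (Lx_mem hk x))
        (Submodule.smul_mem _ _ ⟨rho g, ctx.hg, ?_⟩)
      rw [rho_apply, gx, one_smul]
    · have gx : g x = 0 := by
        rcases zm (g x) with h' | h'
        · exact h'
        · rw [h, h'] at hfg; exact absurd hfg (by decide)
      rw [main hM fm fe ge h gx hκ hκ' hφ]
      refine Submodule.add_mem _ (Submodule.smul_mem _ _ (Lx_mem hk x))
        (Submodule.smul_mem _ _ ⟨rho f, ctx.hf, ?_⟩)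
      rw [rho_apply, h, one_smul]

end Pool.Agent.ESG
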