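import Pool.Agent.ESG.Stmts

/-!
Module XF4: two rank one forms `f ⊗ f`, `g ⊗ g`, `M = ker f ∩ ker g`: every `w ≠ 0` is split.
-/

set_option linter.unusedSectionVars false
set_option linter.unusedVariables false

namespace Pool.Agent.ESG

open Pool.Agent.ESL

namespace XF4X

variable {V : Type} [AddCommGroup V] [Module (ZMod 2) V]

theorem mem_ats [Finite V] {R : FS V} {w : V} {a : Fm V} : a ∈ ats R w ↔ At R w a := by
  unfold ats
  rw [Set.Finite.mem_toFinset]
  rfl

/-- symmetric situation: a functional vanishing on `ker f ∩ ker g` is `0`, `f`, `g` or `f + g` -/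
theorem four [Finite V] {f g : D V} {M : Submodule (ZMod 2) V} (hM : ∀ x, x ∈ M ↔ f x = 0 ∧ g x = 0)
    {φ : D V} (h : φ ∈ an M) : φ = 0 ∨ φ = f ∨ φ = g ∨ φ = f + g := by
  have h1 : M = co (Submodule.span (ZMod 2) {f, g}) := by
    ext x
    rw [hM, mem_co]
    constructor
    · rintro ⟨h1, h2⟩ φ hφ
      obtain ⟨a, b, rfl⟩ := Submodule.mem_span_pair.1 hφ
      rw [LinearMap.add_apply, LinearMap.smul_apply, LinearMap.smul_apply, h1, h2]
      simp
    · intro h1
      exact ⟨h1 f (Submodule.subset_span (by simp)), h1 g (Submodule.subset_span (by simp))⟩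
  rw [h1, an_co] at h
  obtain ⟨a, b, rfl⟩ := Submodule.mem_span_pair.1 h
  rcases zm a with rfl | rfl <;> rcases zm b with rfl | rfl
  · left; simp
  · right; right; left; simp
  · right; left; simp
  · right; right; right; simp

theorem top_of {C M : Submodule (ZMod 2) V} (h : an C ⊓ an M = ⊥) : C ⊔ M = ⊤ := by
  have h1 : an (C ⊔ M) = ⊥ := by rw [an_sup, h]
  have h2 := co_an (C ⊔ M)
  rw [h1, co_bot] at h2
  exact h2.symm

/-- functionals in the support of `R^w` vanish at `w` -/
theorem Sp_fx_w [Finite V] {e : V} {R : FS V} (hR : IsWu e R) {w : V} {φ : D V} (h : φ ∈ Sp (fx R w)) :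
    φ w = 0 :=
  Sp_apply_zero (hR.mono (fx_le R w)).sym (x := w) (fun k hk => hk.2) h

/-- case `f w = 1`, `g w = 0` -/
theorem caseA [Finite V] (hau1 : Stmt_AU1) (hra : Stmt_RA) {e : V} {R : FS V} {f g : D V}
    {M : Submodule (ZMod 2) V} (ctx : CtxII e R) (hg : rho g ∈ R) (ge : g e = 1)
    (mem : ∀ x, x ∈ M ↔ f x = 0 ∧ g x = 0) {w : V} (hw : w ≠ 0) (fw : f w = 1) (gw : g w = 0) :
    Spl R M w := by
  have g0 : g ≠ 0 := by
    rintro rfl
    simp at ge
  have hat : At R w (rho g) := (hra V e R ctx.wu).1 g g0 hg w gw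
  obtain ⟨hI, hspan⟩ := hau1 V e R ctx w hw
  have hmem : rho g ∈ ats R w := mem_ats.2 hat
  set T : Submodule (ZMod 2) (D V) := ⨆ a : ats R w, ⨆ (_ : (a : Fm V) ≠ rho g),
    LinearMap.range (a : Fm V) with hT
  have hTle : T ≤ Sp (fx R w) := by
    rw [hT]
    refine iSup_le fun a => iSup_le fun _ => ?_
    apply range_le_Sp
    rw [← hspan]
    exact Submodule.subset_span a.2
  have hdis : Disjoint (LinearMap.range (rho g)) T := by
    have := hI.2 ⟨rho g, hmem⟩
    refine this.mono_right ?_
    rw [hT]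
    refine iSup_le fun a => iSup_le fun ha => ?_
    refine le_iSup_of_le a (le_iSup_of_le ?_ le_rfl)
    intro h
    exact ha (congrArg Subtype.val h)
  have gT : g ∉ T := by
    intro h
    have h1 : g ∈ LinearMap.range (rho g) := by
      rw [range_rho]; exact Submodule.mem_span_singleton_self g
    exact g0 ((Submodule.disjoint_def.1 hdis) g h1 h)
  refine ⟨co T, ?_, ?_⟩
  · apply top_of
    rw [an_co, eq_bot_iff]
    rintro φ ⟨h1, h2⟩
    have hφw : φ w = 0 := Sp_fx_w ctx.wu (hTle h1)
    rcases four mem h2 with rfl | rfl | rfl | rfl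
    · exact Submodule.zero_mem _
    · rw [fw] at hφw; exact absurd hφw (by decide)
    · exact absurd h1 gT
    · rw [LinearMap.add_apply, fw, gw] at hφw; exact absurd hφw (by decide)
  · have key : ∀ k ∈ Submodule.span (ZMod 2) (ats R w : Set (Fm V)), ∃ κ ∈ R,
        (∀ m ∈ M, κ m = 0) ∧ κ w = 0 ∧ ∀ c ∈ co T, k c = κ c := by
      intro k hk
      induction hk using Submodule.span_induction with
      | mem a ha =>
        by_cases h : a = rho g
        · subst h
          refine ⟨rho g, hg, fun m hm => ?_, ?_, fun c _ => rfl⟩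
          · rw [rho_apply, ((mem m).1 hm).2, zero_smul]
          · rw [rho_apply, gw, zero_smul]
        · refine ⟨0, R.zero_mem, fun m _ => rfl, rfl, fun c hc => ?_⟩
          have haR : a ∈ R := (mem_ats.1 ha).1
          have : LinearMap.range a ≤ T := by
            rw [hT]
            exact le_iSup_of_le (⟨a, ha⟩ : ats R w) (le_iSup_of_le h le_rfl)
          show a c = 0
          ext x
          rw [ctx.wu.symm haR]
          exact hc (a x) (this ⟨x, rfl⟩)
      | zero => exact ⟨0, R.zero_mem, fun m _ => rfl, rfl, fun c _ => rfl⟩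
      | add a b _ _ iha ihb =>
        obtain ⟨κ, h1, h2, h3, h4⟩ := iha
        obtain ⟨κ', h1', h2', h3', h4'⟩ := ihb
        refine ⟨κ + κ', R.add_mem h1 h1', fun m hm => ?_, ?_, fun c hc => ?_⟩
        · rw [LinearMap.add_apply, h2 m hm, h2' m hm, add_zero]
        · rw [LinearMap.add_apply, h3, h3', add_zero]
        · rw [LinearMap.add_apply, LinearMap.add_apply, h4 c hc, h4' c hc]
      | smul r a _ iha =>
        obtain ⟨κ, h1, h2, h3, h4⟩ := iha
        refine ⟨r • κ, R.smul_mem r h1, fun m hm => ?_, ?_, fun c hc => ?_⟩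
        · rw [LinearMap.smul_apply, h2 m hm, smul_zero]
        · rw [LinearMap.smul_apply, h3, smul_zero]
        · rw [LinearMap.smul_apply, LinearMap.smul_apply, h4 c hc]
    intro k hk hkw
    apply key
    rw [hspan]
    exact ⟨hk, hkw⟩

end XF4X

open XF4X

theorem xf4_proof (h1 : Stmt_XF1) (h2 : Stmt_XF2) (hra : Stmt_RA) (hindet : Stmt_INDET)
    (hspv : Stmt_SPV) (hau1 : Stmt_AU1) : Stmt_XF4 := by
  intro V _ _ _ e R f g M hX w hw
  by_cases hwM : w ∈ M
  · exact h1 V e R f g M hX w hwM hw
  have hfull : Full R M := h2 V e R f g M hX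
  have memgf : ∀ x, x ∈ M ↔ g x = 0 ∧ f x = 0 := fun x => (hX.mem x).trans and_comm
  rcases zm (f w) with fw | fw <;> rcases zm (g w) with gw | gw
  · exact absurd ((hX.mem w).2 ⟨fw, gw⟩) hwM
  · exact caseA hau1 hra hX.ctx hX.hf hX.fe memgf hw gw fw
  · exact caseA hau1 hra hX.ctx hX.hg hX.ge hX.mem hw fw gw
  · -- `f w = g w = 1`
    have hET : ET e (fx R w) := by
      obtain ⟨A, hA, hs⟩ := hX.ctx.at' w hw
      rw [← hs]
      apply hindet V e A hA
      intro a ha
      have : a ∈ fx R w := by rw [← hs]; exact Submodule.subset_span ha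
      exact hX.ctx.wu a this.1
    have hnot : f + g ∉ Sp (fx R w) := by
      intro hmem
      obtain ⟨k, hk, u, hu⟩ := hspv V e _ hET _ hmem
      have hkR : k ∈ R := hk.1
      have hLx : f + g ∈ Lx R u := ⟨k, hkR, hu⟩
      have hfge : (f + g) e = 0 := by
        rw [LinearMap.add_apply, hX.fe, hX.ge]; decide
      have hue := Lx_e hX.ctx.wu hLx
      rw [map_add, hfge, add_zero, LinearMap.add_apply] at hue
      have hnz : f + g ≠ 0 := fun h => hX.ne (eq_of_add h)
      rcases zm (f u) with fu | fu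
      · rw [fu, zero_add] at hue
        have huM : u ∈ M := (hX.mem u).2 ⟨fu, hue⟩
        have := hfull u huM k hkR (by
          intro a ha
          rw [hu, LinearMap.add_apply, ((hX.mem a).1 ha).1, ((hX.mem a).1 ha).2, add_zero])
        rw [hu] at this
        exact hnz this
      · have gu : g u = 1 := by
          rw [fu] at hue
          have : g u = 1 + (1 + g u) := (add_add_self 1 (g u)).symm
          rw [this, hue, add_zero]
        have huM : u + w ∈ M := (hX.mem _).2 ⟨by rw [map_add, fu, fw]; decide,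
          by rw [map_add, gu, gw]; decide⟩
        have hkuw : k (u + w) = f + g := by rw [map_add, hu, hk.2, add_zero]
        have := hfull _ huM k hkR (by
          intro a ha
          rw [hkuw, LinearMap.add_apply, ((hX.mem a).1 ha).1, ((hX.mem a).1 ha).2, add_zero])
        rw [hkuw] at this
        exact hnz this
    refine ⟨co (Sp (fx R w)), ?_, ?_⟩
    · apply top_of
      rw [an_co, eq_bot_iff]
      rintro φ ⟨hφ1, hφ2⟩
      have hφw : φ w = 0 := Sp_fx_w hX.ctx.wu hφ1
      rcases four hX.mem hφ2 with rfl | rfl | rfl | rfl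
      · exact Submodule.zero_mem _
      · rw [fw] at hφw; exact absurd hφw (by decide)
      · rw [gw] at hφw; exact absurd hφw (by decide)
      · exact absurd hφ1 hnot
    · intro k hk hkw
      refine ⟨0, R.zero_mem, fun m _ => rfl, rfl, fun c hc => ?_⟩
      show k c = 0
      have hmem : k ∈ fx R w := ⟨hk, hkw⟩
      ext x
      rw [hX.ctx.wu.symm hk]
      exact hc (k x) (mem_Sp hmem x)

end Pool.Agent.ESG
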