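import Pool.Agent.ESG.Stmts

/-!
Module XNUM: the numerical contradiction for two rank one forms.
-/

set_option linter.unusedVariables false

namespace Pool.Agent.ESG

theorem xnum_proof : Stmt_XNUM := by
  intro a b c g A0 A1 B0 B1 P ha hb hc hg hA0 hA1 hB0 hB1 hP e1 e2 e3 e4 f1 f2 f3 f4 d1 d2 d3 d4 d5
    hA hB hP1
  have hP0 : P ≠ 0 := by omega
  -- P² = A0² + A1²
  have k0 : B0 * (P ^ 2 - A0 ^ 2 - A1 ^ 2) = 0 := by
    linear_combination P * f1 - A0 * e1 - A1 * e3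
  have k1 : B1 * (P ^ 2 - A0 ^ 2 - A1 ^ 2) = 0 := by
    linear_combination P * f2 - A0 * e2 - A1 * e4
  have kA : P ^ 2 = A0 ^ 2 + A1 ^ 2 := by
    rcases mul_eq_zero.1 k0 with h | h
    · rcases mul_eq_zero.1 k1 with h' | h'
      · omega
      · linarith
    · linarith
  have l0 : A0 * (P ^ 2 - B0 ^ 2 - B1 ^ 2) = 0 := by
    linear_combination P * f3 - B0 * e1 - B1 * e2
  have l1 : A1 * (P ^ 2 - B0 ^ 2 - B1 ^ 2) = 0 := by
    linear_combination P * f4 - B0 * e3 - B1 * e4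
  have kB : P ^ 2 = B0 ^ 2 + B1 ^ 2 := by
    rcases mul_eq_zero.1 l0 with h | h
    · rcases mul_eq_zero.1 l1 with h' | h'
      · omega
      · linarith
    · linarith
  have sA : A0 + A1 = P := by linarith
  have sB : B0 + B1 = P := by linarith
  have pA : A0 * A1 = 0 := by
    have : (A0 + A1) ^ 2 = A0 ^ 2 + A1 ^ 2 := by rw [sA]; exact kA
    linarith
  have pB : B0 * B1 = 0 := by
    have : (B0 + B1) ^ 2 = B0 ^ 2 + B1 ^ 2 := by rw [sB]; exact kB
    linarith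
  have z : ∀ t : ℤ, 0 = t * P → t = 0 := fun t h => (mul_eq_zero.1 h.symm).resolve_right hP0
  rcases mul_eq_zero.1 pA with h | h <;> rcases mul_eq_zero.1 pB with h' | h'
  · -- A0 = 0, B0 = 0
    rw [h, zero_mul] at e1 e2
    rw [h', mul_zero] at e3
    exact Or.inl ⟨z a e1, z b e2, z c e3⟩
  · -- A0 = 0, B1 = 0
    rw [h, zero_mul] at e1 e2
    rw [h', mul_zero] at e4
    exact Or.inr (Or.inl ⟨z a e1, z b e2, z g e4⟩)
  · -- A1 = 0, B0 = 0
    rw [h, zero_mul] at e3 e4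
    rw [h', mul_zero] at e1
    exact Or.inr (Or.inr (Or.inl ⟨z a e1, z c e3, z g e4⟩))
  · rw [h, zero_mul] at e3 e4
    rw [h', mul_zero] at e2
    exact Or.inr (Or.inr (Or.inr ⟨z b e2, z c e3, z g e4⟩))

end Pool.Agent.ESG
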