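import Pool.Agent.ESG.Stmts

set_option linter.unusedSectionVars false
set_option linter.unusedVariables false

namespace Pool.Agent.ESG

open Pool.Agent.ESL

namespace XRX

variable {V : Type} [AddCommGroup V] [Module (ZMod 2) V] [Finite V]

theorem not_mem_span {f g : D V} {e : V} (fe : f e = 1) (ge : g e = 1) (ne : f ≠ g) :
    f ∉ Submodule.span (ZMod 2) {g} := by
  intro h
  obtain ⟨c, hc⟩ := Submodule.mem_span_singleton.1 h
  rcases zm c with rfl | rfl
  · rw [zero_smul] at hc
    rw [← hc, LinearMap.zero_apply] at fe
    exact zero_ne_one fe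
  · rw [one_smul] at hc
    exact ne hc.symm

theorem exists_point {f g : D V} {e : V} (fe : f e = 1) (ge : g e = 1) (ne : f ≠ g) :
    ∃ x, f x = 1 ∧ g x = 0 := by
  obtain ⟨x, hx, h1⟩ := exists_cosep (not_mem_span fe ge ne)
  exact ⟨x, h1, hx g (Submodule.mem_span_singleton_self g)⟩

theorem finrank_pair {f g : D V} {e : V} (fe : f e = 1) (ge : g e = 1) (ne : f ≠ g) :
    Module.finrank (ZMod 2) (Submodule.span (ZMod 2) {f, g} : Submodule (ZMod 2) (D V)) = 2 := by
  have h := finrank_span_eq_card (R := ZMod 2) (b := ![f, g]) (by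
    rw [LinearIndependent.pair_iff]
    intro s t hst
    obtain ⟨x, hx1, hx2⟩ := exists_point fe ge ne
    obtain ⟨y, hy1, hy2⟩ := exists_point ge fe ne.symm
    have h1 := congrArg (fun φ : D V => φ x) hst
    have h2 := congrArg (fun φ : D V => φ y) hst
    simp only [LinearMap.add_apply, LinearMap.smul_apply, LinearMap.zero_apply, smul_eq_mul, hx1,
      hx2, hy1, hy2, mul_one, mul_zero, add_zero, zero_add] at h1 h2
    exact ⟨h1, h2⟩)
  rw [Matrix.range_cons, Matrix.range_cons, Matrix.range_empty, Set.union_empty] at h
  rw [← Set.singleton_union, h]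
  simp

end XRX

open XRX in
theorem xr_proof : Stmt_XR := by
  intro V _ _ _ e R f g M h
  have hM : M = co (Submodule.span (ZMod 2) {f, g}) := by
    ext x
    rw [h.mem x]
    constructor
    · rintro ⟨h1, h2⟩ φ hφ
      obtain ⟨a, b, rfl⟩ := Submodule.mem_span_pair.1 hφ
      rw [LinearMap.add_apply, LinearMap.smul_apply, LinearMap.smul_apply, h1, h2, smul_zero,
        smul_zero, add_zero]
    · intro hx
      exact ⟨hx f (Submodule.subset_span (by simp)), hx g (Submodule.subset_span (by simp))⟩
  have hfr : fr V = fr M + 2 := by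
    have h1 := finrank_co (V := V) (Submodule.span (ZMod 2) {f, g})
    rw [finrank_pair h.fe h.ge h.ne, ← hM] at h1
    exact h1.symm
  obtain ⟨x1, hx1, hx1'⟩ := exists_point h.fe h.ge h.ne
  obtain ⟨x2, hx2, hx2'⟩ := exists_point h.ge h.fe h.ne.symm
  refine ⟨?_, hfr, ?_⟩
  · intro hb
    have hT : (Submodule.span (ZMod 2) {f, g} : Submodule (ZMod 2) (D V)) = ⊤ := by
      rw [← an_co (Submodule.span (ZMod 2) {f, g}), ← hM, hb, an_bot]
    have hσ : f + g ≠ 0 := by
      intro h0
      exact h.ne (eq_of_add h0)
    have hσe : (f + g) e = 0 := by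
      rw [LinearMap.add_apply, h.fe, h.ge]
      exact CharTwo.add_self_eq_zero _
    apply h.ctx.top (f + g) hσ hσe
    rw [eq_top_iff, ← hT, Submodule.span_le]
    have e1 : wd e (f + g) f = rho f + rho g := by
      rw [wd_eq_rho h.fe, ← add_assoc, add_self', zero_add]
    have e2 : wd e (f + g) g = rho g + rho f := by
      rw [wd_eq_rho h.ge, add_comm f g, ← add_assoc, add_self', zero_add]
    rintro φ hφ
    rcases hφ with rfl | hφ
    · show wd e (φ + g) φ ∈ R
      rw [e1]
      exact R.add_mem h.hf h.hg
    · rw [Set.mem_singleton_iff] at hφ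
      subst hφ
      show wd e (f + φ) φ ∈ R
      rw [e2]
      exact R.add_mem h.hg h.hf
  · intro k hk hkM
    have hsy : ∀ x y, k x y = k y x := fun x y => h.ctx.wu.symm hk x y
    have hwu : ∀ x, k x x = k x e := h.ctx.wu k hk
    have hin : ∀ x, ∃ a b : ZMod 2, k x = a • f + b • g := by
      intro x
      have h1 : k x ∈ (Submodule.span (ZMod 2) {f, g} : Submodule (ZMod 2) (D V)) := by
        rw [← an_co (Submodule.span (ZMod 2) {f, g}), ← hM]
        intro m hm
        rw [hsy, hkM m hm]; rfl
      obtain ⟨a, b, hab⟩ := Submodule.mem_span_pair.1 h1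
      exact ⟨a, b, hab.symm⟩
    obtain ⟨a, b, e1⟩ := hin x1
    obtain ⟨b', c, e2⟩ := hin x2
    have hbb : b = 0 := by
      have h1 := hwu x1
      rw [e1] at h1
      simp only [LinearMap.add_apply, LinearMap.smul_apply, smul_eq_mul, hx1, hx1', h.fe, h.ge,
        mul_one, mul_zero, add_zero] at h1
      have key : ∀ a b : ZMod 2, a = a + b → b = 0 := by decide
      exact key _ _ h1
    have hbb' : b' = 0 := by
      have h1 := hwu x2
      rw [e2] at h1
      simp only [LinearMap.add_apply, LinearMap.smul_apply, smul_eq_mul, hx2, hx2', h.fe, h.ge,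
        mul_one, mul_zero, zero_add] at h1
      have key : ∀ a b : ZMod 2, a = b + a → b = 0 := by decide
      exact key _ _ h1
    rw [hbb, zero_smul, add_zero] at e1
    rw [hbb', zero_smul, zero_add] at e2
    have hk' : k = a • rho f + c • rho g := by
      apply LinearMap.ext
      intro x
      have hm : x + (f x • x1 + g x • x2) ∈ M := by
        rw [h.mem]
        constructor
        · rw [map_add, map_add, map_smul, map_smul, hx1, hx2', smul_zero, add_zero, smul_eq_mul,
            mul_one]
          exact CharTwo.add_self_eq_zero _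
        · rw [map_add, map_add, map_smul, map_smul, hx1', hx2, smul_zero, zero_add, smul_eq_mul,
            mul_one]
          exact CharTwo.add_self_eq_zero _
      have h1 := hkM _ hm
      rw [map_add] at h1
      rw [eq_of_add h1, map_add, map_smul, map_smul, e1, e2, LinearMap.add_apply,
        LinearMap.smul_apply, LinearMap.smul_apply, rho_apply, rho_apply, smul_comm (f x),
        smul_comm (g x)]
    rcases zm a with rfl | rfl <;> rcases zm c with rfl | rfl
    · left
      rw [hk', zero_smul, zero_smul, add_zero]
    · right; right; left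
      rw [hk', zero_smul, one_smul, zero_add]
    · right; left
      rw [hk', zero_smul, one_smul, add_zero]
    · right; right; right
      rw [hk', one_smul, one_smul]

end Pool.Agent.ESG
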