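import Pool.Agent.ESL.CONST
import Pool.Agent.ESL.FOUR
import Pool.Agent.ESL.ISOC
import Pool.Agent.ESL.J3I
import Pool.Agent.ESL.J3P
import Pool.Agent.ESL.OC
import Pool.Agent.ESL.PZ
import Pool.Agent.ESL.SIGN
import Pool.Agent.ESG.ATB
import Pool.Agent.ESG.AU
import Pool.Agent.ESG.AU1
import Pool.Agent.ESG.AU2
import Pool.Agent.ESG.AU3
import Pool.Agent.ESG.BAD
import Pool.Agent.ESG.C3
import Pool.Agent.ESG.C3D
import Pool.Agent.ESG.C3E
import Pool.Agent.ESG.C3F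
import Pool.Agent.ESG.C3N
import Pool.Agent.ESG.C3Y
import Pool.Agent.ESG.COMP
import Pool.Agent.ESG.CROSS
import Pool.Agent.ESG.CTXC
import Pool.Agent.ESG.DEG
import Pool.Agent.ESG.DIAG
import Pool.Agent.ESG.ENDD
import Pool.Agent.ESG.ETWU
import Pool.Agent.ESG.EXT
import Pool.Agent.ESG.EXTREC
import Pool.Agent.ESG.F1
import Pool.Agent.ESG.F2
import Pool.Agent.ESG.F3
import Pool.Agent.ESG.F3A
import Pool.Agent.ESG.F3B
import Pool.Agent.ESG.F3C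
import Pool.Agent.ESG.F4A
import Pool.Agent.ESG.F4C
import Pool.Agent.ESG.F4X
import Pool.Agent.ESG.FULL
import Pool.Agent.ESG.G1
import Pool.Agent.ESG.G1A
import Pool.Agent.ESG.G2
import Pool.Agent.ESG.G2A
import Pool.Agent.ESG.G4
import Pool.Agent.ESG.G5
import Pool.Agent.ESG.G5A
import Pool.Agent.ESG.GA0
import Pool.Agent.ESG.GA1
import Pool.Agent.ESG.GA2
import Pool.Agent.ESG.GA3
import Pool.Agent.ESG.GA3A
import Pool.Agent.ESG.GA3B
import Pool.Agent.ESG.GA3C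
import Pool.Agent.ESG.GA3D
import Pool.Agent.ESG.GA3E
import Pool.Agent.ESG.GA3F
import Pool.Agent.ESG.GA4
import Pool.Agent.ESG.GB0
import Pool.Agent.ESG.GB1
import Pool.Agent.ESG.GB4
import Pool.Agent.ESG.INDET
import Pool.Agent.ESG.J1
import Pool.Agent.ESG.J2
import Pool.Agent.ESG.J2E
import Pool.Agent.ESG.J2L
import Pool.Agent.ESG.J2R
import Pool.Agent.ESG.J2S
import Pool.Agent.ESG.J3
import Pool.Agent.ESG.J3E
import Pool.Agent.ESG.J3L
import Pool.Agent.ESG.J8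
import Pool.Agent.ESG.LINE
import Pool.Agent.ESG.MAIN
import Pool.Agent.ESG.MET
import Pool.Agent.ESG.NA1
import Pool.Agent.ESG.NA2
import Pool.Agent.ESG.NA3
import Pool.Agent.ESG.NA4
import Pool.Agent.ESG.NG
import Pool.Agent.ESG.P3
import Pool.Agent.ESG.PAIR
import Pool.Agent.ESG.PARTI
import Pool.Agent.ESG.PARTII
import Pool.Agent.ESG.PRODREC
import Pool.Agent.ESG.RA
import Pool.Agent.ESG.RED
import Pool.Agent.ESG.RG
import Pool.Agent.ESG.RHO1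
import Pool.Agent.ESG.RK1
import Pool.Agent.ESG.RK2
import Pool.Agent.ESG.SAT
import Pool.Agent.ESG.SPLEQ
import Pool.Agent.ESG.SPV
import Pool.Agent.ESG.SUM2
import Pool.Agent.ESG.T2
import Pool.Agent.ESG.XC
import Pool.Agent.ESG.XEND
import Pool.Agent.ESG.XF1
import Pool.Agent.ESG.XF2
import Pool.Agent.ESG.XF3
import Pool.Agent.ESG.XF4
import Pool.Agent.ESG.XNUM
import Pool.Agent.ESG.XR

/-!
Assembly of the modules: strongly linked form spaces (with Wu class `e`) are of elementary type, and the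
results on quaternionic structures, `-1` arbitrary.
-/

namespace Pool.Agent.ESG

open Pool.Agent.ESL

theorem p_ETWU : Stmt_ETWU := etwu_proof
theorem p_LINE : Stmt_LINE := line_proof
theorem p_ATB : Stmt_ATB := atb_proof p_ETWU p_LINE
theorem p_AU : Stmt_AU := au_proof
theorem p_AU1 : Stmt_AU1 := au1_proof p_AU
theorem p_AU2 : Stmt_AU2 := au2_proof p_AU p_AU1
theorem p_AU3 : Stmt_AU3 := au3_proof p_AU1
theorem p_PZ : Pool.Agent.ESL.Stmt_PZ := Pool.Agent.ESL.pz_proof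
theorem p_SPLEQ : Stmt_SPLEQ := spleq_proof
theorem p_DIAG : Stmt_DIAG := diag_proof p_SPLEQ
theorem p_PAIR : Stmt_PAIR := pair_proof p_SPLEQ
theorem p_P3 : Stmt_P3 := p3_proof
theorem p_SUM2 : Stmt_SUM2 := sum2_proof
theorem p_RK2 : Stmt_RK2 := rk2_proof p_SUM2 p_ETWU
theorem p_F1 : Stmt_F1 := f1_proof p_RK2 p_SUM2
theorem p_RHO1 : Stmt_RHO1 := rho1_proof
theorem p_RK1 : Stmt_RK1 := rk1_proof p_RHO1 p_ETWU p_LINE
theorem p_F2 : Stmt_F2 := f2_proof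
theorem p_F3A : Stmt_F3A := f3a_proof
theorem p_F3B : Stmt_F3B := f3b_proof
theorem p_F3C : Stmt_F3C := f3c_proof
theorem p_COMP : Stmt_COMP := comp_proof
theorem p_F3 : Stmt_F3 := f3_proof p_F3A p_F3B p_F3C p_COMP
theorem p_FULL : Stmt_FULL := full_proof p_F1 p_F2 p_F3
theorem p_F4X : Stmt_F4X := f4x_proof p_F1 p_FULL
theorem p_F4A : Stmt_F4A := f4a_proof p_RK2 p_RK1 p_SUM2 p_F4X p_FULL
theorem p_MET : Stmt_MET := met_proof p_ETWU p_LINE
theorem p_F4C : Stmt_F4C := f4c_proof p_MET p_FULL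
theorem p_CTXC : Stmt_CTXC := ctxc_proof p_PZ p_DIAG p_PAIR p_P3 p_F1 p_F4A p_F4C p_FULL
theorem p_C3Y : Stmt_C3Y := c3y_proof
theorem p_CONST : Pool.Agent.ESL.Stmt_CONST := Pool.Agent.ESL.const_proof
theorem p_SIGN : Pool.Agent.ESL.Stmt_SIGN := Pool.Agent.ESL.sign_proof
theorem p_FOUR : Pool.Agent.ESL.Stmt_FOUR := Pool.Agent.ESL.four_proof
theorem p_C3D : Stmt_C3D := c3d_proof p_C3Y p_FOUR
theorem p_C3N : Stmt_C3N := c3n_proof p_C3Y p_CONST p_SIGN p_C3D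
theorem p_C3F : Stmt_C3F := c3f_proof p_C3Y p_FOUR
theorem p_BAD : Stmt_BAD := bad_proof p_CTXC p_C3N p_C3F
theorem p_C3E : Stmt_C3E := c3e_proof p_C3Y p_C3F
theorem p_OC : Pool.Agent.ESL.Stmt_OC := Pool.Agent.ESL.oc_proof
theorem p_C3 : Stmt_C3 := c3_proof p_CTXC p_BAD p_C3N p_C3E p_OC
theorem p_CROSS : Stmt_CROSS := cross_proof
theorem p_ISOC : Pool.Agent.ESL.Stmt_ISOC := Pool.Agent.ESL.isoc_proof
theorem p_PRODREC : Stmt_PRODREC := prodrec_proof p_ISOC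
theorem p_DEG : Stmt_DEG := deg_proof p_PRODREC
theorem p_ENDD : Stmt_ENDD := endd_proof
theorem p_EXT : Stmt_EXT := ext_proof
theorem p_EXTREC : Stmt_EXTREC := extrec_proof p_ISOC
theorem p_G1 : Stmt_G1 := g1_proof p_AU1 p_AU2 p_AU3
theorem p_G1A : Stmt_G1A := g1a_proof p_AU1 p_AU2 p_AU3
theorem p_G4 : Stmt_G4 := g4_proof
theorem p_G5A : Stmt_G5A := g5a_proof p_G4 p_AU2
theorem p_RG : Stmt_RG := rg_proof
theorem p_RA : Stmt_RA := ra_proof
theorem p_G2 : Stmt_G2 := g2_proof p_G1 p_AU3 p_G5A p_RG p_RA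
theorem p_G2A : Stmt_G2A := g2a_proof p_AU1
theorem p_G5 : Stmt_G5 := g5_proof p_AU2 p_G1 p_G4 p_G5A
theorem p_GA0 : Stmt_GA0 := ga0_proof p_AU1 p_AU2 p_AU3
theorem p_GA1 : Stmt_GA1 := ga1_proof
theorem p_INDET : Stmt_INDET := indet_proof
theorem p_SPV : Stmt_SPV := spv_proof p_ETWU
theorem p_GA2 : Stmt_GA2 := ga2_proof p_INDET p_SPV
theorem p_GA3A : Stmt_GA3A := ga3a_proof p_GA1
theorem p_GA3B : Stmt_GA3B := ga3b_proof p_AU1 p_AU2 p_AU3 p_GA3A p_G5A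
theorem p_GA3C : Stmt_GA3C := ga3c_proof p_G1 p_G4 p_GA3A
theorem p_GA3D : Stmt_GA3D := ga3d_proof p_GA3A p_GA3B p_GA3C p_AU3
theorem p_GA3E : Stmt_GA3E := ga3e_proof p_GA3D p_GA2 p_G4
theorem p_GA3F : Stmt_GA3F := ga3f_proof p_GA3D p_GA3E p_GA2 p_GA0
theorem p_GA3 : Stmt_GA3 := ga3_proof p_GA3D p_GA3F
theorem p_SAT : Stmt_SAT := sat_proof
theorem p_GA4 : Stmt_GA4 := ga4_proof p_SAT
theorem p_GB0 : Stmt_GB0 := gb0_proof p_G1 p_G4 p_G5A
theorem p_NG : Stmt_NG := ng_proof p_G1A p_G2 p_G2A p_G5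
theorem p_GB1 : Stmt_GB1 := gb1_proof p_GB0 p_NG p_RA p_G1 p_G5A p_AU1
theorem p_GB4 : Stmt_GB4 := gb4_proof p_GB0 p_G5
theorem p_RED : Stmt_RED := red_proof
theorem p_PARTI : Stmt_PARTI := parti_proof p_C3 p_SAT p_CROSS p_ENDD
theorem p_T2 : Stmt_T2 := t2_proof
theorem p_NA1 : Stmt_NA1 := na1_proof p_T2 p_RG p_RA p_NG p_AU1 p_AU3
theorem p_NA2 : Stmt_NA2 := na2_proof p_NA1 p_G1
theorem p_NA3 : Stmt_NA3 := na3_proof p_NA1 p_T2
theorem p_NA4 : Stmt_NA4 := na4_proof p_NA1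
theorem p_XF1 : Stmt_XF1 := xf1_proof p_RA p_AU1
theorem p_XF3 : Stmt_XF3 := xf3_proof
theorem p_XR : Stmt_XR := xr_proof
theorem p_XF2 : Stmt_XF2 := xf2_proof p_XF1 p_XF3 p_XR
theorem p_XF4 : Stmt_XF4 := xf4_proof p_XF1 p_XF2 p_RA p_INDET p_SPV p_AU1
theorem p_XNUM : Stmt_XNUM := xnum_proof
theorem p_XC : Stmt_XC := xc_proof p_XF1 p_XF2 p_XF4 p_XR p_DIAG p_PAIR p_P3 p_PZ p_XNUM p_OC
theorem p_XEND : Stmt_XEND := xend_proof p_XC p_XR p_SAT p_CROSS p_ENDD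
theorem p_PARTII : Stmt_PARTII := partii_proof p_GB4 p_GB1 p_GA3 p_GA4 p_NA1 p_NA2 p_NA3 p_NA4 p_XEND p_RA p_RG
theorem p_MAIN : Stmt_MAIN := main_proof p_RED p_EXT p_PARTI p_PARTII p_ATB
theorem p_J2R : Stmt_J2R := j2r_proof p_PRODREC p_DEG
theorem p_J2L : Stmt_J2L := j2l_proof p_EXTREC
theorem p_J2S : Stmt_J2S := j2s_proof p_PRODREC
theorem p_J2E : Stmt_J2E := j2e_proof p_EXTREC
theorem p_J2 : Stmt_J2 := j2_proof p_ETWU p_J2R p_J2L p_J2S p_J2E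
theorem p_J1 : Stmt_J1 := j1_proof p_MAIN p_J2
theorem p_J3P : Pool.Agent.ESL.Stmt_J3P := Pool.Agent.ESL.j3p_proof
theorem p_J3E : Stmt_J3E := j3e_proof
theorem p_J3L : Stmt_J3L := j3l_proof
theorem p_J3I : Pool.Agent.ESL.Stmt_J3I := Pool.Agent.ESL.j3i_proof
theorem p_J3 : Stmt_J3 := j3_proof p_J3P p_J3E p_J3L p_J3I
theorem p_J8 : Stmt_J8 := j8_proof

/-- finite structures: elementary type iff the extension property -/
theorem elemType_iff (S : QS.QStruct) (hf : Finite S.G) : QS.ElemType S ↔ ExtProp S :=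
  ⟨fun hS => p_J3 S hS, fun hS => p_J1 S hf hS⟩

/-- the elementary type conjecture is equivalent to the extension property for subgroups of order at most
eight -/
theorem conj_iff :
    (∀ S : QS.QStruct, Finite S.G → QS.ElemType S) ↔ ∀ S : QS.QStruct, Finite S.G → Ext8 S := by
  constructor
  · intro H S hf U _ β
    exact p_J3 S (H S hf) U β
  · intro H S hf
    exact p_J1 S hf (p_J8 H S hf)

end Pool.Agent.ESG
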