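import Pool.Agent.ESG.Defs

/-!
Basic facts about form spaces with Wu class `e`.
-/

set_option linter.unusedSectionVars false
set_option linter.unusedVariables false

namespace Pool.Agent.ESG

open Pool.Agent.ESL

variable {V X : Type} [AddCommGroup V] [Module (ZMod 2) V] [AddCommGroup X] [Module (ZMod 2) X]

/-! ### `[τ, ψ]` and `φ ⊗ φ` -/

theorem wd_apply (e : V) (τ ψ : D V) (x : V) :
    wd e τ ψ x = τ x • ψ + ψ x • τ + (ψ e * τ x) • τ := by
  show τ x • ψ + ψ x • τ + ψ e • (τ x • τ) = _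
  rw [smul_smul]

theorem wd_apply₂ (e : V) (τ ψ : D V) (x y : V) :
    wd e τ ψ x y = τ x * ψ y + ψ x * τ y + ψ e * (τ x * τ y) := by
  show τ x * ψ y + ψ x * τ y + ψ e * (τ x * τ y) = _
  rfl

theorem wd_symm (e : V) (τ ψ : D V) (x y : V) : wd e τ ψ x y = wd e τ ψ y x := by
  rw [wd_apply₂, wd_apply₂]; ring

theorem wd_self {e : V} {τ : D V} (h : τ e = 0) : wd e τ τ = 0 := by
  ext x y
  rw [wd_apply₂, h, zero_mul, add_zero, CharTwo.add_self_eq_zero]; rfl

theorem wd_wu {e : V} {τ : D V} (h : τ e = 0) (ψ : D V) (x : V) : wd e τ ψ x x = wd e τ ψ x e := by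
  rw [wd_apply₂, wd_apply₂, h]
  have h1 : τ x * τ x = τ x := by
    rcases zm (τ x) with h2 | h2 <;> rw [h2] <;> rfl
  rw [h1, mul_comm (ψ x), CharTwo.add_self_eq_zero]
  ring

/-- `[τ, ψ] = [ψ, τ]` if both vanish at `e` -/
theorem wd_comm {e : V} {τ ψ : D V} (h : τ e = 0) (h' : ψ e = 0) : wd e τ ψ = wd e ψ τ := by
  ext x y
  rw [wd_apply₂, wd_apply₂, h, h']; ring

/-- `[τ, ψ] x = ψ x • τ` if `τ x = 0` -/
theorem wd_of_zero {e : V} {τ ψ : D V} {x : V} (h : τ x = 0) : wd e τ ψ x = ψ x • τ := by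
  rw [wd_apply, h, mul_zero, zero_smul, zero_smul, zero_add, add_zero]

theorem wd_of_zero_one {e : V} {τ ψ : D V} {x : V} (h : τ x = 0) (h1 : ψ x = 1) : wd e τ ψ x = τ := by
  rw [wd_of_zero h, h1, one_smul]

/-- `[τ, ψ] y = ψ + (ψ (y + e)) • τ` if `τ y = 1` -/
theorem wd_of_one {e : V} {τ ψ : D V} {y : V} (h : τ y = 1) : wd e τ ψ y = ψ + ψ (y + e) • τ := by
  rw [wd_apply, h, mul_one, one_smul, map_add, add_smul, add_assoc]

/-- `[τ, ψ] y = ψ` if `τ y = 1` and `ψ (y + e) = 0` -/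
theorem wd_of_one_zero {e : V} {τ ψ : D V} {y : V} (h : τ y = 1) (h0 : ψ (y + e) = 0) :
    wd e τ ψ y = ψ := by
  rw [wd_of_one h, h0, zero_smul, add_zero]

theorem rho_apply (φ : D V) (x : V) : rho φ x = φ x • φ := rfl

theorem rho_apply₂ (φ : D V) (x y : V) : rho φ x y = φ x * φ y := rfl

theorem rho_symm (φ : D V) (x y : V) : rho φ x y = rho φ y x := by
  rw [rho_apply₂, rho_apply₂, mul_comm]

theorem rho_wu {e : V} {φ : D V} (h : φ e = 1) (x : V) : rho φ x x = rho φ x e := by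
  rw [rho_apply₂, rho_apply₂, h, mul_one]
  rcases zm (φ x) with h2 | h2 <;> rw [h2] <;> rfl

/-- `[τ, φ] = φ ⊗ φ + (φ + τ) ⊗ (φ + τ)` if `φ e = 1` -/
theorem wd_eq_rho {e : V} {τ φ : D V} (h : φ e = 1) : wd e τ φ = rho φ + rho (φ + τ) := by
  ext x y
  rw [wd_apply₂, h, one_mul, LinearMap.add_apply, LinearMap.add_apply, rho_apply₂, rho_apply₂,
    LinearMap.add_apply, LinearMap.add_apply]
  have : φ x * φ y + φ x * φ y = 0 := CharTwo.add_self_eq_zero _
  linear_combination -this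

theorem range_rho_le (φ : D V) : LinearMap.range (rho φ) ≤ Submodule.span (ZMod 2) {φ} := by
  rintro _ ⟨x, rfl⟩
  exact Submodule.smul_mem _ _ (Submodule.mem_span_singleton_self φ)

theorem range_rho {φ : D V} : LinearMap.range (rho φ) = Submodule.span (ZMod 2) {φ} := by
  apply le_antisymm (range_rho_le φ)
  rw [Submodule.span_singleton_le_iff_mem]
  by_cases h : φ = 0
  · rw [h]; exact Submodule.zero_mem _
  · have : ∃ x, φ x ≠ 0 := by
      by_contra hc
      push Not at hc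
      exact h (LinearMap.ext hc)
    obtain ⟨x, hx⟩ := this
    exact ⟨x, by rw [rho_apply, zm_ne hx, one_smul]⟩

/-- the components of `[τ, ψ]` -/
theorem wd_mem_span (e : V) (τ ψ : D V) (x : V) : wd e τ ψ x ∈ Submodule.span (ZMod 2) {τ, ψ} := by
  rw [wd_apply]
  refine Submodule.add_mem _ (Submodule.add_mem _ (Submodule.smul_mem _ _ ?_) (Submodule.smul_mem _ _ ?_))
    (Submodule.smul_mem _ _ ?_)
  · exact Submodule.subset_span (by simp)
  · exact Submodule.subset_span (by simp)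
  · exact Submodule.subset_span (by simp)

/-! ### symmetric forms -/

theorem symm_of_wu {e : V} {k : Fm V} (h : ∀ x, k x x = k x e) (x y : V) : k x y = k y x := by
  have h1 := h (x + y)
  simp only [map_add, LinearMap.add_apply, h x, h y] at h1
  have key : ∀ a b c d : ZMod 2, a + c + (b + d) = a + d → b = c := by decide
  exact key _ _ _ _ h1

theorem IsWu.sym {e : V} {R : FS V} (hR : IsWu e R) : IsSym R := fun k hk => symm_of_wu (hR k hk)

theorem IsWu.symm {e : V} {R : FS V} (hR : IsWu e R) {k : Fm V} (hk : k ∈ R) (x y : V) :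
    k x y = k y x := symm_of_wu (hR k hk) x y

theorem IsWu.mono {e : V} {R R' : FS V} (hR : IsWu e R) (h : R' ≤ R) : IsWu e R' :=
  fun k hk => hR k (h hk)

theorem IsSym.mono {R R' : FS V} (hR : IsSym R) (h : R' ≤ R) : IsSym R' := fun k hk => hR k (h hk)

/-- the functionals in `L_x` vanish at `x + e` -/
theorem Lx_e {e : V} {R : FS V} (hR : IsWu e R) {x : V} {ψ : D V} (h : ψ ∈ Lx R x) : ψ (x + e) = 0 := by
  obtain ⟨k, hk, rfl⟩ := h
  rw [map_add, hR k hk x, CharTwo.add_self_eq_zero]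

/-- a functional in `L_x` vanishing at `x` vanishes at `e` -/
theorem Lx_e' {e : V} {R : FS V} (hR : IsWu e R) {x : V} {ψ : D V} (h : ψ ∈ Lx R x) (h0 : ψ x = 0) :
    ψ e = 0 := by
  have := Lx_e hR h
  rwa [map_add, h0, zero_add] at this

section finite
variable [Finite V]

/-- `ker k = (k V)^⊥` for symmetric `k` -/
theorem co_range {k : Fm V} (h : ∀ x y, k x y = k y x) : co (LinearMap.range k) = LinearMap.ker k := by
  ext x
  rw [mem_co, LinearMap.mem_ker]
  constructor
  · intro hx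
    ext y
    rw [h]
    exact hx _ ⟨y, rfl⟩
  · rintro hx φ ⟨y, rfl⟩
    rw [h, hx]; rfl

theorem an_ker {k : Fm V} (h : ∀ x y, k x y = k y x) : an (LinearMap.ker k) = LinearMap.range k := by
  rw [← co_range h, an_co]

theorem mem_range_iff {k : Fm V} (h : ∀ x y, k x y = k y x) {φ : D V} :
    φ ∈ LinearMap.range k ↔ ∀ x, k x = 0 → φ x = 0 := by
  rw [← an_ker h]; rfl

theorem range_le_iff {k l : Fm V} (hk : ∀ x y, k x y = k y x) (hl : ∀ x y, l x y = l y x) :
    LinearMap.range k ≤ LinearMap.range l ↔ LinearMap.ker l ≤ LinearMap.ker k := by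
  rw [← an_ker hk, ← an_ker hl]
  constructor
  · intro h
    have := co_anti h
    rwa [co_an, co_an] at this
  · exact an_anti

theorem ker_sup_top {k l : Fm V} (hk : ∀ x y, k x y = k y x) (hl : ∀ x y, l x y = l y x)
    (h : Disjoint (LinearMap.range k) (LinearMap.range l)) :
    LinearMap.ker k ⊔ LinearMap.ker l = ⊤ := by
  rw [← co_range hk, ← co_range hl]
  exact co_sup_top h

/-- rank plus nullity -/
theorem fr_range_add_ker (k : Fm V) : fr (LinearMap.range k) + fr (LinearMap.ker k) = fr V :=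
  LinearMap.finrank_range_add_finrank_ker k

end finite

theorem co_Sp {R : FS V} (hR : IsSym R) : co (Sp R) = rad R := by
  ext x
  constructor
  · intro h k hk
    ext y
    rw [hR k hk]
    exact h _ (mem_Sp hk y)
  · intro h
    have : Sp R ≤ an (Submodule.span (ZMod 2) {x}) := by
      apply Sp_le.2
      intro k hk y z hz
      obtain ⟨c, rfl⟩ := Submodule.mem_span_singleton.1 hz
      rw [map_smul, hR k hk, h k hk]
      simp
    intro φ hφ
    exact this hφ x (Submodule.mem_span_singleton_self x)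

theorem an_rad [Finite V] {R : FS V} (hR : IsSym R) : an (rad R) = Sp R := by
  rw [← co_Sp hR, an_co]

theorem mem_St {e : V} {R : FS V} {τ ψ : D V} : ψ ∈ St e R τ ↔ wd e τ ψ ∈ R := Iff.rfl

theorem St_mono {e : V} {R R' : FS V} (h : R ≤ R') (τ : D V) : St e R τ ≤ St e R' τ :=
  fun _ hψ => h hψ

theorem self_mem_St (e : V) (R : FS V) {τ : D V} (h : τ e = 0) : τ ∈ St e R τ := by
  rw [mem_St, wd_self h]; exact R.zero_mem

theorem IsStar.le_St {e : V} {R R' : FS V} {σ : D V} (h : IsStar e R σ) (hle : R ≤ R') :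
    Sp R ≤ St e R' σ := fun χ hχ => hle (h.2.2.2 χ hχ)

/-- functionals in `Sp R` where `R` kills `x` vanish at `x` -/
theorem Sp_apply_zero {R : FS V} (hR : IsSym R) {x : V} (hx : x ∈ rad R) {φ : D V} (h : φ ∈ Sp R) :
    φ x = 0 := by
  rw [← co_Sp hR] at hx
  exact hx φ h

/-! ### linkage -/

/-- linkage, primal form: if `q(a,b) = q(c,d)` then there is a common slot `x` -/
theorem Linked.primal [Finite V] {R : FS V} (h : Linked R) (a b c d : V)
    (hq : ∀ k ∈ R, k a b = k c d) :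
    ∃ x, (∀ k ∈ R, k a b = k a x) ∧ (∀ k ∈ R, k c d = k c x) ∧ ∀ k ∈ R, k (a + c) x = 0 := by
  have h1 : b + d ∈ Vx R a ⊔ Vx R c := by
    unfold Vx
    rw [← co_inf]
    rintro ψ ⟨⟨k, hk, h1⟩, ⟨k', hk', h2⟩⟩
    obtain ⟨l, hl, e1, e2⟩ := h k hk k' hk' a c (h1.trans h2.symm)
    rw [h1] at e1 e2
    rw [map_add]
    nth_rewrite 1 [← e1]
    rw [← e2, hq l hl, CharTwo.add_self_eq_zero]
  obtain ⟨s, hs, t, ht, hst⟩ := Submodule.mem_sup.1 h1
  have hb : b + s = d + t := by
    have : b + s + (d + t) = 0 := by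
      calc b + s + (d + t) = (b + d) + (s + t) := by abel
        _ = 0 := by rw [hst, add_self']
    exact eq_of_add this
  have e1 : ∀ k ∈ R, k a (b + s) = k a b := by
    intro k hk
    rw [map_add, mem_Vx.1 hs k hk, add_zero]
  have e2 : ∀ k ∈ R, k c (b + s) = k c d := by
    intro k hk
    rw [hb, map_add, mem_Vx.1 ht k hk, add_zero]
  refine ⟨b + s, fun k hk => (e1 k hk).symm, fun k hk => (e2 k hk).symm, fun k hk => ?_⟩
  rw [map_add k, LinearMap.add_apply, e1 k hk, e2 k hk, hq k hk, CharTwo.add_self_eq_zero]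

/-! ### pull-back -/

theorem pull_wu {π : V →ₗ[ZMod 2] X} {e : V} {κ : Fm X} (h : ∀ x, κ x x = κ x (π e)) (x : V) :
    pull π κ x x = pull π κ x e := h (π x)

theorem pull_wd (π : V →ₗ[ZMod 2] X) (e : V) (a b : D X) :
    pull π (wd (π e) a b) = wd e (a ∘ₗ π) (b ∘ₗ π) := by
  ext x y
  rw [pull_apply, wd_apply₂, wd_apply₂]
  rfl

theorem pull_rho (π : V →ₗ[ZMod 2] X) (a : D X) : pull π (rho a) = rho (a ∘ₗ π) := by
  ext x y
  rfl

/-- a symmetric form vanishing on `M` comes from `V / M` -/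
theorem exists_pull {M : Submodule (ZMod 2) V} {k : Fm V} (ha : ∀ x y, k x y = k y x)
    (h : ∀ m ∈ M, k m = 0) : ∃ κ : Fm (V ⧸ M), pull M.mkQ κ = k := by
  let f : V →ₗ[ZMod 2] D (V ⧸ M) :=
    { toFun := fun x => M.liftQ (k x) (fun m hm => by
        rw [LinearMap.mem_ker, ha, h m hm]; rfl)
      map_add' := by
        intro x y
        apply comp_inj M.mkQ_surjective
        rw [Submodule.liftQ_mkQ, LinearMap.add_comp, Submodule.liftQ_mkQ, Submodule.liftQ_mkQ,
          map_add]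
      map_smul' := by
        intro c x
        apply comp_inj M.mkQ_surjective
        rw [Submodule.liftQ_mkQ, LinearMap.smul_comp, RingHom.id_apply, Submodule.liftQ_mkQ,
          map_smul] }
  refine ⟨M.liftQ f (fun m hm => ?_), ?_⟩
  · rw [LinearMap.mem_ker]
    apply comp_inj M.mkQ_surjective
    show M.liftQ (k m) _ ∘ₗ M.mkQ = _
    rw [Submodule.liftQ_mkQ, h m hm]; rfl
  · ext x y
    rfl

theorem R0_wu {e : V} {R : FS V} (hR : IsWu e R) (M : Submodule (ZMod 2) V) :
    IsWu (M.mkQ e) (R0 R M) := by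
  intro κ hκ x
  obtain ⟨y, rfl⟩ := M.mkQ_surjective x
  exact hR _ hκ y

end Pool.Agent.ESG
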