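import Pool.Agent.ESG.Stmts
import Pool.Agent.ESL.C3D

/-!
The counting argument (C3) with Wu class `e`, case `D = 0`, without PAIR on `Y`.
-/

namespace Pool.Agent.ESG

open Pool.Agent.ESL

namespace C3FX

open Pool.Agent.ESL.C3DX (sOn_ite le_sOn sOn_eq signed split s s_nonneg exists_two)

variable {X : Type} [AddCommGroup X] [Module (ZMod 2) X] [Finite X]
variable {e : X} {R : FS X} {τ : D X} {P : D X → X → ℕ}

theorem tau_e (h : CtxC e R τ P) {y : X} (hy : τ y = 1) : τ (y + e) = 1 := by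
  rw [map_add, hy, h.τe, add_zero]

theorem val (hY : Stmt_C3Y) (h : CtxC e R τ P) {y : X} (hy : τ y = 1) (θ : D X) :
    (θ (y + e) = 0 → P θ y = P 0 y) ∧ (θ (y + e) = 1 → P θ y = P τ y) := by
  obtain ⟨h1, -, -⟩ := hY X e R τ P h
  constructor
  · intro h0
    have := h1 y hy 0 θ h0
    rwa [zero_add] at this
  · intro h0
    have h2 : (θ + τ) (y + e) = 0 := by rw [LinearMap.add_apply, h0, tau_e h hy]; rfl
    have := h1 y hy τ (θ + τ) h2
    rw [← this]
    congr 1
    rw [add_comm θ τ, add_add_self]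

theorem tau_mem' (h : CtxC e R τ P) {x x' : X} (hx : τ x = 0) (hx' : τ x' = 0) (h0 : x ≠ 0)
    (h0' : x' ≠ 0) : τ ∈ Lx (fx R (x + x')) x := by
  obtain ⟨ψ, hψ, hψ1⟩ := exists_sep (W := Submodule.span (ZMod 2) {x + x'}) (x := x) (by
    intro hm
    obtain ⟨c, hc⟩ := Submodule.mem_span_singleton.1 hm
    rcases zm c with rfl | rfl
    · rw [zero_smul] at hc; exact h0 hc.symm
    · rw [one_smul] at hc
      apply h0'
      have := congrArg (x + ·) hc
      simpa [add_add_self, add_self'] using this)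
  have h2 := hψ (x + x') (Submodule.mem_span_singleton_self _)
  refine ⟨wd e τ ψ, ⟨h.star ψ, ?_⟩, ?_⟩
  · rw [wd_of_zero (by rw [map_add τ, hx, hx', zero_add]), h2, zero_smul]
  · rw [wd_of_zero_one hx hψ1]

theorem tau_mem (h : CtxC e R τ P) {x : X} (hx : τ x = 0) (h0 : x ≠ 0) : τ ∈ Lx R x :=
  Lx_mono (fx_le R _) x (tau_mem' h hx hx h0 h0)

theorem inv (h : CtxC e R τ P) {x : X} (hx : τ x = 0) (h0 : x ≠ 0) (θ : D X) :
    P (θ + τ) x = P θ x := by
  obtain ⟨κ, hκ, hκ'⟩ := tau_mem h hx h0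
  have := h.zero κ hκ θ x
  rwa [hκ'] at this

theorem ne_tau (h : CtxC e R τ P) (θ : D X) : θ ≠ θ + τ := by
  intro he
  apply h.τ0
  have h2 : θ + θ = θ + (θ + τ) := congrArg (fun t => θ + t) he
  rw [add_self', add_add_self] at h2
  exact h2.symm

/-- first Fourier input -/
theorem four_prod (hY : Stmt_C3Y) (h : CtxC e R τ P) {A B : ℕ} (hA : ∀ y, τ y = 1 → P 0 y = A)
    (hB : ∀ y, τ y = 1 → P τ y = B) {x : X} (hx : τ x = 0) (h0 : x ≠ 0) (y : X) (hy : τ y = 1) :
    sOn Set.univ (fun θ => sg (θ (y + e)) * ((P θ 0 : ℤ) * P θ x)) = ((A : ℤ) - B) * (A + B) := by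
  obtain ⟨-, -, h3⟩ := hY X e R τ P h
  have hy' : τ (x + y) = 1 := by rw [map_add, hx, hy, zero_add]
  have hne : y ≠ x + y := by
    intro he
    apply h0
    have := congrArg (· + y) he
    simp only [add_add_self', add_self'] at this
    exact this.symm
  have hsum : y + (x + y) = x := by
    rw [add_comm x y, add_add_self]
  have key : ∀ θ : D X, ((P θ y : ℤ) * P θ (x + y)) =
      sOn {θ' | θ' (y + e) = θ (y + e) ∧ θ' (x + y + e) = θ (x + y + e)}
        (fun θ' => (P θ' 0 : ℤ) * P θ' x) := by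
    intro θ
    have := h3 y (x + y) hne hy hy' θ
    rwa [hsum] at this
  have hye := tau_e h hy
  have hye' := tau_e h hy'
  -- a functional with `χ (y + e) = 0`, `χ (x + y + e) = 1`
  obtain ⟨χ, hχ, hχ1⟩ := exists_sep (W := Submodule.span (ZMod 2) {y + e}) (x := x + y + e) (by
    intro hm
    obtain ⟨c, hc⟩ := Submodule.mem_span_singleton.1 hm
    rcases zm c with rfl | rfl
    · rw [zero_smul] at hc
      rw [← hc, map_zero] at hye'
      exact zero_ne_one hye'
    · rw [one_smul] at hc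
      exact hne (add_right_cancel hc))
  have hχ0 : χ (y + e) = 0 := hχ _ (Submodule.mem_span_singleton_self _)
  have k00 := key 0
  have k11 := key τ
  have k01 := key χ
  have k10 := key (χ + τ)
  have v1 : P χ y = A := by rw [(val hY h hy χ).1 hχ0, hA y hy]
  have v2 : P χ (x + y) = B := by rw [(val hY h hy' χ).2 hχ1, hB _ hy']
  have w1 : (χ + τ) (y + e) = 1 := by rw [LinearMap.add_apply, hχ0, hye, zero_add]
  have w2 : (χ + τ) (x + y + e) = 0 := by rw [LinearMap.add_apply, hχ1, hye']; rfl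
  have v3 : P (χ + τ) y = B := by rw [(val hY h hy _).2 w1, hB y hy]
  have v4 : P (χ + τ) (x + y) = A := by rw [(val hY h hy' _).1 w2, hA _ hy']
  rw [v1, v2, hχ0, hχ1] at k01
  rw [v3, v4, w1, w2] at k10
  rw [hA y hy, hA _ hy', LinearMap.zero_apply, LinearMap.zero_apply] at k00
  rw [hB y hy, hB _ hy', hye, hye'] at k11
  rw [signed, split (y + e) (x + y + e) 0, split (y + e) (x + y + e) 1, ← k00, ← k11, ← k01, ← k10]
  ring

/-- second Fourier input -/
theorem four_sq (hY : Stmt_C3Y) (h : CtxC e R τ P) {A B : ℕ} (hA : ∀ y, τ y = 1 → P 0 y = A)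
    (hB : ∀ y, τ y = 1 → P τ y = B) (y : X) (hy : τ y = 1) :
    sOn Set.univ (fun θ => sg (θ (y + e)) * s (P θ 0)) = s A - s B := by
  obtain ⟨-, h2, -⟩ := hY X e R τ P h
  have k0 := h2 y hy 0
  have k1 := h2 y hy τ
  rw [hA y hy, LinearMap.zero_apply] at k0
  rw [hB y hy, tau_e h hy] at k1
  rw [signed]
  unfold s
  rw [← k0, ← k1]

theorem fourA (hF : Stmt_FOUR) (hY : Stmt_C3Y) (h : CtxC e R τ P) {A B : ℕ}
    (hA : ∀ y, τ y = 1 → P 0 y = A) (hB : ∀ y, τ y = 1 → P τ y = B) {x : X} (hx : τ x = 0)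
    (h0 : x ≠ 0) :
    (∀ θ, θ ≠ 0 → θ ≠ τ → (P θ 0 : ℤ) * P θ x = P (θ + τ) 0 * P θ x) ∧
    ((P 0 0 : ℤ) * P 0 x - P τ 0 * P 0 x) = ((A : ℤ) - B) * (A + B) := by
  obtain ⟨h1, h2⟩ := hF X τ (fun θ => (P θ 0 : ℤ) * P θ x) (((A : ℤ) - B) * (A + B)) h.τ0
    (fun y hy => by
      have := four_prod hY h hA hB hx h0 (y + e) (tau_e h hy)
      rwa [add_add_self'] at this)
  constructor
  · intro θ hθ hθ'
    have := h1 θ hθ hθ'
    rwa [inv h hx h0] at this
  · have e := inv h hx h0 0
    rw [zero_add] at e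
    rwa [e] at h2

theorem fourB (hF : Stmt_FOUR) (hY : Stmt_C3Y) (h : CtxC e R τ P) {A B : ℕ}
    (hA : ∀ y, τ y = 1 → P 0 y = A) (hB : ∀ y, τ y = 1 → P τ y = B) :
    (∀ θ, θ ≠ 0 → θ ≠ τ → s (P θ 0) = s (P (θ + τ) 0)) ∧
    s (P 0 0) - s (P τ 0) = s A - s B :=
  hF X τ (fun θ => s (P θ 0)) (s A - s B) h.τ0 (fun y hy => by
    have := four_sq hY h hA hB (y + e) (tau_e h hy)
    rwa [add_add_self'] at this)

theorem pair_le (h : CtxC e R τ P) (θ : D X) {x x' : X} (hx : τ x = 0) (hx' : τ x' = 0) (h0 : x ≠ 0)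
    (h0' : x' ≠ 0) (hne : x ≠ x') :
    ((P θ 0 : ℤ) + P (θ + τ) 0) * P θ (x + x') ≤ (P θ x : ℤ) * P θ x' := by
  classical
  have ht : τ (x + x') = 0 := by rw [map_add, hx, hx', zero_add]
  have hs : x + x' ≠ 0 := fun hc => hne (eq_of_add hc)
  rw [h.pair θ x x' hne ht]
  refine le_trans (le_of_eq ?_) (le_sOn _ _ ?_ {θ, θ + τ} ?_)
  · rw [Finset.sum_pair (ne_tau h θ), inv h ht hs]
    ring
  · intro θ' _
    positivity
  · intro θ' hθ'
    rw [Finset.mem_insert, Finset.mem_singleton] at hθ'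
    rcases hθ' with rfl | rfl
    · show θ' + θ' ∈ Lx (fx R (x + x')) x
      rw [add_self']
      exact Submodule.zero_mem _
    · show θ + τ + θ ∈ Lx (fx R (x + x')) x
      rw [add_comm θ τ, add_add_self']
      exact tau_mem' h hx hx' h0 h0'

theorem exists_Y (h : CtxC e R τ P) : ∃ y, τ y = 1 := by
  by_contra hc
  push Not at hc
  apply h.τ0
  apply LinearMap.ext
  intro y
  exact zm_ne' (hc y)

end C3FX

open C3FX in
open Pool.Agent.ESL.C3DX (sOn_ite le_sOn sOn_eq signed split s s_nonneg exists_two) in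
theorem c3f_proof (hY : Stmt_C3Y) (hF : Stmt_FOUR) : Stmt_C3F := by
  classical
  intro X _ _ _ e R τ P h h3 c hc hc' hex
  obtain ⟨y, hy⟩ := exists_Y h
  have hA : ∀ y, τ y = 1 → P 0 y = c := fun y hy => (hc' y hy).1
  have hB : ∀ y, τ y = 1 → P τ y = c := fun y hy => (hc' y hy).2
  obtain ⟨-, y2, y3⟩ := hY X e R τ P h
  -- Fourier
  have f1 : ∀ x, τ x = 0 → x ≠ 0 → ∀ θ, (P θ 0 : ℤ) * P θ x = P (θ + τ) 0 * P θ x := by
    intro x hx h0 θ
    obtain ⟨g1, g2⟩ := fourA hF hY h hA hB hx h0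
    by_cases hθ : θ = 0
    · rw [hθ, zero_add]
      rw [sub_self, zero_mul] at g2
      omega
    by_cases hθ' : θ = τ
    · rw [hθ', add_self']
      rw [sub_self, zero_mul] at g2
      have e := inv h hx h0 0
      rw [zero_add] at e
      rw [e]
      omega
    · exact g1 θ hθ hθ'
  have f2 : ∀ θ, s (P θ 0) = s (P (θ + τ) 0) := by
    intro θ
    obtain ⟨g1, g2⟩ := fourB hF hY h hA hB
    rw [sub_self] at g2
    by_cases hθ : θ = 0
    · rw [hθ, zero_add]; omega
    by_cases hθ' : θ = τ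
    · rw [hθ', add_self']; omega
    · exact g1 θ hθ hθ'
  refine ⟨fun θ => (f2 θ).symm, ?_, ?_⟩
  · by_contra hall'
    push Not at hall'
    have hall : ∀ θ, P θ 0 ≤ 1 := fun θ => by have := hall' θ; omega
    have hs : ∀ θ, s (P θ 0) = 0 := by
      intro θ
      have := hall θ
      unfold s
      interval_cases (P θ 0) <;> norm_num
    have hc1 : c = 1 := by
      have k0 := y2 y hy 0
      rw [hA y hy] at k0
      change s c = sOn {θ' | θ' (y + e) = (0 : D X) (y + e)} (fun θ' => s (P θ' 0)) at k0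
      rw [sOn_eq _ _ ∅ (by simp) (fun θ _ _ => hs θ), Finset.sum_empty] at k0
      unfold s at k0
      have : (c : ℤ) * (c - 1) = 0 := by linarith
      rcases mul_eq_zero.1 this with hz | hz <;> omega
    have ha : ∀ θ x, P θ x ≤ 1 := by
      intro θ x
      have k0 := h.diag θ x
      change s (P θ x) = sOn {θ' | θ' + θ ∈ Lx R x} (fun θ' => s (P θ' 0)) at k0
      rw [sOn_eq _ _ ∅ (by simp) (fun θ _ _ => hs θ), Finset.sum_empty] at k0
      unfold s at k0
      have : (P θ x : ℤ) * (P θ x - 1) = 0 := by linarith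
      rcases mul_eq_zero.1 this with hz | hz <;> omega
    -- all products vanish
    have hz : ∀ θ x, τ x = 0 → x ≠ 0 → P θ 0 * P θ x = 0 := by
      intro θ x hx h0
      by_contra hne
      rw [Nat.mul_eq_zero, not_or] at hne
      have e1 : P θ 0 = 1 := by have := hall θ; omega
      have e2 : P θ x = 1 := by have := ha θ x; omega
      obtain ⟨x', hx', h0', hne'⟩ := exists_two h3 τ x
      have ht : τ (x + x') = 0 := by rw [map_add, hx, hx', zero_add]
      have hs' : x + x' ≠ 0 := fun hc => hne' (eq_of_add hc).symm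
      have hne2 : x + x' ≠ x' := by
        intro he
        apply h0
        have := congrArg (· + x') he
        simp only [add_add_self', add_self'] at this
        exact this
      have pl := pair_le h θ ht hx' hs' h0' hne2
      rw [add_add_self'] at pl
      have e3 := f1 x hx h0 θ
      rw [e1, e2] at e3
      rw [e1, e2] at pl
      have e4 : P (θ + τ) 0 = 1 := by
        have : ((1 : ℕ) : ℤ) * ((1 : ℕ) : ℤ) = 1 := by norm_num
        rw [this] at e3
        have : (P (θ + τ) 0 : ℤ) = 1 := by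
          rw [Nat.cast_one, mul_one] at e3
          exact e3.symm
        exact_mod_cast this
      rw [e4] at pl
      have b1 := ha θ (x + x')
      have b2 := ha θ x'
      have : P θ (x + x') * P θ x' ≤ 1 := by
        calc P θ (x + x') * P θ x' ≤ 1 * 1 := Nat.mul_le_mul b1 b2
          _ = 1 := rfl
      have : ((P θ (x + x') : ℤ) * P θ x') ≤ 1 := by exact_mod_cast this
      norm_num at pl
      omega
    -- contradiction
    obtain ⟨x, hx, h0, -⟩ := exists_two h3 τ 0
    have hne : y ≠ x + y := by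
      intro he
      apply h0
      have := congrArg (· + y) he
      simp only [add_add_self', add_self'] at this
      exact this.symm
    have hy' : τ (x + y) = 1 := by rw [map_add, hx, hy, zero_add]
    have hsum : y + (x + y) = x := by
      rw [add_comm x y, add_add_self]
    have k := y3 y (x + y) hne hy hy' 0
    rw [hsum, hA y hy, hA _ hy', hc1] at k
    rw [sOn_eq _ _ ∅ (by simp) (fun θ _ _ => by
      have := hz θ x hx h0
      exact_mod_cast this), Finset.sum_empty] at k
    norm_num at k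
  · -- the lower bound
    intro θ hθ
    have e1 : P (θ + τ) 0 = P θ 0 := by
      have e := f2 θ
      unfold s at e
      have b : (2 : ℤ) ≤ P θ 0 := by exact_mod_cast hθ
      have b' : (0 : ℤ) ≤ P (θ + τ) 0 := by positivity
      have : ((P θ 0 : ℤ) - P (θ + τ) 0) * (P θ 0 + P (θ + τ) 0 - 1) = 0 := by linarith
      rcases mul_eq_zero.1 this with hz | hz <;> omega
    refine ⟨e1, ?_⟩
    have hpos : ∀ x, τ x = 0 → x ≠ 0 → 1 ≤ P θ x := by
      intro x hx h0
      have k0 := h.diag θ x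
      change s (P θ x) = sOn {θ' | θ' + θ ∈ Lx R x} (fun θ' => s (P θ' 0)) at k0
      have := le_sOn {θ' | θ' + θ ∈ Lx R x} (fun θ' => s (P θ' 0)) (fun _ _ => s_nonneg _) {θ} (by
        intro θ' hθ'
        rw [Finset.mem_singleton] at hθ'
        rw [hθ']
        show θ + θ ∈ Lx R x
        rw [add_self']
        exact Submodule.zero_mem _)
      rw [Finset.sum_singleton, ← k0] at this
      by_contra hc0
      have hz : P θ x = 0 := by omega
      have b : (2 : ℤ) ≤ P θ 0 := by exact_mod_cast hθ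
      rw [hz] at this
      unfold s at this
      push_cast at this
      nlinarith
    intro x h0 hx
    obtain ⟨z, hz, h0z, hnez⟩ := exists_two h3 τ x
    have ht : τ (x + z) = 0 := by rw [map_add, hx, hz, zero_add]
    have hs' : x + z ≠ 0 := fun hc => hnez (eq_of_add hc).symm
    -- choose x' with a(x') ≤ a(x+x')
    obtain ⟨x', hx', h0', hne', hle⟩ : ∃ x', τ x' = 0 ∧ x' ≠ 0 ∧ x' ≠ x ∧ P θ x' ≤ P θ (x + x') := by
      rcases le_total (P θ z) (P θ (x + z)) with hle | hle
      · exact ⟨z, hz, h0z, hnez, hle⟩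
      · refine ⟨x + z, ht, hs', ?_, ?_⟩
        · intro he
          apply h0z
          have := congrArg (x + ·) he
          simp only [add_add_self, add_self'] at this
          exact this
        · rw [add_add_self]; exact hle
    have pl := pair_le h θ hx hx' h0 h0' (Ne.symm hne')
    rw [e1] at pl
    have b1 : (P θ x' : ℤ) ≤ P θ (x + x') := by exact_mod_cast hle
    have b2 : (1 : ℤ) ≤ P θ x' := by exact_mod_cast hpos x' hx' h0'
    have b3 : (0 : ℤ) ≤ P θ 0 := by positivity
    have b4 : ((P θ 0 : ℤ) + P θ 0) * P θ x' ≤ P θ x * P θ x' := by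
      refine le_trans ?_ pl
      apply mul_le_mul_of_nonneg_left b1
      omega
    have b5 := le_of_mul_le_mul_right b4 (by omega)
    omega

end Pool.Agent.ESG
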