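import Pool.Agent.ESG.Stmts
import Pool.Agent.ESL.CountX

/-!
Common lemma for the counting identities DIAG and PAIR (symmetric forms).
-/

namespace Pool.Agent.ESG

open Pool.Agent.ESL Pool.Agent.ESL.CountX

namespace CountGX

variable {V : Type} [AddCommGroup V] [Module (ZMod 2) V] [Finite V]

/-- use of the splitting equivalence -/
theorem split_eq (hS : Stmt_SPLEQ) {R : FS V} (hR : IsSym R) (M : Submodule (ZMod 2) V) (α : D V)
    (w : V) (hw : Spl R M w) (θ : D (V ⧸ M)) (v : V ⧸ M) :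
    N R M α w θ v = ∑ θ' ∈ (Set.toFinite {θ' : D (V ⧸ M) |
      θ' + θ ∈ Lx (fx (R0 R M) (M.mkQ w)) v}).toFinset, N R M α w θ' 0 := by
  classical
  obtain ⟨C, hCM, hspl⟩ := hw
  obtain ⟨hA, hB⟩ := hS V R M C w hR hCM hspl α
  obtain ⟨c, hc, hcv⟩ : ∃ c ∈ C, M.mkQ c = v := by
    obtain ⟨y, rfl⟩ := M.mkQ_surjective v
    have hy : y ∈ C ⊔ M := by rw [hCM]; trivial
    obtain ⟨c, hc, m, hm, rfl⟩ := Submodule.mem_sup.1 hy
    exact ⟨c, hc, by rw [map_add, mk_zero.2 hm, add_zero]⟩
  unfold N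
  rw [← Finset.card_biUnion]
  · apply Finset.card_nbij' (fun z => c + z) (fun a => c + a)
    · intro z hz
      simp only [Finset.mem_coe, Set.Finite.mem_toFinset, Set.mem_ofPred_eq] at hz
      have ha : c + z ∈ M := by
        rw [← mk_zero, map_add, hcv, hz.1, add_self']
      have h1 := (hA θ c hc (c + z) ha).1 (by rw [add_add_self]; exact hz.2)
      obtain ⟨θ', h2, h3⟩ := h1
      simp only [Finset.coe_biUnion, Set.mem_iUnion, Finset.mem_coe, Set.Finite.mem_toFinset,
        Set.mem_ofPred_eq, exists_prop]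
      exact ⟨θ', by rw [← hcv]; exact h2, mk_zero.2 ha, h3⟩
    · intro a ha
      simp only [Finset.coe_biUnion, Set.mem_iUnion, Finset.mem_coe, Set.Finite.mem_toFinset,
        Set.mem_ofPred_eq, exists_prop] at ha
      obtain ⟨θ', h2, ha0, h3⟩ := ha
      simp only [Finset.mem_coe, Set.Finite.mem_toFinset, Set.mem_ofPred_eq]
      refine ⟨by rw [map_add, ha0, add_zero, hcv], ?_⟩
      exact (hA θ c hc a (mk_zero.1 ha0)).2 ⟨θ', by rw [hcv]; exact h2, h3⟩
    · intro z _
      exact add_add_self c z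
    · intro z _
      exact add_add_self c z
  · intro θ₁ _ θ₂ _ hne
    rw [Function.onFun, Finset.disjoint_left]
    intro a h1 h2
    simp only [Set.Finite.mem_toFinset, Set.mem_ofPred_eq] at h1 h2
    exact hne (hB θ₁ θ₂ a (mk_zero.1 h1.1) a (mk_zero.1 h2.1) h1.2 h2.2)

end CountGX

end Pool.Agent.ESG
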