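import Pool.Agent.ESL.Basic

/-!
Form spaces with a Wu class `e`: linear spaces of bilinear forms `k` on a finite `F_2`-space `V` with
`k (x, x) = k (x, e)`.  Form spaces of elementary type.  Problem MP_d26ff6_al, arbitrary `-1`.
All notions which do not depend on `e` are those of `Pool.Agent.ESL`.
-/

namespace Pool.Agent.ESG

open Pool.Agent.ESL

variable {V X : Type} [AddCommGroup V] [Module (ZMod 2) V] [AddCommGroup X] [Module (ZMod 2) X]

/-- all forms of `R` are symmetric -/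
def IsSym (R : FS V) : Prop := ∀ k ∈ R, ∀ x y, k x y = k y x

/-- all forms of `R` have Wu class `e` -/
def IsWu (e : V) (R : FS V) : Prop := ∀ k ∈ R, ∀ x, k x x = k x e

/-- the form `[τ, ψ]`, linear in `ψ`: `x ↦ τ x • ψ + ψ x • τ + (ψ e * τ x) • τ` -/
def wd (e : V) (τ : D V) : D V →ₗ[ZMod 2] Fm V where
  toFun ψ := τ.smulRight ψ + ψ.smulRight τ + ψ e • τ.smulRight τ
  map_add' a b := by
    ext x y
    simp only [LinearMap.add_apply, LinearMap.smulRight_apply, LinearMap.smul_apply, smul_eq_mul]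
    ring
  map_smul' c a := by
    ext x y
    simp only [LinearMap.add_apply, LinearMap.smulRight_apply, LinearMap.smul_apply, smul_eq_mul,
      RingHom.id_apply]
    ring

/-- the form `φ ⊗ φ` -/
def rho (φ : D V) : Fm V := φ.smulRight φ

/-- `{ψ : [τ, ψ] ∈ R}` -/
def St (e : V) (R : FS V) (τ : D V) : Submodule (ZMod 2) (D V) := R.comap (wd e τ)

/-- form spaces of elementary type (radicals are allowed) -/
inductive ET (e : V) : FS V → Prop
  | loc (k : Fm V) (h : ∀ x, k x x = k x e) : ET e (Submodule.span (ZMod 2) {k})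
  | sum (R₁ R₂ : FS V) (h₁ : ET e R₁) (h₂ : ET e R₂) (h : Disjoint (Sp R₁) (Sp R₂)) : ET e (R₁ ⊔ R₂)
  | ext (R : FS V) (L : Submodule (ZMod 2) (D V)) (τ : D V) (h : ET e R) (hL : Sp R ≤ L) (hτ : τ ∉ L)
      (he : τ e = 0) : ET e (R ⊔ L.map (wd e τ))

/-- `R` is a star with centre `σ`: `[σ, χ] ∈ R` for all `χ` in the support of `R` -/
def IsStar (e : V) (R : FS V) (σ : D V) : Prop :=
  σ ∈ Sp R ∧ σ ≠ 0 ∧ σ e = 0 ∧ ∀ χ ∈ Sp R, wd e σ χ ∈ R

/-- the induction hypothesis -/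
def IH (e : V) (R : FS V) : Prop := ∀ R' : FS V, R' ≤ R → R' ≠ R → SL R' → ET e R'

/-- the hypothesis of Part I: `M^⊥ = St(τ)` has the maximal dimension `d`, `3 ≤ d < dim V` -/
structure CtxI (e : V) (R : FS V) (τ : D V) (M : Submodule (ZMod 2) V) : Prop where
  wu : IsWu e R
  sl : SL R
  nd : rad R = ⊥
  et : ∀ w, w ≠ 0 → ET e (fx R w)
  star : ∀ ψ, wd e τ ψ ∈ R ↔ ∀ m ∈ M, ψ m = 0
  max : ∀ σ : D V, σ ≠ 0 → σ e = 0 → fr (St e R σ) + fr M ≤ fr V
  three : fr M + 3 ≤ fr V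
  ne : M ≠ ⊥
  τ0 : τ ≠ 0
  τe : τ e = 0

/-- the hypothesis of Part II: every `R^w`, `w ≠ 0`, has a basis with independent supports, and all stars have
dimension at most two and are proper -/
structure CtxII (e : V) (R : FS V) : Prop where
  wu : IsWu e R
  sl : SL R
  nd : rad R = ⊥
  at' : ∀ w, w ≠ 0 → ∃ A : Finset (Fm V), IndB A ∧ Submodule.span (ZMod 2) (A : Set (Fm V)) = fx R w
  two : ∀ σ : D V, σ ≠ 0 → σ e = 0 → fr (St e R σ) ≤ 2
  top : ∀ σ : D V, σ ≠ 0 → σ e = 0 → St e R σ ≠ ⊤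

end Pool.Agent.ESG
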