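import Pool.Agent.ESG.Stmts

/-!
Module F3C: `R^z` is not one star.
-/

namespace Pool.Agent.ESG

open Pool.Agent.ESL

namespace F3CX

variable {V : Type} [AddCommGroup V] [Module (ZMod 2) V]

theorem tau_red {z : V} {τ : D V} (hz : τ z = 1) (x : V) : τ (x + τ x • z) = 0 := by
  rw [map_add, map_smul, hz, smul_eq_mul, mul_one, CharTwo.add_self_eq_zero]

/-- Lemma A -/
theorem lemA [Finite V] {e : V} {R : FS V} {τ : D V} {m z : V}
    (h : CtxI e R τ (Submodule.span (ZMod 2) {m})) (hm0 : m ≠ 0) (hz : τ z = 1) (σ : D V)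
    (hσ0 : σ ≠ 0) (hσe : σ e = 0) (hσm : σ m = 0) (hall : ∀ χ : D V, χ z = 0 → wd e σ χ ∈ R) :
    False := by
  have hστ : wd e σ τ ∈ R := by
    rw [wd_comm hσe h.τe]
    refine (h.star σ).2 ?_
    intro x hx
    obtain ⟨c, rfl⟩ := Submodule.mem_span_singleton.1 hx
    rw [map_smul, hσm, smul_zero]
  have htop : St e R σ = ⊤ := by
    rw [eq_top_iff]
    intro φ _
    rw [mem_St]
    have e1 : wd e σ φ = wd e σ (φ + φ z • τ) + φ z • wd e σ τ := by
      rw [map_add, map_smul]
      exact (add_add_self' _ _).symm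
    rw [e1]
    refine R.add_mem (hall _ ?_) (R.smul_mem _ hστ)
    rw [LinearMap.add_apply, LinearMap.smul_apply, hz, smul_eq_mul, mul_one,
      CharTwo.add_self_eq_zero]
  have hmax := h.max σ hσ0 hσe
  have h1 : fr (Submodule.span (ZMod 2) {m}) = 1 := finrank_span_singleton hm0
  have h2 : fr (St e R σ) = fr V := by
    rw [htop]
    exact (finrank_top _ _).trans finrank_D
  omega

/-- a vector outside of the span of three -/
theorem ex_three [Finite V] (h : 4 ≤ fr V) (a b c : V) :
    ∃ x, x ∉ Submodule.span (ZMod 2) ({a, b, c} : Set V) := by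
  by_contra hc
  push Not at hc
  have htop : Submodule.span (ZMod 2) ({a, b, c} : Set V) = ⊤ := eq_top_iff.2 fun x _ => hc x
  classical
  have h4 : fr (Submodule.span (ZMod 2) ({a, b, c} : Set V)) ≤ 3 := by
    have e := finrank_span_finset_le_card (R := ZMod 2) ({a, b, c} : Finset V)
    have e2 := Finset.card_le_three (a := a) (b := b) (c := c)
    have e3 : Set.finrank (ZMod 2) (({a, b, c} : Finset V) : Set V) =
        fr (Submodule.span (ZMod 2) ({a, b, c} : Set V)) := by
      unfold Set.finrank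
      rw [Finset.coe_insert, Finset.coe_insert, Finset.coe_singleton]
    omega
  rw [htop] at h4
  have h5 : fr (⊤ : Submodule (ZMod 2) V) = fr V := finrank_top _ _
  omega

end F3CX

open F3CX in
theorem f3c_proof : Stmt_F3C := by
  intro V _ _ _ e R τ m z h hF hrad σ hstar
  obtain ⟨hσS, hσ0, hσe, hσ⟩ := hstar
  have hm0 : m ≠ 0 := by
    rintro rfl
    apply h.ne
    exact Submodule.span_zero_singleton _
  have h1 : fr (Submodule.span (ZMod 2) {m}) = 1 := finrank_span_singleton hm0
  have h4 : 4 ≤ fr V := by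
    have := h.three
    omega
  have hz := hF.one
  have hτm : τ m = 0 := (h.star τ).1 (by rw [wd_self h.τe]; exact R.zero_mem) m
    (Submodule.mem_span_singleton_self m)
  have hSwu : IsWu e (fx R z) := h.wu.mono (fx_le R z)
  have hSp : ∀ φ : D V, φ ∈ Sp (fx R z) ↔ φ z = 0 := by
    intro φ
    rw [← an_rad hSwu.sym, hrad]
    constructor
    · intro hφ
      exact hφ z (Submodule.mem_span_singleton_self z)
    · intro hφ x hx
      obtain ⟨c, rfl⟩ := Submodule.mem_span_singleton.1 hx
      rw [map_smul, hφ, smul_zero]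
  have hσz : σ z = 0 := (hSp σ).1 hσS
  have hall : ∀ χ : D V, χ z = 0 → wd e σ χ ∈ fx R z := fun χ hχ => hσ χ ((hSp χ).2 hχ)
  by_cases hσm : σ m = 0
  · exact lemA h hm0 hz σ hσ0 hσe hσm (fun χ hχ => fx_le R z (hall χ hχ))
  have hσm1 := zm_ne hσm
  -- points with `σ x = 1`
  have hone : ∀ x, σ x = 1 → ∀ φ : D V, φ z = 0 → φ (x + e) = 0 → φ ∈ Lx (fx R z) x := by
    intro x hx φ hφz hφx
    exact ⟨wd e σ φ, hall φ hφz, wd_of_one_zero hx hφx⟩
  -- points of `H` with `σ x = 0`
  have hzero : ∀ x, τ x = 0 → σ x = 0 → x ≠ 0 → ∀ φ : D V, φ z = 0 → φ (x + e) = 0 →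
      φ ∈ Lx (fx R z) x := by
    intro x hτx hσx hx0 φ hφz hφx
    -- `σ ∈ L_x`
    have hσL : σ ∈ Lx (fx R z) x := by
      have hxz : x ∉ Submodule.span (ZMod 2) {z} := by
        intro hx
        obtain ⟨c, rfl⟩ := Submodule.mem_span_singleton.1 hx
        rw [map_smul, hz, smul_eq_mul, mul_one] at hτx
        rw [hτx, zero_smul] at hx0
        exact hx0 rfl
      obtain ⟨χ, hχ, hχx⟩ := exists_sep hxz
      exact ⟨wd e σ χ, hall χ (hχ z (Submodule.mem_span_singleton_self z)),
        wd_of_zero_one hσx hχx⟩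
    have key : ∀ ψ : D V, ψ z = 0 → ψ (x + e) = 0 → ψ (m + e) = 0 → ψ ∈ Lx (fx R z) x := by
      intro ψ hψz hψx hψm
      have hψL : ψ ∈ Lx R m := Lx_mono (fx_le R z) m (hone m hσm1 ψ hψz hψm)
      have hψh : ψ (m + x) = 0 := by
        have e1 : m + x = (m + e) + (x + e) := by
          have : (m + e) + (x + e) = (m + x) + (e + e) := by abel
          rw [this, add_self', add_zero]
        rw [e1, map_add, hψx, hψm, add_zero]
      obtain ⟨k, hk, hkh, hkm⟩ := hF.hh (m + x) (by rw [map_add, hτm, hτx, add_zero])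
        (by
          intro h0
          have := congrArg σ h0
          rw [map_add, hσm1, hσx, add_zero, map_zero] at this
          exact one_ne_zero this)
        (by
          intro h0
          exact hx0 (by simpa using h0)) ψ hψL hψh
      refine ⟨k, hk, ?_⟩
      rw [map_add, hkm] at hkh
      exact (eq_of_add (V := D V) hkh).symm
    rcases zm (φ (m + e)) with h0 | h0
    · exact key φ hφz hφx h0
    · have hs : φ + σ ∈ Lx (fx R z) x := by
        apply key
        · rw [LinearMap.add_apply, hφz, hσz, add_zero]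
        · rw [LinearMap.add_apply, hφx, map_add, hσx, hσe]; rfl
        · rw [LinearMap.add_apply, h0, map_add, hσm1, hσe, add_zero, CharTwo.add_self_eq_zero]
      have e1 : φ = (φ + σ) + σ := (add_add_self' (V := D V) _ _).symm
      rw [e1]
      exact Submodule.add_mem _ hs hσL
  -- all `[s, ψ]` are in `R^z`
  obtain ⟨x, hx⟩ := ex_three h4 z m e
  obtain ⟨s, hs, hsx⟩ := exists_sep hx
  have hs0 : s ≠ 0 := by
    rintro rfl
    simp at hsx
  have hsz : s z = 0 := hs z (Submodule.subset_span (by simp))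
  have hsm : s m = 0 := hs m (Submodule.subset_span (by simp))
  have hse : s e = 0 := hs e (Submodule.subset_span (by simp))
  refine lemA h hm0 hz s hs0 hse hsm ?_
  intro ψ hψ
  have hSL : SL (fx R z) := h.sl.fx z
  apply fx_le R z
  apply hSL.univ
  intro y
  have hbz : wd e s ψ z = 0 := by
    rw [wd_apply, hsz, hψ, zero_smul, zero_smul, mul_zero, zero_smul, add_zero, add_zero]
  have hby : wd e s ψ y = wd e s ψ (y + τ y • z) := by
    rw [map_add, map_smul, hbz, smul_zero, add_zero]
  have hLy : Lx (fx R z) (y + τ y • z) ≤ Lx (fx R z) y := by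
    rintro _ ⟨k, hk, rfl⟩
    refine ⟨k, hk, ?_⟩
    rw [map_add, map_smul, hk.2, smul_zero, add_zero]
  rw [hby]
  apply hLy
  have hτy := tau_red hz y
  set y' := y + τ y • z
  by_cases hy0 : y' = 0
  · rw [hy0, map_zero]; exact Submodule.zero_mem _
  have hwz : wd e s ψ y' z = 0 := by
    rw [wd_symm, hbz]; rfl
  have hwe : wd e s ψ y' (y' + e) = 0 := by
    rw [map_add, wd_wu hse ψ y', CharTwo.add_self_eq_zero]
  rcases zm (σ y') with h0 | h0
  · exact hzero y' hτy h0 hy0 _ hwz hwe
  · exact hone y' h0 _ hwz hwe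

end Pool.Agent.ESG
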