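import Pool.Agent.ESG.GA3B

/-!
Module GA3C: (f) all colours occur.
-/

set_option linter.unusedVariables false

namespace Pool.Agent.ESG

open Pool.Agent.ESL GA3BX

namespace GA3CX

variable {V : Type} [AddCommGroup V] [Module (ZMod 2) V] [Finite V]

/-- shift inside a block to a given value of `a` -/
theorem shift {R : FS V} (hs : IsSym R) {ρ a : Fm V} (hρ : ρ ∈ R) (ha : a ∈ R)
    (hd : Disjoint (LinearMap.range ρ) (LinearMap.range a)) (u : V) {η : D V}
    (hη : η ∈ LinearMap.range a) : ∃ z, ρ z = ρ u ∧ a z = η := by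
  obtain ⟨t, ht⟩ := hη
  have htop := ker_sup_top (hs ρ hρ) (hs a ha) hd
  obtain ⟨s, hs1, s', hs', hss⟩ := Submodule.mem_sup.1 (htop ▸ Submodule.mem_top : u + t ∈
    LinearMap.ker ρ ⊔ LinearMap.ker a)
  rw [LinearMap.mem_ker] at hs1 hs'
  have e0 : u + s = t + s' := by
    have : u + t = s + s' := hss.symm
    have h2 := congrArg (fun x => x + (t + s)) this
    have e1 : u + t + (t + s) = u + s := by
      calc u + t + (t + s) = u + s + (t + t) := by abel
        _ = u + s := by rw [add_self', add_zero]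
    have e2 : s + s' + (t + s) = t + s' := by
      calc s + s' + (t + s) = t + s' + (s + s) := by abel
        _ = t + s' := by rw [add_self', add_zero]
    rw [← e1, ← e2]
    exact h2
  refine ⟨u + s, ?_, ?_⟩
  · rw [map_add, hs1, add_zero]
  · rw [e0, map_add, hs', add_zero, ht]

end GA3CX

open GA3CX

theorem ga3c_proof (hG1 : Stmt_G1) (hG4 : Stmt_G4) (hA : Stmt_GA3A) : Stmt_GA3C := by
  intro V _ _ _ e R a α θ m m' h η hη
  have hsym := h.ctx.wu.sym
  have haR := atom_mem h.atom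
  obtain ⟨b, hb, hαb⟩ := hA V e R a α θ m m' h
  have hα0 : α ≠ 0 := by
    have := ne_zero hsym haR (Submodule.zero_mem (LinearMap.range a)) hb hαb
    rwa [add_zero] at this
  have hαθ : α + θ ≠ 0 := ne_zero hsym haR h.hθ hb hαb
  have hαη : α + η ≠ 0 := ne_zero hsym haR hη hb hαb
  have hm0 : m ≠ 0 := by
    rintro rfl
    have := h.mem
    rw [Lx_zero, Submodule.mem_bot] at this
    exact hα0 this
  have hm'0 : m' ≠ 0 := by
    rintro rfl
    have := h.mem'
    rw [Lx_zero, Submodule.mem_bot] at this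
    exact hαθ this
  obtain ⟨ρ, hB, hρm, hd, -⟩ := h.blk m hm0 h.hm α h.mem hα0
  obtain ⟨ρ', hB', hρ'm', hd', -⟩ := h.blk m' hm'0 h.hm' (α + θ) h.mem' hαθ
  obtain ⟨z, hz1, hz2⟩ := shift hsym hB.mem haR hd m hη
  obtain ⟨z', hz1', hz2'⟩ := shift hsym hB'.mem haR hd' m' (Submodule.add_mem _ h.hθ hη)
  rw [hρm] at hz1
  rw [hρ'm'] at hz1'
  have p1 : α + η ∈ Lx R z := ⟨ρ + a, R.add_mem hB.mem haR, by rw [LinearMap.add_apply, hz1, hz2]⟩
  have p2 : α + η ∈ Lx R z' := ⟨ρ' + a, R.add_mem hB'.mem haR, by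
    rw [LinearMap.add_apply, hz1', hz2']
    calc α + θ + (θ + η) = α + η + (θ + θ) := by abel
      _ = α + η := by rw [add_self', add_zero]⟩
  have hne : a z ≠ a z' := by
    rw [hz2, hz2']
    intro h'
    apply h.hθ0
    have := congrArg (fun t => t + η) h'
    simpa [add_add_self', add_self'] using this.symm
  have hzz : z ≠ z' := fun h' => hne (by rw [h'])
  obtain ⟨k, hk, hkz, hkz'⟩ := hG1 V e R h.ctx (α + η) hαη z z' hzz p1 p2
  rcases hG4 V R hsym a haR h.good k hk.mem with hdk | ⟨-, hle⟩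
  · obtain ⟨u, hu1, hu2⟩ := shift hsym hk.mem haR hdk z (Submodule.zero_mem (LinearMap.range a))
    exact ⟨u, hu2, ⟨k, hk.mem, by rw [hu1, hkz]⟩⟩
  · exfalso
    apply hne
    have : a (z + z') = 0 := hle (by
      rw [LinearMap.mem_ker, map_add, hkz, hkz', add_self'])
    rw [map_add] at this
    exact eq_of_add this

end Pool.Agent.ESG
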