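import Pool.Agent.ESL.J1
import Pool.Agent.ESL.S3
import Pool.Agent.ESG.StmtsJ

/-!
If all finite structures have the extension property for subgroups of order at most eight, then they
all have the extension property (`-1` arbitrary).
-/

set_option linter.unusedSectionVars false

namespace Pool.Agent.ESG

open Pool.Agent.ESL
open QS

namespace J8X

/-- `R` is determined by its commuting pairs -/
def Univ {V : Type} [AddCommGroup V] [Module (ZMod 2) V] (e : V) (R : FS V) : Prop :=
  ∀ k : Fm V, (∀ x, k x x = k x e) → (∀ x y, (∀ l ∈ R, l x y = 0) → k x y = 0) → k ∈ R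

theorem Univ.fx {V : Type} [AddCommGroup V] [Module (ZMod 2) V] {e : V} {R : FS V} (h : Univ e R)
    (w : V) : Univ e (fx R w) := by
  intro k hk hc
  have h1 : k w = 0 := by
    ext y
    exact hc w y (fun l hl => by rw [hl.2]; rfl)
  exact ⟨h k hk (fun x y hxy => hc x y (fun l hl => hxy l hl.1)), h1⟩

theorem sl_of_three (H : ∀ (V : Type) [AddCommGroup V] [Module (ZMod 2) V] [Finite V] (e : V)
    (R : FS V), IsWu e R → Linked R → Univ e R → SLn R 3) :
    ∀ (n : ℕ) (V : Type) [AddCommGroup V] [Module (ZMod 2) V] [Finite V] (e : V) (R : FS V),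
      fr R < n → IsWu e R → Linked R → Univ e R → SL R := by
  intro n
  induction n with
  | zero => intro V _ _ _ e R h; omega
  | succ n ih =>
    intro V _ _ _ e R hn hA hL hU
    apply sl_of_fx hL
    intro u hu
    exact ih V e (fx R u) (by have := fr_fx_lt hu; omega) (hA.mono (fx_le R u))
      (linked_fx (H V e R hA hL hU) u) (hU.fx u)

section tos
variable {V : Type} [AddCommGroup V] [Module (ZMod 2) V] [Finite V]

/-- the structure of a linked form space -/
def toS (e : V) (R : FS V) (hA : IsWu e R) (hL : Linked R) : QStruct where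
  G := Multiplicative V
  Q := {β : R → ZMod 2 // ∃ a b : V, β = fun k : R => (k : Fm V) a b}
  neg := Multiplicative.ofAdd e
  zero := ⟨fun _ => 0, 0, 0, by funext k; simp⟩
  q := fun a b => ⟨fun k : R => (k : Fm V) a.toAdd b.toAdd, a.toAdd, b.toAdd, rfl⟩
  exp_two := fun a => ZModModule.add_self (G := V) a.toAdd
  surj := by
    rintro ⟨β, a, b, rfl⟩
    exact ⟨Multiplicative.ofAdd a, Multiplicative.ofAdd b, rfl⟩
  qs1 := by
    intro a
    apply Subtype.ext
    funext k
    show (k : Fm V) a.toAdd ((Multiplicative.ofAdd e : Multiplicative V) * a).toAdd = 0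
    rw [toAdd_mul, toAdd_ofAdd, map_add, ← hA k k.2 a.toAdd]
    exact ZModModule.add_self _
  qs2 := by
    intro a b
    apply Subtype.ext
    funext k
    exact hA.symm k.2 _ _
  qs3 := by
    intro a b c
    rw [Subtype.ext_iff, Subtype.ext_iff]
    show (fun k : R => (k : Fm V) a.toAdd b.toAdd) = (fun k : R => (k : Fm V) a.toAdd c.toAdd) ↔
      (fun k : R => (k : Fm V) a.toAdd (b * c).toAdd) = fun _ => 0
    constructor
    · intro h
      funext k
      have h1 : (k : Fm V) a.toAdd b.toAdd = (k : Fm V) a.toAdd c.toAdd := congrFun h k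
      show (k : Fm V) a.toAdd (b * c).toAdd = 0
      rw [toAdd_mul, map_add, h1]
      exact ZModModule.add_self _
    · intro h
      funext k
      have h1 : (k : Fm V) a.toAdd (b * c).toAdd = 0 := congrFun h k
      rw [toAdd_mul, map_add] at h1
      exact CharTwo.add_eq_zero.1 h1
  qs4 := by
    intro a b c d h
    have h' : ∀ k ∈ R, k a.toAdd b.toAdd = k c.toAdd d.toAdd := by
      intro k hk
      exact congrFun (congrArg Subtype.val h) ⟨k, hk⟩
    obtain ⟨x, h1, h2, -⟩ := ESG.Linked.primal hL _ _ _ _ h'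
    refine ⟨Multiplicative.ofAdd x, ?_, ?_⟩
    · apply Subtype.ext
      funext k
      exact h1 k k.2
    · apply Subtype.ext
      funext k
      exact h2 k k.2

theorem toS_q (e : V) (R : FS V) (hA : IsWu e R) (hL : Linked R) (a b : V) :
    (toS e R hA hL).q (Multiplicative.ofAdd a) (Multiplicative.ofAdd b) = (toS e R hA hL).zero ↔
      ∀ k ∈ R, k a b = 0 := by
  constructor
  · intro h k hk
    exact congrFun (congrArg Subtype.val h) ⟨k, hk⟩
  · intro h
    apply Subtype.ext
    funext k
    exact h k k.2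

end tos

/-- linear maps into the dual from biadditive maps, general version: an inner map given on `U` -/
theorem sln_of_ext8 {V : Type} [AddCommGroup V] [Module (ZMod 2) V] [Finite V] (S : QStruct)
    (e : Multiplicative V ≃* S.G) (R : FS V)
    (hR : ∀ k : Fm V, k ∈ R ↔ ∀ a b, S.q (e (Multiplicative.ofAdd a)) (e (Multiplicative.ofAdd b)) = S.zero →
      k a b = 0) (hE : Ext8 S) : SLn R 3 := by
  classical
  intro U b hU hb
  let U' : Subgroup S.G := (AddSubgroup.toSubgroup U.toAddSubgroup).map e.toMonoidHom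
  have hU' : ∀ v : V, e (Multiplicative.ofAdd v) ∈ U' ↔ v ∈ U := by
    intro v
    constructor
    · rintro ⟨x, hx, hxe⟩
      have : x = Multiplicative.ofAdd v := e.injective hxe
      rw [this] at hx
      exact hx
    · intro hv
      exact ⟨Multiplicative.ofAdd v, hv, rfl⟩
  have hcard : Nat.card U' ≤ 8 := by
    have h1 : Nat.card U' = Nat.card U := by
      apply Nat.card_congr
      refine (Equiv.ofBijective (fun u : U => (⟨e (Multiplicative.ofAdd (u : V)), (hU' _).2 u.2⟩ : U'))
        ⟨?_, ?_⟩).symm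
      · intro u u' h
        have := e.injective (congrArg Subtype.val h)
        exact Subtype.ext (Multiplicative.ofAdd.injective this)
      · rintro ⟨g, hg⟩
        obtain ⟨x, hx, rfl⟩ := hg
        exact ⟨⟨x.toAdd, hx⟩, rfl⟩
    rw [h1, card_eq]
    calc 2 ^ Module.finrank (ZMod 2) U ≤ 2 ^ 3 := Nat.pow_le_pow_right (by norm_num) hU
      _ = 8 := by norm_num
  let β : S.G → S.G → ZMod 2 := fun u v =>
    if h : (e.symm u).toAdd ∈ U then b ⟨(e.symm u).toAdd, h⟩ (e.symm v).toAdd else 0
  have hβ : ∀ (u : U) (v : V), β (e (Multiplicative.ofAdd (u : V))) (e (Multiplicative.ofAdd v)) = b u v := by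
    intro u v
    have h : (e.symm (e (Multiplicative.ofAdd (u : V)))).toAdd ∈ U := by
      rw [MulEquiv.symm_apply_apply]; exact u.2
    show (if h : (e.symm (e (Multiplicative.ofAdd (u : V)))).toAdd ∈ U then
      b ⟨(e.symm (e (Multiplicative.ofAdd (u : V)))).toAdd, h⟩
        (e.symm (e (Multiplicative.ofAdd v))).toAdd else 0) = _
    rw [dif_pos h]
    simp only [MulEquiv.symm_apply_apply]
    rfl
  have hrep : ∀ g : S.G, ∃ v : V, e (Multiplicative.ofAdd v) = g := fun g =>
    ⟨(e.symm g).toAdd, by rw [ofAdd_toAdd, MulEquiv.apply_symm_apply]⟩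
  have b1 : ∀ u ∈ U', ∀ u' ∈ U', ∀ v, β (u * u') v = β u v + β u' v := by
    intro u hu u' hu' v
    obtain ⟨x, rfl⟩ := hrep u
    obtain ⟨x', rfl⟩ := hrep u'
    obtain ⟨y, rfl⟩ := hrep v
    have hx := (hU' x).1 hu
    have hx' := (hU' x').1 hu'
    rw [← map_mul, ← ofAdd_add]
    rw [hβ ⟨x, hx⟩, hβ ⟨x', hx'⟩, hβ ⟨x + x', U.add_mem hx hx'⟩]
    have : (⟨x + x', U.add_mem hx hx'⟩ : U) = ⟨x, hx⟩ + ⟨x', hx'⟩ := rfl
    rw [this, map_add]; rfl
  have b2 : ∀ u ∈ U', ∀ v v', β u (v * v') = β u v + β u v' := by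
    intro u hu v v'
    obtain ⟨x, rfl⟩ := hrep u
    obtain ⟨y, rfl⟩ := hrep v
    obtain ⟨y', rfl⟩ := hrep v'
    have hx := (hU' x).1 hu
    rw [← map_mul, ← ofAdd_add]
    rw [hβ ⟨x, hx⟩, hβ ⟨x, hx⟩, hβ ⟨x, hx⟩, map_add]
  have b3 : ∀ u ∈ U', ∀ v, S.q u v = S.zero → β u v = 0 := by
    intro u hu v h
    obtain ⟨x, rfl⟩ := hrep u
    obtain ⟨y, rfl⟩ := hrep v
    have hx := (hU' x).1 hu
    rw [hβ ⟨x, hx⟩]
    obtain ⟨k, hk, ek⟩ := hb ⟨x, hx⟩
    rw [← ek]
    exact (hR k).1 hk _ _ h
  obtain ⟨γ, g1, g2, g3, g4⟩ := hE U' hcard β b1 b2 b3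
  let k : Fm V := AddMonoidHom.toZModLinearMap 2
    (AddMonoidHom.mk' (fun x : V => (AddMonoidHom.toZModLinearMap 2
      (AddMonoidHom.mk' (fun y : V => γ (e (Multiplicative.ofAdd x)) (e (Multiplicative.ofAdd y)))
        (fun y y' => by rw [ofAdd_add, map_mul, g2])) : D V)) (by
      intro x x'
      apply LinearMap.ext
      intro y
      show γ (e (Multiplicative.ofAdd (x + x'))) _ = γ (e (Multiplicative.ofAdd x)) _ + γ (e (Multiplicative.ofAdd x')) _
      rw [ofAdd_add, map_mul, g1]))
  have hk : ∀ x y, k x y = γ (e (Multiplicative.ofAdd x)) (e (Multiplicative.ofAdd y)) := fun _ _ => rfl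
  refine ⟨k, (hR k).2 ?_, ?_⟩
  · intro x y h
    rw [hk]; exact g3 _ _ h
  · intro u
    apply LinearMap.ext
    intro y
    rw [hk, g4 _ ((hU' _).2 u.2), hβ]

/-- `P_1(2)` (a fortiori `P_1(3)`) implies linkage -/
theorem linked_of_sln {V : Type} [AddCommGroup V] [Module (ZMod 2) V] [Finite V] {R : FS V}
    (h : SLn R 3) : Linked R := by
  intro k hk k' hk' x x' hx
  obtain ⟨l, hl, h1, h2⟩ := linked_fx h 0 k ⟨hk, map_zero _⟩ k' ⟨hk', map_zero _⟩ x x' hx
  exact ⟨l, hl.1, h1, h2⟩

attribute [local instance] J1X.mdl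

/-- the Wu class of the form space of a structure -/
theorem isWu (S : QStruct) : IsWu (Additive.ofMul S.neg) (J1X.RR S) := by
  intro k hk x
  have h := hk x (Additive.ofMul S.neg + x) (S.qs1 _)
  rw [map_add] at h
  exact (CharTwo.add_eq_zero.1 h).symm

end J8X

open J8X

attribute [local instance] J1X.mdl

theorem j8_proof : Stmt_J8 := by
  classical
  intro H S hfin
  have hf : Finite (Additive S.G) := hfin
  -- all universal linked form spaces satisfy `P_1(3)`
  have HV : ∀ (V : Type) [AddCommGroup V] [Module (ZMod 2) V] [Finite V] (e : V) (R : FS V),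
      IsWu e R → Linked R → Univ e R → SLn R 3 := by
    intro V _ _ _ e R hA hL hU
    have hG : Finite (toS e R hA hL).G := (inferInstance : Finite V)
    refine sln_of_ext8 (V := V) (toS e R hA hL) (MulEquiv.refl (Multiplicative V)) R ?_
      (H (toS e R hA hL) hG)
    intro k
    constructor
    · intro hk a b hab
      exact (toS_q e R hA hL a b).1 hab k hk
    · intro hk
      apply hU k
      · intro x
        have h1 := hk x (e + x) ((toS_q e R hA hL x (e + x)).2 (fun l hl => by
          rw [map_add, ← hA l hl x]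
          exact ZModModule.add_self _))
        rw [map_add] at h1
        exact (CharTwo.add_eq_zero.1 h1).symm
      · intro x y hxy
        exact hk x y ((toS_q e R hA hL x y).2 hxy)
  have hA := isWu S
  have hS3 : SLn (J1X.RR S) 3 := by
    refine sln_of_ext8 S (V := Additive S.G)
      { toFun := fun x => (Multiplicative.toAdd x).toMul
        invFun := fun g => Multiplicative.ofAdd (Additive.ofMul g)
        left_inv := fun _ => rfl
        right_inv := fun _ => rfl
        map_mul' := fun _ _ => rfl } (J1X.RR S) ?_ (H S hfin)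
    intro k
    exact Iff.rfl
  have hL := linked_of_sln hS3
  have hU : Univ (Additive.ofMul S.neg) (J1X.RR S) := by
    intro k _ hk a b hab
    exact hk a b (fun l hl => hl a b hab)
  have hSL : SL (J1X.RR S) := sl_of_three HV _ _ _ (J1X.RR S) (Nat.lt_succ_self _) hA hL hU
  -- the extension property
  intro U β h1 h2 h3
  let U' : Submodule (ZMod 2) (Additive S.G) := AddSubgroup.toZModSubmodule 2 (Subgroup.toAddSubgroup U)
  have hU' : ∀ v : Additive S.G, v ∈ U' ↔ v.toMul ∈ U := fun v => Iff.rfl
  let b : U' →ₗ[ZMod 2] D (Additive S.G) := AddMonoidHom.toZModLinearMap 2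
    (AddMonoidHom.mk' (fun x : U' => (AddMonoidHom.toZModLinearMap 2
      (AddMonoidHom.mk' (fun y : Additive S.G => β (x : Additive S.G).toMul y.toMul)
        (fun y y' => h2 _ x.2 _ _)) : D (Additive S.G))) (by
      intro x x'
      apply LinearMap.ext
      intro y
      exact h1 _ x.2 _ x'.2 _))
  have hb : ∀ (u : U') y, b u y = β (u : Additive S.G).toMul y.toMul := fun _ _ => rfl
  obtain ⟨k, hk, hk'⟩ := hSL U' b (by
    intro u
    -- the subgroup generated by `u`
    have hz : ∀ g ∈ Subgroup.zpowers (u : Additive S.G).toMul, g ∈ U := by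
      intro g hg
      obtain ⟨n, rfl⟩ := hg
      exact U.zpow_mem u.2 n
    have hc : Nat.card (Subgroup.zpowers (u : Additive S.G).toMul) ≤ 8 := by
      rw [Nat.card_zpowers]
      have : orderOf (u : Additive S.G).toMul ∣ 2 := by
        apply orderOf_dvd_of_pow_eq_one
        rw [pow_two]; exact S.exp_two _
      exact (Nat.le_of_dvd (by norm_num) this).trans (by norm_num)
    obtain ⟨γ, g1, g2, g3, g4⟩ := H S hfin (Subgroup.zpowers (u : Additive S.G).toMul) hc β
      (fun x hx y hy v => h1 x (hz x hx) y (hz y hy) v)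
      (fun x hx v v' => h2 x (hz x hx) v v')
      (fun x hx v => h3 x (hz x hx) v)
    refine ⟨J1X.mk S γ g1 g2, ?_, ?_⟩
    · intro x y hxy
      rw [J1X.mk_apply]; exact g3 _ _ hxy
    · apply LinearMap.ext
      intro y
      rw [J1X.mk_apply, hb]
      exact g4 _ (Subgroup.mem_zpowers _) _)
  refine ⟨fun u v => k (Additive.ofMul u) (Additive.ofMul v), ?_, ?_, ?_, ?_⟩
  · intro u u' v
    show k (Additive.ofMul u + Additive.ofMul u') (Additive.ofMul v) = _
    rw [map_add]; rfl
  · intro u v v'
    show k (Additive.ofMul u) (Additive.ofMul v + Additive.ofMul v') = _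
    rw [map_add]
  · intro u v h
    exact hk _ _ h
  · intro u hu v
    have := hk' ⟨Additive.ofMul u, hu⟩
    show k (Additive.ofMul u) (Additive.ofMul v) = _
    rw [this, hb]; rfl

end Pool.Agent.ESG
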