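import Pool.Agent.ESG.Stmts

namespace Pool.Agent.ESG

open Pool.Agent.ESL

namespace RHO1X

variable {V : Type} [AddCommGroup V] [Module (ZMod 2) V] [Finite V]

theorem mem_range {φ : D V} {a b : Fm V} (h : LinearMap.ker a ⊔ LinearMap.ker b = ⊤)
    (he : rho φ = a + b) (ha : a ≠ 0) : φ ≠ 0 ∧ φ ∈ LinearMap.range a := by
  obtain ⟨x, hx⟩ : ∃ x, a x ≠ 0 := by
    by_contra hc
    push Not at hc
    exact ha (LinearMap.ext hc)
  have hx' : x ∈ LinearMap.ker a ⊔ LinearMap.ker b := by rw [h]; trivial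
  obtain ⟨s, hs, t, ht, rfl⟩ := Submodule.mem_sup.1 hx'
  rw [LinearMap.mem_ker] at hs ht
  rw [map_add, hs, zero_add] at hx
  have h1 : a t = φ t • φ := by
    rw [← rho_apply, he, LinearMap.add_apply, ht, add_zero]
  have h2 : φ t = 1 := by
    apply zm_ne
    intro h0
    rw [h0, zero_smul] at h1
    exact hx h1
  rw [h2, one_smul] at h1
  exact ⟨fun h0 => hx (h1.trans h0), ⟨t, h1⟩⟩

end RHO1X

theorem rho1_proof : Stmt_RHO1 := by
  intro V _ _ _ φ a b ha hb hd he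
  by_contra hc
  push Not at hc
  have h1 := ker_sup_top ha hb hd
  obtain ⟨h2, h3⟩ := RHO1X.mem_range h1 he hc.1
  obtain ⟨_, h4⟩ := RHO1X.mem_range (by rw [sup_comm]; exact h1) (by rw [he, add_comm]) hc.2
  have h5 := Submodule.disjoint_def.1 hd φ h3 h4
  exact h2 h5

end Pool.Agent.ESG
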